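import Pool.Agent.Lib.MP_db9bd2_nt.Cartier

/-! Pull-back of approximately exact forms under an explicit endomorphism. -/

namespace Pool.Agent.Lib.MP_db9bd2_nt

open Finset Polynomial

variable {R : Type} [CommRing R]

lemma Ex.add {m : R} {V W : R[X]} (h1 : Ex m V) (h2 : Ex m W) : Ex m (V + W) := by
  obtain ⟨B, H, rfl⟩ := h1
  obtain ⟨B', H', rfl⟩ := h2
  exact ⟨B + B', H + H', by rw [derivative_add]; ring⟩

lemma Ex.C_mul {m : R} {W : R[X]} (c : R) (h : Ex m W) : Ex m (C c * W) := by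
  obtain ⟨B, H, rfl⟩ := h
  exact ⟨C c * B, C c * H, by rw [derivative_C_mul]; ring⟩

lemma Ex.sum {m : R} (s : Finset ℕ) (f : ℕ → R[X]) (h : ∀ i ∈ s, Ex m (f i)) :
    Ex m (∑ i ∈ s, f i) := by
  refine Finset.sum_induction f (Ex m) (fun _ _ => Ex.add) ⟨0, 0, by simp⟩ h

lemma Ex.mul_pow {q : ℕ} {W : R[X]} (V : R[X]) (h : Ex (q : R) W) : Ex (q : R) (W * V ^ q) := by
  obtain ⟨B, H, rfl⟩ := h
  refine ⟨B * V ^ q, H * V ^ q - B * V ^ (q - 1) * derivative V, ?_⟩
  rw [derivative_mul, derivative_pow]; ring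

lemma Ex.coeff {m : R} {W : R[X]} (h : Ex m W) (i : ℕ) :
    ∃ x y : R, W.coeff i = (i + 1) * x + m * y := by
  obtain ⟨B, H, rfl⟩ := h
  exact ⟨B.coeff (i + 1), H.coeff i, by rw [coeff_add, coeff_derivative, coeff_C_mul]; ring⟩

lemma Ex.of_coeff {m : R} {W : R[X]} (h : ∀ i : ℕ, ∃ x y : R, W.coeff i = (i + 1) * x + m * y) :
    Ex m W := by
  rw [W.as_sum_range_C_mul_X_pow]
  apply Ex.sum
  intro i _
  obtain ⟨x, y, hxy⟩ := h i
  refine ⟨C x * X ^ (i + 1), C y * X ^ i, ?_⟩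
  rw [hxy, derivative_C_mul, derivative_X_pow_succ]
  simp only [map_add, map_mul, map_natCast, map_one]
  ring

lemma Ex.comp {m : R} {W : R[X]} (h : Ex m W) (u u' v : R) (hu : u * u' = 1) :
    Ex m (W.comp (C u * X + C v)) := by
  obtain ⟨B, H, rfl⟩ := h
  refine ⟨C u' * B.comp (C u * X + C v), H.comp (C u * X + C v), ?_⟩
  have e := congrArg (C : R → R[X]) hu
  rw [map_mul, map_one] at e
  rw [derivative_C_mul, derivative_comp, add_comp, mul_comp, C_comp, derivative_add,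
    derivative_C_mul, derivative_X, derivative_C]
  linear_combination (-(derivative B).comp (C u * X + C v)) * e

/-- Homogeneous substitution. -/
noncomputable def Hm (u v : R[X]) (m : ℕ) (W : R[X]) : R[X] :=
  ∑ i ∈ range (m + 1), C (W.coeff i) * (u ^ i * v ^ (m - i))

lemma Hm_add (u v : R[X]) (m : ℕ) (V W : R[X]) : Hm u v m (V + W) = Hm u v m V + Hm u v m W := by
  unfold Hm
  rw [← Finset.sum_add_distrib]
  exact Finset.sum_congr rfl fun i _ => by rw [coeff_add, C_add]; ring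

lemma Hm_C_mul (u v : R[X]) (m : ℕ) (c : R) (W : R[X]) :
    Hm u v m (C c * W) = C c * Hm u v m W := by
  unfold Hm
  rw [Finset.mul_sum]
  exact Finset.sum_congr rfl fun i _ => by rw [coeff_C_mul, C_mul]; ring

lemma Hm_X_mul (u v : R[X]) (m : ℕ) (W : R[X]) : Hm u v (m + 1) (X * W) = u * Hm u v m W := by
  unfold Hm
  rw [Finset.sum_range_succ', Finset.mul_sum]
  simp only [coeff_X_mul, mul_coeff_zero, coeff_X_zero, zero_mul, map_zero, add_zero]
  exact Finset.sum_congr rfl fun i _ => by rw [show m + 1 - (i + 1) = m - i by omega]; ring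

lemma Hm_succ (u v : R[X]) (m : ℕ) (W : R[X]) (h : W.natDegree ≤ m) :
    Hm u v (m + 1) W = v * Hm u v m W := by
  unfold Hm
  rw [Finset.sum_range_succ, coeff_eq_zero_of_natDegree_lt (by omega : W.natDegree < m + 1),
    Finset.mul_sum]
  simp only [map_zero, zero_mul, add_zero]
  refine Finset.sum_congr rfl fun i hi => ?_
  rw [mem_range] at hi
  rw [show m + 1 - i = m - i + 1 by omega]; ring

lemma Hm_cubic (u v : R[X]) (a b c : R) (N : ℕ) :
    ((X - C c) * (X ^ 3 + C a * X + C b) ^ N).natDegree ≤ 3 * N + 1 ∧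
    Hm u v (3 * N + 1) ((X - C c) * (X ^ 3 + C a * X + C b) ^ N) =
      (u - C c * v) * (u ^ 3 + C a * u * v ^ 2 + C b * v ^ 3) ^ N := by
  induction N with
  | zero =>
    constructor
    · simp only [pow_zero, mul_one]; compute_degree
    · simp [Hm, Finset.sum_range_succ, coeff_X, coeff_C]; ring
  | succ N ih =>
    obtain ⟨h1, h2⟩ := ih
    obtain ⟨W, hW⟩ : ∃ W, W = (X - C c) * (X ^ 3 + C a * X + C b) ^ N := ⟨_, rfl⟩
    rw [← hW] at h1 h2
    have e : (X - C c) * (X ^ 3 + C a * X + C b) ^ (N + 1) =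
        X * (X * (X * W)) + C a * (X * W) + C b * W := by rw [hW]; ring
    constructor
    · rw [pow_succ, ← mul_assoc, ← hW]
      have := natDegree_mul_le (p := W) (q := X ^ 3 + C a * X + C b)
      have : (X ^ 3 + C a * X + C b : R[X]).natDegree ≤ 3 := by compute_degree
      omega
    · rw [e, show 3 * (N + 1) + 1 = 3 * N + 1 + 1 + 1 + 1 by ring, Hm_add, Hm_add, Hm_C_mul,
        Hm_C_mul, Hm_X_mul, Hm_X_mul, Hm_X_mul, Hm_X_mul,
        Hm_succ _ _ (3 * N + 1 + 1 + 1) W (by omega), Hm_succ _ _ (3 * N + 1 + 1) W (by omega),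
        Hm_succ _ _ (3 * N + 1) W h1, h2]
      ring

theorem cm_pull (a b β s2 c : R) (Q D N2 E : R[X]) (hQ : Q = X ^ 3 + C a * X + C b)
    (hN : N2 = (41 * X - C s2) * D ^ 2 - 2 * derivative Q * derivative D * D +
      4 * Q * (derivative D ^ 2 - D * derivative (derivative D)))
    (hE : E = derivative N2 * D - 2 * N2 * derivative D)
    (hc : Q * E ^ 2 = N2 ^ 3 + C a * N2 * (C β * D ^ 2) ^ 2 + C b * (C β * D ^ 2) ^ 3)
    (N : ℕ) (h : Ex ((2 * N + 1 : ℕ) : R) ((X - C c) * Q ^ N)) :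
    Ex ((2 * N + 1 : ℕ) : R) (C (41 * c - s2 - β * c) * (Q ^ N * (E * D ^ 2) ^ (2 * N + 1))) := by
  have h1 := (Hm_cubic N2 (C β * D ^ 2) a b c N).2
  rw [← hQ, ← hc] at h1
  have h2 : Ex ((2 * N + 1 : ℕ) : R)
      (Hm N2 (C β * D ^ 2) (3 * N + 1) ((X - C c) * Q ^ N) * (E * D ^ (4 * N))) := by
    unfold Hm
    rw [Finset.sum_mul]
    apply Ex.sum
    intro i hi
    rw [mem_range] at hi
    obtain ⟨x, y, hxy⟩ := h.coeff i
    obtain ⟨j, hj⟩ : ∃ j, 3 * N + 1 = i + j := ⟨3 * N + 1 - i, by omega⟩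
    have hj' : (3 * N + 1 : R[X]) = i + j := by exact_mod_cast congrArg (Nat.cast : ℕ → R[X]) hj
    rw [hxy, show 3 * N + 1 - i = j by omega]
    refine ⟨C (x * β ^ j) * (N2 ^ (i + 1) * D ^ (2 * j + 4 * N + 1)),
      C y * (N2 ^ i * (C β * D ^ 2) ^ j) * (E * D ^ (4 * N)) -
        5 * C (x * β ^ j) * N2 ^ (i + 1) * D ^ (2 * j + 4 * N) * derivative D, ?_⟩
    rw [derivative_C_mul, derivative_mul, derivative_pow_succ, derivative_pow_succ, hE]
    simp only [map_add, map_mul, map_pow, map_natCast, map_one, Nat.cast_add, Nat.cast_mul,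
      Nat.cast_ofNat, Nat.cast_one, map_ofNat]
    linear_combination 2 * C x * C β ^ j * N2 ^ (i + 1) * D ^ (2 * j + 4 * N) * derivative D * hj'
  rw [h1] at h2
  have h3 : Ex ((2 * N + 1 : ℕ) : R) ((N2 - (41 * X - C s2) * D ^ 2) *
      (Q ^ N * E ^ (2 * N + 1) * D ^ (4 * N))) := by
    refine ⟨-4 * (derivative D * Q ^ (N + 1) * E ^ (2 * N + 1) * D ^ (4 * N + 1)),
      2 * derivative D * Q ^ N * derivative Q * E ^ (2 * N + 1) * D ^ (4 * N + 1) +
      4 * derivative D * Q ^ (N + 1) * E ^ (2 * N) * derivative E * D ^ (4 * N + 1) +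
      8 * derivative D ^ 2 * Q ^ (N + 1) * E ^ (2 * N + 1) * D ^ (4 * N), ?_⟩
    have e4 : (-4 : R[X]) = C (-4) := by simp [map_ofNat]
    rw [e4, derivative_C_mul, ← e4, derivative_mul, derivative_mul, derivative_mul,
      derivative_pow_succ, derivative_pow_succ, derivative_pow_succ]
    simp only [map_add, map_mul, map_natCast, map_one, Nat.cast_add, Nat.cast_mul,
      Nat.cast_ofNat, Nat.cast_one, map_ofNat]
    linear_combination (Q ^ N * E ^ (2 * N + 1) * D ^ (4 * N)) * hN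
  have h4 := (h2.add (h3.C_mul (-1))).add ((h.mul_pow (E * D ^ 2)).C_mul (-41))
  have e : C (41 * c - s2 - β * c) * (Q ^ N * (E * D ^ 2) ^ (2 * N + 1)) =
      (N2 - C c * (C β * D ^ 2)) * (Q * E ^ 2) ^ N * (E * D ^ (4 * N)) +
        C (-1) * ((N2 - (41 * X - C s2) * D ^ 2) * (Q ^ N * E ^ (2 * N + 1) * D ^ (4 * N))) +
        C (-41) * ((X - C c) * Q ^ N * (E * D ^ 2) ^ (2 * N + 1)) := by
    simp only [map_sub, map_mul, map_neg, map_one, map_ofNat]
    ring
  rw [e]; exact h4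

lemma exists_coeff_ne {k : Type} [Field k] {p s N : ℕ} [Fact p.Prime] [CharP k p]
    (hq : p ^ s = 2 * N + 1) (hN : 1 ≤ N) (P V : k[X]) (hP : P.natDegree ≤ 3 * N)
    (h0 : P.coeff (2 * N) ≠ 0) (hV : V ≠ 0) :
    ∃ j, (P * V ^ p ^ s).coeff (p ^ s * j + 2 * N) ≠ 0 := by
  have hq0 : p ^ s ≠ 0 := by omega
  refine ⟨V.natDegree, ?_⟩
  rw [← map_iterateFrobenius_expand p V s, map_expand, ← coeff_Ca hq, Ca_mul_expand hq0,
    eq_C_of_natDegree_le_zero (natDegree_Ca hq 0 hN P (by omega)), coeff_C_mul, coeff_Ca hq,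
    mul_zero, zero_add, coeff_map, iterateFrobenius_def]
  exact mul_ne_zero h0 (pow_ne_zero _ (leadingCoeff_ne_zero.2 hV))

theorem dvd_of_ex [IsLocalRing R] {p s N : ℕ} (hp : p.Prime) (hpu : ¬ IsUnit (p : R))
    (hq : p ^ s = 2 * N + 1) (γ : R) (P V : R[X]) (hP : P.natDegree ≤ 3 * N)
    (h0 : IsUnit (P.coeff (2 * N))) (hV : V.map (IsLocalRing.residue R) ≠ 0)
    (h : Ex ((2 * N + 1 : ℕ) : R) (C γ * (P * V ^ (2 * N + 1)))) : (p : R) ^ s ∣ γ := by
  have : Fact p.Prime := ⟨hp⟩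
  rcases Nat.eq_zero_or_pos N with rfl | hN
  · have : (p : R) ^ s = 1 := by simpa using congrArg (Nat.cast : ℕ → R) hq
    rw [this]; exact one_dvd _
  have hch : CharP (IsLocalRing.ResidueField R) p := by
    rw [CharP.charP_iff_prime_eq_zero hp, ← map_natCast (IsLocalRing.residue R)]
    by_contra hc
    exact hpu ((IsLocalRing.residue_ne_zero_iff_isUnit _).1 hc)
  obtain ⟨j, hj⟩ := exists_coeff_ne hq hN (P.map (IsLocalRing.residue R))
    (V.map (IsLocalRing.residue R)) (natDegree_map_le.trans hP)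
    (by rw [coeff_map]; exact (IsLocalRing.residue_ne_zero_iff_isUnit _).2 h0) hV
  rw [← Polynomial.map_pow, ← Polynomial.map_mul, coeff_map,
    IsLocalRing.residue_ne_zero_iff_isUnit] at hj
  obtain ⟨x, y, hxy⟩ := h.coeff (p ^ s * j + 2 * N)
  rw [coeff_C_mul, ← hq] at hxy
  rw [← hj.dvd_mul_right, hxy]
  have hq' : (p : R) ^ s = 2 * N + 1 := by exact_mod_cast congrArg (Nat.cast : ℕ → R) hq
  refine ⟨(j + 1) * x + y, ?_⟩
  push_cast
  linear_combination (-x) * hq'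

end Pool.Agent.Lib.MP_db9bd2_nt
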