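import Mathlib

/-! Frobenius congruences modulo `p` in an arbitrary commutative ring. -/

namespace Pool.Agent.Lib.MP_db9bd2_nt

variable {R : Type} [CommRing R]

/-- `x ^ p` is congruent to `y` modulo `p`. -/
def Fr (p : ℕ) (x y : R) : Prop := (p : R) ∣ x ^ p - y

lemma Fr.pow_self (p : ℕ) (x : R) : Fr p x (x ^ p) := by simp [Fr]

lemma Fr.add {p : ℕ} (hp : p.Prime) {x y x' y' : R} (h1 : Fr p x x') (h2 : Fr p y y') :
    Fr p (x + y) (x' + y') := by
  obtain ⟨r, hr⟩ := exists_add_pow_prime_eq hp x y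
  obtain ⟨a, ha⟩ := h1
  obtain ⟨b, hb⟩ := h2
  exact ⟨a + b + x * y * r, by linear_combination hr + ha + hb⟩

lemma Fr.mul {p : ℕ} {x y x' y' : R} (h1 : Fr p x x') (h2 : Fr p y y') :
    Fr p (x * y) (x' * y') := by
  obtain ⟨a, ha⟩ := h1
  obtain ⟨b, hb⟩ := h2
  exact ⟨a * y ^ p + x' * b, by rw [mul_pow]; linear_combination y ^ p * ha + x' * hb⟩

lemma Fr.intCast {p : ℕ} (hp : p.Prime) (n : ℤ) : Fr p (n : R) (n : R) := by
  obtain ⟨a, ha⟩ := Int.prime_dvd_pow_self_sub hp n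
  have := congrArg (Int.cast : ℤ → R) ha
  push_cast at this
  exact ⟨a, this⟩

lemma Fr.natCast {p : ℕ} (hp : p.Prime) (n : ℕ) : Fr p (n : R) (n : R) := by
  simpa using Fr.intCast (R := R) hp n

lemma Fr.neg {p : ℕ} (hp : p.Prime) {x x' : R} (h : Fr p x x') : Fr p (-x) (-x') := by
  simpa using (Fr.intCast (R := R) hp (-1)).mul h

lemma Fr.sub {p : ℕ} (hp : p.Prime) {x y x' y' : R} (h1 : Fr p x x') (h2 : Fr p y y') :
    Fr p (x - y) (x' - y') := by
  rw [sub_eq_add_neg, sub_eq_add_neg]; exact h1.add hp (h2.neg hp)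

lemma Fr.pow {p : ℕ} {x x' : R} (h : Fr p x x') (n : ℕ) : Fr p (x ^ n) (x' ^ n) := by
  induction n with
  | zero => simp [Fr]
  | succ n ih => rw [pow_succ, pow_succ]; exact ih.mul h

lemma Fr.congr {p : ℕ} {x y y' : R} (h : Fr p x y) (h' : (p : R) ∣ y - y') : Fr p x y' := by
  have := dvd_add h h'
  rwa [sub_add_sub_cancel] at this

lemma Fr.aeval {p : ℕ} (hp : p.Prime) {x x' : R} (h : Fr p x x') (P : Polynomial ℤ) :
    Fr p (Polynomial.aeval x P) (Polynomial.aeval x' P) := by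
  induction P using Polynomial.induction_on' with
  | add P Q h1 h2 => rw [map_add, map_add]; exact h1.add hp h2
  | monomial n a =>
    rw [Polynomial.aeval_monomial, Polynomial.aeval_monomial]
    exact (Fr.intCast hp a).mul (h.pow n)

lemma Fr.isUnit [IsLocalRing R] {p : ℕ} (hpu : ¬ IsUnit (p : R)) {x y : R}
    (h : Fr p x y) (hx : IsUnit x) : IsUnit y := by
  obtain ⟨a, ha⟩ := h
  have h1 : IsUnit (y + p * a) := by
    rw [show y + p * a = x ^ p by linear_combination -ha]; exact hx.pow p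
  rcases IsLocalRing.isUnit_or_isUnit_of_isUnit_add h1 with h2 | h2
  · exact h2
  · exact absurd (isUnit_of_mul_isUnit_left h2) hpu

end Pool.Agent.Lib.MP_db9bd2_nt
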