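import Pool.Agent.Lib.MP_db9bd2_nt.Cov
import Pool.Agent.Lib.MP_db9bd2_nt.Frob

/-! The Cartier operator on powers of the cubic `X^3 + X^2 - 64 z`. -/

namespace Pool.Agent.Lib.MP_db9bd2_nt

open Finset Polynomial

variable {R : Type} [CommRing R]

/-- `W` is a derivative modulo `m`. -/
def Ex (m : R) (W : R[X]) : Prop := ∃ B H : R[X], W = derivative B + C m * H

lemma reduce_step [Nontrivial R] (Q U V : R[X]) (Δ : R) (hQ : Q.Monic) (hd : Q.natDegree = 3)
    (hb : C Δ = U * Q + V * derivative Q) (r : ℕ) (A : R[X]) (hA : A.natDegree ≤ 3 * r + 4) :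
    ∃ U' V' : R[X], U'.natDegree ≤ 3 * r + 1 ∧ V'.natDegree ≤ 2 ∧
      C Δ * A = U' * Q + V' * derivative Q := by
  have hQ1 : Q ≠ 1 := by rintro rfl; simp at hd
  have h1 := natDegree_modByMonic_lt (A * V) hQ hQ1
  have h2 := modByMonic_add_div (A * V) Q
  have h3 : C Δ * A = (A * U + (A * V /ₘ Q) * derivative Q) * Q +
      (A * V %ₘ Q) * derivative Q := by
    rw [hb]; linear_combination (-derivative Q) * h2
  refine ⟨_, _, ?_, by omega, h3⟩
  set U' := A * U + (A * V /ₘ Q) * derivative Q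
  by_cases h0 : U' = 0
  · rw [h0]; simp
  have h4 : Q * U' = C Δ * A - (A * V %ₘ Q) * derivative Q := by rw [h3]; ring
  have h5 := hQ.natDegree_mul' h0
  have h6 : (C Δ * A).natDegree ≤ 3 * r + 4 := (natDegree_C_mul_le _ _).trans hA
  have h7 : ((A * V %ₘ Q) * derivative Q).natDegree ≤ 3 * r + 4 := by
    have := natDegree_mul_le (p := A * V %ₘ Q) (q := derivative Q)
    have := natDegree_derivative_le Q
    omega
  have h8 := natDegree_sub_le (C Δ * A) ((A * V %ₘ Q) * derivative Q)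
  rw [← h4] at h8
  omega

lemma reduce [Nontrivial R] (Q U V : R[X]) (Δ i2 : R) (hi : 2 * i2 = 1) (hQ : Q.Monic)
    (hd : Q.natDegree = 3) (hb : C Δ = U * Q + V * derivative Q) (r : ℕ) (A : R[X])
    (hA : A.natDegree ≤ 3 * r + 1) :
    ∃ l m : R, ∀ n : ℕ, Ex (2 * n + 1 : R)
      (C ((n.descFactorial r : R) * Δ ^ r) * A * Q ^ (n - r) - (C l + C m * X) * Q ^ n) := by
  induction r generalizing A with
  | zero =>
    refine ⟨A.coeff 0, A.coeff 1, fun n => ⟨0, 0, ?_⟩⟩
    have := eq_X_add_C_of_natDegree_le_one (p := A) (by omega)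
    simp only [Nat.descFactorial_zero, Nat.cast_one, pow_zero, mul_one, map_one, one_mul,
      Nat.sub_zero, derivative_zero, mul_zero, add_zero]
    linear_combination Q ^ n * this
  | succ r ih =>
    obtain ⟨U', V', h1, h2, h3⟩ := reduce_step Q U V Δ hQ hd hb r A (by omega)
    have h4 : (C (-i2 - r) * U' - derivative V').natDegree ≤ 3 * r + 1 := by
      refine (natDegree_sub_le _ _).trans (max_le ((natDegree_C_mul_le _ _).trans h1) ?_)
      have := natDegree_derivative_le V'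
      omega
    obtain ⟨l, m, hlm⟩ := ih _ h4
    refine ⟨l, m, fun n => ?_⟩
    obtain ⟨B, H, hBH⟩ := hlm n
    rcases lt_or_ge n r with hn | hn
    · refine ⟨B, H, ?_⟩
      rw [Nat.descFactorial_of_lt hn] at hBH
      rw [Nat.descFactorial_of_lt (by omega : n < r + 1), ← hBH]
      simp
    · obtain ⟨j, rfl⟩ : ∃ j, n = r + j := ⟨n - r, by omega⟩
      rw [show r + j - r = j by omega] at hBH
      rw [Nat.descFactorial_succ, show r + j - r = j by omega, show r + j - (r + 1) = j - 1 by omega]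
      set c := C (((r + j).descFactorial r : R) * Δ ^ r) with hc
      have e1 : C ((((j * (r + j).descFactorial r : ℕ) : R)) * Δ ^ (r + 1)) =
          c * (j : R[X]) * C Δ := by
        rw [hc, ← C_eq_natCast, ← C_mul, ← C_mul]; congr 1; push_cast; ring
      have e2 : (j : R[X]) * Q ^ (j - 1) * Q = j * Q ^ j := by
        rcases j with _ | j
        · simp
        · rw [Nat.add_sub_cancel, pow_succ]; ring
      have e3 := derivative_pow Q j
      rw [C_eq_natCast] at e3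
      have e4 : derivative (c * (V' * Q ^ j)) =
          c * (derivative V' * Q ^ j + V' * ((j : R[X]) * Q ^ (j - 1) * derivative Q)) := by
        rw [hc, derivative_C_mul, derivative_mul, e3]
      have e5 : (2 : R[X]) * C i2 = 1 := by
        rw [← C_1, ← hi, C_mul]; rfl
      refine ⟨B + c * (V' * Q ^ j), H + C i2 * c * U' * Q ^ j, ?_⟩
      rw [e1, derivative_add, e4]
      simp only [map_add, map_mul, map_sub, map_neg, map_natCast, map_one, map_ofNat,
        Nat.cast_add] at hBH ⊢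
      linear_combination hBH + c * (j : R[X]) * Q ^ (j - 1) * h3 + c * U' * e2 -
        c * U' * Q ^ j * ((r : R[X]) + j) * e5

/-- The Cartier operator. -/
noncomputable def Ca (p : ℕ) (W : R[X]) : R[X] := divX (contract p (X * W))

lemma coeff_Ca {p h : ℕ} (hp : p = 2 * h + 1) (W : R[X]) (i : ℕ) :
    (Ca p W).coeff i = W.coeff (p * i + 2 * h) := by
  unfold Ca
  rw [coeff_divX, coeff_contract (by omega),
    show (i + 1) * p = p * i + 2 * h + 1 by rw [hp]; ring, coeff_X_mul]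

lemma X_mul_Ca {p : ℕ} (hp : p ≠ 0) (W : R[X]) : X * Ca p W = contract p (X * W) := by
  have := X_mul_divX_add (contract p (X * W))
  rw [coeff_contract hp] at this
  simpa [Ca] using this

lemma Ca_mul_expand {p : ℕ} (hp : p ≠ 0) (W Y : R[X]) :
    Ca p (W * expand R p Y) = Ca p W * Y := by
  apply isRegular_X.left
  simp only
  rw [X_mul_Ca hp, ← mul_assoc, ← mul_assoc, X_mul_Ca hp, contract_mul_expand hp]

lemma natDegree_Ca {p h : ℕ} (hp : p = 2 * h + 1) (r : ℕ) (hh : 1 ≤ h) (W : R[X])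
    (hW : W.natDegree ≤ 1 + 3 * h + 3 * p * r) : (Ca p W).natDegree ≤ 3 * r := by
  rw [natDegree_le_iff_coeff_eq_zero]
  intro i hi
  rw [coeff_Ca hp]
  apply coeff_eq_zero_of_natDegree_lt
  have : p * (3 * r + 1) ≤ p * i := Nat.mul_le_mul_left _ hi
  nlinarith

lemma trunc_binom (a b : R) (n M : ℕ) :
    ∃ E, (b + a) ^ n = ∑ r ∈ range M, b ^ r * a ^ (n - r) * n.choose r + b ^ M * E := by
  have h1 : ∑ r ∈ range (n + 1 + M), b ^ r * a ^ (n - r) * n.choose r = (b + a) ^ n := by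
    rw [add_pow, Finset.sum_range_add]
    rw [Finset.sum_eq_zero (s := range M), add_zero]
    intro r _
    rw [Nat.choose_eq_zero_of_lt (by omega)]; simp
  refine ⟨∑ r ∈ range (n + 1), b ^ r * a ^ (n - (M + r)) * n.choose (M + r), ?_⟩
  rw [← h1, add_comm (n + 1) M, Finset.sum_range_add, Finset.mul_sum]
  congr 1
  apply Finset.sum_congr rfl
  intro r _
  ring

lemma exists_pi {p : ℕ} (H : PRing p R) (r : ℕ) :
    ∃ π : R, ((r + 1).factorial : R) * (p * π) = (p : R) ^ (r + 1) := by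
  have : Fact p.Prime := ⟨H.prime⟩
  obtain ⟨e, u, hu, he⟩ := Nat.exists_eq_pow_mul_and_not_dvd (Nat.factorial_ne_zero (r + 1)) p
    H.prime.ne_one
  have h1 : e ≤ padicValNat p (r + 1).factorial :=
    (padicValNat_dvd_iff_le (Nat.factorial_ne_zero _)).1 ⟨u, he⟩
  have h2 := padicValNat_factorial_lt_of_ne_zero (p := p) (n := r + 1) (by omega)
  obtain ⟨v, hv⟩ := (H.unit u hu).exists_right_inv
  obtain ⟨d, rfl⟩ : ∃ d, r = e + d := ⟨r - e, by omega⟩
  refine ⟨p ^ d * v, ?_⟩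
  rw [he]
  push_cast
  linear_combination (p : R) ^ (e + d + 1) * hv

/-- The cubic. -/
noncomputable def Qz (z : R) : R[X] := X ^ 3 + X ^ 2 - C (64 * z)

/-- Its discriminant, up to sign. -/
def Dl (z : R) : R := -256 * (z * (1 - 432 * z))

lemma Qz_monic (z : R) : (Qz z).Monic := by
  nontriviality R
  unfold Qz; monicity!

lemma Qz_natDegree [Nontrivial R] (z : R) : (Qz z).natDegree = 3 := by
  unfold Qz; compute_degree!

lemma Qz_bezout (z : R) : C (Dl z) = (6 * X + 4 - 1728 * C z) * Qz z +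
    (-2 * X ^ 2 - (2 - 576 * C z) * X + 192 * C z) * derivative (Qz z) := by
  have : derivative (Qz z) = 3 * X ^ 2 + 2 * X := by
    unfold Qz
    simp only [derivative_sub, derivative_add, derivative_X_pow, derivative_C]
    simp only [Nat.cast_ofNat, map_ofNat]
    ring
  rw [this]
  unfold Qz Dl
  simp only [map_mul, map_sub, map_neg, map_ofNat, map_one]
  ring

lemma Qz_map {S : Type} [CommRing S] (φ : R →+* S) (z : R) : (Qz z).map φ = Qz (φ z) := by
  unfold Qz
  simp [map_ofNat]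

lemma Qz_fr {p : ℕ} (hp : p.Prime) (z : R) : Fr p (Qz z) (expand R p (Qz (z ^ p))) := by
  unfold Qz
  simp only [map_sub, map_add, map_mul, map_pow, expand_X, expand_C, map_ofNat]
  have h2 := Fr.natCast (R := R[X]) hp 64
  push_cast at h2
  exact (((Fr.pow_self p X).pow 3).add hp ((Fr.pow_self p X).pow 2)).sub hp
    (h2.mul (Fr.pow_self p (C z)))

theorem cartier_aux [IsDomain R] {p h : ℕ} (hp : p = 2 * h + 1) (H : PRing p R) (M : ℕ)
    (A Q Q1 G U V : R[X]) (Δ : R) (hA : A.natDegree ≤ 1) (hQ : Q.natDegree ≤ 3) (hm : Q1.Monic)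
    (hd : Q1.natDegree = 3) (hb : C Δ = U * Q1 + V * derivative Q1)
    (hG : Q ^ p - expand R p Q1 = p * G) :
    ∃ k1 k2 : R, (p : R) ∣ k2 ∧ (p : R) ∣ k1 - Δ ^ (M + 1) * (A * Q ^ h).coeff (2 * h) ∧
      ∀ n i : ℕ, ∃ b c e : R, Δ ^ (M + 1) * (A * Q ^ (p * n + h)).coeff (p * i + 2 * h) =
        k1 * (Q1 ^ n).coeff i + k2 * (X * Q1 ^ n).coeff i +
        (p : R) * ((i + 1) * b + (2 * n + 1) * c) + (p : R) ^ (M + 1) * e := by
  have hh : 1 ≤ h := by have := H.prime.two_le; omega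
  have hp0 := H.prime.ne_zero
  have hGd : G.natDegree ≤ 3 * p := by
    have h1 : ((p : R[X]) * G).natDegree = G.natDegree := by
      rw [← C_eq_natCast, natDegree_C_mul H.ne]
    rw [← h1, ← hG]
    refine (natDegree_sub_le _ _).trans (max_le ?_ ?_)
    · refine natDegree_pow_le.trans ?_
      rw [mul_comm 3 p]; exact Nat.mul_le_mul_left _ hQ
    · rw [natDegree_expand, hd]
  have hW : ∀ r, (Ca p (A * Q ^ h * G ^ r)).natDegree ≤ 3 * r := by
    intro r
    apply natDegree_Ca hp r hh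
    have h1 := natDegree_mul_le (p := A * Q ^ h) (q := G ^ r)
    have h2 := natDegree_mul_le (p := A) (q := Q ^ h)
    have h3 : (Q ^ h).natDegree ≤ h * 3 := natDegree_pow_le.trans (Nat.mul_le_mul_left _ hQ)
    have h4 := natDegree_pow_le (p := G) (n := r)
    have h5 : r * G.natDegree ≤ r * (3 * p) := Nat.mul_le_mul_left _ hGd
    nlinarith
  obtain ⟨i2, hi2⟩ := (H.unit 2 (fun hd => by
    have := Nat.le_of_dvd two_pos hd; omega)).exists_right_inv
  push_cast at hi2
  have main : ∀ t, t ≤ M → ∃ k1 k2 : R, ∀ n : ℕ, ∃ B E : R[X],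
      C Δ ^ (M + 1) * ∑ r ∈ range t, (p : R[X]) ^ (r + 1) * (n.choose (r + 1) : R[X]) *
        (Ca p (A * Q ^ h * G ^ (r + 1)) * Q1 ^ (n - (r + 1))) =
      (p : R[X]) * ((C k1 + C k2 * X) * Q1 ^ n + derivative B + (2 * (n : R[X]) + 1) * E) := by
    intro t
    induction t with
    | zero => intro _; exact ⟨0, 0, fun n => ⟨0, 0, by simp⟩⟩
    | succ t ih =>
      intro ht
      obtain ⟨k1, k2, hk⟩ := ih (by omega)
      obtain ⟨l, m, hlm⟩ := reduce Q1 U V Δ i2 hi2 hm hd hb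
        (t + 1) _ ((hW (t + 1)).trans (Nat.le_succ _))
      obtain ⟨π, hπ⟩ := exists_pi H t
      obtain ⟨d, rfl⟩ : ∃ d, M = t + d := ⟨M - t, by omega⟩
      refine ⟨k1 + π * Δ ^ d * l, k2 + π * Δ ^ d * m, fun n => ?_⟩
      obtain ⟨B, E, hBE⟩ := hk n
      obtain ⟨B', E', hBE'⟩ := hlm n
      refine ⟨B + C (π * Δ ^ d) * B', E + C (π * Δ ^ d) * E', ?_⟩
      rw [Finset.sum_range_succ, mul_add, hBE, derivative_add, derivative_C_mul]
      rw [Nat.descFactorial_eq_factorial_mul_choose] at hBE'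
      have e1 := congrArg (C : R → R[X]) hπ
      simp only [map_add, map_mul, map_pow, map_natCast, map_one, map_ofNat,
        Nat.cast_mul] at hBE' e1 ⊢
      linear_combination (p : R[X]) * C π * C Δ ^ d * hBE' -
        C Δ ^ (t + d + 1) * (n.choose (t + 1) : R[X]) * Ca p (A * Q ^ h * G ^ (t + 1)) *
          Q1 ^ (n - (t + 1)) * e1
  obtain ⟨k1, k2, hk⟩ := main M le_rfl
  have h0 : Ca p (A * Q ^ h) = C ((A * Q ^ h).coeff (2 * h)) := by
    have := hW 0
    rw [pow_zero, mul_one] at this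
    rw [eq_C_of_natDegree_le_zero this, coeff_Ca hp, mul_zero, zero_add]
  refine ⟨Δ ^ (M + 1) * (A * Q ^ h).coeff (2 * h) + p * k1, p * k2, dvd_mul_right _ _,
    ⟨k1, by ring⟩, fun n i => ?_⟩
  obtain ⟨B, E, hBE⟩ := hk n
  obtain ⟨E', hE'⟩ := trunc_binom (expand R p Q1) ((p : R[X]) * G) n (M + 1)
  have e1 : A * Q ^ (p * n + h) = ∑ r ∈ range (M + 1), C ((p : R) ^ r * n.choose r) *
      (A * Q ^ h * G ^ r * expand R p (Q1 ^ (n - r))) +
      C ((p : R) ^ (M + 1)) * (A * Q ^ h * G ^ (M + 1) * E') := by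
    rw [pow_add, pow_mul, eq_add_of_sub_eq hG, hE', add_mul, mul_add, Finset.sum_mul,
      Finset.mul_sum]
    simp only [map_mul, map_pow, map_natCast]
    refine congrArg₂ (· + ·) (Finset.sum_congr rfl fun r _ => ?_) ?_
    · ring
    · ring
  have e2 : Ca p (A * Q ^ (p * n + h)) = ∑ r ∈ range (M + 1), (p : R[X]) ^ r * (n.choose r) *
      (Ca p (A * Q ^ h * G ^ r) * Q1 ^ (n - r)) +
      (p : R[X]) ^ (M + 1) * Ca p (A * Q ^ h * G ^ (M + 1) * E') := by
    ext j
    rw [coeff_Ca hp, e1, coeff_add, coeff_add, finsetSum_coeff, finsetSum_coeff, coeff_C_mul,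
      ← C_eq_natCast, ← C_pow, coeff_C_mul, coeff_Ca hp]
    refine congrArg₂ (· + ·) (Finset.sum_congr rfl fun r _ => ?_) rfl
    rw [coeff_C_mul, ← C_eq_natCast, ← C_pow, ← C_mul, coeff_C_mul, ← Ca_mul_expand hp0,
      coeff_Ca hp]
  have e3 : C (Δ ^ (M + 1)) * Ca p (A * Q ^ (p * n + h)) =
      C (Δ ^ (M + 1) * (A * Q ^ h).coeff (2 * h) + p * k1) * Q1 ^ n + C (p * k2) * (X * Q1 ^ n) +
      C (p : R) * (derivative B + C (2 * n + 1 : R) * E) +
      C ((p : R) ^ (M + 1)) * (C Δ ^ (M + 1) * Ca p (A * Q ^ h * G ^ (M + 1) * E')) := by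
    rw [e2, Finset.sum_range_succ', pow_zero, pow_zero, mul_one, h0]
    simp only [map_add, map_mul, map_pow, map_natCast, map_one, map_ofNat, Nat.choose_zero_right,
      Nat.cast_one, Nat.sub_zero]
    linear_combination hBE
  have e4 := congrArg (fun W => coeff W i) e3
  simp only [coeff_add, coeff_C_mul, coeff_derivative] at e4
  rw [coeff_Ca hp] at e4
  exact ⟨B.coeff (i + 1), E.coeff i,
    (C Δ ^ (M + 1) * Ca p (A * Q ^ h * G ^ (M + 1) * E')).coeff i, by linear_combination e4⟩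

/-- Coefficient of `Q^n`. -/
noncomputable def ca (z : R) (n i : ℕ) : R := (Qz z ^ n).coeff i

/-- Coefficient of `X Q^n`. -/
noncomputable def cb (z : R) (n i : ℕ) : R := (X * Qz z ^ n).coeff i

lemma map_ca {S : Type} [CommRing S] (φ : R →+* S) (z : R) (n i : ℕ) :
    φ (ca z n i) = ca (φ z) n i := by
  unfold ca; rw [← Qz_map, ← Polynomial.map_pow, coeff_map]

lemma map_cb {S : Type} [CommRing S] (φ : R →+* S) (z : R) (n i : ℕ) :
    φ (cb z n i) = cb (φ z) n i := by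
  unfold cb; rw [← Qz_map, ← Polynomial.map_pow, ← coeff_map, Polynomial.map_mul, map_X]

lemma map_Dl {S : Type} [CommRing S] (φ : R →+* S) (z : R) : φ (Dl z) = Dl (φ z) := by
  unfold Dl; simp [map_ofNat]

/-- The matrix of the Cartier operator modulo `p^(M+1)`. -/
structure CD (p h M : ℕ) (z k11 k12 k21 k22 : R) : Prop where
  d12 : (p : R) ∣ k12
  d22 : (p : R) ∣ k22
  d11 : (p : R) ∣ k11 - Dl (z ^ p) ^ (M + 1) * ca z h (2 * h)
  r1 : ∀ n i : ℕ, ∃ b c e : R, Dl (z ^ p) ^ (M + 1) * ca z (p * n + h) (p * i + 2 * h) =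
    k11 * ca (z ^ p) n i + k12 * cb (z ^ p) n i +
      (p : R) * ((i + 1) * b + (2 * n + 1) * c) + (p : R) ^ (M + 1) * e
  r2 : ∀ n i : ℕ, ∃ b c e : R, Dl (z ^ p) ^ (M + 1) * cb z (p * n + h) (p * i + 2 * h) =
    k21 * ca (z ^ p) n i + k22 * cb (z ^ p) n i +
      (p : R) * ((i + 1) * b + (2 * n + 1) * c) + (p : R) ^ (M + 1) * e

theorem exists_CD [IsDomain R] {p h : ℕ} (hp : p = 2 * h + 1) (H : PRing p R) (M : ℕ) (z : R) :
    ∃ k11 k12 k21 k22, CD p h M z k11 k12 k21 k22 := by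
  obtain ⟨G, hG⟩ := Qz_fr H.prime z
  obtain ⟨k11, k12, a1, a2, a3⟩ := cartier_aux hp H M 1 (Qz z) (Qz (z ^ p)) G _ _ _ (by simp)
    (Qz_natDegree z).le (Qz_monic _) (Qz_natDegree _) (Qz_bezout _) hG
  obtain ⟨k21, k22, b1, -, b3⟩ := cartier_aux hp H M X (Qz z) (Qz (z ^ p)) G _ _ _ (by simp)
    (Qz_natDegree z).le (Qz_monic _) (Qz_natDegree _) (Qz_bezout _) hG
  simp only [one_mul] at a2 a3
  exact ⟨k11, k12, k21, k22, a1, b1, a2, a3, b3⟩

theorem CD.map {S : Type} [CommRing S] (φ : R →+* S) {p h M : ℕ} {z k11 k12 k21 k22 : R}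
    (c : CD p h M z k11 k12 k21 k22) : CD p h M (φ z) (φ k11) (φ k12) (φ k21) (φ k22) := by
  refine ⟨?_, ?_, ?_, fun n i => ?_, fun n i => ?_⟩
  · simpa using map_dvd φ c.d12
  · simpa using map_dvd φ c.d22
  · simpa [map_ca, map_Dl] using map_dvd φ c.d11
  · obtain ⟨b, c', e, h1⟩ := c.r1 n i
    refine ⟨φ b, φ c', φ e, ?_⟩
    simpa [map_ca, map_cb, map_Dl, map_ofNat] using congrArg φ h1
  · obtain ⟨b, c', e, h1⟩ := c.r2 n i
    refine ⟨φ b, φ c', φ e, ?_⟩
    simpa [map_ca, map_cb, map_Dl, map_ofNat] using congrArg φ h1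

end Pool.Agent.Lib.MP_db9bd2_nt
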