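import Pool.Agent.Lib.MP_db9bd2_nt.Data
import Pool.Agent.Lib.MP_db9bd2_nt.CM

/-! Verification of the endomorphism of degree 41 of the curve with discriminant `-163`. -/

namespace Pool.Agent.Lib.MP_db9bd2_nt

open Polynomial

/-- Product in `ℤ[α]` with `α^2 = α - 41`. -/
def pm (x y : Z4) : Z4 :=
  ⟨Nat.add (Nat.add (Nat.mul x.a y.a) (Nat.mul x.b y.b))
      (Nat.mul 41 (Nat.add (Nat.mul x.c y.d) (Nat.mul x.d y.c))),
    Nat.add (Nat.add (Nat.mul x.a y.b) (Nat.mul x.b y.a))
      (Nat.mul 41 (Nat.add (Nat.mul x.c y.c) (Nat.mul x.d y.d))),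
    Nat.add (Nat.add (Nat.add (Nat.mul x.a y.c) (Nat.mul x.b y.d))
      (Nat.add (Nat.mul x.c y.a) (Nat.mul x.d y.b))) (Nat.add (Nat.mul x.c y.c) (Nat.mul x.d y.d)),
    Nat.add (Nat.add (Nat.add (Nat.mul x.a y.d) (Nat.mul x.b y.c))
      (Nat.add (Nat.mul x.c y.b) (Nat.mul x.d y.a))) (Nat.add (Nat.mul x.c y.d) (Nat.mul x.d y.c))⟩

/-- Sum of coefficient lists. -/
def ladd : List Z4 → List Z4 → List Z4
  | [], m => m
  | x :: l, [] => x :: l
  | x :: l, y :: m => ⟨Nat.add x.a y.a, Nat.add x.b y.b, Nat.add x.c y.c, Nat.add x.d y.d⟩ :: ladd l m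

/-- Scalar multiple of a coefficient list. -/
def lsc (c : Z4) : List Z4 → List Z4
  | [] => []
  | x :: l => pm c x :: lsc c l

/-- Product of coefficient lists. -/
def lmul : List Z4 → List Z4 → List Z4
  | [], _ => []
  | x :: l, m => ladd (lsc x m) (⟨0, 0, 0, 0⟩ :: lmul l m)

/-- Derivative of a coefficient list. -/
def lder : List Z4 → List Z4
  | [] => []
  | _ :: l => ladd l (⟨0, 0, 0, 0⟩ :: lder l)

/-- Negative of a coefficient list. -/
def lneg : List Z4 → List Z4
  | [] => []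
  | x :: l => ⟨x.b, x.a, x.d, x.c⟩ :: lneg l

/-- Test for zero. -/
def lz : List Z4 → Bool
  | [] => true
  | x :: l => Nat.beq x.a x.b && Nat.beq x.c x.d && lz l

/-- Test for equality. -/
def leq (l m : List Z4) : Bool := lz (ladd l (lneg m))

variable {R : Type} [CommRing R]

/-- Value of a pair. -/
def ev (α : R) (x : Z4) : R := (x.a - x.b) + (x.c - x.d) * α

/-- The polynomial with a given coefficient list. -/
noncomputable def toP (α : R) : List Z4 → R[X]
  | [] => 0
  | x :: l => C (ev α x) + X * toP α l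

lemma ev_pm {α : R} (hα : α ^ 2 = α - 41) (x y : Z4) : ev α (pm x y) = ev α x * ev α y := by
  simp only [ev, pm, Nat.add_eq, Nat.mul_eq]
  push_cast
  linear_combination (-((x.c : R) - x.d) * (y.c - y.d)) * hα

lemma toP_ladd (α : R) (l m : List Z4) : toP α (ladd l m) = toP α l + toP α m := by
  induction l generalizing m with
  | nil => simp [ladd, toP]
  | cons x l ih =>
    cases m with
    | nil => simp [ladd, toP]
    | cons y m =>
      simp only [ladd, toP, ih, ev, Nat.add_eq, Nat.cast_add, map_add, map_mul, map_sub]; ring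

lemma toP_lsc {α : R} (hα : α ^ 2 = α - 41) (c : Z4) (l : List Z4) :
    toP α (lsc c l) = C (ev α c) * toP α l := by
  induction l with
  | nil => simp [lsc, toP]
  | cons x l ih => simp only [lsc, toP, ih, ev_pm hα, map_mul]; ring

lemma ev_zero (α : R) : ev α ⟨0, 0, 0, 0⟩ = 0 := by simp [ev]

lemma toP_lmul {α : R} (hα : α ^ 2 = α - 41) (l m : List Z4) :
    toP α (lmul l m) = toP α l * toP α m := by
  induction l with
  | nil => simp [lmul, toP]
  | cons x l ih => simp only [lmul, toP, toP_ladd, toP_lsc hα, ih, ev_zero, map_zero]; ring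

lemma toP_lder (α : R) (l : List Z4) : toP α (lder l) = derivative (toP α l) := by
  induction l with
  | nil => simp [lder, toP]
  | cons x l ih =>
    simp only [lder, toP, toP_ladd, ih, ev_zero, map_zero, derivative_add, derivative_C,
      derivative_mul, derivative_X]
    ring

lemma toP_lz (α : R) (l : List Z4) (h : lz l = true) : toP α l = 0 := by
  induction l with
  | nil => rfl
  | cons x l ih =>
    simp only [lz, Bool.and_eq_true, Nat.beq_eq] at h
    simp [toP, ih h.2, ev, h.1.1, h.1.2]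

lemma toP_lneg (α : R) (l : List Z4) : toP α (lneg l) = -toP α l := by
  induction l with
  | nil => simp [lneg, toP]
  | cons x l ih => simp only [lneg, toP, ih, ev, map_add, map_mul, map_sub]; ring

lemma toP_leq (α : R) (l m : List Z4) (h : leq l m = true) : toP α l = toP α m := by
  have := toP_lz α _ h
  rw [toP_ladd, toP_lneg] at this
  linear_combination this

lemma coeff_toP (α : R) (l : List Z4) (i : ℕ) :
    (toP α l).coeff i = ev α (l.getD i ⟨0, 0, 0, 0⟩) := by
  induction l generalizing i with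
  | nil => simp [toP, ev]
  | cons x l ih =>
    cases i with
    | zero => simp [toP]
    | succ i => simp [toP, ih]

/-- The cubic. -/
def QL : List Z4 := [⟨78984748304, 0, 0, 0⟩, ⟨0, 34790720, 0, 0⟩, ⟨0, 0, 0, 0⟩, ⟨1, 0, 0, 0⟩]

lemma chk1 : leq D1L (lder DL) = true := by decide +kernel
lemma chk2 : leq D2L (lder D1L) = true := by decide +kernel
lemma chk3 : leq N1L (lder NL) = true := by decide +kernel
lemma chk4 : leq NL (ladd (ladd (lmul [⟨0, 237472, 2896, 0⟩, ⟨41, 0, 0, 0⟩] (lmul DL DL))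
    (lsc ⟨0, 2, 0, 0⟩ (lmul (lder QL) (lmul D1L DL))))
    (lsc ⟨4, 0, 0, 0⟩ (lmul QL (ladd (lmul D1L D1L) (lneg (lmul DL D2L)))))) = true := by
  decide +kernel
lemma chk5 : leq EL (ladd (lmul N1L DL) (lsc ⟨0, 2, 0, 0⟩ (lmul NL D1L))) = true := by decide +kernel
lemma chk6 : leq VL (lsc ⟨0, 41, 1, 0⟩ (lmul DL DL)) = true := by decide +kernel
lemma chk7 : leq V2L (lmul VL VL) = true := by decide +kernel
lemma chk8 : leq NsL (lmul NL NL) = true := by decide +kernel
lemma chk9 : leq EsL (lmul EL EL) = true := by decide +kernel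
lemma chk10 : leq (lmul QL EsL) (ladd (ladd (lmul NL NsL) (lsc ⟨0, 34790720, 0, 0⟩ (lmul NL V2L)))
    (lsc ⟨78984748304, 0, 0, 0⟩ (lmul VL V2L))) = true := by decide +kernel

lemma toP_QL (α : R) : toP α QL = X ^ 3 + C (-34790720) * X + C 78984748304 := by
  simp [QL, toP, ev]; ring

theorem cm_163 {α : R} (hα : α ^ 2 = α - 41) (c : R) (N : ℕ)
    (h : Ex ((2 * N + 1 : ℕ) : R) ((X - C c) * toP α QL ^ N)) :
    Ex ((2 * N + 1 : ℕ) : R) (C (α * (1 - 2 * α) * (c - 2896)) *
      (toP α QL ^ N * (toP α EL * toP α DL ^ 2) ^ (2 * N + 1))) := by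
  have e1 := toP_leq α _ _ chk1
  have e2 := toP_leq α _ _ chk2
  have e3 := toP_leq α _ _ chk3
  have e4 := toP_leq α _ _ chk4
  have e5 := toP_leq α _ _ chk5
  have e6 := toP_leq α _ _ chk6
  have e7 := toP_leq α _ _ chk7
  have e8 := toP_leq α _ _ chk8
  have e9 := toP_leq α _ _ chk9
  have e10 := toP_leq α _ _ chk10
  simp only [toP_ladd, toP_lsc hα, toP_lmul hα, toP_lder, toP_lneg] at e1 e2 e3 e4 e5 e6 e7 e8 e9 e10
  rw [e1] at e2
  rw [e1, e2] at e4
  rw [e1, e3] at e5
  rw [e9, e8, e7, e6] at e10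
  simp only [toP, ev, Nat.cast_ofNat, Nat.cast_one, Nat.cast_zero, zero_mul, sub_zero, zero_sub,
    add_zero, one_mul, mul_zero, map_add, map_neg, map_ofNat, map_mul] at e4 e5 e10
  have := cm_pull (-34790720) 78984748304 (α - 41) (237472 - 2896 * α) c (toP α QL) (toP α DL)
    (toP α NL) (toP α EL) (toP_QL α)
    (by simp only [map_sub, map_mul, map_ofNat]; linear_combination e4)
    (by linear_combination e5)
    (by simp only [map_sub, map_neg, map_ofNat]; linear_combination e10) N h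
  rwa [show 41 * c - (237472 - 2896 * α) - (α - 41) * c = α * (1 - 2 * α) * (c - 2896) by
    linear_combination (2 * (c - 2896)) * hα] at this

lemma coeff_DL (α : R) : (toP α DL).coeff 20 = α := by
  rw [coeff_toP]; simp [DL, ev]

lemma coeff_EL {α : R} (hα : α ^ 2 = α - 41) : (toP α EL).coeff 60 = α ^ 3 := by
  have : EL.getD 60 ⟨0, 0, 0, 0⟩ = ⟨0, 41, 0, 40⟩ := rfl
  rw [coeff_toP, this]
  simp only [ev]; push_cast
  linear_combination (-(α + 1)) * hα

end Pool.Agent.Lib.MP_db9bd2_nt
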