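import Pool.Agent.Lib.MP_db9bd2_nt.Cov
import Pool.Agent.Lib.MP_db9bd2_nt.Frob

/-! Clausen's identity and its consequences for truncations. -/

namespace Pool.Agent.Lib.MP_db9bd2_nt

open Finset PowerSeries

lemma AA_rec (k : ℕ) : (k + 1) ^ 2 * AA (k + 1) = 12 * (6 * k + 1) * (6 * k + 5) * AA k := by
  have h1 := AA_mul (k + 1)
  have h0 := AA_mul k
  rw [show 6 * (k + 1) = 6 * k + 1 + 1 + 1 + 1 + 1 + 1 by ring,
    show 3 * (k + 1) = 3 * k + 1 + 1 + 1 by ring, show 2 * (k + 1) = 2 * k + 1 + 1 by ring] at h1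
  simp only [Nat.factorial_succ] at h1
  rw [← h0] at h1
  have hpos : 0 < 6 * (k + 1) * (3 * k + 2) * (3 * k + 1) * (2 * k + 1) *
    ((3 * k).factorial * (2 * k).factorial * k.factorial) := by positivity
  apply Nat.eq_of_mul_eq_mul_right hpos
  calc _ = AA (k + 1) * ((3 * k + 1 + 1 + 1) * ((3 * k + 1 + 1) * ((3 * k + 1) * (3 * k).factorial)) *
      ((2 * k + 1 + 1) * ((2 * k + 1) * (2 * k).factorial)) * ((k + 1) * k.factorial)) := by ring
    _ = _ := by rw [h1]; ring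

lemma cc_rec (k : ℕ) :
    (k + 1) ^ 3 * cc (k + 1) = 24 * (6 * k + 1) * (2 * k + 1) * (6 * k + 5) * cc k := by
  have h := Nat.succ_mul_centralBinom_succ k
  rw [Nat.centralBinom_eq_two_mul_choose, Nat.centralBinom_eq_two_mul_choose] at h
  unfold cc
  calc _ = ((k + 1) ^ 2 * AA (k + 1)) * ((k + 1) * (2 * (k + 1)).choose (k + 1)) := by ring
    _ = _ := by rw [h, AA_rec]; ring

variable {O : Type} [CommRing O]

/-- The operator `X d/dX`. -/
noncomputable def th (G : O⟦X⟧) : O⟦X⟧ := X * d⁄dX O G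

lemma coeff_th (G : O⟦X⟧) (n : ℕ) : coeff n (th G) = n * coeff n G := by
  unfold th
  rcases n with _ | n
  · simp
  · rw [coeff_succ_X_mul, coeff_derivative]; push_cast; ring

lemma th_mul (F G : O⟦X⟧) : th (F * G) = th F * G + F * th G := by
  unfold th; rw [Derivation.leibniz]; simp only [smul_eq_mul]; ring

lemma th_FF (l : ℕ → O) : th (FF l) = FF fun k => k * l k := by
  ext n; rw [coeff_th]; simp only [FF, coeff_mk]; ring

lemma th_FF_tr (m : ℕ) (l : ℕ → O) : th (FF (tr m l)) = FF (tr m fun k => k * l k) := by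
  rw [th_FF]; congr 1; funext k; unfold tr; split_ifs <;> simp

/-- Substitution of a series without constant term. -/
noncomputable def sbs (U : O⟦X⟧) (hU : constantCoeff U = 0) : O⟦X⟧ →ₐ[O] O⟦X⟧ :=
  substAlgHom (HasSubst.of_constantCoeff_zero' hU)

lemma sbs_eq (U : O⟦X⟧) (hU : constantCoeff U = 0) (G : O⟦X⟧) : sbs U hU G = G.subst U :=
  congrFun (coe_substAlgHom (HasSubst.of_constantCoeff_zero' hU)) G

lemma coeff_sbs (U : O⟦X⟧) (hU : constantCoeff U = 0) (G : O⟦X⟧) (n : ℕ) :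
    coeff n (sbs U hU G) = ∑ k ∈ range (n + 1), coeff k G * coeff n (U ^ k) := by
  rw [sbs_eq, coeff_subst' (HasSubst.of_constantCoeff_zero' hU)]
  rw [finsum_eq_sum_of_support_subset (s := range (n + 1))]
  · simp
  · intro k hk
    simp only [Function.mem_support, ne_eq] at hk
    simp only [coe_range, Set.mem_Iio]
    by_contra hc
    apply hk
    have h1 : X ^ k ∣ U ^ k := pow_dvd_pow_of_dvd (X_dvd_iff.2 hU) k
    rw [X_pow_dvd_iff.1 h1 n (by omega), smul_zero]

/-- `t = z (1 - 432 z)`. -/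
noncomputable def tz (O : Type) [CommRing O] : O⟦X⟧ := X * (1 - 432 * X)

/-- `u = 1 - 864 z`. -/
noncomputable def uz (O : Type) [CommRing O] : O⟦X⟧ := 1 - 864 * X

lemma tz_zero : constantCoeff (tz O) = 0 := by simp [tz]

/-- Substitution of `t`. -/
noncomputable def sb : O⟦X⟧ →ₐ[O] O⟦X⟧ := sbs (tz O) tz_zero

lemma sb_X : sb (X : O⟦X⟧) = tz O := by
  unfold sb; rw [sbs_eq, subst_X (HasSubst.of_constantCoeff_zero' tz_zero)]

/-- The derivation `t d/dz`. -/
noncomputable def DD (G : O⟦X⟧) : O⟦X⟧ := tz O * d⁄dX O G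

lemma DD_eq (G : O⟦X⟧) : DD G = (1 - 432 * X) * th G := by unfold DD th tz; ring

lemma DD_mul (F G : O⟦X⟧) : DD (F * G) = DD F * G + F * DD G := by
  unfold DD; rw [Derivation.leibniz]; simp only [smul_eq_mul]; ring

lemma DD_add (F G : O⟦X⟧) : DD (F + G) = DD F + DD G := by
  unfold DD; rw [map_add]; ring

lemma DD_sub (F G : O⟦X⟧) : DD (F - G) = DD F - DD G := by
  unfold DD; rw [map_sub]; ring

lemma der_nat (n : ℕ) : d⁄dX O (n : O⟦X⟧) = 0 := Derivation.map_natCast _ n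

lemma DD_nat_mul (n : ℕ) (G : O⟦X⟧) : DD ((n : O⟦X⟧) * G) = n * DD G := by
  rw [DD_mul]; unfold DD; rw [der_nat]; ring

lemma der_tz : d⁄dX O (tz O) = uz O := by
  have := der_nat (O := O) 432
  unfold tz uz
  rw [Derivation.leibniz, map_sub, Derivation.leibniz, derivative_X, derivative_one]
  push_cast at this
  rw [this]
  simp only [smul_eq_mul]; ring

lemma DD_tz : DD (tz O) = tz O * uz O := by unfold DD; rw [der_tz]

lemma DD_X : DD (X : O⟦X⟧) = tz O := by unfold DD; rw [derivative_X, mul_one]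

lemma DD_uz : DD (uz O) = -864 * tz O := by
  have h := DD_nat_mul (O := O) 864 X
  push_cast at h
  unfold uz
  rw [DD_sub, h, DD_X]
  unfold DD
  rw [derivative_one]; ring

lemma uz_sq : uz O ^ 2 = 1 - 1728 * tz O := by unfold uz tz; ring

lemma DD_sb (G : O⟦X⟧) : DD (sb G) = uz O * sb (th G) := by
  unfold DD th
  rw [map_mul, sb_X]
  unfold sb
  rw [sbs_eq, sbs_eq, derivative_subst (HasSubst.of_constantCoeff_zero' tz_zero), der_tz]
  ring

/-- The period series `f`. -/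
noncomputable def ff (O : Type) [CommRing O] : O⟦X⟧ := PowerSeries.mk fun k => (AA k : O)

/-- The second period series `g`. -/
noncomputable def gg (O : Type) [CommRing O] : O⟦X⟧ := 4 * DD (ff O) - 288 * X * ff O

lemma coeff_nat_mul (n k : ℕ) [n.AtLeastTwo] (G : O⟦X⟧) :
    coeff k ((OfNat.ofNat n : O⟦X⟧) * G) = (OfNat.ofNat n : O) * coeff k G := by
  rw [← map_ofNat (PowerSeries.C (R := O)), coeff_C_mul]

lemma ff_ode : th (th (ff O)) = X * (432 * th (th (ff O)) + 432 * th (ff O) + 60 * ff O) := by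
  ext n
  rcases n with _ | n
  · simp [coeff_th]
  · rw [coeff_succ_X_mul, map_add, map_add, coeff_nat_mul, coeff_nat_mul, coeff_nat_mul]
    simp only [coeff_th, ff, coeff_mk]
    have := congrArg (Nat.cast : ℕ → O) (AA_rec n)
    push_cast at this ⊢
    linear_combination this

lemma FF_ode : th (th (th (FF fun _ => (1 : O)))) =
    X * (1728 * th (th (th (FF fun _ => (1 : O)))) + 2592 * th (th (FF fun _ => (1 : O))) +
      1104 * th (FF fun _ => (1 : O)) + 120 * FF fun _ => (1 : O)) := by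
  ext n
  rcases n with _ | n
  · simp [coeff_th]
  · rw [coeff_succ_X_mul, map_add, map_add, map_add, coeff_nat_mul, coeff_nat_mul, coeff_nat_mul,
      coeff_nat_mul]
    simp only [coeff_th, FF, coeff_mk]
    have := congrArg (Nat.cast : ℕ → O) (cc_rec n)
    push_cast at this ⊢
    linear_combination this

lemma th_nat_mul (n : ℕ) (G : O⟦X⟧) : th ((n : O⟦X⟧) * G) = n * th G := by
  rw [th_mul]; unfold th; rw [der_nat]; ring

lemma DD_DD_ff : DD (DD (ff O)) = 60 * tz O * ff O := by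
  have h1 : th (1 - 432 * X : O⟦X⟧) = -432 * X := by
    have := der_nat (O := O) 432
    push_cast at this
    unfold th
    rw [map_sub, Derivation.leibniz, derivative_X, derivative_one, this]
    simp only [smul_eq_mul]; ring
  rw [DD_eq, DD_eq, th_mul, h1]
  unfold tz
  linear_combination (1 - 432 * X) * ff_ode (O := O)

lemma DD3_sq : DD (DD (DD (ff O ^ 2))) =
    tz O * (240 * DD (ff O ^ 2) + 120 * uz O * ff O ^ 2) := by
  have h60 := DD_nat_mul (O := O) 60 (tz O)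
  push_cast at h60
  simp only [sq, DD_mul, DD_add, DD_DD_ff, h60, DD_tz]
  ring

lemma DD3_sb : DD (DD (DD (sb (FF fun _ => (1 : O))))) =
    tz O * (240 * DD (sb (FF fun _ => (1 : O))) + 120 * uz O * sb (FF fun _ => (1 : O))) := by
  have h := congrArg sb (FF_ode (O := O))
  simp only [map_mul, map_add, map_ofNat, sb_X] at h
  have h864 : DD (-864 * tz O) = -864 * (tz O * uz O) := by
    have h1 := DD_nat_mul (O := O) 864 (tz O)
    push_cast at h1
    have h2 := DD_add (-864 * tz O) (864 * tz O)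
    rw [show -864 * tz O + 864 * tz O = 0 by ring, h1, DD_tz] at h2
    have h3 : DD (0 : O⟦X⟧) = 0 := by unfold DD; simp
    linear_combination h3 - h2
  simp only [DD_sb, DD_mul, DD_add, DD_uz, h864]
  linear_combination uz O * h + uz O * sb (th (th (th (FF fun _ => (1 : O))))) * uz_sq (O := O)

lemma X_pow_dvd_DD (G : O⟦X⟧) (n : ℕ) (h : X ^ n ∣ G) :
    X ^ n ∣ DD G ∧ coeff n (DD G) = n * coeff n G := by
  have h1 : X ^ n ∣ th G := by
    rw [X_pow_dvd_iff] at h ⊢
    intro m hm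
    rw [coeff_th, h m hm, mul_zero]
  refine ⟨by rw [DD_eq]; exact h1.mul_left _, ?_⟩
  have h2 : X ^ (n + 1) ∣ 432 * X * th G := by
    rw [pow_succ', mul_assoc]; exact (mul_dvd_mul_left X h1).mul_left _
  rw [DD_eq, sub_mul, one_mul, map_sub, X_pow_dvd_iff.1 h2 n (by omega), sub_zero, coeff_th]

lemma clausen [IsDomain O] [CharZero O] : sb (FF fun _ => (1 : O)) = ff O ^ 2 := by
  set h := sb (FF fun _ => (1 : O)) - ff O ^ 2 with hh
  have e : DD (DD (DD h)) = tz O * (240 * DD h + 120 * uz O * h) := by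
    rw [hh, DD_sub, DD_sub, DD_sub, DD3_sq, DD3_sb]; ring
  have key : ∀ n, X ^ (n + 1) ∣ h := by
    intro n
    induction n with
    | zero =>
      rw [zero_add, pow_one, X_dvd_iff, hh, map_sub, map_pow, ← coeff_zero_eq_constantCoeff_apply,
        ← coeff_zero_eq_constantCoeff_apply]
      unfold sb
      rw [coeff_sbs]
      simp [FF, ff, cc, AA]
    | succ n ih =>
      obtain ⟨a1, b1⟩ := X_pow_dvd_DD h _ ih
      obtain ⟨a2, b2⟩ := X_pow_dvd_DD _ _ a1
      obtain ⟨a3, b3⟩ := X_pow_dvd_DD _ _ a2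
      have h2 : X ^ (n + 1 + 1) ∣ DD (DD (DD h)) := by
        rw [e, pow_succ', tz, mul_assoc]
        exact mul_dvd_mul_left X ((dvd_add (a1.mul_left _) (ih.mul_left _)).mul_left _)
      have h3 := X_pow_dvd_iff.1 h2 (n + 1) (by omega)
      rw [b3, b2, b1] at h3
      have hne : ((n + 1 : ℕ) : O) ≠ 0 := Nat.cast_ne_zero.2 (by omega)
      simp only [mul_eq_zero, hne, false_or] at h3
      rw [X_pow_dvd_iff] at ih ⊢
      intro m hm
      rcases Nat.lt_succ_iff_lt_or_eq.1 hm with h4 | rfl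
      · exact ih m h4
      · exact h3
  rw [← sub_eq_zero]
  ext n
  exact X_pow_dvd_iff.1 (key n) n (by omega)

/-- The component along `f g`. -/
noncomputable def K1 (G : O⟦X⟧) : O⟦X⟧ := 2 * uz O * sb (th G) - 288 * X * sb G

/-- The component along `g^2`. -/
noncomputable def K2 (G : O⟦X⟧) : O⟦X⟧ :=
  8 * (uz O ^ 2 * sb (th (th G)) - 864 * tz O * sb (th G) - 120 * tz O * sb G) -
    1152 * X * uz O * sb (th G) + 82944 * X ^ 2 * sb G

lemma K1_F [IsDomain O] [CharZero O] : K1 (FF fun _ => (1 : O)) = ff O * gg O := by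
  have h1 := DD_sb (FF fun _ => (1 : O))
  rw [clausen, sq, DD_mul] at h1
  unfold K1 gg
  rw [clausen]
  linear_combination (-2) * h1

lemma K2_F [IsDomain O] [CharZero O] : K2 (FF fun _ => (1 : O)) = gg O ^ 2 := by
  have h1 := DD_sb (FF fun _ => (1 : O))
  rw [clausen, sq, DD_mul] at h1
  have h2 := congrArg DD h1
  simp only [DD_add, DD_mul, DD_DD_ff, DD_sb, DD_uz] at h2
  unfold K2 gg
  rw [clausen]
  linear_combination (-8) * h2 + 1152 * X * h1

/-- The ratio of the truncation to the full series. -/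
noncomputable def ph (O : Type) [CommRing O] (n : ℕ) : O⟦X⟧ :=
  FF (tr n fun _ => (1 : O)) * Ring.inverse (FF fun _ => (1 : O))

lemma ph_mul (n : ℕ) : ph O n * FF (fun _ => (1 : O)) = FF (tr n fun _ => (1 : O)) := by
  unfold ph; rw [mul_assoc, Ring.inverse_mul_cancel _ FF_one_unit, mul_one]

lemma cov_th {p g n : ℕ} (h : Cov O p g n) :
    (p : O⟦X⟧) ^ g ∣ th (FF (tr n fun _ => (1 : O))) - ph O n * th (FF fun _ => (1 : O)) ∧
    (p : O⟦X⟧) ^ g ∣ th (th (FF (tr n fun _ => (1 : O)))) -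
      ph O n * th (th (FF fun _ => (1 : O))) := by
  have l1 : Lip p 0 (fun k => (k : O) * 1) := (Lip.id p).mul (Lip.const p 0 1)
  have l2 : Lip p 0 (fun k => (k : O) * ((k : O) * 1)) := (Lip.id p).mul l1
  have h1 := h _ l1
  have h2 := h _ l2
  rw [← ph_mul] at h1 h2
  constructor
  · rw [th_FF_tr, th_FF, ← (FF_one_unit (O := O)).dvd_mul_left]
    obtain ⟨w, hw⟩ := h1
    exact ⟨w, by linear_combination hw⟩
  · rw [th_FF_tr, th_FF_tr, th_FF, th_FF,
      ← (FF_one_unit (O := O)).dvd_mul_left]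
    obtain ⟨w, hw⟩ := h2
    exact ⟨w, by linear_combination hw⟩

lemma th_ph {p g n : ℕ} (h : Cov O p g n) : (p : O⟦X⟧) ^ g ∣ th (ph O n) := by
  obtain ⟨w, hw⟩ := (cov_th h).1
  rw [← ph_mul, th_mul] at hw
  rw [← (FF_one_unit (O := O)).dvd_mul_right]
  exact ⟨w, by linear_combination hw⟩

lemma map_dvd_pow {p g : ℕ} (φ : O⟦X⟧ →ₐ[O] O⟦X⟧) {x : O⟦X⟧} (h : (p : O⟦X⟧) ^ g ∣ x) :
    (p : O⟦X⟧) ^ g ∣ φ x := by
  have := map_dvd φ h
  rwa [map_pow, map_natCast] at this

lemma K_trunc [IsDomain O] [CharZero O] {p g n : ℕ} (h : Cov O p g n) :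
    sb (FF (tr n fun _ => (1 : O))) = sb (ph O n) * ff O ^ 2 ∧
    (p : O⟦X⟧) ^ g ∣ K1 (FF (tr n fun _ => (1 : O))) - sb (ph O n) * (ff O * gg O) ∧
    (p : O⟦X⟧) ^ g ∣ K2 (FF (tr n fun _ => (1 : O))) - sb (ph O n) * gg O ^ 2 := by
  obtain ⟨a, ha⟩ := map_dvd_pow sb (cov_th h).1
  obtain ⟨b, hb⟩ := map_dvd_pow sb (cov_th h).2
  rw [map_sub, map_mul] at ha hb
  have h0 : sb (FF (tr n fun _ => (1 : O))) = sb (ph O n) * sb (FF fun _ => (1 : O)) := by
    rw [← ph_mul, map_mul]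
  refine ⟨by rw [h0, clausen], ?_, ?_⟩
  · rw [← K1_F]
    unfold K1
    rw [h0]
    exact ⟨2 * uz O * a, by linear_combination 2 * uz O * ha⟩
  · rw [← K2_F]
    unfold K2
    rw [h0]
    exact ⟨8 * uz O ^ 2 * b - (6912 * tz O + 1152 * X * uz O) * a, by
      linear_combination 8 * uz O ^ 2 * hb - (6912 * tz O + 1152 * X * uz O) * ha⟩

lemma taylor_term [IsDomain O] {p : ℕ} (H : PRing p O) (g k n : ℕ) (c : O) (U V : O⟦X⟧)
    (hc : (p : O) ^ g ∣ k * c) (hUV : (p : O⟦X⟧) ∣ U - V) :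
    (p : O) ^ (g + 1) ∣ c * coeff n (U ^ k) - c * coeff n (V ^ k) := by
  rcases Nat.eq_zero_or_pos k with rfl | hk
  · simp
  obtain ⟨e, k', hk', rfl⟩ := Nat.exists_eq_pow_mul_and_not_dvd hk.ne' p H.prime.ne_one
  have h1 : (p : O⟦X⟧) ^ (e + 1) ∣ U ^ (p ^ e * k') - V ^ (p ^ e * k') := by
    rw [pow_mul', pow_mul']
    exact dvd_sub_pow_of_dvd_sub (hUV.trans (sub_dvd_pow_sub_pow U V k')) e
  have h2 := (pow_dvd_iff p (e + 1) _).1 h1 n
  rw [map_sub] at h2
  rw [← mul_sub]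
  rw [Nat.cast_mul, Nat.cast_pow, mul_assoc, mul_left_comm, (H.unit k' hk').dvd_mul_left] at hc
  rcases le_or_gt g e with h | h
  · exact ((pow_dvd_pow _ (by omega)).trans h2).mul_left _
  · obtain ⟨d, rfl⟩ : ∃ d, g = e + d := ⟨g - e, by omega⟩
    rw [pow_add, mul_dvd_mul_iff_left (pow_ne_zero e H.ne)] at hc
    rw [show e + d + 1 = d + (e + 1) by ring, pow_add]
    exact mul_dvd_mul hc h2

lemma taylor [IsDomain O] {p : ℕ} (H : PRing p O) (g : ℕ) (h U V : O⟦X⟧)
    (hU : constantCoeff U = 0) (hV : constantCoeff V = 0)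
    (hc : (p : O⟦X⟧) ^ g ∣ th h) (hUV : (p : O⟦X⟧) ∣ U - V) :
    (p : O⟦X⟧) ^ (g + 1) ∣ sbs U hU h - sbs V hV h := by
  rw [pow_dvd_iff] at hc ⊢
  intro n
  rw [map_sub, coeff_sbs, coeff_sbs, ← Finset.sum_sub_distrib]
  apply Finset.dvd_sum
  intro k _
  apply taylor_term H g k n _ U V _ hUV
  rw [← coeff_th]; exact hc k

lemma fr_tz {p : ℕ} (hp : p.Prime) : Fr p (tz O) (expand p hp.ne_zero (tz O)) := by
  unfold tz
  rw [map_mul, map_sub, map_mul, expand_X, map_one, map_ofNat]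
  have h1 := Fr.natCast (R := O⟦X⟧) hp 1
  have h2 := Fr.natCast (R := O⟦X⟧) hp 432
  push_cast at h1 h2
  exact (Fr.pow_self p X).mul (h1.sub hp (h2.mul (Fr.pow_self p X)))

lemma ph_step [IsDomain O] {p g m n : ℕ} (H : PRing p O) (h : Cov O p g m)
    (hk : ∀ k, min n (p * m) ≤ k → k < max n (p * m) → p ^ (g + 1) ∣ cc k) :
    (p : O⟦X⟧) ^ (g + 1) ∣ sb (ph O n) - expand p H.prime.ne_zero (sb (ph O m)) := by
  have h1 : (p : O⟦X⟧) ^ (g + 1) ∣ ph O n - expand p H.prime.ne_zero (ph O m) := by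
    obtain ⟨a, ha⟩ := dwork_star H h (fun _ => 1) (Lip.const p 0 1)
    obtain ⟨b, hb⟩ := tr_congr hk (fun _ => (1 : O))
    rw [← ph_mul m, map_mul] at ha
    rw [← ph_mul n] at hb
    rw [← (((FF_one_unit (O := O)).map (expand p H.prime.ne_zero)).mul
      (FF_one_unit (O := O))).dvd_mul_left]
    exact ⟨a + expand p H.prime.ne_zero (FF fun _ => 1) * b, by
      linear_combination ha + expand p H.prime.ne_zero (FF fun _ => (1 : O)) * hb⟩
  have h2 := map_dvd_pow sb h1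
  rw [map_sub] at h2
  have z1 : constantCoeff (tz O ^ p) = 0 := by rw [map_pow, tz_zero, zero_pow H.prime.ne_zero]
  have z2 : constantCoeff (expand p H.prime.ne_zero (tz O)) = 0 := by
    rw [constantCoeff_expand, tz_zero]
  have e1 : sb (expand p H.prime.ne_zero (ph O m)) = sbs _ z1 (ph O m) := by
    unfold sb
    rw [sbs_eq, sbs_eq, expand_apply, subst_comp_subst_apply (HasSubst.X_pow H.prime.ne_zero)
      (HasSubst.of_constantCoeff_zero' tz_zero),
      subst_pow (HasSubst.of_constantCoeff_zero' tz_zero),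
      subst_X (HasSubst.of_constantCoeff_zero' tz_zero)]
  have e2 : expand p H.prime.ne_zero (sb (ph O m)) = sbs _ z2 (ph O m) := by
    unfold sb
    rw [sbs_eq, sbs_eq]
    exact expand_subst p H.prime.ne_zero (HasSubst.of_constantCoeff_zero' tz_zero) _
  have h3 := taylor H g (ph O m) _ _ z1 z2 (th_ph h) (fr_tz H.prime)
  rw [← e1, ← e2] at h3
  have := dvd_add h2 h3
  rwa [sub_add_sub_cancel] at this

end Pool.Agent.Lib.MP_db9bd2_nt
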