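import Pool.Agent.Lib.MP_db9bd2_nt.Val

/-! Dwork-type congruences for truncations of the series with coefficients `cc k`. -/

namespace Pool.Agent.Lib.MP_db9bd2_nt

open Finset PowerSeries

/-- A ring in which `p` is not zero and the integers prime to `p` are units. -/
structure PRing (p : ℕ) (O : Type) [CommRing O] : Prop where
  prime : p.Prime
  ne : (p : O) ≠ 0
  unit : ∀ n : ℕ, ¬ p ∣ n → IsUnit (n : O)

/-- The part of `n!` prime to `p`, in the sense of Morita. -/
def fp (p n : ℕ) : ℕ := ∏ i ∈ range n, if p ∣ i + 1 then 1 else i + 1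

lemma fp_succ (p n : ℕ) : fp p (n + 1) = fp p n * if p ∣ n + 1 then 1 else n + 1 := by
  unfold fp; rw [Finset.prod_range_succ]

lemma fact_split (p n : ℕ) : n.factorial = fp p n * (p ^ (n / p) * (n / p).factorial) := by
  induction n with
  | zero => simp [fp]
  | succ n ih =>
    rw [Nat.factorial_succ, fp_succ, Nat.succ_div, ih]
    by_cases h : p ∣ n + 1
    · rw [if_pos h, if_pos h, Nat.factorial_succ, pow_succ]
      have h1 : n + 1 = p * (n / p + 1) := by
        have := Nat.succ_div (a := n) (b := p)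
        rw [if_pos h] at this
        rw [← this, Nat.mul_div_cancel' h]
      rw [show (n + 1) * (fp p n * (p ^ (n / p) * (n / p).factorial)) =
        (p * (n / p + 1)) * (fp p n * (p ^ (n / p) * (n / p).factorial)) by rw [← h1]]
      ring
    · rw [if_neg h, if_neg h, add_zero]; ring

lemma not_dvd_fp (p n : ℕ) (hp : p.Prime) : ¬ p ∣ fp p n := by
  induction n with
  | zero => simpa [fp] using hp.one_lt.ne'
  | succ n ih =>
    rw [fp_succ, hp.dvd_mul]
    rintro (h | h)
    · exact ih h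
    · by_cases h1 : p ∣ n + 1
      · rw [if_pos h1] at h; exact hp.one_lt.ne' (Nat.dvd_one.1 h)
      · rw [if_neg h1] at h; exact h1 h

/-- Auxiliary product. -/
def tw (p e k : ℕ) : ℕ := ∏ i ∈ range e, if i % 2 = 0 then p * (6 * k + i + 1) else 2

lemma tw_spec (p e k : ℕ) : p ^ e * (6 * k + e).factorial * (3 * k).factorial =
    tw p e k * (p ^ (e / 2) * (3 * k + e / 2).factorial * (6 * k).factorial) := by
  induction e with
  | zero => simp [tw, mul_comm]
  | succ e ih =>
    unfold tw at ih ⊢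
    rw [Finset.prod_range_succ, ← add_assoc, Nat.factorial_succ, pow_succ]
    rcases Nat.even_or_odd' e with ⟨j, rfl | rfl⟩
    · rw [if_pos (by omega), show (2 * j + 1) / 2 = 2 * j / 2 by omega]
      calc _ = (p * (6 * k + 2 * j + 1)) *
          (p ^ (2 * j) * (6 * k + 2 * j).factorial * (3 * k).factorial) := by ring
        _ = _ := by rw [ih]; ring
    · rw [if_neg (by omega), show (2 * j + 1 + 1) / 2 = j + 1 by omega, ← add_assoc (3 * k),
        Nat.factorial_succ (3 * k + j), pow_succ p j]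
      rw [show (2 * j + 1) / 2 = j by omega] at ih
      calc _ = (p * (6 * k + (2 * j + 1) + 1)) *
          (p ^ (2 * j + 1) * (6 * k + (2 * j + 1)).factorial * (3 * k).factorial) := by ring
        _ = _ := by rw [ih]; ring

lemma cc_ratio (p a k : ℕ) (ha : a < p) :
    cc (a + p * k) * (fp p (3 * (a + p * k)) * fp p (a + p * k) ^ 3) =
      fp p (6 * (a + p * k)) * tw p (6 * a / p) k * cc k := by
  have hp : 0 < p := by omega
  set n := a + p * k with hn
  set e := 6 * a / p with he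
  have h6 : 6 * n / p = 6 * k + e := by
    rw [hn, show 6 * (a + p * k) = p * (6 * k) + 6 * a by ring, Nat.mul_add_div hp]
  have h3 : 3 * n / p = 3 * k + e / 2 := by
    rw [hn, show 3 * (a + p * k) = p * (3 * k) + 3 * a by ring, Nat.mul_add_div hp, he,
      Nat.div_div_eq_div_mul, show 6 * a = 3 * a * 2 by ring, Nat.mul_div_mul_right _ _ two_pos]
  have h1 : n / p = k := by
    rw [hn, add_comm, Nat.mul_add_div hp, Nat.div_eq_of_lt ha, add_zero]
  have e0 := cc_mul n
  rw [fact_split p (6 * n), fact_split p (3 * n), fact_split p n, h6, h3, h1] at e0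
  have e1 := tw_spec p e k
  have e2 := cc_mul k
  have hpos : 0 < p ^ (6 * k) * p ^ (e / 2) * (3 * k + e / 2).factorial * k.factorial ^ 3 *
    (3 * k).factorial := by positivity
  apply Nat.eq_of_mul_eq_mul_right hpos
  calc _ = cc n * (fp p (3 * n) * (p ^ (3 * k + e / 2) * (3 * k + e / 2).factorial) *
        (fp p n * (p ^ k * k.factorial)) ^ 3) * (3 * k).factorial := by ring
    _ = fp p (6 * n) * p ^ (6 * k) * (p ^ e * (6 * k + e).factorial * (3 * k).factorial) := by
        rw [e0]; ring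
    _ = _ := by rw [e1, ← e2]; ring

variable {O : Type} [CommRing O]

lemma fp_period (p q n : ℕ) (h : p ∣ q) :
    (q : O) ∣ (fp p (n + q) : O) - fp p n * fp p q := by
  induction n with
  | zero => simp [fp]
  | succ n ih =>
    obtain ⟨w, hw⟩ := ih
    rw [show n + 1 + q = n + q + 1 by ring, fp_succ, fp_succ]
    have hiff : p ∣ n + q + 1 ↔ p ∣ n + 1 := by
      rw [show n + q + 1 = q + (n + 1) by ring]; exact Nat.dvd_add_right h
    by_cases h1 : p ∣ n + 1
    · rw [if_pos h1, if_pos (hiff.2 h1)]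
      exact ⟨w, by push_cast; linear_combination hw⟩
    · rw [if_neg h1, if_neg (fun h => h1 (hiff.1 h))]
      exact ⟨w * (n + 1) + fp p (n + q), by push_cast; linear_combination (n + 1) * hw⟩

lemma fp_period_mul (p q n j : ℕ) (h : p ∣ q) :
    (q : O) ∣ (fp p (n + j * q) : O) - fp p n * (fp p q : O) ^ j := by
  induction j with
  | zero => simp
  | succ j ih =>
    obtain ⟨w, hw⟩ := ih
    obtain ⟨v, hv⟩ := fp_period (O := O) p q (n + j * q) h
    rw [show n + (j + 1) * q = n + j * q + q by ring]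
    exact ⟨v + w * fp p q, by linear_combination hv + (fp p q : O) * hw⟩

/-- The unit part of the ratio. -/
noncomputable def UU (O : Type) [CommRing O] (p n : ℕ) : O :=
  (fp p (6 * n) : O) * Ring.inverse ((fp p (3 * n) : O) * (fp p n : O) ^ 3)

lemma den_unit {p : ℕ} (H : PRing p O) (n : ℕ) :
    IsUnit ((fp p (3 * n) : O) * (fp p n : O) ^ 3) :=
  (H.unit _ (not_dvd_fp p _ H.prime)).mul ((H.unit _ (not_dvd_fp p _ H.prime)).pow 3)

lemma UU_mul {p : ℕ} (H : PRing p O) (n : ℕ) :
    UU O p n * ((fp p (3 * n) : O) * (fp p n : O) ^ 3) = fp p (6 * n) := by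
  unfold UU; rw [mul_assoc, Ring.inverse_mul_cancel _ (den_unit H n), mul_one]

lemma UU_period {p : ℕ} (H : PRing p O) (q n : ℕ) (h : p ∣ q) :
    (q : O) ∣ UU O p (n + q) - UU O p n := by
  rw [← (den_unit H (n + q)).dvd_mul_right, sub_mul, UU_mul H]
  obtain ⟨a, ha⟩ := fp_period_mul (O := O) p q (6 * n) 6 h
  obtain ⟨b, hb⟩ := fp_period_mul (O := O) p q (3 * n) 3 h
  obtain ⟨c, hc⟩ := fp_period (O := O) p q n h
  have e := UU_mul H n
  rw [mul_add, mul_add, eq_add_of_sub_eq ha, eq_add_of_sub_eq hb, eq_add_of_sub_eq hc, ← e]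
  set x := (fp p (3 * n) : O)
  set y := (fp p n : O)
  set w := (fp p q : O)
  exact ⟨a - UU O p n * (b * (q * c + y * w) ^ 3 + x * w ^ 3 *
    (c * ((q * c) ^ 2 + 3 * (q * c) * (y * w) + 3 * (y * w) ^ 2))), by ring⟩

/-- `p`-adic Lipschitz condition. -/
def Lip (p e : ℕ) (ρ : ℕ → O) : Prop := ∀ s k, (p : O) ^ (s + e) ∣ ρ (k + p ^ s) - ρ k

lemma Lip.mul {p e : ℕ} {ρ σ : ℕ → O} (h1 : Lip p e ρ) (h2 : Lip p e σ) :
    Lip p e (fun k => ρ k * σ k) := by
  intro s k
  obtain ⟨a, ha⟩ := h1 s k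
  obtain ⟨b, hb⟩ := h2 s k
  exact ⟨a * σ (k + p ^ s) + ρ k * b, by linear_combination (σ (k + p ^ s)) * ha + ρ k * hb⟩

lemma Lip.const (p e : ℕ) (c : O) : Lip p e (fun _ => c) := by
  intro s k; simp

lemma Lip.id (p : ℕ) : Lip p 0 (fun k => (k : O)) := by
  intro s k; simp

lemma Lip.comp {p : ℕ} {ρ : ℕ → O} (h : Lip p 0 ρ) (a : ℕ) : Lip p 1 (fun k => ρ (a + p * k)) := by
  intro s k
  have := h (s + 1) (a + p * k)
  simp only
  rw [show a + p * (k + p ^ s) = a + p * k + p ^ (s + 1) by ring]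
  exact this

lemma lip_tw (p e : ℕ) : Lip p 1 (fun k => (tw p e k : O)) := by
  induction e with
  | zero => simpa [tw] using Lip.const p 1 (1 : O)
  | succ e ih =>
    have : (fun k => (tw p (e + 1) k : O)) = fun k => (tw p e k : O) *
        ((if e % 2 = 0 then p * (6 * k + e + 1) else 2 : ℕ) : O) := by
      funext k; unfold tw; rw [Finset.prod_range_succ, Nat.cast_mul]
    rw [this]
    apply ih.mul
    by_cases h : e % 2 = 0
    · simp only [if_pos h]
      intro s k
      exact ⟨6, by push_cast; ring⟩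
    · simp only [if_neg h]
      exact Lip.const p 1 _

/-- The ratio `cc (a + p k) / cc k`. -/
noncomputable def rho (O : Type) [CommRing O] (p a k : ℕ) : O :=
  UU O p (a + p * k) * tw p (6 * a / p) k

lemma lip_rho {p : ℕ} (H : PRing p O) (a : ℕ) : Lip p 1 (rho O p a) := by
  apply Lip.mul (ρ := fun k => UU O p (a + p * k)) _ (lip_tw p _)
  intro s k
  simp only
  rw [show a + p * (k + p ^ s) = a + p * k + p ^ (s + 1) by ring]
  have := UU_period H (p ^ (s + 1)) (a + p * k) (dvd_pow_self p (by omega))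
  rwa [Nat.cast_pow] at this

lemma rho_mul {p : ℕ} (H : PRing p O) (a k : ℕ) (ha : a < p) :
    rho O p a k * cc k = cc (a + p * k) := by
  apply (den_unit H (a + p * k)).mul_right_cancel
  have e := congrArg (Nat.cast : ℕ → O) (cc_ratio p a k ha)
  push_cast at e
  rw [e, ← UU_mul H, rho]; ring

/-- The weighted series. -/
noncomputable def FF (l : ℕ → O) : O⟦X⟧ := PowerSeries.mk fun k => l k * (cc k : O)

/-- Truncation of a weight. -/
def tr (m : ℕ) (l : ℕ → O) : ℕ → O := fun k => if k < m then l k else 0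

lemma C_dvd_iff (a : O) (x : O⟦X⟧) : PowerSeries.C a ∣ x ↔ ∀ k, a ∣ coeff k x := by
  constructor
  · rintro ⟨y, rfl⟩ k
    rw [coeff_C_mul]; exact dvd_mul_right _ _
  · intro h
    choose y hy using h
    refine ⟨PowerSeries.mk y, ?_⟩
    ext k
    rw [coeff_C_mul, coeff_mk, hy]

lemma pow_dvd_iff (p g : ℕ) (x : O⟦X⟧) :
    (p : O⟦X⟧) ^ g ∣ x ↔ ∀ k, (p : O) ^ g ∣ coeff k x := by
  rw [← C_dvd_iff, map_pow, map_natCast]

lemma split_series (p : ℕ) (hp : p ≠ 0) (G : O⟦X⟧) :
    G = ∑ a ∈ range p, X ^ a * expand p hp (PowerSeries.mk fun k => coeff (a + p * k) G) := by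
  ext n
  have hp0 : 0 < p := Nat.pos_of_ne_zero hp
  rw [map_sum, Finset.sum_eq_single (n % p)]
  · have h1 : n = p * (n / p) + n % p := (Nat.div_add_mod n p).symm
    conv_rhs => rw [h1]
    rw [show (p * (n / p) + n % p) % p = n % p by rw [← h1], coeff_X_pow_mul, coeff_expand_mul,
      coeff_mk, add_comm, ← h1]
  · intro a ha hne
    rw [coeff_X_pow_mul']
    split_ifs with h
    · apply coeff_expand_of_not_dvd
      rintro ⟨c, hc⟩
      apply hne
      rw [show n = p * c + a by omega, Nat.mul_add_mod, Nat.mod_eq_of_lt (mem_range.1 ha)]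
    · rfl
  · intro h
    exact absurd (mem_range.2 (Nat.mod_lt n hp0)) h

/-- The covariance congruence. -/
def Cov (O : Type) [CommRing O] (p g n : ℕ) : Prop :=
  ∀ ρ : ℕ → O, Lip p 0 ρ →
    (p : O⟦X⟧) ^ g ∣ FF (fun _ => 1) * FF (tr n ρ) - FF ρ * FF (tr n fun _ => 1)

lemma cov_one [IsDomain O] {p g m : ℕ} (H : PRing p O) (h : Cov O p g m) (ρ : ℕ → O)
    (hρ : Lip p 1 ρ) :
    (p : O⟦X⟧) ^ (g + 1) ∣ FF (fun _ => 1) * FF (tr m ρ) - FF ρ * FF (tr m fun _ => 1) := by
  have h1 : ∀ k, (p : O) ∣ ρ k - ρ 0 := by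
    intro k
    induction k with
    | zero => simp
    | succ k ih =>
      have := hρ 0 k
      simp only [zero_add, pow_one, pow_zero] at this
      have h2 := dvd_add this ih
      rwa [sub_add_sub_cancel] at h2
  choose σ hσ using h1
  have hL : Lip p 0 σ := by
    intro s k
    obtain ⟨w, hw⟩ := hρ s k
    refine ⟨w, mul_left_cancel₀ H.ne ?_⟩
    linear_combination hw - hσ (k + p ^ s) + hσ k
  obtain ⟨w, hw⟩ := h σ hL
  have e1 : FF ρ = PowerSeries.C (ρ 0) * FF (fun _ => 1) + (p : O⟦X⟧) * FF σ := by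
    ext k
    rw [← map_natCast (PowerSeries.C (R := O)), map_add, coeff_C_mul, coeff_C_mul]
    simp only [FF, coeff_mk]
    linear_combination (cc k : O) * hσ k
  have e2 : FF (tr m ρ) =
      PowerSeries.C (ρ 0) * FF (tr m fun _ => 1) + (p : O⟦X⟧) * FF (tr m σ) := by
    ext k
    rw [← map_natCast (PowerSeries.C (R := O)), map_add, coeff_C_mul, coeff_C_mul]
    simp only [FF, coeff_mk, tr]
    split_ifs
    · linear_combination (cc k : O) * hσ k
    · ring
  exact ⟨w, by rw [e1, e2]; linear_combination (p : O⟦X⟧) * hw⟩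

lemma dwork_star [IsDomain O] {p g m : ℕ} (H : PRing p O) (h : Cov O p g m) (l : ℕ → O)
    (hl : Lip p 0 l) :
    (p : O⟦X⟧) ^ (g + 1) ∣ expand p H.prime.ne_zero (FF fun _ => 1) * FF (tr (p * m) l) -
      FF l * expand p H.prime.ne_zero (FF (tr m fun _ => 1)) := by
  rw [split_series p H.prime.ne_zero (FF (tr (p * m) l)), split_series p H.prime.ne_zero (FF l),
    Finset.mul_sum, Finset.sum_mul, ← Finset.sum_sub_distrib]
  apply Finset.dvd_sum
  intro a ha
  rw [mem_range] at ha
  have e1 : (PowerSeries.mk fun k => coeff (a + p * k) (FF l)) =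
      FF (fun k => l (a + p * k) * rho O p a k) := by
    ext k
    simp only [FF, coeff_mk]
    rw [mul_assoc, rho_mul H a k ha]
  have e2 : (PowerSeries.mk fun k => coeff (a + p * k) (FF (tr (p * m) l))) =
      FF (tr m fun k => l (a + p * k) * rho O p a k) := by
    ext k
    simp only [FF, coeff_mk, tr]
    have hiff : a + p * k < p * m ↔ k < m := by
      constructor
      · intro h1
        exact Nat.lt_of_mul_lt_mul_left (a := p) (by omega)
      · intro h1
        have : p * (k + 1) ≤ p * m := Nat.mul_le_mul_left p h1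
        rw [mul_add] at this; omega
    by_cases hk : k < m
    · rw [if_pos hk, if_pos (hiff.2 hk), mul_assoc, rho_mul H a k ha]
    · rw [if_neg hk, if_neg (fun h => hk (hiff.1 h))]; simp
  rw [e1, e2]
  obtain ⟨w, hw⟩ := cov_one H h _ ((hl.comp a).mul (lip_rho H a))
  have e3 := congrArg (expand p H.prime.ne_zero) hw
  rw [map_sub, map_mul, map_mul, map_mul, map_pow, map_natCast] at e3
  exact ⟨X ^ a * expand p H.prime.ne_zero w, by linear_combination X ^ a * e3⟩

lemma FF_one_unit : IsUnit (FF (fun _ => (1 : O))) := by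
  rw [PowerSeries.isUnit_iff_constantCoeff, ← coeff_zero_eq_constantCoeff_apply]
  simp [FF, cc, AA]

lemma cov_mul [IsDomain O] {p g m : ℕ} (H : PRing p O) (h : Cov O p g m) :
    Cov O p (g + 1) (p * m) := by
  intro ρ hρ
  obtain ⟨a, ha⟩ := dwork_star H h ρ hρ
  obtain ⟨b, hb⟩ := dwork_star H h (fun _ => 1) (Lip.const p 0 1)
  rw [← ((FF_one_unit (O := O)).map (expand p H.prime.ne_zero)).dvd_mul_left]
  exact ⟨FF (fun _ => 1) * a - FF ρ * b, by
    linear_combination FF (fun _ => (1 : O)) * ha - FF ρ * hb⟩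

lemma tr_congr {p g n n' : ℕ} (h : ∀ k, min n n' ≤ k → k < max n n' → p ^ g ∣ cc k)
    (l : ℕ → O) : (p : O⟦X⟧) ^ g ∣ FF (tr n l) - FF (tr n' l) := by
  rw [pow_dvd_iff]
  intro k
  simp only [map_sub, FF, coeff_mk, tr]
  by_cases hk : min n n' ≤ k ∧ k < max n n'
  · have : (p : O) ^ g ∣ (cc k : O) := by
      have := Nat.cast_dvd_cast (α := O) (h k hk.1 hk.2)
      rwa [Nat.cast_pow] at this
    exact dvd_sub (this.mul_left _) (this.mul_left _)
  · by_cases h1 : k < n
    · rw [if_pos h1, if_pos (by omega)]; simp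
    · rw [if_neg h1, if_neg (by omega)]; simp

lemma cov_of_ok [IsDomain O] {p : ℕ} (H : PRing p O) (g n : ℕ) (h : Ok p g n) : Cov O p g n := by
  induction g generalizing n with
  | zero => intro ρ _; simp
  | succ g ih =>
    obtain ⟨m, hm, hk⟩ := h
    intro ρ hρ
    obtain ⟨a, ha⟩ := cov_mul H (ih m hm) ρ hρ
    obtain ⟨b, hb⟩ := tr_congr hk ρ
    obtain ⟨c, hc⟩ := tr_congr hk (fun _ => (1 : O))
    exact ⟨a + FF (fun _ => 1) * b - FF ρ * c, by
      linear_combination ha + FF (fun _ => (1 : O)) * hb - FF ρ * hc⟩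

end Pool.Agent.Lib.MP_db9bd2_nt
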