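import Pool.Agent.Lib.MP_db9bd2_nt.Main

/-! Divisibility of the numerator by the denominator. -/

namespace Pool.Agent.Lib.MP_db9bd2_nt

lemma exists_valuation (p : ℕ) (hp : p.Prime) :
    ∃ B : ValuationSubring ℂ, ¬ IsUnit (p : B) := by
  have hI : Ideal.span {(p : (⊥ : Subring ℂ))} ≠ ⊤ := by
    rw [Ne, Ideal.span_singleton_eq_top]
    intro h
    obtain ⟨x, hx⟩ := h.exists_right_inv
    obtain ⟨n, hn⟩ := Subring.mem_bot.1 x.2
    have h1 := congrArg (⊥ : Subring ℂ).subtype hx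
    rw [map_mul, map_natCast, map_one, Subring.subtype_apply, ← hn] at h1
    have h2 : (p : ℤ) * n = 1 := by exact_mod_cast h1
    have h3 := Int.eq_one_of_mul_eq_one_right (by positivity) h2
    have := hp.two_le
    omega
  obtain ⟨B, -, hB⟩ := Ideal.image_subset_nonunits_valuationSubring _ hI
  refine ⟨B, ?_⟩
  have h1 : ((p : B) : ℂ) ∈ B.nonunits := hB ⟨p, Ideal.mem_span_singleton_self _, by simp⟩
  rw [ValuationSubring.coe_mem_nonunits_iff] at h1
  exact h1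

lemma root_mem (B : ValuationSubring ℂ) (a b : ℤ) (x : ℂ) (hx : x ^ 2 = a * x + b) : x ∈ B := by
  rcases B.mem_or_inv_mem x with h | h
  · exact h
  · by_cases h0 : x = 0
    · rw [h0]; exact B.zero_mem
    · have : x = a + b * x⁻¹ := by field_simp; linear_combination hx
      rw [this]
      exact B.add_mem _ _ (intCast_mem B a) (B.mul_mem _ _ (intCast_mem B b) h)

theorem large_prime (p : ℕ) (hp : p.Prime) (hD : ¬ p ∣ 640320) (g n : ℕ) (h : p ^ g ∣ dd n) :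
    (p : ℤ) ^ g ∣ SS n := by
  have : Fact p.Prime := ⟨hp⟩
  obtain ⟨B, hpu⟩ := exists_valuation p hp
  have H : PRing p B := by
    refine ⟨hp, Nat.cast_ne_zero.2 hp.ne_zero, fun m hm => ?_⟩
    obtain ⟨a, b, hab⟩ := Nat.isCoprime_iff_coprime.2 ((Nat.Prime.coprime_iff_not_dvd hp).2 hm)
    have h1 := congrArg (Int.cast : ℤ → B) hab
    push_cast at h1
    rcases IsLocalRing.isUnit_or_isUnit_of_isUnit_add (h1 ▸ isUnit_one) with h2 | h2
    · exact absurd (isUnit_of_mul_isUnit_right h2) hpu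
    · exact isUnit_of_mul_isUnit_right h2
  obtain ⟨r, hr⟩ := IsAlgClosed.exists_pow_nat_eq (1630815 : ℂ) two_pos
  obtain ⟨s, hs⟩ := IsAlgClosed.exists_pow_nat_eq (-163 : ℂ) two_pos
  have hr' : r ∈ B := root_mem B 0 1630815 r (by rw [hr]; simp)
  have hs' : (1 + s) / 2 ∈ B := root_mem B 1 (-41) _ (by push_cast; linear_combination hs / 4)
  have e1 : (⟨r, hr'⟩ : B) ^ 2 = 1630815 := Subtype.ext hr
  have e2 : (⟨(1 + s) / 2, hs'⟩ : B) ^ 2 = ⟨(1 + s) / 2, hs'⟩ - 41 :=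
    Subtype.ext (show ((1 + s) / 2) ^ 2 = (1 + s) / 2 - 41 by linear_combination hs / 4)
  have ho := ok_of_dvd p (by rintro rfl; exact hD (by norm_num)) g n h
  have key : (p : B) ^ g ∣ (SS n : B) := by
    rcases IsLocalRing.isUnit_or_isUnit_one_sub_self (⟨(1 + s) / 2, hs'⟩ : B) with hu | hu
    · exact main_abstract H hpu hD _ _ e1 e2 hu g n ho
    · exact main_abstract H hpu hD _ _ e1 (by linear_combination e2) hu g n ho
  by_cases h0 : SS n = 0
  · rw [h0]; exact dvd_zero _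
  obtain ⟨e, u, hu, he⟩ := Nat.exists_eq_pow_mul_and_not_dvd (Int.natAbs_ne_zero.2 h0) p hp.ne_one
  have h1 : e ≥ g := by
    by_contra hc
    have h2 : (p : B) ^ g ∣ ((SS n).natAbs : B) := by
      rcases Int.natAbs_eq (SS n) with h3 | h3
      · rwa [h3, Int.cast_natCast] at key
      · rwa [h3, Int.cast_neg, Int.cast_natCast, dvd_neg] at key
    have h3 := (pow_dvd_pow _ (by omega : e + 1 ≤ g)).trans h2
    rw [he, Nat.cast_mul, Nat.cast_pow, pow_succ, mul_dvd_mul_iff_left (pow_ne_zero e H.ne)] at h3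
    exact hpu (isUnit_of_dvd_unit h3 (H.unit u hu))
  rw [← Int.dvd_natAbs, he]
  exact_mod_cast (pow_dvd_pow p h1).mul_right u

theorem ne_three (p : ℕ) (hp : p.Prime) (h3 : p ≠ 3) (g n : ℕ) (hn : 2 ≤ n) (h : p ^ g ∣ dd n) :
    (p : ℤ) ^ g ∣ SS n := by
  have : Fact p.Prime := ⟨hp⟩
  by_cases hD : p ∣ 640320
  · by_cases h2 : p = 2
    · subst h2; exact small_two g n hn h
    · exact small_five p (hp.five_le_of_ne_two_of_ne_three h2 h3) (by exact_mod_cast hD) g n h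
  · exact large_prime p hp hD g n h

lemma int_dvd_of_primes (d : ℕ) (x : ℤ)
    (h : ∀ p g : ℕ, p.Prime → p ^ g ∣ d → (p : ℤ) ^ g ∣ x) : (d : ℤ) ∣ x := by
  rw [Int.natCast_dvd, Nat.dvd_iff_prime_pow_dvd_dvd]
  intro p g hp hd
  rw [← Int.natCast_dvd]
  exact_mod_cast h p g hp hd

theorem dd_dvd (n : ℕ) (hn : 2 ≤ n) (h : ¬ ∃ e, 2 * n + 1 = 3 ^ e) : (dd n : ℤ) ∣ SS n := by
  apply int_dvd_of_primes
  intro p g hp hd
  by_cases h3 : p = 3
  · subst h3; exact small_three_good g n hn h hd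
  · exact ne_three p hp h3 g n hn hd

theorem dd_dvd_three (n : ℕ) (hn : 2 ≤ n) (h : ∃ e, 2 * n + 1 = 3 ^ e) :
    ∃ z : ℤ, 3 * SS n = dd n * z ∧ ¬ 3 ∣ z := by
  obtain ⟨h1, h2⟩ := small_three_bad n hn h
  obtain ⟨z, hz⟩ : (dd n : ℤ) ∣ 3 * SS n := by
    apply int_dvd_of_primes
    intro p g hp hd
    by_cases h3 : p = 3
    · subst h3; exact h1 g hd
    · exact (ne_three p hp h3 g n hn hd).mul_left _
  refine ⟨z, hz, ?_⟩
  rintro ⟨y, rfl⟩
  apply h2
  have h3 : SS n = dd n * y := by linarith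
  rw [h3]
  apply Dvd.dvd.mul_right
  exact_mod_cast (pow_padicValNat_dvd (p := 3) (n := dd n))

end Pool.Agent.Lib.MP_db9bd2_nt
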