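import Pool.Agent.Lib.MP_db9bd2_nt.Limit

/-! The key congruence between truncations at `n` and at `m`, at a point. -/

namespace Pool.Agent.Lib.MP_db9bd2_nt

open Finset

section
variable {R : Type} [CommRing R]

/-- Truncated sums. -/
def YY (i n : ℕ) (z : R) : R := ∑ k ∈ range n, (k : R) ^ i * (cc k : R) * (z * (1 - 432 * z)) ^ k

/-- Component along `f g`. -/
def k1 (n : ℕ) (z : R) : R := 2 * (1 - 864 * z) * YY 1 n z - 288 * z * YY 0 n z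

/-- Component along `g^2`. -/
def k2 (n : ℕ) (z : R) : R :=
  8 * ((1 - 864 * z) ^ 2 * YY 2 n z - 864 * (z * (1 - 432 * z)) * YY 1 n z -
    120 * (z * (1 - 432 * z)) * YY 0 n z) -
    1152 * z * (1 - 864 * z) * YY 1 n z + 82944 * z ^ 2 * YY 0 n z

lemma map_YY {S : Type} [CommRing S] (φ : R →+* S) (i n : ℕ) (z : R) :
    φ (YY i n z) = YY i n (φ z) := by
  unfold YY; simp [map_ofNat]

lemma map_k1 {S : Type} [CommRing S] (φ : R →+* S) (n : ℕ) (z : R) :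
    φ (k1 n z) = k1 n (φ z) := by
  unfold k1; simp [map_ofNat, map_YY]

lemma map_k2 {S : Type} [CommRing S] (φ : R →+* S) (n : ℕ) (z : R) :
    φ (k2 n z) = k2 n (φ z) := by
  unfold k2; simp [map_ofNat, map_YY]

/-- The transfer relation. -/
structure Rel (p M g n m : ℕ) (z k11 k12 k21 k22 : R) : Prop where
  e0 : (p : R) ^ (g + 1) ∣ (Dl (z ^ p) ^ (M + 1)) ^ 2 * YY 0 n z -
    (k11 ^ 2 * YY 0 m (z ^ p) + 2 * k11 * k12 * k1 m (z ^ p) + k12 ^ 2 * k2 m (z ^ p))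
  e1 : (p : R) ^ (g + 1) ∣ (Dl (z ^ p) ^ (M + 1)) ^ 2 * k1 n z -
    (k11 * k21 * YY 0 m (z ^ p) + (k11 * k22 + k12 * k21) * k1 m (z ^ p) +
      k12 * k22 * k2 m (z ^ p))
  e2 : (p : R) ^ (g + 1) ∣ (Dl (z ^ p) ^ (M + 1)) ^ 2 * k2 n z -
    (k21 ^ 2 * YY 0 m (z ^ p) + 2 * k21 * k22 * k1 m (z ^ p) + k22 ^ 2 * k2 m (z ^ p))

lemma Rel.map {S : Type} [CommRing S] (φ : R →+* S) {p M g n m : ℕ} {z k11 k12 k21 k22 : R}
    (r : Rel p M g n m z k11 k12 k21 k22) :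
    Rel p M g n m (φ z) (φ k11) (φ k12) (φ k21) (φ k22) := by
  refine ⟨?_, ?_, ?_⟩
  · simpa [map_YY, map_k1, map_k2, map_Dl, map_ofNat] using map_dvd φ r.e0
  · simpa [map_YY, map_k1, map_k2, map_Dl, map_ofNat] using map_dvd φ r.e1
  · simpa [map_YY, map_k1, map_k2, map_Dl, map_ofNat] using map_dvd φ r.e2

lemma Rel.of_map {S : Type} [CommRing S] (φ : R →+* S) {p M g n m : ℕ} {z k11 k12 k21 k22 : R}
    (hφ : ∀ x, (p : S) ^ (g + 1) ∣ φ x → (p : R) ^ (g + 1) ∣ x)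
    (r : Rel p M g n m (φ z) (φ k11) (φ k12) (φ k21) (φ k22)) :
    Rel p M g n m z k11 k12 k21 k22 := by
  refine ⟨hφ _ ?_, hφ _ ?_, hφ _ ?_⟩
  · simpa [map_YY, map_k1, map_k2, map_Dl, map_ofNat] using r.e0
  · simpa [map_YY, map_k1, map_k2, map_Dl, map_ofNat] using r.e1
  · simpa [map_YY, map_k1, map_k2, map_Dl, map_ofNat] using r.e2

lemma dvd_mul_congr {P a a' b b' : R} (h1 : P ∣ a - a') (h2 : P ∣ b - b') :
    P ∣ a * b - a' * b' := by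
  obtain ⟨x, hx⟩ := h1
  obtain ⟨y, hy⟩ := h2
  exact ⟨x * b + a' * y, by linear_combination b * hx + a' * hy⟩

end

variable {O : Type} [CommRing O]
open PowerSeries

lemma sb_FF_tr (n : ℕ) (l : ℕ → O) :
    sb (FF (tr n l)) = ∑ k ∈ range n, PowerSeries.C (l k) * (cc k : O⟦X⟧) * tz O ^ k := by
  have : FF (tr n l) = ∑ k ∈ range n, (l k * cc k) • (X : O⟦X⟧) ^ k := by
    ext j
    simp only [FF, tr, coeff_mk, map_sum, coeff_smul, coeff_X_pow, smul_eq_mul, mul_ite, mul_one,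
      mul_zero, Finset.sum_ite_eq, mem_range]
    split_ifs <;> simp
  rw [this, map_sum]
  refine Finset.sum_congr rfl fun k _ => ?_
  rw [map_smul, map_pow, sb_X, smul_eq_C_mul, map_mul, map_natCast]

lemma sb_Y0 (n : ℕ) : sb (FF (tr n fun _ => (1 : O))) = YY 0 n X := by
  rw [sb_FF_tr]; unfold YY tz; simp

lemma sb_Y1 (n : ℕ) : sb (th (FF (tr n fun _ => (1 : O)))) = YY 1 n X := by
  rw [th_FF_tr, sb_FF_tr]; unfold YY tz; simp

lemma sb_Y2 (n : ℕ) : sb (th (th (FF (tr n fun _ => (1 : O))))) = YY 2 n X := by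
  rw [th_FF_tr, th_FF_tr, sb_FF_tr]; unfold YY tz; simp [sq]

lemma K_trunc' [IsDomain O] [CharZero O] {p g n : ℕ} (h : Cov O p g n) :
    YY 0 n X = sb (ph O n) * ff O ^ 2 ∧
    (p : O⟦X⟧) ^ g ∣ k1 n X - sb (ph O n) * (ff O * gg O) ∧
    (p : O⟦X⟧) ^ g ∣ k2 n X - sb (ph O n) * gg O ^ 2 := by
  have := K_trunc h
  unfold K1 K2 at this
  rw [sb_Y0, sb_Y1, sb_Y2] at this
  exact this

theorem rel_series [IsDomain O] [CharZero O] {p h M g n m : ℕ} (hp : p = 2 * h + 1)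
    (H : PRing p O) {k11 k12 k21 k22 : O⟦X⟧} (c : CD p h M (X : O⟦X⟧) k11 k12 k21 k22)
    (hg : g ≤ M) (hm : Ok p g m)
    (hk : ∀ k, min n (p * m) ≤ k → k < max n (p * m) → p ^ (g + 1) ∣ cc k) :
    Rel p M g n m X k11 k12 k21 k22 := by
  obtain ⟨l1, l2⟩ := cd_limit hp H c
  replace l1 := (pow_dvd_pow _ (by omega : g + 1 ≤ M + 1)).trans l1
  replace l2 := (pow_dvd_pow _ (by omega : g + 1 ≤ M + 1)).trans l2
  have l0 := ph_step H (cov_of_ok H g m hm) hk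
  obtain ⟨a0, ⟨a1, ha1⟩, ⟨a2, ha2⟩⟩ := K_trunc' (cov_of_ok H (g + 1) n ⟨m, hm, hk⟩)
  obtain ⟨b0, b1, b2⟩ := K_trunc' (cov_of_ok H g m hm)
  have b0' := congrArg (expand p H.prime.ne_zero) b0
  obtain ⟨b1', hb1⟩ := map_dvd_pow (expand p H.prime.ne_zero) b1
  obtain ⟨b2', hb2⟩ := map_dvd_pow (expand p H.prime.ne_zero) b2
  have m0 := map_YY (expand p H.prime.ne_zero (R := O)).toRingHom 0 m (X : O⟦X⟧)
  have m1 := map_k1 (expand p H.prime.ne_zero (R := O)).toRingHom m (X : O⟦X⟧)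
  have m2 := map_k2 (expand p H.prime.ne_zero (R := O)).toRingHom m (X : O⟦X⟧)
  simp only [AlgHom.toRingHom_eq_coe, RingHom.coe_coe, expand_X] at m0 m1 m2
  rw [map_mul, map_pow, m0] at b0'
  rw [map_sub, map_mul, map_mul, m1] at hb1
  rw [map_sub, map_mul, map_pow, m2] at hb2
  obtain ⟨c12, rfl⟩ := c.d12
  obtain ⟨c22, rfl⟩ := c.d22
  obtain ⟨w0, hw0⟩ := dvd_mul_congr l0 (dvd_mul_congr l1 l1)
  obtain ⟨w1, hw1⟩ := dvd_mul_congr l0 (dvd_mul_congr l1 l2)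
  obtain ⟨w2, hw2⟩ := dvd_mul_congr l0 (dvd_mul_congr l2 l2)
  refine ⟨⟨w0 - 2 * k11 * c12 * b1' - p * c12 ^ 2 * b2', ?_⟩,
    ⟨w1 + (Dl ((X : O⟦X⟧) ^ p) ^ (M + 1)) ^ 2 * a1 - (k11 * c22 + c12 * k21) * b1' -
      p * c12 * c22 * b2', ?_⟩,
    ⟨w2 + (Dl ((X : O⟦X⟧) ^ p) ^ (M + 1)) ^ 2 * a2 - 2 * k21 * c22 * b1' -
      p * c22 ^ 2 * b2', ?_⟩⟩
  · rw [a0, b0', eq_add_of_sub_eq hb1, eq_add_of_sub_eq hb2]
    linear_combination hw0
  · rw [b0', eq_add_of_sub_eq hb1, eq_add_of_sub_eq hb2, eq_add_of_sub_eq ha1]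
    linear_combination hw1
  · rw [b0', eq_add_of_sub_eq hb1, eq_add_of_sub_eq hb2, eq_add_of_sub_eq ha2]
    linear_combination hw2

lemma PRing.poly [IsDomain O] {p : ℕ} (H : PRing p O) : PRing p (Polynomial O) := by
  refine ⟨H.prime, ?_, fun n hn => ?_⟩
  · rw [← Polynomial.C_eq_natCast]; exact Polynomial.C_ne_zero.2 H.ne
  · rw [← Polynomial.C_eq_natCast]; exact (H.unit n hn).map Polynomial.C

theorem key [IsDomain O] [CharZero O] {p h : ℕ} (hp : p = 2 * h + 1) (H : PRing p O) (M : ℕ)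
    (ζ : O) : ∃ k11 k12 k21 k22 : O, CD p h M ζ k11 k12 k21 k22 ∧
      ∀ g n m, g ≤ M → Ok p g m →
        (∀ k, min n (p * m) ≤ k → k < max n (p * m) → p ^ (g + 1) ∣ cc k) →
        Rel p M g n m ζ k11 k12 k21 k22 := by
  obtain ⟨k11, k12, k21, k22, c⟩ := exists_CD hp H.poly M Polynomial.X
  have e1 : Polynomial.evalRingHom ζ Polynomial.X = ζ := by simp
  have c1 := c.map (Polynomial.evalRingHom ζ)
  rw [e1] at c1
  refine ⟨_, _, _, _, c1, fun g n m hg hm hk => ?_⟩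
  have e2 : Polynomial.coeToPowerSeries.ringHom (Polynomial.X : Polynomial O) = X := by simp
  have c2 := c.map Polynomial.coeToPowerSeries.ringHom
  rw [e2] at c2
  have r := rel_series hp H c2 hg hm hk
  rw [← e2] at r
  have r2 := (r.of_map _ ?_).map (Polynomial.evalRingHom ζ)
  · rwa [e1] at r2
  · intro x hx
    rw [pow_dvd_iff] at hx
    rw [← Polynomial.C_eq_natCast, ← Polynomial.C_pow, Polynomial.C_dvd_iff_dvd_coeff]
    intro i
    simpa using hx i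

end Pool.Agent.Lib.MP_db9bd2_nt
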