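import Pool.Agent.Lib.MP_db9bd2_nt.Clausen
import Pool.Agent.Lib.MP_db9bd2_nt.Cartier

/-! The Cartier matrix acts on the period series. -/

namespace Pool.Agent.Lib.MP_db9bd2_nt

open Finset

/-- The exponent `(p^S - 1)/2`. -/
def NN (p h : ℕ) : ℕ → ℕ
  | 0 => 0
  | S + 1 => p * NN p h S + h

lemma NN_spec {p h : ℕ} (hp : p = 2 * h + 1) (S : ℕ) : 2 * NN p h S + 1 = p ^ S := by
  induction S with
  | zero => rfl
  | succ S ih => rw [NN, pow_succ, ← ih, hp]; ring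

section
variable {R : Type} [CommRing R]
open Polynomial

lemma Qz_pow (z : R) (n : ℕ) : Qz z ^ n = ∑ k ∈ range (n + 1),
    C ((-64 * z) ^ k * n.choose k) * (X ^ (2 * (n - k)) * (X + 1) ^ (n - k)) := by
  have : Qz z = C (-64 * z) + X ^ 2 * (X + 1) := by
    unfold Qz; simp only [map_mul, map_neg, map_ofNat]; ring
  rw [this, add_pow]
  refine Finset.sum_congr rfl fun k _ => ?_
  rw [mul_pow, ← pow_mul, C_mul (a := (-64 * z) ^ k), C_pow, map_natCast]; ring

lemma ca_eq (z : R) (n : ℕ) : ca z n (2 * n) = ∑ k ∈ range (n + 1),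
    ((-64) ^ k * n.choose k * (n - k).choose (2 * k) : R) * z ^ k := by
  unfold ca
  rw [Qz_pow, finsetSum_coeff]
  refine Finset.sum_congr rfl fun k hk => ?_
  rw [mem_range] at hk
  rw [coeff_C_mul, show 2 * n = 2 * k + 2 * (n - k) by omega, coeff_X_pow_mul,
    coeff_X_add_one_pow, mul_pow]
  ring

lemma cb_eq (z : R) (n : ℕ) : cb z n (2 * n) = ∑ k ∈ range (n + 1),
    (if k = 0 then 0 else (-64) ^ k * n.choose k * (n - k).choose (2 * k - 1) : R) * z ^ k := by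
  unfold cb
  rw [Qz_pow, Finset.mul_sum, finsetSum_coeff]
  refine Finset.sum_congr rfl fun k hk => ?_
  rw [mem_range] at hk
  rw [mul_left_comm, coeff_C_mul, ← mul_assoc X, ← pow_succ']
  split_ifs with h0
  · rw [coeff_X_pow_mul', if_neg (by omega)]; simp
  · rw [show 2 * n = (2 * k - 1) + (2 * (n - k) + 1) by omega, coeff_X_pow_mul,
      coeff_X_add_one_pow, mul_pow]
    ring

end

lemma binom_half (n j : ℕ) : (2 * n + 1 : ℤ) ∣
    (j.factorial : ℤ) * ((-4) ^ j * n.choose j - (2 * j).choose j) := by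
  induction j with
  | zero => simp
  | succ j ih =>
    obtain ⟨w, hw⟩ := ih
    have h1 : ((n.choose (j + 1) : ℤ)) * (j + 1) = n.choose j * (n - j) := by
      rcases le_or_gt j n with h | h
      · have := congrArg (Nat.cast : ℕ → ℤ) (Nat.choose_succ_right_eq n j)
        push_cast [Nat.cast_sub h] at this
        exact this
      · rw [Nat.choose_eq_zero_of_lt h, Nat.choose_eq_zero_of_lt (by omega)]; simp
    have h2 := congrArg (Nat.cast : ℕ → ℤ) (Nat.succ_mul_centralBinom_succ j)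
    rw [Nat.centralBinom_eq_two_mul_choose, Nat.centralBinom_eq_two_mul_choose] at h2
    push_cast at h2
    refine ⟨(4 * j + 2) * w - 2 * j.factorial * (-4) ^ j * n.choose j, ?_⟩
    rw [Nat.factorial_succ]
    push_cast
    linear_combination (4 * j + 2) * hw + (j.factorial : ℤ) * (-4) ^ (j + 1) * h1 -
      (j.factorial : ℤ) * h2

/-- Coefficients of the second period, up to the factor `-4`. -/
def GG (j : ℕ) : ℕ := (2 * (3 * j + 2)).choose (3 * j + 2) * (3 * j + 2).choose (j + 1)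

lemma GG_spec (j : ℕ) : (6 * j + 5) * GG j = (j + 1) * AA (j + 1) := by
  have h1 := Nat.succ_mul_centralBinom_succ (3 * j + 2)
  rw [Nat.centralBinom_eq_two_mul_choose, Nat.centralBinom_eq_two_mul_choose] at h1
  have h2 := Nat.choose_mul_succ_eq (3 * j + 2) (j + 1)
  rw [show 3 * j + 2 + 1 - (j + 1) = 2 * j + 2 by omega] at h2
  unfold GG AA
  rw [show 6 * (j + 1) = 2 * (3 * j + 2 + 1) by ring, show 3 * (j + 1) = 3 * j + 2 + 1 by ring]
  apply Nat.eq_of_mul_eq_mul_left (show 0 < 2 * (3 * j + 2 + 1) by omega)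
  calc _ = (2 * (2 * (3 * j + 2) + 1) * (2 * (3 * j + 2)).choose (3 * j + 2)) *
        ((3 * j + 2).choose (j + 1) * (3 * j + 2 + 1)) := by ring
    _ = _ := by rw [← h1, h2]; ring

lemma GG_spec' (j : ℕ) : (j + 1) * GG j = 12 * (6 * j + 1) * AA j := by
  apply Nat.eq_of_mul_eq_mul_left (show 0 < 6 * j + 5 by omega)
  calc _ = (j + 1) * ((6 * j + 5) * GG j) := by ring
    _ = (j + 1) ^ 2 * AA (j + 1) := by rw [GG_spec]; ring
    _ = _ := by rw [AA_rec]; ring

variable {O : Type} [CommRing O]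
open PowerSeries

lemma coeff_gg_zero : coeff 0 (gg O) = 0 := by
  simp [gg, DD, tz]

lemma coeff_gg (j : ℕ) : coeff (j + 1) (gg O) = -4 * (GG j : O) := by
  have e : gg O = 4 * th (ff O) - X * (1728 * th (ff O) + 288 * ff O) := by
    unfold gg; rw [DD_eq]; ring
  rw [e, map_sub, coeff_succ_X_mul, map_add, coeff_nat_mul, coeff_nat_mul, coeff_nat_mul]
  simp only [coeff_th, ff, coeff_mk]
  have h1 := congrArg (Nat.cast : ℕ → O) (GG_spec j)
  have h2 := congrArg (Nat.cast : ℕ → O) (GG_spec' j)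
  push_cast at h1 h2 ⊢
  linear_combination 24 * h2 - 4 * h1

lemma binom_lim [IsDomain O] {p : ℕ} (H : PRing p O) (M n j : ℕ) (h : p ^ (M + j) ∣ 2 * n + 1) :
    (p : O) ^ M ∣ (-4) ^ j * n.choose j - (2 * j).choose j := by
  have : Fact p.Prime := ⟨H.prime⟩
  obtain ⟨e, u, hu, he⟩ := Nat.exists_eq_pow_mul_and_not_dvd (Nat.factorial_ne_zero j) p
    H.prime.ne_one
  have h1 : e ≤ padicValNat p j.factorial :=
    (padicValNat_dvd_iff_le (Nat.factorial_ne_zero _)).1 ⟨u, he⟩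
  have h2 := padicValNat_factorial_le (p := p) j
  have h3 := map_dvd (Int.castRingHom O) (binom_half n j)
  have h4 := Nat.cast_dvd_cast (α := O) h
  simp only [eq_intCast] at h3
  push_cast at h3 h4
  have h5 := ((pow_dvd_pow _ (by omega : e + M ≤ M + j)).trans h4).trans h3
  rw [he, pow_add] at h5
  push_cast at h5
  rwa [mul_assoc, mul_dvd_mul_iff_left (pow_ne_zero e H.ne), (H.unit u hu).dvd_mul_left] at h5

/-- Series whose first coefficients are divisible by `m`. -/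
def Sm (m : O) (k : ℕ) : Ideal O⟦X⟧ where
  carrier := {x | ∀ j ≤ k, m ∣ coeff j x}
  add_mem' := fun ha hb j hj => by rw [map_add]; exact dvd_add (ha j hj) (hb j hj)
  zero_mem' := fun j _ => by simp
  smul_mem' := fun c x hx j hj => by
    rw [smul_eq_mul, coeff_mul]
    apply Finset.dvd_sum
    intro a ha
    rw [HasAntidiagonal.mem_antidiagonal] at ha
    exact (hx a.2 (by omega)).mul_left _

lemma mem_Sm {m : O} {k : ℕ} {x : O⟦X⟧} : x ∈ Sm m k ↔ ∀ j ≤ k, m ∣ coeff j x := Iff.rfl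

lemma Sm_expand {m : O} {k p : ℕ} (hp : p ≠ 0) {x : O⟦X⟧} (h : x ∈ Sm m k) :
    expand p hp x ∈ Sm m k := by
  intro j hj
  rw [coeff_expand]
  split_ifs
  · exact h _ ((Nat.div_le_self _ _).trans hj)
  · exact dvd_zero _

lemma Sm_pow (p M k : ℕ) : (p : O⟦X⟧) ^ M ∈ Sm ((p : O) ^ M) k :=
  fun j _ => (pow_dvd_iff p M _).1 dvd_rfl j

lemma coeff_sum_X (n j : ℕ) (a : ℕ → O) (ha : ∀ k, n < k → a k = 0) :
    coeff j (∑ k ∈ range (n + 1), PowerSeries.C (a k) * X ^ k) = a j := by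
  simp only [map_sum, coeff_C_mul, coeff_X_pow, mul_ite, mul_one, mul_zero]
  rw [Finset.sum_ite_eq]
  split_ifs with h
  · rfl
  · rw [ha j (by rw [mem_range] at h; omega)]

lemma ca_Sm [IsDomain O] {p : ℕ} (H : PRing p O) (M n k : ℕ) (h : p ^ (M + 3 * k) ∣ 2 * n + 1) :
    ca (X : O⟦X⟧) n (2 * n) - ff O ∈ Sm ((p : O) ^ M) k := by
  intro j hj
  have e := coeff_sum_X n j (fun k => ((-64) ^ k * n.choose k * (n - k).choose (2 * k) : O))
    (fun k hk => by simp [Nat.choose_eq_zero_of_lt hk])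
  simp only [map_mul, map_pow, map_neg, map_ofNat, map_natCast] at e
  rw [map_sub, ca_eq, e, ff, coeff_mk]
  obtain ⟨w, hw⟩ := binom_lim H M n (3 * j) ((pow_dvd_pow _ (by omega)).trans h)
  have h1 := congrArg (Nat.cast : ℕ → O) (Nat.choose_mul (n := n) (k := 3 * j) (s := j) (by omega))
  rw [show 3 * j - j = 2 * j by omega] at h1
  unfold AA
  rw [show 2 * (3 * j) = 6 * j by ring, pow_mul] at hw
  push_cast at h1 ⊢
  refine ⟨w * (3 * j).choose j, ?_⟩
  norm_num at hw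
  linear_combination ((3 * j).choose j : O) * hw - (-64) ^ j * h1

lemma cb_Sm [IsDomain O] {p : ℕ} (H : PRing p O) (M n k : ℕ) (h : p ^ (M + 3 * k) ∣ 2 * n + 1) :
    cb (X : O⟦X⟧) n (2 * n) - gg O ∈ Sm ((p : O) ^ M) k := by
  intro j hj
  have e := coeff_sum_X n j (fun k =>
    (if k = 0 then 0 else (-64) ^ k * n.choose k * (n - k).choose (2 * k - 1) : O))
    (fun k hk => by simp [Nat.choose_eq_zero_of_lt hk])
  simp only [apply_ite PowerSeries.C, map_zero, map_mul, map_pow, map_neg, map_ofNat,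
    map_natCast] at e
  rw [map_sub, cb_eq, e]
  rcases j with _ | j
  · rw [coeff_gg_zero]; simp
  rw [coeff_gg, if_neg (by omega)]
  obtain ⟨w, hw⟩ := binom_lim H M n (3 * j + 2) ((pow_dvd_pow _ (by omega)).trans h)
  have h1 := congrArg (Nat.cast : ℕ → O)
    (Nat.choose_mul (n := n) (k := 3 * j + 2) (s := j + 1) (by omega))
  rw [show 3 * j + 2 - (j + 1) = 2 * (j + 1) - 1 by omega] at h1
  unfold GG
  rw [pow_add, pow_mul] at hw
  push_cast at h1 ⊢
  refine ⟨-4 * w * (3 * j + 2).choose (j + 1), ?_⟩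
  norm_num at hw
  linear_combination (-4) * ((3 * j + 2).choose (j + 1) : O) * hw - (-64) ^ (j + 1) * h1

theorem cd_limit [IsDomain O] {p h M : ℕ} (hp : p = 2 * h + 1) (H : PRing p O)
    {k11 k12 k21 k22 : O⟦X⟧} (c : CD p h M (X : O⟦X⟧) k11 k12 k21 k22) :
    (p : O⟦X⟧) ^ (M + 1) ∣ Dl ((X : O⟦X⟧) ^ p) ^ (M + 1) * ff O -
      (k11 * expand p H.prime.ne_zero (ff O) + k12 * expand p H.prime.ne_zero (gg O)) ∧
    (p : O⟦X⟧) ^ (M + 1) ∣ Dl ((X : O⟦X⟧) ^ p) ^ (M + 1) * gg O -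
      (k21 * expand p H.prime.ne_zero (ff O) + k22 * expand p H.prime.ne_zero (gg O)) := by
  rw [pow_dvd_iff, pow_dvd_iff, ← forall_and]
  intro k
  obtain ⟨n, hn⟩ : ∃ n, 2 * n + 1 = p ^ (M + 1 + 3 * k) := ⟨_, NN_spec hp _⟩
  have hn' : p ^ (M + 1 + 3 * k) ∣ 2 * (p * n + h) + 1 := ⟨p, by rw [← hn, hp]; ring⟩
  have a1 := ca_Sm H (M + 1) (p * n + h) k hn'
  have b1 := cb_Sm H (M + 1) (p * n + h) k hn'
  have a2 := Sm_expand H.prime.ne_zero (ca_Sm H (M + 1) n k (hn ▸ dvd_rfl))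
  have b2 := Sm_expand H.prime.ne_zero (cb_Sm H (M + 1) n k (hn ▸ dvd_rfl))
  have ea := map_ca (expand p H.prime.ne_zero (R := O)).toRingHom (X : O⟦X⟧) n (2 * n)
  have eb := map_cb (expand p H.prime.ne_zero (R := O)).toRingHom (X : O⟦X⟧) n (2 * n)
  simp only [AlgHom.toRingHom_eq_coe, RingHom.coe_coe, expand_X] at ea eb
  rw [map_sub, ea] at a2
  rw [map_sub, eb] at b2
  have hq : (2 * (n : O⟦X⟧) + 1) = (p : O⟦X⟧) ^ (M + 1) * p ^ (3 * k) := by
    rw [← pow_add]; exact_mod_cast congrArg (Nat.cast : ℕ → O⟦X⟧) hn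
  have s := Sm_pow (O := O) p (M + 1) k
  obtain ⟨b, c', e, h1⟩ := c.r1 n (2 * n)
  obtain ⟨b', c'', e', h2⟩ := c.r2 n (2 * n)
  rw [show p * (2 * n) + 2 * h = 2 * (p * n + h) by ring] at h1 h2
  push_cast at h1 h2
  constructor
  · have := Ideal.add_mem _ (Ideal.add_mem _ (Ideal.mul_mem_left _ k11 a2)
      (Ideal.mul_mem_left _ k12 b2)) (Ideal.sub_mem _
      (Ideal.mul_mem_left _ ((p : O⟦X⟧) * (p : O⟦X⟧) ^ (3 * k) * (b + c') + e) s)
      (Ideal.mul_mem_left _ (Dl ((X : O⟦X⟧) ^ p) ^ (M + 1)) a1))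
    refine mem_Sm.1 (Set.mem_of_eq_of_mem ?_ this) k le_rfl
    linear_combination h1 + (p : O⟦X⟧) * (b + c') * hq
  · have := Ideal.add_mem _ (Ideal.add_mem _ (Ideal.mul_mem_left _ k21 a2)
      (Ideal.mul_mem_left _ k22 b2)) (Ideal.sub_mem _
      (Ideal.mul_mem_left _ ((p : O⟦X⟧) * (p : O⟦X⟧) ^ (3 * k) * (b' + c'') + e') s)
      (Ideal.mul_mem_left _ (Dl ((X : O⟦X⟧) ^ p) ^ (M + 1)) b1))
    refine mem_Sm.1 (Set.mem_of_eq_of_mem ?_ this) k le_rfl
    linear_combination h2 + (p : O⟦X⟧) * (b' + c'') * hq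

end Pool.Agent.Lib.MP_db9bd2_nt
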