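import Pool.Agent.Lib.MP_db9bd2_nt.Val

/-! The primes dividing `640320`: termwise divisibility. -/

namespace Pool.Agent.Lib.MP_db9bd2_nt

open Finset Nat

/-- One term of the numerator. -/
def TT (n k : ℕ) : ℤ := (545140134 * k + 13591409) * (cc k : ℤ) * (-(640320 : ℤ) ^ 3) ^ (n - 1 - k)

/-- The numerator. -/
def SS (n : ℕ) : ℤ := ∑ k ∈ range n, TT n k

lemma lin_lt_pow (i : ℕ) (hi : 1 ≤ i) : 3 * i + 4 < 2 ^ (3 * i + 1) := by
  induction i, hi using Nat.le_induction with
  | base => norm_num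
  | succ i hi ih =>
    rw [show 3 * (i + 1) + 1 = 3 * i + 1 + 3 by ring, pow_add]
    omega

lemma term_dvd (p : ℕ) (g k i e : ℕ) (hg : g ≤ padicValNat p (cc k) + e * i)
    (he : (p : ℤ) ^ e ∣ -(640320 : ℤ) ^ 3) : (p : ℤ) ^ g ∣ TT (k + i + 1) k := by
  have h1 : (p : ℤ) ^ padicValNat p (cc k) ∣ (cc k : ℤ) := by
    exact_mod_cast (pow_padicValNat_dvd (p := p) (n := cc k))
  have h2 : (p : ℤ) ^ (e * i) ∣ (-(640320 : ℤ) ^ 3) ^ i := by
    rw [pow_mul]; exact pow_dvd_pow_of_dvd he i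
  unfold TT
  rw [show k + i + 1 - 1 - k = i by omega, mul_assoc]
  apply Dvd.dvd.mul_left
  exact (pow_dvd_pow _ hg).trans (by rw [pow_add]; exact mul_dvd_mul h1 h2)

lemma val_two_eq_zero (p : ℕ) [hp : Fact p.Prime] (hp2 : p ≠ 2) : padicValNat p 2 = 0 := by
  apply padicValNat.eq_zero_of_not_dvd
  intro hd
  exact hp2 ((Nat.prime_dvd_prime_iff_eq hp.out Nat.prime_two).1 hd)

lemma term_dvd_pos (p : ℕ) [hp : Fact p.Prime] (hp2 : p ≠ 2) (hD : (p : ℤ) ∣ 640320)
    (g k i : ℕ) (hi : 1 ≤ i) (hg : p ^ g ∣ dd (k + i + 1)) : (p : ℤ) ^ g ∣ TT (k + i + 1) k := by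
  have hv := (padicValNat_dvd_iff_le (dd_pos (k + i)).ne').1 hg
  have h1 := val_dd_le p k i (3 * i)
    (lt_of_lt_of_le (lin_lt_pow i hi) (Nat.pow_le_pow_left hp.out.two_le _))
  rw [val_two_eq_zero p hp2] at h1
  exact term_dvd p g k i 3 (by omega) ((pow_dvd_pow_of_dvd hD 3).neg_right)

lemma small_five (p : ℕ) [hp : Fact p.Prime] (hp5 : 5 ≤ p) (hD : (p : ℤ) ∣ 640320)
    (g n : ℕ) (hg : p ^ g ∣ dd n) : (p : ℤ) ^ g ∣ SS n := by
  apply Finset.dvd_sum
  intro k hk
  rw [mem_range] at hk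
  obtain ⟨i, rfl⟩ : ∃ i, n = k + i + 1 := ⟨n - k - 1, by omega⟩
  rcases Nat.eq_zero_or_pos i with rfl | hi
  · have hv := (padicValNat_dvd_iff_le (dd_pos (k + 0)).ne').1 hg
    have h1 := val_dd_le p k 0 0 (by simp; omega)
    rw [val_two_eq_zero p (by omega)] at h1
    exact term_dvd p g k 0 0 (by omega) (by simp)
  · exact term_dvd_pos p (by omega) hD g k i hi hg

lemma dd_succ (k : ℕ) : dd (k + 1) = 4 * (2 * k + 3) * (2 * k + 1) * (2 * k).choose k := by
  have h := Nat.succ_mul_centralBinom_succ k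
  rw [Nat.centralBinom_eq_two_mul_choose, Nat.centralBinom_eq_two_mul_choose] at h
  unfold dd
  calc 2 * (k + 1) * (2 * (k + 1) + 1) * (2 * (k + 1)).choose (k + 1)
      = 2 * (2 * k + 3) * ((k + 1) * (2 * (k + 1)).choose (k + 1)) := by ring
    _ = _ := by rw [h]; ring

lemma small_two (g n : ℕ) (hn : 2 ≤ n) (hg : 2 ^ g ∣ dd n) : (2 : ℤ) ^ g ∣ SS n := by
  apply Finset.dvd_sum
  intro k hk
  rw [mem_range] at hk
  obtain ⟨i, rfl⟩ : ∃ i, n = k + i + 1 := ⟨n - k - 1, by omega⟩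
  have hv := (padicValNat_dvd_iff_le (dd_pos (k + i)).ne').1 hg
  rcases Nat.eq_zero_or_pos i with rfl | hi
  · refine term_dvd 2 g k 0 0 ?_ (by simp)
    have h0 := congrArg (padicValNat 2) (cc_mul k)
    rw [padicValNat.mul (cc_pos k).ne' (by positivity),
      padicValNat.mul (Nat.factorial_ne_zero _) (by positivity), padicValNat.pow,
      show 6 * k = 2 * (3 * k) by ring, padicValNat_factorial_mul] at h0
    have h1 := congrArg (padicValNat 2) (cen_mul k)
    have hc : 0 < (2 * k).choose k := Nat.choose_pos (by omega)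
    rw [padicValNat.mul hc.ne' (by positivity),
      padicValNat.mul (Nat.factorial_ne_zero _) (Nat.factorial_ne_zero _),
      padicValNat_factorial_mul] at h1
    have h2 := padicValNat_factorial_lt_of_ne_zero (p := 2) (n := k) (by omega)
    rw [add_zero, dd_succ, padicValNat.mul (by positivity) hc.ne',
      padicValNat.mul (by positivity) (by positivity),
      padicValNat.mul (by positivity) (by positivity),
      padicValNat.eq_zero_of_not_dvd (n := 2 * k + 3) (by omega),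
      padicValNat.eq_zero_of_not_dvd (n := 2 * k + 1) (by omega),
      show (4 : ℕ) = 2 ^ 2 by norm_num, padicValNat.prime_pow] at hv
    omega
  · have h1 := val_dd_le 2 k i (3 * i) (lin_lt_pow i hi)
    rw [padicValNat_self] at h1
    exact term_dvd 2 g k i 18 (by omega) (by norm_num)

lemma three_digits (e k : ℕ) (h : 3 ^ e ∣ 2 * k + 1) :
    e + 2 * padicValNat 3 k ! ≤ k ∧ (2 * k + 1 = 3 ^ e → e + 2 * padicValNat 3 k ! = k) ∧
      (2 * k + 1 ≠ 3 ^ e → e + 2 * padicValNat 3 k ! + 1 ≤ k) := by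
  have : Fact (Nat.Prime 3) := ⟨Nat.prime_three⟩
  induction e generalizing k with
  | zero =>
    rcases Nat.eq_zero_or_pos k with rfl | hk
    · simp
    · have := sub_one_mul_padicValNat_factorial_lt_of_ne_zero (p := 3) (n := k) (by omega)
      refine ⟨by omega, fun h => by omega, fun _ => by omega⟩
  | succ e ih =>
    obtain ⟨c, hc⟩ := h
    obtain ⟨j, rfl⟩ : ∃ j, k = 3 * j + 1 := ⟨k / 3, by rw [pow_succ', mul_assoc] at hc; omega⟩
    have h1 : 2 * j + 1 = 3 ^ e * c := by rw [pow_succ', mul_assoc] at hc; omega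
    obtain ⟨i1, i2, i3⟩ := ih j ⟨c, h1⟩
    rw [padicValNat_factorial_mul_add j (by norm_num : 1 < 3), padicValNat_factorial_mul, pow_succ']
    refine ⟨by omega, fun h => by omega, fun h => by omega⟩

lemma val_AA_three (k : ℕ) : padicValNat 3 (AA k) + 2 * padicValNat 3 k ! = k := by
  have : Fact (Nat.Prime 3) := ⟨Nat.prime_three⟩
  have h0 := congrArg (padicValNat 3) (AA_mul k)
  rw [padicValNat.mul (AA_pos k).ne' (by positivity),
    padicValNat.mul (by positivity) (Nat.factorial_ne_zero _),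
    padicValNat.mul (Nat.factorial_ne_zero _) (Nat.factorial_ne_zero _),
    show 6 * k = 3 * (2 * k) by ring, padicValNat_factorial_mul, padicValNat_factorial_mul] at h0
  omega

lemma val_three (k : ℕ) (hk : 1 ≤ k) :
    ((∃ e, 2 * k + 3 = 3 ^ e) → padicValNat 3 (dd (k + 1)) = padicValNat 3 (cc k) + 1) ∧
    ((¬ ∃ e, 2 * k + 3 = 3 ^ e) → padicValNat 3 (dd (k + 1)) ≤ padicValNat 3 (cc k)) := by
  have : Fact (Nat.Prime 3) := ⟨Nat.prime_three⟩
  have hc : 0 < (2 * k).choose k := Nat.choose_pos (by omega)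
  have hA := val_AA_three k
  rw [dd_succ, cc, padicValNat.mul (by positivity) hc.ne',
      padicValNat.mul (by positivity) (by positivity),
      padicValNat.mul (by positivity) (by positivity),
      padicValNat.mul (AA_pos k).ne' hc.ne',
      padicValNat.eq_zero_of_not_dvd (n := 4) (by omega)]
  by_cases h3 : 3 ∣ k
  · obtain ⟨j, rfl⟩ := h3
    rw [padicValNat.eq_zero_of_not_dvd (n := 2 * (3 * j) + 1) (by omega),
      show 2 * (3 * j) + 3 = 3 * (2 * j + 1) by ring, padicValNat.mul (by norm_num) (by positivity),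
      padicValNat_self]
    rw [padicValNat_factorial_mul] at hA
    obtain ⟨i1, i2, i3⟩ := three_digits (padicValNat 3 (2 * j + 1)) j pow_padicValNat_dvd
    constructor
    · rintro ⟨e, he⟩
      rcases e with _ | e
      · omega
      have h1 : 2 * j + 1 = 3 ^ e := by rw [pow_succ'] at he; omega
      have h2 : padicValNat 3 (2 * j + 1) = e := by rw [h1, padicValNat.prime_pow]
      have := i2 (by rw [h2]; exact h1)
      omega
    · intro he
      have := i3 (fun h => he ⟨padicValNat 3 (2 * j + 1) + 1, by rw [pow_succ', ← h]⟩)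
      omega
  · rw [padicValNat.eq_zero_of_not_dvd (n := 2 * k + 3) (by omega)]
    obtain ⟨i1, -, -⟩ := three_digits (padicValNat 3 (2 * k + 1)) k pow_padicValNat_dvd
    constructor
    · rintro ⟨e, he⟩
      rcases e with _ | e
      · omega
      · rw [pow_succ'] at he; omega
    · intro _; omega

lemma SS_succ (k : ℕ) : SS (k + 1) = (∑ j ∈ range k, TT (k + 1) j) + TT (k + 1) k := by
  unfold SS; rw [Finset.sum_range_succ]

lemma three_rest (g k : ℕ) (hg : 3 ^ g ∣ dd (k + 1)) :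
    (3 : ℤ) ^ g ∣ ∑ j ∈ range k, TT (k + 1) j := by
  have : Fact (Nat.Prime 3) := ⟨Nat.prime_three⟩
  apply Finset.dvd_sum
  intro j hj
  rw [mem_range] at hj
  obtain ⟨i, rfl⟩ : ∃ i, k = j + i := ⟨k - j, by omega⟩
  exact term_dvd_pos 3 (by norm_num) (by norm_num) g j i (by omega) hg

lemma small_three_good (g n : ℕ) (hn : 2 ≤ n) (h : ¬ ∃ e, 2 * n + 1 = 3 ^ e)
    (hg : 3 ^ g ∣ dd n) : (3 : ℤ) ^ g ∣ SS n := by
  have : Fact (Nat.Prime 3) := ⟨Nat.prime_three⟩
  obtain ⟨k, rfl⟩ : ∃ k, n = k + 1 := ⟨n - 1, by omega⟩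
  rw [SS_succ]
  apply dvd_add (three_rest g k hg)
  have hv := (padicValNat_dvd_iff_le (dd_pos k).ne').1 hg
  have := (val_three k (by omega)).2 h
  exact term_dvd 3 g k 0 0 (by omega) (by simp)

lemma small_three_bad (n : ℕ) (hn : 2 ≤ n) (h : ∃ e, 2 * n + 1 = 3 ^ e) :
    (∀ g, 3 ^ g ∣ dd n → (3 : ℤ) ^ g ∣ 3 * SS n) ∧ ¬ (3 : ℤ) ^ padicValNat 3 (dd n) ∣ SS n := by
  have : Fact (Nat.Prime 3) := ⟨Nat.prime_three⟩
  obtain ⟨k, rfl⟩ : ∃ k, n = k + 1 := ⟨n - 1, by omega⟩
  have h1 := (val_three k (by omega)).1 h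
  constructor
  · intro g hg
    have hv := (padicValNat_dvd_iff_le (dd_pos k).ne').1 hg
    rw [SS_succ, mul_add]
    apply dvd_add ((three_rest g k hg).mul_left _)
    have := term_dvd 3 (padicValNat 3 (cc k)) k 0 0 (by omega) (by simp)
    refine (pow_dvd_pow _ (by omega : g ≤ padicValNat 3 (cc k) + 1)).trans ?_
    rw [_root_.pow_succ']
    exact mul_dvd_mul_left _ this
  · intro hd
    rw [SS_succ] at hd
    have h2 := (dvd_add_right (three_rest _ k pow_padicValNat_dvd)).1 hd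
    unfold TT at h2
    rw [show k + 1 - 1 - k = 0 by omega, pow_zero, mul_one, h1] at h2
    have h3 : IsCoprime ((3 : ℤ) ^ (padicValNat 3 (cc k) + 1)) (545140134 * k + 13591409) := by
      apply IsCoprime.pow_left
      exact ⟨-(363426756 * k + 9060939), 2, by ring⟩
    have h4 := h3.dvd_of_dvd_mul_left h2
    have h5 : 3 ^ (padicValNat 3 (cc k) + 1) ∣ cc k := by exact_mod_cast h4
    have := (padicValNat_dvd_iff_le (cc_pos k).ne').1 h5
    omega

end Pool.Agent.Lib.MP_db9bd2_nt
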