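import Pool.Agent.Lib.MP_db9bd2_nt.Rec
import Pool.Agent.Lib.MP_db9bd2_nt.Cert
import Pool.Agent.Lib.MP_db9bd2_nt.Small

/-! The primes not dividing `640320`. -/

namespace Pool.Agent.Lib.MP_db9bd2_nt

open Finset Polynomial

variable {O : Type} [CommRing O]

lemma Fr.inv {p : ℕ} {x y x' y' : O} (h : Fr p x y) (hx : x * x' = 1) (hy : y * y' = 1) :
    Fr p x' y' := by
  obtain ⟨a, ha⟩ := h
  have h1 : x ^ p * x' ^ p = 1 := by rw [← mul_pow, hx, one_pow]
  exact ⟨-(x' ^ p * y' * a), by linear_combination (-(x' ^ p * y')) * ha + y' * h1 - x' ^ p * hy⟩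

lemma dvd_of_fr_fr [IsLocalRing O] {p : ℕ} (hp : p.Prime) {a b : O} (h1 : Fr p a b)
    (h2 : Fr p b a) (ha : ¬ IsUnit a) : (p : O) ∣ a := by
  have h3 : (p : O) ∣ (a ^ p) ^ p - b ^ p := Dvd.dvd.trans h1 (sub_dvd_pow_sub_pow _ _ p)
  have h4 := dvd_add h3 h2
  obtain ⟨e, he⟩ : ∃ e, p * p = e + 2 := ⟨p * p - 2, by have := hp.two_le; nlinarith [Nat.sub_add_cancel (show 2 ≤ p * p by nlinarith)]⟩
  rw [sub_add_sub_cancel, ← pow_mul, he] at h4
  have h5 : IsUnit (1 - a ^ (e + 1)) := by
    rcases IsLocalRing.isUnit_or_isUnit_one_sub_self (a ^ (e + 1)) with h | h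
    · exact absurd ((isUnit_pow_succ_iff).1 h) ha
    · exact h
  rw [← h5.dvd_mul_right, ← dvd_neg, show -(a * (1 - a ^ (e + 1))) = a ^ (e + 2) - a by ring]
  exact h4

lemma ca_sub (x y : O) (n : ℕ) : x - y ∣ ca x n (2 * n) - ca y n (2 * n) := by
  rw [ca_eq, ca_eq, ← Finset.sum_sub_distrib]
  apply Finset.dvd_sum
  intro k _
  rw [← mul_sub]
  exact (sub_dvd_pow_sub_pow x y k).mul_left _

lemma ca_163 : ((163 : ℕ) : O) ∣ ca (10 : O) 81 (2 * 81) := by
  have h : (163 : ℤ) ∣ ca (10 : ℤ) 81 (2 * 81) := by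
    rw [ca_eq]
    simp only [Nat.choose_eq_descFactorial_div_factorial]
    decide +kernel
  have := map_dvd (Int.castRingHom O) h
  rw [map_ca] at this
  simpa using this

lemma SS_cast (n : ℕ) (z : O) (hz : (640320 : O) ^ 3 * (z * (1 - 432 * z)) = -1) :
    (SS n : O) = (-(640320 : O) ^ 3) ^ (n - 1) * (545140134 * YY 1 n z + 13591409 * YY 0 n z) := by
  unfold SS TT YY
  rw [Finset.mul_sum, Finset.mul_sum, ← Finset.sum_add_distrib, Finset.mul_sum, Int.cast_sum]
  refine Finset.sum_congr rfl fun k hk => ?_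
  rw [mem_range] at hk
  have h1 : (-(640320 : O) ^ 3) ^ k * (z * (1 - 432 * z)) ^ k = 1 := by
    rw [← mul_pow, neg_mul, hz, neg_neg, one_pow]
  have h2 : (-(640320 : O) ^ 3) ^ (n - 1) =
      (-(640320 : O) ^ 3) ^ (n - 1 - k) * (-(640320 : O) ^ 3) ^ k := by
    rw [← pow_add]; congr 1; omega
  rw [h2]
  simp only [Int.cast_mul, Int.cast_add, Int.cast_pow, Int.cast_neg, Int.cast_ofNat,
    Int.cast_natCast]
  generalize (-(640320 : O) ^ 3) ^ (n - 1 - k) = A at *
  generalize (-(640320 : O) ^ 3) ^ k = B at *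
  generalize (z * (1 - 432 * z)) ^ k = T at *
  linear_combination (-(A * (545140134 * k + 13591409) * cc k)) * h1

lemma comp_model (l l' i3 z a b : O) (h1 : l * l' = 1) (h3 : 3 * i3 = 1) (ha : a = -(l ^ 2 * i3))
    (hb : b = l ^ 3 * (2 * i3 ^ 3 - 64 * z)) :
    (Qz z).comp (C l' * X + C (-i3)) = C l' ^ 3 * (X ^ 3 + C a * X + C b) ∧
    (X ^ 3 + C a * X + C b).comp (C l * X + C (l * i3)) = C l ^ 3 * Qz z := by
  have e1 := congrArg (C : O → O[X]) h1
  have e3 := congrArg (C : O → O[X]) h3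
  simp only [map_mul, map_one, map_ofNat] at e1 e3
  unfold Qz
  rw [ha, hb]
  simp only [add_comp, sub_comp, mul_comp, pow_comp, X_comp, C_comp]
  simp only [map_mul, map_sub, map_neg, map_pow, map_ofNat]
  constructor
  · linear_combination
      (C l' * X * C i3 * (C l * C l' + 1) -
        (2 * C i3 ^ 3 - 64 * C z) * ((C l * C l') ^ 2 + C l * C l' + 1)) * e1 +
      (-(C l' * X) ^ 2 + C l' * X * C i3 - C i3 ^ 2) * e3
  · linear_combination (C l ^ 3 * (X ^ 2 + X * C i3 + C i3 ^ 2)) * e3

variable [IsDomain O] [CharZero O] [IsLocalRing O]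

theorem main_abstract {p : ℕ} (H : PRing p O) (hpu : ¬ IsUnit (p : O)) (hD : ¬ p ∣ 640320)
    (r α : O) (hr : r ^ 2 = 1630815) (hα : α ^ 2 = α - 41) (hαu : IsUnit α) (g n : ℕ)
    (ho : Ok p g n) : (p : O) ^ g ∣ (SS n : O) := by
  have hun : ∀ m : ℕ, m ∣ 640320 ^ 3 → IsUnit (m : O) := fun m hm =>
    H.unit m fun h => hD (H.prime.dvd_of_dvd_pow (h.trans hm))
  obtain ⟨h, hp⟩ : ∃ h, p = 2 * h + 1 :=
    H.prime.odd_of_ne_two (by rintro rfl; exact hD (by norm_num))
  obtain ⟨w, hw⟩ := (hun 711822400 (by norm_num)).exists_right_inv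
  obtain ⟨j, hj⟩ := (hun 864 (by norm_num)).exists_right_inv
  obtain ⟨i3, h3⟩ := (hun 3 (by norm_num)).exists_right_inv
  have f1 := Fr.natCast (R := O) H.prime 1
  have fw := (Fr.natCast (R := O) H.prime 711822400).inv hw hw
  have fj := (Fr.natCast (R := O) H.prime 864).inv hj hj
  have fc := Fr.natCast (R := O) H.prime 557403
  have fd := Fr.natCast (R := O) H.prime 1630815
  push_cast at hw hj h3 f1 fc fd
  obtain ⟨z, hz⟩ : ∃ z : O, z = (1 - 557403 * w * r) * j := ⟨_, rfl⟩
  have hu : 1 - 864 * z = 557403 * w * r := by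
    rw [hz]; linear_combination (-(1 - 557403 * w * r)) * hj
  have ht : (640320 : O) ^ 3 * (z * (1 - 432 * z)) = -1 := by
    have h1 : (640320 : O) ^ 3 * (1 - 864 * z) ^ 2 = 640320 ^ 3 + 1728 := by
      rw [hu]
      linear_combination (640320 ^ 3 * 557403 ^ 2 * w ^ 2) * hr +
        (640320 ^ 3 + 1728) * (711822400 * w + 1) * hw
    apply mul_left_cancel₀ (show (1728 : O) ≠ 0 by norm_num)
    linear_combination -h1
  have hDl : IsUnit (Dl z) := by
    have h256 := hun 256 (by norm_num)
    push_cast at h256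
    exact h256.neg.mul (IsUnit.of_mul_eq_one (-(640320 : O) ^ 3) (by linear_combination -ht))
  have hP : 545140134 * YY 1 n z + 13591409 * YY 0 n z =
      213440 * (r * k1 n z) + (13591409 + 288 * 213440 * r * z) * YY 0 n z := by
    unfold k1
    rw [hu]
    linear_combination (-(426880 * 557403 * w * YY 1 n z)) * hr - 545140134 * YY 1 n z * hw
  rw [SS_cast n z ht, hP]
  apply Dvd.dvd.mul_left
  have ss : (p : O) ∣ ca z h (2 * h) ^ 2 → (p : O) ∣ r * ca z h (2 * h) →
      (p : O) ^ g ∣ 213440 * (r * k1 n z) + (13591409 + 288 * 213440 * r * z) * YY 0 n z := by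
    intro h1 h2
    obtain ⟨a, b⟩ := ss_top hp H hpu g n z r ho hDl h1 h2
    exact dvd_add (b.mul_left _) (a.mul_left _)
  by_cases h163 : p = 163
  · subst h163
    obtain rfl : h = 81 := by omega
    obtain ⟨a, ha⟩ := ca_sub z j 81
    obtain ⟨b, hb⟩ := ca_sub j 10 81
    obtain ⟨c, hc⟩ := ca_163 (O := O)
    have e : ca z 81 (2 * 81) = r * (-(557403 * w * j * a)) + 163 * (c - 53 * j * b) := by
      push_cast at hc
      linear_combination ha + hb + hc + a * hz + 10 * b * hj
    rw [e] at ss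
    generalize (-(557403 * w * j * a)) = x at ss
    generalize (c - 53 * j * b) = y at ss
    exact ss ⟨10005 * x ^ 2 + 2 * r * x * y + 163 * y ^ 2, by
      push_cast; linear_combination x ^ 2 * hr⟩
      ⟨10005 * x + r * y, by push_cast; linear_combination x * hr⟩
  have u163 : IsUnit (163 : O) := by
    have := H.unit 163 fun hd =>
      h163 ((Nat.prime_dvd_prime_iff_eq H.prime (by norm_num)).1 hd)
    exact_mod_cast this
  have ud : IsUnit (1630815 : O) := by
    have := hun 10005 (by norm_num)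
    push_cast at this
    rw [show (1630815 : O) = 163 * 10005 by norm_num]
    exact u163.mul this
  by_cases ha : IsUnit (ca z h (2 * h))
  · obtain ⟨c, g1, g2, g3⟩ := ordinary hp H hpu g z hDl ha
    have hq := NN_spec hp g
    generalize NN p h g = N at g1 g2 hq
    have ur : IsUnit r := by
      rw [← hr] at ud; exact (isUnit_pow_succ_iff (n := 1)).1 ud
    have u8 := hun 8 (by norm_num)
    push_cast at u8
    obtain ⟨l', hl⟩ := (u8.mul ur).exists_right_inv
    obtain ⟨m1, m2⟩ := comp_model (8 * r) l' i3 z (-34790720) 78984748304 hl h3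
      (by linear_combination 64 * i3 * hr + 34790720 * h3) (by
        have h64 : 64 * j = 2 * i3 ^ 3 := by
          linear_combination 2 * i3 ^ 3 * hj - 64 * j * ((3 * i3) ^ 2 + 3 * i3 + 1) * h3
        rw [hz]
        linear_combination 512 * r ^ 3 * (1 - 557403 * w * r) * h64 -
          1024 * 557403 * w * i3 ^ 3 * (r ^ 2 + 1630815) * hr -
          78984748304 * 27 * i3 ^ 3 * hw - 78984748304 * ((3 * i3) ^ 2 + 3 * i3 + 1) * h3)
    rw [← toP_QL α] at m1 m2
    have x0 : Ex ((2 * N + 1 : ℕ) : O) ((X - C c) * Qz z ^ N) := by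
      apply Ex.of_coeff
      intro i
      obtain ⟨x, y, hxy⟩ := g1 i
      refine ⟨x, y, ?_⟩
      rw [sub_mul, coeff_sub, coeff_C_mul, hq, Nat.cast_pow]
      exact hxy
    have x1 := (x0.comp l' (8 * r) (-i3) (by linear_combination hl)).C_mul ((8 * r) ^ (3 * N + 1))
    have e1 : C ((8 * r) ^ (3 * N + 1)) * ((X - C c) * Qz z ^ N).comp (C l' * X + C (-i3)) =
        (X - C (8 * r * (i3 + c))) * toP α QL ^ N := by
      have e := congrArg (C : O → O[X]) hl
      rw [map_mul, map_one] at e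
      have e' : (C (8 * r) * C l') ^ (3 * N) = 1 := by rw [e, one_pow]
      rw [mul_comp, pow_comp, m1, sub_comp, X_comp, C_comp, map_pow, map_mul (y := i3 + c),
        map_add, map_neg]
      linear_combination (C (8 * r) * (C l' * X - C i3 - C c) * toP α QL ^ N) * e' +
        X * toP α QL ^ N * e
    rw [e1] at x1
    have x2 := (cm_163 hα _ N x1).comp (8 * r) l' (8 * r * i3) hl
    rw [mul_comp, C_comp, mul_comp, pow_comp, pow_comp, m2, mul_pow, ← C_pow, ← C_pow,
      mul_assoc (C _) (Qz z ^ N), ← mul_assoc, ← C_mul] at x2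
    have x3 := dvd_of_ex H.prime hpu hq.symm _ _ _
      (by rw [(Qz_monic z).natDegree_pow, Qz_natDegree]; omega) g2 (fun h0 => ?_) x2
    · have u12 : IsUnit (1 - 2 * α) := by
        apply (isUnit_pow_succ_iff (n := 1)).1
        rw [show (1 - 2 * α) ^ (1 + 1) = -163 by linear_combination 4 * hα]
        exact u163.neg
      rw [(((u8.mul ur).pow 3).pow N).dvd_mul_right, (hαu.mul u12).dvd_mul_left] at x3
      obtain ⟨y, hy⟩ := x3
      obtain ⟨x, hx⟩ := (g3 n ho).1
      refine ⟨213440 * r * x + 26680 * y * YY 0 n z, ?_⟩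
      have h288 : 288 * j = i3 := by linear_combination i3 * hj - 288 * j * h3
      have hb : 13591409 + 288 * 213440 * r * z + 213440 * r * c =
          26680 * (8 * r * (i3 + c) - 2896) := by
        rw [hz]
        linear_combination 213440 * r * (1 - 557403 * w * r) * h288 -
          213440 * 557403 * w * i3 * hr - 272570067 * i3 * hw - 90856689 * h3
      linear_combination 213440 * r * hx + YY 0 n z * hb + 26680 * YY 0 n z * hy
    · have e2 : toP α EL * toP α DL ^ 2 =
          ((toP α EL * toP α DL ^ 2).comp (C (8 * r) * X + C (8 * r * i3))).comp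
            (C l' * X + C (-i3)) := by
        have e := congrArg (C : O → O[X]) hl
        rw [map_mul, map_one] at e
        rw [comp_assoc, add_comp, C_comp, mul_comp (C (8 * r)) X, C_comp, X_comp,
          map_mul (y := i3), map_neg,
          show C (8 * r) * (C l' * X + -C i3) + C (8 * r) * C i3 = X by
            linear_combination X * e, comp_X]
      have e3 := congrArg (Polynomial.map (IsLocalRing.residue O)) e2
      rw [Polynomial.map_comp, h0, zero_comp, Polynomial.map_mul, Polynomial.map_pow,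
        mul_eq_zero, pow_eq_zero_iff two_ne_zero] at e3
      rcases e3 with e3 | e3
      · have := congrArg (fun W => coeff W 60) e3
        simp only [coeff_map, coeff_EL hα, coeff_zero] at this
        exact (IsLocalRing.residue_ne_zero_iff_isUnit _).2 (hαu.pow 3) this
      · have := congrArg (fun W => coeff W 20) e3
        simp only [coeff_map, coeff_DL, coeff_zero] at this
        exact (IsLocalRing.residue_ne_zero_iff_isUnit _).2 hαu this
  · have fr1 : Fr p r (r * 1630815 ^ h) := by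
      have := Fr.pow_self p r
      rwa [show r ^ p = r * 1630815 ^ h by rw [hp, pow_succ, pow_mul, hr, mul_comm]] at this
    have fr2 : Fr p (r * 1630815 ^ h) r := by
      refine (fr1.mul (fd.pow h)).congr ?_
      rw [← ud.dvd_mul_left]
      obtain ⟨a, ha⟩ := fd
      refine ⟨r * a, ?_⟩
      rw [hp] at ha ⊢
      linear_combination r * ha
    have fz1 := (f1.sub H.prime ((fc.mul fw).mul fr1)).mul fj
    have fz2 := (f1.sub H.prime ((fc.mul fw).mul fr2)).mul fj
    rw [← hz] at fz1 fz2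
    have := dvd_of_fr_fr H.prime (fr_ca H.prime fz1 h (2 * h)) (fr_ca H.prime fz2 h (2 * h)) ha
    exact ss (by rw [sq]; exact this.mul_left _) (this.mul_left _)

end Pool.Agent.Lib.MP_db9bd2_nt
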