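import Pool.Agent.Lib.MP_db9bd2_nt.Key

/-! The recursion along `z, z^p, z^(p^2), ...` in the supersingular and ordinary cases. -/

namespace Pool.Agent.Lib.MP_db9bd2_nt

variable {O : Type} [CommRing O]

lemma fr_ca {p : ℕ} (hp : p.Prime) {x y : O} (h : Fr p x y) (n i : ℕ) :
    Fr p (ca x n i) (ca y n i) := by
  have h1 := Fr.aeval hp h (ca Polynomial.X n i)
  have e1 := map_ca (Polynomial.aeval (R := ℤ) x).toRingHom Polynomial.X n i
  have e2 := map_ca (Polynomial.aeval (R := ℤ) y).toRingHom Polynomial.X n i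
  simp only [AlgHom.toRingHom_eq_coe, RingHom.coe_coe, Polynomial.aeval_X] at e1 e2
  rwa [e1, e2] at h1

lemma fr_Dl {p : ℕ} (hp : p.Prime) (x : O) : Fr p (Dl x) (Dl (x ^ p)) := by
  have h1 := Fr.aeval hp (Fr.pow_self p x) (Dl Polynomial.X)
  have e1 := map_Dl (Polynomial.aeval (R := ℤ) x).toRingHom Polynomial.X
  have e2 := map_Dl (Polynomial.aeval (R := ℤ) (x ^ p)).toRingHom Polynomial.X
  simp only [AlgHom.toRingHom_eq_coe, RingHom.coe_coe, Polynomial.aeval_X] at e1 e2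
  rwa [e1, e2] at h1

lemma ss_step {p h M g n m : ℕ} {z k11 k12 k21 k22 ρ : O} (c : CD p h M z k11 k12 k21 k22)
    (r : Rel p M g n m z k11 k12 k21 k22) (hu : IsUnit (Dl (z ^ p)))
    (h1 : (p : O) ∣ ca z h (2 * h) ^ 2) (h2 : (p : O) ∣ ρ * ca z h (2 * h))
    (i0 : (p : O) ^ g ∣ YY 0 m (z ^ p)) (i1 : (p : O) ^ g ∣ k1 m (z ^ p))
    (i2 : (p : O) ^ g ∣ p * k2 m (z ^ p)) :
    (p : O) ^ (g + 1) ∣ YY 0 n z ∧ (p : O) ^ (g + 1) ∣ ρ * k1 n z ∧
      (p : O) ^ (g + 1) ∣ p * k2 n z := by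
  have hu2 := (hu.pow (M + 1)).pow 2
  obtain ⟨c12, rfl⟩ := c.d12
  obtain ⟨c22, rfl⟩ := c.d22
  obtain ⟨c11, h11⟩ := c.d11
  obtain ⟨a, ha⟩ := h1
  obtain ⟨b, hb⟩ := h2
  obtain ⟨y0, hy0⟩ := i0
  obtain ⟨y1, hy1⟩ := i1
  obtain ⟨y2, hy2⟩ := i2
  obtain ⟨w0, hw0⟩ := r.e0
  obtain ⟨w1, hw1⟩ := r.e1
  obtain ⟨w2, hw2⟩ := r.e2
  generalize Dl (z ^ p) ^ (M + 1) = D at *
  obtain ⟨u, hu'⟩ : (p : O) ∣ k11 ^ 2 :=
    ⟨D ^ 2 * a + 2 * D * ca z h (2 * h) * c11 + p * c11 ^ 2, by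
      rw [eq_add_of_sub_eq h11]; linear_combination D ^ 2 * ha⟩
  obtain ⟨v, hv⟩ : (p : O) ∣ ρ * k11 :=
    ⟨D * b + ρ * c11, by rw [eq_add_of_sub_eq h11]; linear_combination D * hb⟩
  rw [hy0, hy1] at hw0 hw1 hw2
  refine ⟨hu2.dvd_mul_left.1 ⟨w0 + u * y0 + 2 * k11 * c12 * y1 + c12 ^ 2 * y2, ?_⟩,
    hu2.dvd_mul_left.1 ⟨ρ * w1 + v * k21 * y0 + ρ * (k11 * c22 + c12 * k21) * y1 +
      ρ * c12 * c22 * y2, ?_⟩,
    hu2.dvd_mul_left.1 ⟨p * w2 + k21 ^ 2 * y0 + 2 * k21 * (p * c22) * y1 +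
      p * c22 ^ 2 * y2, ?_⟩⟩
  · linear_combination hw0 + (p : O) ^ g * y0 * hu' + p * c12 ^ 2 * hy2
  · linear_combination ρ * hw1 + (p : O) ^ g * y0 * k21 * hv + ρ * p * c12 * c22 * hy2
  · linear_combination (p : O) * hw2 + (p : O) ^ 2 * c22 ^ 2 * hy2

lemma dvd_ca_pow {p h : ℕ} (hp : p.Prime) {z : O} (h1 : (p : O) ∣ ca z h (2 * h) ^ 2) :
    (p : O) ∣ ca (z ^ p) h (2 * h) := by
  have h2 := fr_ca hp (Fr.pow_self p z) h (2 * h)
  have h3 := h1.trans (pow_dvd_pow _ hp.two_le)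
  have := dvd_sub h3 h2
  rwa [sub_sub_cancel] at this

variable [IsDomain O] [CharZero O] [IsLocalRing O]

theorem ss_inner {p h : ℕ} (hp : p = 2 * h + 1) (H : PRing p O) (hpu : ¬ IsUnit (p : O))
    (g n : ℕ) (z : O) (ho : Ok p g n) (hu : IsUnit (Dl z)) (ha : (p : O) ∣ ca z h (2 * h)) :
    (p : O) ^ g ∣ YY 0 n z ∧ (p : O) ^ g ∣ k1 n z ∧ (p : O) ^ g ∣ p * k2 n z := by
  induction g generalizing n z with
  | zero => simp
  | succ g ih =>
    obtain ⟨m, hm, hk⟩ := ho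
    obtain ⟨k11, k12, k21, k22, c, r⟩ := key hp H g z
    have hu' := (fr_Dl H.prime z).isUnit hpu hu
    have h1 : (p : O) ∣ ca z h (2 * h) ^ 2 := by rw [sq]; exact ha.mul_left _
    obtain ⟨i0, i1, i2⟩ := ih m (z ^ p) hm hu' (dvd_ca_pow H.prime h1)
    have := ss_step (ρ := 1) c (r g n m le_rfl hm hk) hu' h1 (ha.mul_left _) i0 i1 i2
    rwa [one_mul] at this

theorem ss_top {p h : ℕ} (hp : p = 2 * h + 1) (H : PRing p O) (hpu : ¬ IsUnit (p : O))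
    (g n : ℕ) (z ρ : O) (ho : Ok p g n) (hu : IsUnit (Dl z))
    (h1 : (p : O) ∣ ca z h (2 * h) ^ 2) (h2 : (p : O) ∣ ρ * ca z h (2 * h)) :
    (p : O) ^ g ∣ YY 0 n z ∧ (p : O) ^ g ∣ ρ * k1 n z := by
  rcases g with _ | g
  · simp
  obtain ⟨m, hm, hk⟩ := ho
  obtain ⟨k11, k12, k21, k22, c, r⟩ := key hp H g z
  have hu' := (fr_Dl H.prime z).isUnit hpu hu
  obtain ⟨i0, i1, i2⟩ := ss_inner hp H hpu g m (z ^ p) hm hu' (dvd_ca_pow H.prime h1)
  have := ss_step c (r g n m le_rfl hm hk) hu' h1 h2 i0 i1 i2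
  exact ⟨this.1, this.2.1⟩

omit [IsDomain O] [CharZero O] in
lemma unit_add {p : ℕ} (hpu : ¬ IsUnit (p : O)) {x y : O} (hx : IsUnit x) (h : (p : O) ∣ y - x) :
    IsUnit y := by
  obtain ⟨a, ha⟩ := h
  have h1 : IsUnit (y + p * (-a)) := by
    rw [show y + p * (-a) = x by linear_combination ha]; exact hx
  rcases IsLocalRing.isUnit_or_isUnit_of_isUnit_add h1 with h2 | h2
  · exact h2
  · exact absurd (isUnit_of_mul_isUnit_left h2) hpu

theorem ordinary {p h : ℕ} (hp : p = 2 * h + 1) (H : PRing p O) (hpu : ¬ IsUnit (p : O))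
    (s : ℕ) (z : O) (hu : IsUnit (Dl z)) (ha : IsUnit (ca z h (2 * h))) :
    ∃ c : O, (∀ i : ℕ, ∃ x y : O,
        cb z (NN p h s) i - c * ca z (NN p h s) i = (i + 1) * x + (p : O) ^ s * y) ∧
      IsUnit (ca z (NN p h s) (2 * NN p h s)) ∧
      ∀ n, Ok p s n → (p : O) ^ s ∣ k1 n z - c * YY 0 n z ∧ (p : O) ^ s ∣ k2 n z - c * k1 n z := by
  induction s generalizing z with
  | zero =>
    refine ⟨0, fun i => ⟨0, _, by rw [mul_zero, zero_add, pow_zero, one_mul]⟩, ?_, by simp⟩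
    simp [NN, ca]
  | succ s ih =>
    have hu' := (fr_Dl H.prime z).isUnit hpu hu
    have ha' := (fr_ca H.prime (Fr.pow_self p z) h (2 * h)).isUnit hpu ha
    obtain ⟨c', g1, g2, g3⟩ := ih (z ^ p) hu' ha'
    obtain ⟨k11, k12, k21, k22, c, r⟩ := key hp H s z
    have huD := hu'.pow (s + 1)
    have u11 : IsUnit k11 := unit_add hpu (huD.mul ha) c.d11
    obtain ⟨c12, rfl⟩ := c.d12
    obtain ⟨c22, rfl⟩ := c.d22
    have u1 : IsUnit (k11 + c' * (p * c12)) := unit_add hpu u11 ⟨c' * c12, by ring⟩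
    obtain ⟨iv, hiv⟩ := u1.exists_right_inv
    obtain ⟨iD, hiD⟩ := huD.exists_right_inv
    have hq : (2 * (NN p h s : O) + 1) = (p : O) ^ s := by
      exact_mod_cast congrArg (Nat.cast : ℕ → O) (NN_spec hp s)
    obtain ⟨c0, hc0⟩ : ∃ c0 : O, c0 = (k21 + c' * (p * c22)) * iv := ⟨_, rfl⟩
    have hc : k21 - c0 * k11 = -c' * (p * (c22 - c0 * c12)) := by
      rw [hc0]; linear_combination (-(k21 + c' * (p * c22))) * hiv
    refine ⟨c0, fun i => ?_, ?_, fun n hn => ?_⟩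
    · by_cases hd : p ∣ i + 1
      · obtain ⟨j, hj⟩ := hd
        rcases j with _ | j
        · omega
        have hi : i = p * j + 2 * h := by rw [mul_add] at hj; omega
        obtain ⟨b, d, e, h1⟩ := c.r1 (NN p h s) j
        obtain ⟨b', d', e', h2⟩ := c.r2 (NN p h s) j
        obtain ⟨x, y, hxy⟩ := g1 j
        have hj' : (i : O) + 1 = p * (j + 1) := by exact_mod_cast congrArg (Nat.cast : ℕ → O) hj
        rw [NN, hj', hi]
        rw [hq] at h1 h2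
        refine ⟨iD * ((c22 - c0 * c12) * x + b' - c0 * b),
          iD * ((c22 - c0 * c12) * y + d' - c0 * d + e' - c0 * e), ?_⟩
        linear_combination iD * (h2 - c0 * h1) + iD * ca (z ^ p) (NN p h s) j * hc +
          iD * p * (c22 - c0 * c12) * hxy -
          (cb z (p * NN p h s + h) (p * j + 2 * h) -
            c0 * ca z (p * NN p h s + h) (p * j + 2 * h)) * hiD
      · obtain ⟨v, hv⟩ := (H.unit _ hd).exists_right_inv
        push_cast at hv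
        exact ⟨v * (cb z (NN p h (s + 1)) i - c0 * ca z (NN p h (s + 1)) i), 0, by
          linear_combination
            (-(cb z (NN p h (s + 1)) i - c0 * ca z (NN p h (s + 1)) i)) * hv⟩
    · obtain ⟨b, d, e, h1⟩ := c.r1 (NN p h s) (2 * NN p h s)
      rw [show p * (2 * NN p h s) + 2 * h = 2 * (p * NN p h s + h) by ring] at h1
      rw [NN]
      exact isUnit_of_mul_isUnit_right (x := Dl (z ^ p) ^ (s + 1)) (unit_add hpu (u11.mul g2)
        ⟨c12 * cb (z ^ p) (NN p h s) (2 * NN p h s) +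
          ((((2 * NN p h s : ℕ) : O) + 1) * b + (2 * (NN p h s : O) + 1) * d) + (p : O) ^ s * e,
          by linear_combination h1⟩)
    · obtain ⟨m, hm, hk⟩ := hn
      obtain ⟨⟨y1, hy1⟩, ⟨y2, hy2⟩⟩ := g3 m hm
      have r' := r s n m le_rfl hm hk
      obtain ⟨w0, hw0⟩ := r'.e0
      obtain ⟨w1, hw1⟩ := r'.e1
      obtain ⟨w2, hw2⟩ := r'.e2
      have hu2 := huD.pow 2
      refine ⟨hu2.dvd_mul_left.1 ⟨w1 - c0 * w0 + (c22 - c0 * c12) * (k11 * y1 + p * c12 * y2), ?_⟩,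
        hu2.dvd_mul_left.1 ⟨w2 - c0 * w1 + (c22 - c0 * c12) * (k21 * y1 + p * c22 * y2), ?_⟩⟩
      · linear_combination hw1 - c0 * hw0 + (k11 * YY 0 m (z ^ p) + p * c12 * k1 m (z ^ p)) * hc +
          p * (c22 - c0 * c12) * (k11 * hy1 + p * c12 * hy2)
      · linear_combination hw2 - c0 * hw1 + (k21 * YY 0 m (z ^ p) + p * c22 * k1 m (z ^ p)) * hc +
          p * (c22 - c0 * c12) * (k21 * hy1 + p * c22 * hy2)

end Pool.Agent.Lib.MP_db9bd2_nt
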