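import Pool.Agent.Lib.MP_db9bd2_nt.Main

/-! The Cartier matrix of the family with bounds on degrees and on the order of poles. -/

namespace Pool.Agent.Lib.MP_db9bd2_nt.Sup

open Finset Polynomial

variable {O : Type} [CommRing O]

/-- All coefficients have degree at most `d`. -/
def Bd (d : ℕ) (P : O[X][X]) : Prop := ∀ i, (P.coeff i).natDegree ≤ d

lemma Bd.mono {c d : ℕ} {P : O[X][X]} (h : Bd c P) (hd : c ≤ d) : Bd d P :=
  fun i => (h i).trans hd

lemma Bd.add {d : ℕ} {P Q : O[X][X]} (h1 : Bd d P) (h2 : Bd d Q) : Bd d (P + Q) := fun i => by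
  rw [coeff_add]; exact (natDegree_add_le _ _).trans (max_le (h1 i) (h2 i))

lemma Bd.sub {d : ℕ} {P Q : O[X][X]} (h1 : Bd d P) (h2 : Bd d Q) : Bd d (P - Q) := fun i => by
  rw [coeff_sub]; exact (natDegree_sub_le _ _).trans (max_le (h1 i) (h2 i))

lemma Bd.mul {c d : ℕ} {P Q : O[X][X]} (h1 : Bd c P) (h2 : Bd d Q) : Bd (c + d) (P * Q) :=
  fun i => by
    rw [coeff_mul]
    exact natDegree_sum_le_of_forall_le _ _ fun a _ =>
      natDegree_mul_le.trans (Nat.add_le_add (h1 _) (h2 _))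

lemma Bd.C {d : ℕ} {a : O[X]} (h : a.natDegree ≤ d) : Bd d (C a) := fun i => by
  rw [coeff_C]; split_ifs
  · exact h
  · simp

lemma Bd.X_pow (n : ℕ) : Bd 0 (X ^ n : O[X][X]) := fun i => by
  rw [coeff_X_pow]; split_ifs <;> simp

lemma Bd.X : Bd 0 (X : O[X][X]) := by simpa using Bd.X_pow (O := O) 1

lemma Bd.nat (n : ℕ) : Bd 0 (n : O[X][X]) := by
  rw [← C_eq_natCast]; exact Bd.C (by simp)

lemma Bd.num (n : ℕ) [n.AtLeastTwo] : Bd 0 (ofNat(n) : O[X][X]) := Bd.nat n

lemma Bd.pow {d : ℕ} {P : O[X][X]} (h : Bd d P) (n : ℕ) : Bd (n * d) (P ^ n) := by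
  induction n with
  | zero => simpa using Bd.nat (O := O) 1
  | succ n ih => rw [pow_succ, add_mul, one_mul]; exact ih.mul h

lemma Bd.der {d : ℕ} {P : O[X][X]} (h : Bd d P) : Bd d (derivative P) := fun i => by
  rw [coeff_derivative]
  refine natDegree_mul_le.trans ?_
  have : ((i : O[X]) + 1).natDegree = 0 := by exact_mod_cast natDegree_natCast (R := O) (i + 1)
  rw [this]; exact h _

lemma Bd.Qz {d : ℕ} {w : O[X]} (h : w.natDegree ≤ d) : Bd d (Qz w) :=
  (((Bd.X_pow 3).add (Bd.X_pow 2)).mono (Nat.zero_le d)).sub (Bd.C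
    (natDegree_mul_le.trans (by simpa using h)))

lemma bd_div [Nontrivial O] {e : ℕ} {Q : O[X][X]} (hQ : Q.Monic) (hd : Q.natDegree = 3)
    (hB : Bd e Q) (m d : ℕ) (A : O[X][X]) (hA : A.natDegree ≤ m + 2) (h : Bd d A) :
    ∃ S T, A = S * Q + T ∧ T.natDegree ≤ 2 ∧ Bd (d + e * m) S ∧ Bd (d + e * m) T := by
  induction m generalizing A d with
  | zero => exact ⟨0, A, by simp, hA, fun i => by simp, by simpa using h⟩
  | succ m ih =>
    have h1 : Bd d (C (A.coeff (m + 3)) * X ^ m) := (Bd.C (h _)).mul (Bd.X_pow m)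
    have h2 : (A - C (A.coeff (m + 3)) * X ^ m * Q).natDegree ≤ m + 2 := by
      have m1 : (X ^ m * Q).Monic := (monic_X_pow m).mul hQ
      have d1 : (X ^ m * Q).natDegree = m + 3 := by
        rw [(monic_X_pow m).natDegree_mul hQ, natDegree_X_pow, hd]
      rw [natDegree_le_iff_coeff_eq_zero]
      intro i hi
      rw [coeff_sub, mul_assoc, coeff_C_mul]
      rcases Nat.eq_or_lt_of_le (Nat.succ_le_of_lt hi) with h3 | h3
      · have := m1.coeff_natDegree
        rw [d1] at this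
        rw [← h3, this, mul_one, sub_self]
      · rw [coeff_eq_zero_of_natDegree_lt (by omega), coeff_eq_zero_of_natDegree_lt (p := X ^ m * Q)
          (by omega), mul_zero, sub_zero]
    obtain ⟨S, T, e1, e2, e3, e4⟩ := ih (d + e) _ h2 ((h.mono (by omega)).sub (h1.mul hB))
    refine ⟨S + C (A.coeff (m + 3)) * X ^ m, T, by linear_combination e1, e2,
      (e3.mono (by rw [mul_add]; omega)).add (h1.mono (by omega)), e4.mono (by rw [mul_add]; omega)⟩

lemma reduce_step2 [Nontrivial O] {e : ℕ} (Q U V : O[X][X]) (Δ : O[X]) (hQ : Q.Monic)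
    (hd : Q.natDegree = 3) (hb : C Δ = U * Q + V * derivative Q) (bQ : Bd e Q) (bU : Bd e U)
    (bV : Bd e V) (hV : V.natDegree ≤ 2) (r d : ℕ) (A : O[X][X]) (hA : A.natDegree ≤ 3 * r + 4)
    (h : Bd d A) : ∃ U' V' : O[X][X], U'.natDegree ≤ 3 * r + 1 ∧ V'.natDegree ≤ 2 ∧
      C Δ * A = U' * Q + V' * derivative Q ∧ Bd (d + e * (3 * r + 6)) U' ∧
      Bd (d + e * (3 * r + 6)) V' := by
  obtain ⟨S, T, e1, e2, e3, e4⟩ := bd_div hQ hd bQ (3 * r + 4) (d + e) (A * V)
    (natDegree_mul_le.trans (by omega)) (h.mul bV)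
  have h3 : C Δ * A = (A * U + S * derivative Q) * Q + T * derivative Q := by
    rw [hb]; linear_combination derivative Q * e1
  refine ⟨_, _, ?_, e2, h3, ((h.mul bU).mono (by nlinarith)).add
    ((e3.mul bQ.der).mono (by nlinarith)), e4.mono (by nlinarith)⟩
  set U' := A * U + S * derivative Q
  by_cases h0 : U' = 0
  · rw [h0]; simp
  have h4 : Q * U' = C Δ * A - T * derivative Q := by rw [h3]; ring
  have h5 := hQ.natDegree_mul' h0
  have h6 : (C Δ * A).natDegree ≤ 3 * r + 4 := (natDegree_C_mul_le _ _).trans hA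
  have h7 : (T * derivative Q).natDegree ≤ 3 * r + 4 := by
    have := natDegree_mul_le (p := T) (q := derivative Q)
    have := natDegree_derivative_le Q
    omega
  have h8 := natDegree_sub_le (C Δ * A) (T * derivative Q)
  rw [← h4] at h8
  omega

lemma reduce2 [Nontrivial O] {e : ℕ} (Q U V : O[X][X]) (Δ : O[X]) (i2 : O) (hi : 2 * i2 = 1)
    (hQ : Q.Monic) (hd : Q.natDegree = 3) (hb : C Δ = U * Q + V * derivative Q) (bQ : Bd e Q)
    (bU : Bd e U) (bV : Bd e V) (hV : V.natDegree ≤ 2) (r d : ℕ) (A : O[X][X])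
    (hA : A.natDegree ≤ 3 * r + 1) (h : Bd d A) :
    ∃ l m : O[X], l.natDegree ≤ d + e * (r * (3 * r + 3)) ∧
      m.natDegree ≤ d + e * (r * (3 * r + 3)) ∧ ∀ j : ℕ, ∃ B E : O[X][X], B.natDegree ≤ 3 * r ∧
      C (((r + j).descFactorial r : O[X]) * Δ ^ r) * A * Q ^ j = (C l + C m * X) * Q ^ (r + j) +
        derivative (B * Q ^ (j + 1)) + (2 * ((r + j : ℕ) : O[X][X]) + 1) * E := by
  induction r generalizing A d with
  | zero =>
    refine ⟨A.coeff 0, A.coeff 1, by simpa using h 0, by simpa using h 1,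
      fun n => ⟨0, 0, by simp, ?_⟩⟩
    have := eq_X_add_C_of_natDegree_le_one (p := A) (by omega)
    simp only [Nat.descFactorial_zero, Nat.cast_one, pow_zero, mul_one, map_one, one_mul,
      zero_add, zero_mul, derivative_zero, mul_zero, add_zero]
    linear_combination Q ^ n * this
  | succ r ih =>
    obtain ⟨U', V', h1, h2, h3, b1, b2⟩ := reduce_step2 Q U V Δ hQ hd hb bQ bU bV hV r d A
      (by omega) h
    have h4 : (C (C (-i2 - r)) * U' - derivative V').natDegree ≤ 3 * r + 1 := by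
      refine (natDegree_sub_le _ _).trans (max_le ((natDegree_C_mul_le _ _).trans h1) ?_)
      have := natDegree_derivative_le V'
      omega
    obtain ⟨l, m, d1, d2, hlm⟩ := ih (d + e * (3 * r + 6)) _ h4
      ((((Bd.C (natDegree_C _).le).mul b1).mono (by omega)).sub b2.der)
    refine ⟨l, m, d1.trans (by nlinarith), d2.trans (by nlinarith), fun j => ?_⟩
    obtain ⟨B, E, dB, hBH⟩ := hlm (j + 1)
    rw [show r + 1 + j = r + (j + 1) by ring, Nat.descFactorial_succ,
      show r + (j + 1) - r = j + 1 by omega]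
    obtain ⟨c, hc⟩ : ∃ c, c = (((r + (j + 1)).descFactorial r : O[X]) * Δ ^ r) := ⟨_, rfl⟩
    rw [← hc] at hBH
    have e1 : C (((((j + 1) * (r + (j + 1)).descFactorial r : ℕ) : O[X])) * Δ ^ (r + 1)) =
        C c * ((j : O[X][X]) + 1) * C Δ := by
      rw [hc]
      simp only [map_mul, map_pow, map_natCast, Nat.cast_mul, Nat.cast_add, Nat.cast_one, map_add,
        map_one]
      ring
    have e5 : (2 : O[X][X]) * C (C i2) = 1 := by
      rw [← C_1, ← C_1, ← hi, C_mul, C_mul]; rfl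
    refine ⟨B * Q + C c * V', E + C (C i2) * C c * U' * Q ^ (j + 1), ?_, ?_⟩
    · refine (natDegree_add_le _ _).trans (max_le (natDegree_mul_le.trans (by omega)) ?_)
      exact (natDegree_C_mul_le _ _).trans (by omega)
    · rw [e1, add_mul (B * Q), derivative_add, mul_assoc B, ← pow_succ', mul_assoc (C c) V',
        derivative_C_mul, derivative_mul (f := V'), derivative_pow_succ]
      simp only [map_add, map_sub, map_neg, map_natCast, map_one, Nat.cast_add, Nat.cast_one]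
        at hBH ⊢
      linear_combination hBH + C c * ((j : O[X][X]) + 1) * Q ^ j * h3 -
        C c * U' * Q ^ (j + 1) * ((r : O[X][X]) + (j + 1)) * e5

lemma Bd.Ca {d p h : ℕ} (hp : p = 2 * h + 1) {P : O[X][X]} (b : Bd d P) : Bd d (Ca p P) :=
  fun i => by rw [coeff_Ca hp]; exact b _

/-- One row of the Cartier matrix, with poles of order at most `M`. -/
def Row {R : Type} [CommRing R] (p h M : ℕ) (A Q Q1 : R[X]) (Δ k1 k2 : R) : Prop :=
  (p : R) ∣ k2 ∧ (p : R) ∣ k1 - Δ ^ M * (A * Q ^ h).coeff (2 * h) ∧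
    ∀ j : ℕ, ∃ B E F : R[X], B.natDegree ≤ 3 * M ∧
      C (Δ ^ M) * Ca p (A * Q ^ (p * (M + j) + h)) = (C k1 + C k2 * X) * Q1 ^ (M + j) +
        (p : R[X]) * (derivative (B * Q1 ^ (j + 1)) + (2 * ((M + j : ℕ) : R[X]) + 1) * E) +
        (p : R[X]) ^ (M + 1) * F

lemma Row.map {R S : Type} [CommRing R] [CommRing S] (φ : R →+* S) {p h M : ℕ}
    (hp : p = 2 * h + 1) {A Q Q1 : R[X]} {Δ k1 k2 : R} (r : Row p h M A Q Q1 Δ k1 k2) :
    Row p h M (A.map φ) (Q.map φ) (Q1.map φ) (φ Δ) (φ k1) (φ k2) := by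
  obtain ⟨h1, h2, h3⟩ := r
  refine ⟨by simpa using map_dvd φ h1, ?_, fun j => ?_⟩
  · have := map_dvd φ h2
    rwa [map_natCast, map_sub, map_mul, map_pow, ← coeff_map, Polynomial.map_mul,
      Polynomial.map_pow] at this
  · obtain ⟨B, E, F, d, e⟩ := h3 j
    refine ⟨B.map φ, E.map φ, F.map φ, natDegree_map_le.trans d, ?_⟩
    have e1 := congrArg (Polynomial.map φ) e
    have e2 : ∀ W : R[X], (Ca p W).map φ = Ca p (W.map φ) := fun W => by
      ext i; rw [coeff_map, coeff_Ca hp, coeff_Ca hp, coeff_map]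
    simp only [Polynomial.map_mul, Polynomial.map_add, Polynomial.map_pow, map_C, map_X, e2,
      Polynomial.map_natCast, ← derivative_map, Polynomial.map_one, Polynomial.map_ofNat,
      map_pow] at e1 ⊢
    exact e1

theorem row_family [IsDomain O] {p h : ℕ} (hp : p = 2 * h + 1) (H : PRing p O) (M : ℕ)
    (w : O[X]) (hw : w.natDegree ≤ p) (hf : (p : O[X]) ∣ X ^ p - w) (A : O[X][X])
    (hA : A.natDegree ≤ 1) (bA : Bd 0 A) :
    ∃ k1 k2 : O[X], k1.natDegree ≤ (3 * M ^ 2 + 6 * M + 1) * p ∧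
      k2.natDegree ≤ (3 * M ^ 2 + 6 * M + 1) * p ∧ Row p h M A (Qz X) (Qz w) (Dl w) k1 k2 := by
  have hh : 1 ≤ h := by have := H.prime.two_le; omega
  have hp0 := H.prime.ne_zero
  have H1 := H.poly
  obtain ⟨G, hG⟩ : (p : O[X][X]) ∣ Qz X ^ p - expand O[X] p (Qz w) := by
    obtain ⟨a, ha⟩ := Qz_fr H.prime (X : O[X])
    obtain ⟨b, hb⟩ := hf
    refine ⟨a - C (64 * b), ?_⟩
    have := congrArg (C : O[X] → O[X][X]) hb
    simp only [Qz, map_sub, map_add, map_mul, map_pow, expand_X, expand_C, map_ofNat,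
      map_natCast] at ha this ⊢
    linear_combination ha - 64 * this
  obtain ⟨Q, hQ⟩ : ∃ Q, Q = Qz (X : O[X]) := ⟨_, rfl⟩
  obtain ⟨Q1, hQ1⟩ : ∃ Q, Q = Qz w := ⟨_, rfl⟩
  obtain ⟨Δ, hΔ⟩ : ∃ Δ, Δ = Dl w := ⟨_, rfl⟩
  have hb := Qz_bezout w
  have bQ : Bd 1 Q := hQ ▸ Bd.Qz natDegree_X_le
  have bQ1 : Bd p Q1 := hQ1 ▸ Bd.Qz hw
  have dQ : Q.natDegree = 3 := hQ ▸ Qz_natDegree _
  have hd : Q1.natDegree = 3 := hQ1 ▸ Qz_natDegree _
  have hm : Q1.Monic := hQ1 ▸ Qz_monic _
  have dΔ : Δ.natDegree ≤ 2 * p := by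
    rw [hΔ, Dl]
    have h1 : (1 - 432 * w).natDegree ≤ p :=
      (natDegree_sub_le _ _).trans (max_le (by simp) (natDegree_mul_le.trans (by simpa using hw)))
    refine natDegree_mul_le.trans ?_
    have := natDegree_mul_le (p := w) (q := 1 - 432 * w)
    simp only [natDegree_neg, natDegree_ofNat]
    omega
  have bw := Bd.C hw
  have bU : Bd p (6 * X + 4 - 1728 * C w : O[X][X]) :=
    ((((Bd.num 6).mul Bd.X).add (Bd.num 4)).mono (Nat.zero_le p)).sub
      (((Bd.num 1728).mul bw).mono (by omega))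
  have bV : Bd p (-2 * X ^ 2 - (2 - 576 * C w) * X + 192 * C w : O[X][X]) := by
    rw [show (-2 * X ^ 2 - (2 - 576 * C w) * X + 192 * C w : O[X][X]) =
      576 * C w * X + 192 * C w - (2 * X ^ 2 + 2 * X) by ring]
    exact (((((Bd.num 576).mul bw).mul Bd.X).mono (by omega)).add
      (((Bd.num 192).mul bw).mono (by omega))).sub
      ((((Bd.num 2).mul (Bd.X_pow 2)).add ((Bd.num 2).mul Bd.X)).mono (Nat.zero_le p))
  have dV : (-2 * X ^ 2 - (2 - 576 * C w) * X + 192 * C w : O[X][X]).natDegree ≤ 2 := by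
    compute_degree
  rw [← hQ, ← hQ1] at hG
  rw [← hQ1, ← hΔ] at hb
  rw [← hQ, ← hQ1, ← hΔ]
  have hGd : G.natDegree ≤ 3 * p := by
    have h1 : ((p : O[X][X]) * G).natDegree = G.natDegree := by
      rw [← C_eq_natCast, natDegree_C_mul H1.ne]
    rw [← h1, ← hG]
    refine (natDegree_sub_le _ _).trans (max_le ?_ ?_)
    · refine natDegree_pow_le.trans ?_
      rw [mul_comm 3 p, dQ]
    · rw [natDegree_expand, hd]
  have bG : Bd p G := by
    intro i
    have h1 : Bd p (expand O[X] p Q1) := fun i => by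
      rw [coeff_expand H.prime.pos]
      split_ifs
      · exact bQ1 _
      · simp
    have h2 := ((bQ.pow p).mono (by omega)).sub h1 i
    rwa [hG, ← C_eq_natCast, coeff_C_mul, ← C_eq_natCast, natDegree_C_mul H.ne] at h2
  have hW : ∀ r, (Ca p (A * Q ^ h * G ^ r)).natDegree ≤ 3 * r := by
    intro r
    apply natDegree_Ca hp r hh
    have h1 := natDegree_mul_le (p := A * Q ^ h) (q := G ^ r)
    have h2 := natDegree_mul_le (p := A) (q := Q ^ h)
    have h3 : (Q ^ h).natDegree ≤ h * 3 := natDegree_pow_le.trans (Nat.mul_le_mul_left _ dQ.le)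
    have h4 := natDegree_pow_le (p := G) (n := r)
    have h5 : r * G.natDegree ≤ r * (3 * p) := Nat.mul_le_mul_left _ hGd
    nlinarith
  have bW : ∀ r, Bd ((r + 1) * p) (A * Q ^ h * G ^ r) := fun r =>
    ((bA.mul (bQ.pow h)).mul (bG.pow r)).mono (by rw [add_mul]; omega)
  obtain ⟨i2, hi2⟩ := (H.unit 2 (fun hd => by
    have := Nat.le_of_dvd two_pos hd; omega)).exists_right_inv
  push_cast at hi2
  have main : ∀ t, t ≤ M → ∃ k1 k2 : O[X], k1.natDegree ≤ (3 * M ^ 2 + 6 * M + 1) * p ∧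
      k2.natDegree ≤ (3 * M ^ 2 + 6 * M + 1) * p ∧ ∀ j : ℕ, ∃ B E : O[X][X],
      B.natDegree ≤ 3 * M ∧
      C Δ ^ M * ∑ r ∈ range t, (p : O[X][X]) ^ (r + 1) * ((M + j).choose (r + 1) : O[X][X]) *
        (Ca p (A * Q ^ h * G ^ (r + 1)) * Q1 ^ (M + j - (r + 1))) =
      (p : O[X][X]) * ((C k1 + C k2 * X) * Q1 ^ (M + j) + derivative (B * Q1 ^ (j + 1)) +
        (2 * ((M + j : ℕ) : O[X][X]) + 1) * E) := by
    intro t
    induction t with
    | zero => intro _; exact ⟨0, 0, by simp, by simp, fun n => ⟨0, 0, by simp, by simp⟩⟩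
    | succ t ih =>
      intro ht
      obtain ⟨k1, k2, d1, d2, hk⟩ := ih (by omega)
      obtain ⟨l, m, d3, d4, hlm⟩ := reduce2 Q1 _ _ Δ i2 hi2 hm hd hb bQ1 bU bV dV
        (t + 1) _ _ ((hW (t + 1)).trans (Nat.le_succ _)) ((bW (t + 1)).Ca hp)
      obtain ⟨π, hπ⟩ := exists_pi H t
      obtain ⟨d, rfl⟩ : ∃ d, M = t + 1 + d := ⟨M - (t + 1), by omega⟩
      have dd : ∀ l : O[X], l.natDegree ≤ (t + 1 + 1) * p + p * ((t + 1) * (3 * (t + 1) + 3)) →
          (C π * Δ ^ d * l).natDegree ≤ (3 * (t + 1 + d) ^ 2 + 6 * (t + 1 + d) + 1) * p := by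
        intro l hl
        have a1 := natDegree_mul_le (p := C π * Δ ^ d) (q := l)
        have a2 := natDegree_C_mul_le π (Δ ^ d)
        have a3 := natDegree_pow_le (p := Δ) (n := d)
        have a4 := Nat.mul_le_mul_left d dΔ
        have a5 : d * 2 + (t + 1 + 1) + (t + 1) * (3 * (t + 1) + 3) ≤
          3 * (t + 1 + d) ^ 2 + 6 * (t + 1 + d) + 1 := by nlinarith
        have a6 := Nat.mul_le_mul_right p a5
        nlinarith
      refine ⟨k1 + C π * Δ ^ d * l, k2 + C π * Δ ^ d * m,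
        (natDegree_add_le _ _).trans (max_le d1 (dd l d3)),
        (natDegree_add_le _ _).trans (max_le d2 (dd m d4)), fun j => ?_⟩
      obtain ⟨B, E, dB, hBE⟩ := hk j
      obtain ⟨B', E', dB', hBE'⟩ := hlm (d + j)
      refine ⟨B + C (C π * Δ ^ d) * (B' * Q1 ^ d), E + C (C π * Δ ^ d) * E', ?_, ?_⟩
      · refine (natDegree_add_le _ _).trans (max_le dB ((natDegree_C_mul_le _ _).trans ?_))
        have a1 := natDegree_mul_le (p := B') (q := Q1 ^ d)
        rw [hm.natDegree_pow, hd] at a1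
        omega
      · rw [Finset.sum_range_succ, mul_add, hBE, add_mul B, derivative_add, mul_assoc (C _) (B' * _),
          derivative_C_mul, mul_assoc B', ← pow_add Q1 d, ← add_assoc d,
          show t + 1 + d + j - (t + 1) = d + j by omega]
        rw [Nat.descFactorial_eq_factorial_mul_choose, ← add_assoc (t + 1)] at hBE'
        have e1 := congrArg (fun x => (C (C x) : O[X][X])) hπ
        simp only [map_add, map_mul, map_pow, map_natCast, Nat.cast_mul] at hBE' e1 ⊢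
        linear_combination (p : O[X][X]) * C (C π) * C Δ ^ d * hBE' -
          C Δ ^ (t + 1 + d) * ((t + 1 + d + j).choose (t + 1) : O[X][X]) *
            Ca p (A * Q ^ h * G ^ (t + 1)) * Q1 ^ (d + j) * e1
  obtain ⟨k1, k2, d1, d2, hk⟩ := main M le_rfl
  have h0 : Ca p (A * Q ^ h) = C ((A * Q ^ h).coeff (2 * h)) := by
    have := hW 0
    rw [pow_zero, mul_one] at this
    rw [eq_C_of_natDegree_le_zero this, coeff_Ca hp, mul_zero, zero_add]
  have dp : ∀ l : O[X], ((p : O[X]) * l).natDegree ≤ l.natDegree := fun l => by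
    rw [← C_eq_natCast]; exact natDegree_C_mul_le _ _
  refine ⟨Δ ^ M * (A * Q ^ h).coeff (2 * h) + p * k1, p * k2, ?_, (dp _).trans d2,
    dvd_mul_right _ _, ⟨k1, by ring⟩, fun j => ?_⟩
  · refine (natDegree_add_le _ _).trans (max_le ?_ ((dp _).trans d1))
    have a1 := natDegree_mul_le (p := Δ ^ M) (q := (A * Q ^ h).coeff (2 * h))
    have a2 := bW 0 (2 * h)
    have a3 := natDegree_pow_le (p := Δ) (n := M)
    have a4 := Nat.mul_le_mul_left M dΔ
    rw [pow_zero, mul_one] at a2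
    nlinarith
  obtain ⟨B, E, dB, hBE⟩ := hk j
  generalize M + j = n at hBE ⊢
  obtain ⟨E', hE'⟩ := trunc_binom (expand O[X] p Q1) ((p : O[X][X]) * G) n (M + 1)
  have e1 : A * Q ^ (p * n + h) = ∑ r ∈ range (M + 1), C ((p : O[X]) ^ r * n.choose r) *
      (A * Q ^ h * G ^ r * expand O[X] p (Q1 ^ (n - r))) +
      C ((p : O[X]) ^ (M + 1)) * (A * Q ^ h * G ^ (M + 1) * E') := by
    rw [pow_add, pow_mul, eq_add_of_sub_eq hG, hE', add_mul, mul_add, Finset.sum_mul,
      Finset.mul_sum]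
    simp only [map_mul, map_pow, map_natCast]
    refine congrArg₂ (· + ·) (Finset.sum_congr rfl fun r _ => ?_) ?_
    · ring
    · ring
  have e2 : Ca p (A * Q ^ (p * n + h)) = ∑ r ∈ range (M + 1), (p : O[X][X]) ^ r * (n.choose r) *
      (Ca p (A * Q ^ h * G ^ r) * Q1 ^ (n - r)) +
      (p : O[X][X]) ^ (M + 1) * Ca p (A * Q ^ h * G ^ (M + 1) * E') := by
    refine Polynomial.ext fun j => ?_
    rw [coeff_Ca hp, e1, coeff_add, coeff_add, finsetSum_coeff, finsetSum_coeff, coeff_C_mul,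
      ← C_eq_natCast (R := O[X]), ← C_pow, coeff_C_mul, coeff_Ca hp]
    refine congrArg₂ (· + ·) (Finset.sum_congr rfl fun r _ => ?_) rfl
    rw [coeff_C_mul, ← C_eq_natCast (R := O[X]), ← C_pow, ← C_mul, coeff_C_mul,
      ← Ca_mul_expand hp0, coeff_Ca hp]
  refine ⟨B, E, C Δ ^ M * Ca p (A * Q ^ h * G ^ (M + 1) * E'), dB, ?_⟩
  rw [e2, Finset.sum_range_succ', pow_zero, pow_zero, mul_one, h0]
  simp only [map_add, map_mul, map_pow, map_natCast, Nat.choose_zero_right,
    Nat.cast_one, Nat.sub_zero]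
  linear_combination hBE

end Pool.Agent.Lib.MP_db9bd2_nt.Sup
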