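import Mathlib

/-! The endomorphisms `m + n α` of a curve with complex multiplication, as rational functions. -/

namespace Pool.Agent.Lib.MP_db9bd2_nt.Sup


open Polynomial WeierstrassCurve

theorem en_der {O : Type} [CommRing O] (L : Type) [Field L] [Algebra O[X] L]
    [IsFractionRing O[X] L] : ∃ d : L →+ L, (∀ x y, d (x * y) = x * d y + d x * y) ∧
      ∀ P : O[X], d (algebraMap _ _ P) = algebraMap _ _ (derivative P) := by
  let φ : O[X] →+* DualNumber L :=
    { toFun := fun P => TrivSqZeroExt.inl (algebraMap _ L P) +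
        TrivSqZeroExt.inr (algebraMap _ L (derivative P))
      map_one' := by ext <;> simp
      map_mul' := fun P Q => by
        ext
        · simp
        · simp only [TrivSqZeroExt.snd_add, TrivSqZeroExt.snd_inl, TrivSqZeroExt.snd_inr,
            TrivSqZeroExt.fst_add, TrivSqZeroExt.fst_inl, TrivSqZeroExt.fst_inr,
            DualNumber.snd_mul, derivative_mul, map_add, map_mul, zero_add, add_zero]
          ring
      map_zero' := by ext <;> simp
      map_add' := fun P Q => by ext <;> simp [Algebra.smul_def] }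
  have h1 : ∀ P, (φ P).fst = algebraMap _ L P := fun P => by simp [φ]
  have h2 : ∀ P, (φ P).snd = algebraMap _ L (derivative P) := fun P => by
    show (TrivSqZeroExt.inl (algebraMap _ L P) +
        TrivSqZeroExt.inr (algebraMap _ L (derivative P)) : DualNumber L).snd = _
    simp only [TrivSqZeroExt.snd_add, TrivSqZeroExt.snd_inl, TrivSqZeroExt.snd_inr, zero_add]
  have hu : ∀ y : nonZeroDivisors O[X], IsUnit (φ y) := fun y => by
    rw [TrivSqZeroExt.isUnit_iff_isUnit_fst, h1]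
    exact IsLocalization.map_units L y
  let ψ : L →+* DualNumber L := IsLocalization.lift hu
  have h3 : (TrivSqZeroExt.fstHom L L L).toRingHom.comp ψ = RingHom.id L :=
    IsLocalization.ringHom_ext (nonZeroDivisors O[X]) (RingHom.ext fun P => by
      simpa [ψ] using h1 P)
  have h4 : ∀ x, (ψ x).fst = x := fun x => RingHom.congr_fun h3 x
  refine ⟨(TrivSqZeroExt.sndHom L L).toAddMonoidHom.comp ψ.toAddMonoidHom, fun x y => ?_,
    fun P => ?_⟩
  · show (ψ (x * y)).snd = x * (ψ y).snd + (ψ x).snd * y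
    rw [map_mul, DualNumber.snd_mul, h4, h4]
  · show (ψ (algebraMap _ L P)).snd = _
    rw [IsLocalization.lift_eq, h2]

section Field

variable {L : Type} [Field L]

/-- The twisted curve. -/
def en_E (a b q : L) : Affine L := ⟨0, 0, 0, a * q ^ 2, b * q ^ 3⟩

theorem en_eqn {a b q R W : L} (hq : q ≠ 0) (h : (en_E a b q).Nonsingular (q * R) (q ^ 2 * W)) :
    q * W ^ 2 = R ^ 3 + a * R + b := by
  have := (Affine.equation_iff _ _).1 h.1
  simp only [en_E] at this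
  apply mul_left_cancel₀ (pow_ne_zero 3 hq)
  linear_combination this

theorem en_ns {a b q R W : L} (hq : q ≠ 0) (h2 : (2 : L) ≠ 0) (hW : W ≠ 0)
    (h : q * W ^ 2 = R ^ 3 + a * R + b) : (en_E a b q).Nonsingular (q * R) (q ^ 2 * W) := by
  rw [Affine.nonsingular_iff, Affine.equation_iff]
  simp only [en_E]
  refine ⟨by linear_combination q ^ 3 * h, Or.inr fun e => ?_⟩
  exact mul_ne_zero h2 (mul_ne_zero (pow_ne_zero 2 hq) hW) (by linear_combination e)

theorem en_some {E : Affine L} {x y x' y' : L} (h : E.Nonsingular x y) (e1 : x = x')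
    (e2 : y = y') : ∃ h' : E.Nonsingular x' y', Affine.Point.some _ _ h = .some _ _ h' := by
  subst e1 e2
  exact ⟨h, rfl⟩

theorem en_neg {a b q R W : L} (h : (en_E a b q).Nonsingular (q * R) (q ^ 2 * W)) :
    ∃ h' : (en_E a b q).Nonsingular (q * R) (q ^ 2 * -W),
      -Affine.Point.some _ _ h = .some _ _ h' := by
  rw [Affine.Point.neg_some]
  exact en_some _ rfl (by simp [en_E])

theorem en_chord [DecidableEq L] {a b q R1 W1 R0 W0 l : L} (hq : q ≠ 0) (hR : R1 ≠ R0)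
    (hl : l * (R1 - R0) = W1 - W0) (h1 : (en_E a b q).Nonsingular (q * R1) (q ^ 2 * W1))
    (h0 : (en_E a b q).Nonsingular (q * R0) (q ^ 2 * W0)) :
    ∃ h' : (en_E a b q).Nonsingular (q * (q * l ^ 2 - R1 - R0))
      (q ^ 2 * -(W1 + l * (q * l ^ 2 - R1 - R0 - R1))),
      Affine.Point.some _ _ h1 + .some _ _ h0 = .some _ _ h' := by
  have hx : q * R1 ≠ q * R0 := fun e => hR (mul_left_cancel₀ hq e)
  have hs : (en_E a b q).slope (q * R1) (q * R0) (q ^ 2 * W1) (q ^ 2 * W0) = q * l := by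
    rw [Affine.slope_of_X_ne hx, div_eq_iff (sub_ne_zero.2 hx)]
    linear_combination (-q ^ 2) * hl
  rw [Affine.Point.add_of_X_ne hx]
  refine en_some _ ?_ ?_
  · rw [hs]
    simp only [Affine.addX, en_E]
    ring
  · rw [hs]
    simp only [Affine.addY, Affine.negAddY, Affine.negY, Affine.addX, en_E]
    ring

theorem en_dW {d : L →+ L} (hd : ∀ x y, d (x * y) = x * d y + d x * y) {a b q R W g : L}
    (ha : d a = 0) (hb : d b = 0) (hW : W ≠ 0) (h : q * W ^ 2 = R ^ 3 + a * R + b)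
    (hR : d R = g * W) : 2 * q * d W = (3 * R ^ 2 + a) * g - d q * W := by
  have := congrArg d h
  simp only [pow_succ, pow_zero, one_mul, map_add, hd, ha, hb, hR] at this
  apply mul_left_cancel₀ hW
  linear_combination this

theorem en_diff {d : L →+ L} (hd : ∀ x y, d (x * y) = x * d y + d x * y)
    {a b q R1 W1 R0 W0 g e l : L} (ha : d a = 0) (hb : d b = 0) (hW1 : W1 ≠ 0) (hW0 : W0 ≠ 0)
    (h1 : q * W1 ^ 2 = R1 ^ 3 + a * R1 + b) (h0 : q * W0 ^ 2 = R0 ^ 3 + a * R0 + b)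
    (d1 : d R1 = g * W1) (d0 : d R0 = e * W0) (hR : R1 ≠ R0) (hl : l * (R1 - R0) = W1 - W0) :
    d (q * l ^ 2 - R1 - R0) = (g + e) * -(W1 + l * (q * l ^ 2 - R1 - R0 - R1)) := by
  have k1 := en_dW hd ha hb hW1 h1 d1
  have k0 := en_dW hd ha hb hW0 h0 d0
  have hD := sub_ne_zero.2 hR
  have k : q * l * (W1 + W0) = R1 ^ 2 + R1 * R0 + R0 ^ 2 + a := by
    apply mul_left_cancel₀ hD
    linear_combination h1 - h0 + q * (W1 + W0) * hl
  have k2 := congrArg d hl
  simp only [hd, map_sub, d1, d0] at k2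
  simp only [pow_succ, pow_zero, one_mul, map_sub, hd, d1, d0]
  obtain rfl : W0 = W1 - l * (R1 - R0) := by linear_combination hl
  apply mul_left_cancel₀ hD
  linear_combination 2 * q * l * k2 + l * k1 - l * k0 + (e - g) * l * k

theorem en_ne {d : L →+ L} {a b q R1 W1 R0 W0 g e : L} (hq : q ≠ 0) (hW0 : W0 ≠ 0)
    (h1 : q * W1 ^ 2 = R1 ^ 3 + a * R1 + b) (h0 : q * W0 ^ 2 = R0 ^ 3 + a * R0 + b)
    (d1 : d R1 = g * W1) (d0 : d R0 = e * W0) (hp : g + e ≠ 0) (hm : g - e ≠ 0) : R1 ≠ R0 := by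
  rintro rfl
  rcases sq_eq_sq_iff_eq_or_eq_neg.1 (mul_left_cancel₀ hq (h1.trans h0.symm)) with rfl | rfl
  · exact mul_ne_zero hm hW0 (by linear_combination d0 - d1)
  · exact mul_ne_zero hp hW0 (by linear_combination d1 - d0)

theorem en_sym {a b q R1 W1 R0 W0 l l' : L} (h1 : q * W1 ^ 2 = R1 ^ 3 + a * R1 + b)
    (h0 : q * W0 ^ 2 = R0 ^ 3 + a * R0 + b) (hR : R1 ≠ R0) (hl : l * (R1 - R0) = W1 - W0)
    (hl' : l' * (R1 - R0) = W1 - -W0) :
    (R1 - R0) ^ 2 * ((q * l ^ 2 - R1 - R0) + (q * l' ^ 2 - R1 - R0)) =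
      2 * (R1 * R0 + a) * (R1 + R0) + 4 * b ∧
    (R1 - R0) ^ 2 * ((q * l ^ 2 - R1 - R0) * (q * l' ^ 2 - R1 - R0)) =
      (R1 * R0 - a) ^ 2 - 4 * b * (R1 + R0) := by
  have k1 : (R1 - R0) ^ 2 * (q * l ^ 2) = q * (W1 - W0) ^ 2 := by rw [← hl]; ring
  have k2 : (R1 - R0) ^ 2 * (q * l' ^ 2) = q * (W1 - -W0) ^ 2 := by rw [← hl']; ring
  generalize q * l ^ 2 = u at k1 ⊢
  generalize q * l' ^ 2 = v at k2 ⊢
  have k3 : (R1 - R0) ^ 2 * (u + v) = 2 * (R1 ^ 3 + a * R1 + b + (R0 ^ 3 + a * R0 + b)) := by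
    linear_combination k1 + k2 + 2 * h1 + 2 * h0
  have k4 : (R1 - R0) ^ 2 * (u * v) = (R1 ^ 2 + R1 * R0 + R0 ^ 2 + a) ^ 2 := by
    apply mul_left_cancel₀ (pow_ne_zero 2 (sub_ne_zero.2 hR))
    have : q * W1 ^ 2 - q * W0 ^ 2 = (R1 - R0) * (R1 ^ 2 + R1 * R0 + R0 ^ 2 + a) := by
      linear_combination h1 - h0
    calc (R1 - R0) ^ 2 * ((R1 - R0) ^ 2 * (u * v))
        = (R1 - R0) ^ 2 * u * ((R1 - R0) ^ 2 * v) := by ring
      _ = (q * W1 ^ 2 - q * W0 ^ 2) ^ 2 := by rw [k1, k2]; ring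
      _ = _ := by rw [this]; ring
  exact ⟨by linear_combination k3, by linear_combination k4 - (R1 + R0) * k3⟩

theorem en_field {a b x1 y1 x0 y0 : L} (h2 : (2 : L) ≠ 0) (hΔ : 4 * a ^ 3 + 27 * b ^ 2 ≠ 0)
    (c1 : IsCoprime x1 y1) (c0 : IsCoprime x0 y0) (s0 : (x1 * y0 - x0 * y1) ^ 2 = 0)
    (s1 : 2 * (x1 * x0 + a * y1 * y0) * (x1 * y0 + x0 * y1) + 4 * b * y1 ^ 2 * y0 ^ 2 = 0)
    (s2 : (x1 * x0 - a * y1 * y0) ^ 2 - 4 * b * y1 * y0 * (x1 * y0 + x0 * y1) = 0) : False := by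
  have e := sub_eq_zero.1 (pow_eq_zero_iff two_ne_zero |>.1 s0)
  have n1 : y1 = 0 → x1 ≠ 0 := fun h h' => by simp [h, h'] at c1
  have n0 : y0 = 0 → x0 ≠ 0 := fun h h' => by simp [h, h'] at c0
  have hy : y1 ≠ 0 := fun h => by
    have h' : y0 = 0 := by simpa [h, n1 h] using e
    simp [h, n1 h, n0 h'] at s2
  have hy0 : y0 ≠ 0 := fun h => by simp [h, n0 h, hy] at e
  obtain ⟨x, rfl⟩ : ∃ x, x1 = x * y1 := ⟨x1 / y1, by field_simp⟩
  obtain rfl : x0 = x * y0 := mul_right_cancel₀ hy (by linear_combination -e)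
  have hn := pow_ne_zero 2 (mul_ne_zero hy hy0)
  have f0 : x ^ 3 + a * x + b = 0 := by
    apply mul_left_cancel₀ (mul_ne_zero (mul_ne_zero h2 h2) hn)
    linear_combination s1
  have f1 : (3 * x ^ 2 + a) ^ 2 = 0 := by
    apply mul_left_cancel₀ hn
    linear_combination s2 + 8 * x * (y1 * y0) ^ 2 * f0
  have f2 := pow_eq_zero_iff two_ne_zero |>.1 f1
  exact hΔ (by
    linear_combination (27 * b - 18 * a * x) * f0 + (6 * a * x ^ 2 - 9 * b * x + 4 * a ^ 2) * f2)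

end Field

section Poly

variable {O : Type} [CommRing O] [IsDomain O]

theorem en_poly {a b : O} (hΔ : IsUnit (4 * a ^ 3 + 27 * b ^ 2)) (h2 : IsUnit (2 : O))
    {A1 B1 A0 B0 A2 B2 S0 S1 S2 : O[X]} (m1 : A1.Monic) (l1 : B1.natDegree < A1.natDegree)
    (c1 : IsCoprime A1 B1) (m0 : A0.Monic) (l0 : B0.natDegree < A0.natDegree)
    (c0 : IsCoprime A0 B0) (m2 : A2.Monic) (l2 : B2.natDegree < A2.natDegree)
    (c2 : IsCoprime A2 B2) (hB : B2 ≠ 0) (hS0 : S0 ≠ 0) (e0 : S0 = (A1 * B0 - A0 * B1) ^ 2)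
    (e1 : S1 = 2 * (A1 * A0 + C a * B1 * B0) * (A1 * B0 + A0 * B1) + 4 * C b * B1 ^ 2 * B0 ^ 2)
    (e2 : S2 = (A1 * A0 - C a * B1 * B0) ^ 2 - 4 * C b * B1 * B0 * (A1 * B0 + A0 * B1))
    (h : S0 * A2 ^ 2 - S1 * A2 * B2 + S2 * B2 ^ 2 = 0) :
    ∃ A3 B3 : O[X], S2 = A2 * A3 ∧ S0 = B2 * B3 ∧ A3.Monic ∧
      A2.natDegree + A3.natDegree = 2 * A1.natDegree + 2 * A0.natDegree ∧
      B3.natDegree < A3.natDegree ∧ IsCoprime A3 B3 := by
  obtain ⟨A3, hA⟩ : A2 ∣ S2 := (c2.pow_right (n := 2)).dvd_of_dvd_mul_right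
    ⟨S1 * B2 - S0 * A2, by linear_combination h⟩
  obtain ⟨B3, hB3⟩ : B2 ∣ S0 := (c2.symm.pow_right (n := 2)).dvd_of_dvd_mul_right
    ⟨S1 * A2 - S2 * B2, by linear_combination h⟩
  have hS : S1 = A2 * B3 + A3 * B2 := by
    apply mul_left_cancel₀ (mul_ne_zero m2.ne_zero hB)
    rw [hA, hB3] at h
    linear_combination -h
  obtain ⟨n1, hn1⟩ : ∃ n, A1.natDegree = n + 1 := ⟨A1.natDegree - 1, by omega⟩
  obtain ⟨n0, hn0⟩ : ∃ n, A0.natDegree = n + 1 := ⟨A0.natDegree - 1, by omega⟩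
  have a1 := hn1.le
  have a0 := hn0.le
  have b1 : B1.natDegree ≤ n1 := by omega
  have b0 : B0.natDegree ≤ n0 := by omega
  have p1 : (C a * B1 * B0).natDegree ≤ n1 + n0 :=
    natDegree_mul_le.trans (add_le_add ((natDegree_C_mul_le _ _).trans b1) b0)
  have p2 : (A1 * A0).natDegree = n1 + n0 + 2 := by rw [m1.natDegree_mul m0]; omega
  have p3 : (A1 * B0 + A0 * B1).natDegree ≤ n1 + n0 + 1 :=
    natDegree_add_le_of_degree_le (natDegree_mul_le.trans (by omega))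
      (natDegree_mul_le.trans (by omega))
  have p4 : (4 * C b : O[X]).natDegree ≤ 0 := by compute_degree
  have p5 : (A1 * A0 - C a * B1 * B0).Monic :=
    (m1.mul m0).sub_of_left (degree_lt_degree (by omega))
  have p6 : (A1 * A0 - C a * B1 * B0).natDegree = n1 + n0 + 2 := by
    rw [natDegree_sub_eq_left_of_natDegree_lt (by omega), p2]
  have p7 : (4 * C b * B1 * B0 * (A1 * B0 + A0 * B1)).natDegree ≤ 0 + n1 + n0 + (n1 + n0 + 1) :=
    natDegree_mul_le.trans (add_le_add (natDegree_mul_le.trans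
      (add_le_add (natDegree_mul_le.trans (add_le_add p4 b1)) b0)) p3)
  have p8 : ((A1 * A0 - C a * B1 * B0) ^ 2).natDegree = 2 * (n1 + n0 + 2) := by
    rw [p5.natDegree_pow, p6]
  have p9 : S2.Monic := e2 ▸ (p5.pow 2).sub_of_left (degree_lt_degree (by omega))
  have q1 : S2.natDegree = 2 * (n1 + n0 + 2) := by
    rw [e2, natDegree_sub_eq_left_of_natDegree_lt (by omega), p8]
  have m3 : A3.Monic := m2.of_mul_monic_left (hA ▸ p9)
  have q2 : A2.natDegree + A3.natDegree = 2 * (n1 + n0 + 2) := by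
    rw [← m2.natDegree_mul m3, ← hA, q1]
  have q3 : S1.natDegree ≤ 2 * (n1 + n0 + 2) - 1 := by
    rw [e1]
    refine natDegree_add_le_of_degree_le (natDegree_mul_le.trans ?_)
      (natDegree_mul_le.trans ?_)
    · have r1 : (A1 * A0 + C a * B1 * B0).natDegree ≤ n1 + n0 + 2 :=
        natDegree_add_le_of_degree_le p2.le (by omega)
      have r2 : (2 * (A1 * A0 + C a * B1 * B0)).natDegree ≤ n1 + n0 + 2 :=
        natDegree_mul_le.trans (by simpa using r1)
      omega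
    · have r1 := natDegree_mul_le (p := 4 * C b) (q := B1 ^ 2)
      have r2 := natDegree_pow_le (p := B1) (n := 2)
      have r3 := natDegree_pow_le (p := B0) (n := 2)
      omega
  refine ⟨A3, B3, hA, hB3, m3, by omega, ?_, ?_⟩
  · have r1 := natDegree_mul_le (p := A3) (q := B2)
    have r2 := natDegree_sub_le S1 (A3 * B2)
    rw [show S1 - A3 * B2 = A2 * B3 by rw [hS]; ring] at r2
    rw [natDegree_mul m2.ne_zero (right_ne_zero_of_mul (hB3 ▸ hS0))] at r2
    omega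
  · by_contra hc
    rw [← Ideal.isCoprime_span_singleton_iff, Ideal.isCoprime_iff_sup_eq] at hc
    obtain ⟨M, hM, hle⟩ := Ideal.exists_le_maximal _ hc
    let _ := Ideal.Quotient.field M
    let π := Ideal.Quotient.mk M
    have z1 : π A3 = 0 := Ideal.Quotient.eq_zero_iff_mem.2
      (hle (Ideal.mem_sup_left (Ideal.mem_span_singleton_self _)))
    have z2 : π B3 = 0 := Ideal.Quotient.eq_zero_iff_mem.2
      (hle (Ideal.mem_sup_right (Ideal.mem_span_singleton_self _)))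
    have u2 := ((h2.map C).map π).ne_zero
    have uΔ := ((hΔ.map C).map π).ne_zero
    simp only [map_add, map_mul, map_pow, map_ofNat] at u2 uΔ
    have t0 := congrArg π (e0.symm.trans hB3)
    have t1 := congrArg π (e1.symm.trans hS)
    have t2 := congrArg π (e2.symm.trans hA)
    simp only [map_add, map_sub, map_mul, map_pow, map_ofNat, z1, z2, mul_zero, zero_mul,
      add_zero] at t0 t1 t2
    exact en_field u2 uΔ (c1.map π) (c0.map π) t0 t1 t2

variable {L : Type} [Field L]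

/-- The standing hypotheses. -/
structure en_Ctx (ι : O[X] →+* L) (d : L →+ L) (a b : O) (q : L) : Prop where
  inj : Function.Injective ι
  mul : ∀ x y, d (x * y) = x * d y + d x * y
  der : ∀ P, d (ι P) = ι (derivative P)
  disc : IsUnit (4 * a ^ 3 + 27 * b ^ 2)
  two : IsUnit (2 : O)
  q_ne : q ≠ 0

/-- The point is given by a rational function of degree `N` with multiplier `g`. -/
def en_Good (ι : O[X] →+* L) (d : L →+ L) (a b : O) (q : L)
    (P : (en_E (ι (C a)) (ι (C b)) q).Point) (g : O) (N : ℤ) : Prop :=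
  ∃ (A B : O[X]) (R W : L) (h : (en_E (ι (C a)) (ι (C b)) q).Nonsingular (q * R) (q ^ 2 * W)),
    P = .some _ _ h ∧ R * ι B = ι A ∧ A.Monic ∧ (A.natDegree : ℤ) = N ∧
      B.natDegree < A.natDegree ∧ IsCoprime A B ∧ d R = ι (C g) * W

variable {ι : O[X] →+* L} {d : L →+ L} {a b : O} {q : L}

theorem en_B_ne {A B : O[X]} (l : B.natDegree < A.natDegree) (c : IsCoprime A B) : B ≠ 0 := by
  rintro rfl
  have := natDegree_eq_zero_of_isUnit (isCoprime_zero_right.1 c)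
  omega

omit [IsDomain O] in
theorem en_Ctx.dC (H : en_Ctx ι d a b q) (c : O) : d (ι (C c)) = 0 := by
  rw [H.der, derivative_C, map_zero]

omit [IsDomain O] in
theorem en_Ctx.ne (H : en_Ctx ι d a b q) {P : O[X]} (h : P ≠ 0) : ι P ≠ 0 :=
  (map_ne_zero_iff ι H.inj).2 h

omit [IsDomain O] in
theorem en_W_ne (H : en_Ctx ι d a b q) {A B : O[X]} {R W : L} (e : R * ι B = ι A) (m : A.Monic)
    (l : B.natDegree < A.natDegree) (h : q * W ^ 2 = R ^ 3 + ι (C a) * R + ι (C b)) :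
    W ≠ 0 := by
  rintro rfl
  have h1 : A ^ 3 = -(C a * A * B ^ 2 + C b * B ^ 3) := H.inj (by
    simp only [map_neg, map_add, map_mul, map_pow, ← e]
    linear_combination (-ι B ^ 3) * h)
  have h2 := congrArg natDegree h1
  rw [m.natDegree_pow, natDegree_neg] at h2
  have r1 := natDegree_add_le (C a * A * B ^ 2) (C b * B ^ 3)
  have r2 := natDegree_mul_le (p := C a * A) (q := B ^ 2)
  have r3 := natDegree_C_mul_le a A
  have r4 := natDegree_C_mul_le b (B ^ 3)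
  have r5 := natDegree_pow_le (p := B) (n := 2)
  have r6 := natDegree_pow_le (p := B) (n := 3)
  omega

omit [IsDomain O] in
theorem en_Good.neg [DecidableEq L] {P : (en_E (ι (C a)) (ι (C b)) q).Point} {g : O} {N : ℤ}
    (h : en_Good ι d a b q P g N) : en_Good ι d a b q (-P) (-g) N := by
  obtain ⟨A, B, R, W, h, rfl, h1, h2, h3, h4, h5, h6⟩ := h
  obtain ⟨h', e⟩ := en_neg h
  exact ⟨A, B, R, -W, h', e, h1, h2, h3, h4, h5, by rw [h6, map_neg, map_neg, neg_mul_neg]⟩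

theorem en_step [DecidableEq L] (H : en_Ctx ι d a b q)
    {P P0 : (en_E (ι (C a)) (ι (C b)) q).Point} {g e g' : O} {N1 N0 N2 : ℤ}
    (G1 : en_Good ι d a b q P g N1) (G0 : en_Good ι d a b q P0 e N0)
    (G2 : en_Good ι d a b q (P - P0) g' N2) (hp : g + e ≠ 0) (hm : g - e ≠ 0) :
    en_Good ι d a b q (P + P0) (g + e) (2 * N1 + 2 * N0 - N2) := by
  obtain ⟨A1, B1, R1, W1, n1, rfl, e1, m1, rfl, l1, c1, d1⟩ := G1
  obtain ⟨A0, B0, R0, W0, n0, rfl, e0, m0, rfl, l0, c0, d0⟩ := G0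
  obtain ⟨A2, B2, R2, W2, n2, hP, e2, m2, rfl, l2, c2, -⟩ := G2
  have q1 := en_eqn H.q_ne n1
  have q0 := en_eqn H.q_ne n0
  have w1 := en_W_ne H e1 m1 l1 q1
  have w0 := en_W_ne H e0 m0 l0 q0
  have hR : R1 ≠ R0 := en_ne H.q_ne w0 q1 q0 d1 d0
    (by rw [← map_add, ← map_add]; exact H.ne (C_ne_zero.2 hp))
    (by rw [← map_sub, ← map_sub]; exact H.ne (C_ne_zero.2 hm))
  have hD := sub_ne_zero.2 hR
  obtain ⟨l, hl⟩ : ∃ l, l * (R1 - R0) = W1 - W0 := ⟨_, div_mul_cancel₀ _ hD⟩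
  obtain ⟨l', hl'⟩ : ∃ l, l * (R1 - R0) = W1 - -W0 := ⟨_, div_mul_cancel₀ _ hD⟩
  obtain ⟨n3, hs⟩ := en_chord H.q_ne hR hl n1 n0
  obtain ⟨n0', hn⟩ := en_neg n0
  obtain ⟨n4, hs'⟩ := en_chord H.q_ne hR hl' n1 n0'
  rw [sub_eq_add_neg, hn, hs'] at hP
  have hR2 : q * l' ^ 2 - R1 - R0 = R2 :=
    mul_left_cancel₀ H.q_ne (Affine.Point.some.inj hP).1
  obtain ⟨s1, s2⟩ := en_sym q1 q0 hR hl hl'
  have d3 := en_diff H.mul (H.dC a) (H.dC b) w1 w0 q1 q0 d1 d0 hR hl
  rw [hR2] at s1 s2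
  generalize q * l ^ 2 - R1 - R0 = R3 at n3 hs s1 s2 d3
  have b1 := H.ne (en_B_ne l1 c1)
  have b0 := H.ne (en_B_ne l0 c0)
  have t0 : ι ((A1 * B0 - A0 * B1) ^ 2) = (R1 - R0) ^ 2 * (ι B1 * ι B0) ^ 2 := by
    simp only [map_sub, map_mul, map_pow, ← e1, ← e0]
    ring
  have t2 : ι ((A1 * A0 - C a * B1 * B0) ^ 2 - 4 * C b * B1 * B0 * (A1 * B0 + A0 * B1)) =
      (R1 - R0) ^ 2 * (ι B1 * ι B0) ^ 2 * (R3 * R2) := by
    simp only [map_sub, map_add, map_mul, map_pow, map_ofNat, ← e1, ← e0]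
    linear_combination (-(ι B1 * ι B0) ^ 2) * s2
  have t3 : (R1 - R0) ^ 2 * (ι B1 * ι B0) ^ 2 ≠ 0 :=
    mul_ne_zero (pow_ne_zero 2 hD) (pow_ne_zero 2 (mul_ne_zero b1 b0))
  obtain ⟨A3, B3, k2, k0, m3, k3, l3, c3⟩ := en_poly H.disc H.two m1 l1 c1 m0 l0 c0 m2 l2 c2
    (en_B_ne l2 c2) (fun h => t3 (by rw [← t0, h, map_zero])) rfl rfl rfl (H.inj (by
      rw [map_add, map_sub, map_mul, map_mul _ _ (B2 ^ 2), t0, t2]
      simp only [map_add, map_mul, map_pow, map_ofNat, map_zero, ← e1, ← e0, ← e2]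
      linear_combination R2 * ι B2 ^ 2 * (ι B1 * ι B0) ^ 2 * s1))
  refine ⟨A3, B3, R3, _, n3, hs, ?_, m3, by omega, l3, c3, by rw [d3, map_add, map_add]⟩
  rw [← t0, k0, k2, map_mul, map_mul] at t2
  apply mul_left_cancel₀ (H.ne m2.ne_zero)
  rw [t2, ← e2]
  ring

theorem en_lattice (G : ℤ → ℤ → Prop) (neg : ∀ m n, G m n → G (-m) (-n))
    (step : ∀ m n m' n' u v s t, G m n → G m' n' → G u v → u = m - m' → v = n - n' →
      s = m + m' → t = n + n' → (s ≠ 0 ∨ t ≠ 0) → (u ≠ 0 ∨ v ≠ 0) → G s t)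
    (g1 : G 1 0) (g2 : G 0 1) (g3 : G 1 (-1)) (m n : ℤ) (hn : 0 < n)
    (hodd : ¬ (2 ∣ m ∧ 2 ∣ n)) : G m n := by
  have row : ∀ m, G m 1 ∧ G (m - 1) 1 := fun m => by
    induction m using Int.induction_on with
    | zero => exact ⟨g2, neg _ _ g3⟩
    | succ i ih =>
      exact ⟨step _ _ _ _ _ _ _ _ ih.1 g1 ih.2 (by omega) (by omega) (by omega) (by omega)
        (by omega) (by omega), by rw [add_sub_cancel_right]; exact ih.1⟩
    | pred i ih =>
      exact ⟨ih.2, step _ _ _ _ _ _ _ _ ih.2 (neg _ _ g1) ih.1 (by omega) (by omega) (by omega)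
        (by omega) (by omega) (by omega)⟩
  have key : ∀ j : ℕ, (∀ m, G m (2 * j + 1)) ∧ G 1 (2 * j) := fun j => by
    induction j with
    | zero => exact ⟨fun m => (row m).1, g1⟩
    | succ j ih =>
      have h : G 1 (2 * (j + 1 : ℕ)) := step _ _ _ _ _ _ _ _ (ih.1 1) g2 ih.2 (by omega)
        (by omega) (by omega) (by omega) (by omega) (by omega)
      exact ⟨fun m => step _ _ _ _ _ _ _ _ h (row m).2 (ih.1 (2 - m)) (by omega) (by omega)
        (by omega) (by omega) (by omega) (by omega), h⟩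
  rcases Int.emod_two_eq_zero_or_one n with h | h
  · obtain ⟨j, rfl⟩ : ∃ j : ℕ, n = 2 * j + 2 := ⟨(n / 2 - 1).toNat, by omega⟩
    exact step _ _ _ _ _ _ _ _ ((key j).1 (m / 2 + 1)) (row (m / 2)).1 (key j).2 (by omega)
      (by omega) (by omega) (by omega) (by omega) (by omega)
  · obtain ⟨j, rfl⟩ : ∃ j : ℕ, n = 2 * j + 1 := ⟨(n / 2).toNat, by omega⟩
    exact (key j).1 m

end Poly

theorem endo_exists {O : Type} [CommRing O] [IsDomain O] [CharZero O] (a b α : O)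
    (hα : α ^ 2 = α - 41) (hΔ : IsUnit (4 * a ^ 3 + 27 * b ^ 2)) (h2 : IsUnit (2 : O))
    (Q A1 B1 E1 A2 B2 : O[X]) (hQ : Q = X ^ 3 + C a * X + C b)
    (m1 : A1.Monic) (d1 : A1.natDegree = 41) (l1 : B1.natDegree < 41) (c1 : IsCoprime A1 B1)
    (w1 : derivative A1 * B1 - A1 * derivative B1 = C α * E1)
    (q1 : E1 ^ 2 * Q = B1 * (A1 ^ 3 + C a * A1 * B1 ^ 2 + C b * B1 ^ 3))
    (m2 : A2.Monic) (d2 : A2.natDegree = 41) (l2 : B2.natDegree < 41) (c2 : IsCoprime A2 B2)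
    (hs : Q * (B1 ^ 2 + E1) ^ 2 * B2 =
      B1 * (X * B1 - A1) ^ 2 * ((X * B1 + A1) * B2 + A2 * B1))
    (m n : ℤ) (hn : 0 < n) (hodd : ¬ (2 ∣ m ∧ 2 ∣ n)) :
    ∃ A B : O[X], A.Monic ∧ (A.natDegree : ℤ) = m ^ 2 + m * n + 41 * n ^ 2 ∧
      B.natDegree < A.natDegree ∧ IsCoprime A B ∧
      (derivative A * B - A * derivative B) ^ 2 * Q =
        C (((m : O) + n * α) ^ 2) * (B * (A ^ 3 + C a * A * B ^ 2 + C b * B ^ 3)) := by
  classical
  obtain ⟨d, hd, hder⟩ := en_der (O := O) (FractionRing O[X])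
  have hinj := IsFractionRing.injective O[X] (FractionRing O[X])
  generalize algebraMap O[X] (FractionRing O[X]) = ι at hder hinj
  have hQ0 : Q ≠ 0 := by
    have : Q.Monic := by rw [hQ]; monicity!
    exact this.ne_zero
  have H : en_Ctx ι d a b (ι Q) := ⟨hinj, hd, hder, hΔ, h2, (map_ne_zero_iff ι hinj).2 hQ0⟩
  have two : (2 : FractionRing O[X]) ≠ 0 := by
    simpa only [map_ofNat] using ((h2.map C).map ι).ne_zero
  have quo : ∀ {A B : O[X]} {R}, R * ι B = ι A →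
      d R * ι B ^ 2 = ι (derivative A * B - A * derivative B) := fun {A B R} e => by
    have := congrArg d e
    rw [hd, hder, hder] at this
    rw [map_sub, map_mul, map_mul, ← e, ← this]
    ring
  have nz : ∀ s t : ℤ, s ≠ 0 ∨ t ≠ 0 → (s : O) + t * α ≠ 0 := fun s t h e => by
    have h1 : ((s ^ 2 + s * t + 41 * t ^ 2 : ℤ) : O) = 0 := by
      push_cast
      linear_combination ((s : O) + t - t * α) * e + (t : O) ^ 2 * hα
    have h3 : s ^ 2 + s * t + 41 * t ^ 2 = 0 := by exact_mod_cast h1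
    rcases h with h | h <;> nlinarith [sq_pos_of_ne_zero h, sq_nonneg (s + 2 * t), sq_nonneg t,
      sq_nonneg (2 * s + t)]
  have b1 := H.ne (en_B_ne (d1 ▸ l1) c1)
  have b2 := H.ne (en_B_ne (d2 ▸ l2) c2)
  obtain ⟨R, hR⟩ : ∃ R, R * ι B1 = ι A1 := ⟨_, div_mul_cancel₀ _ b1⟩
  obtain ⟨W, hW⟩ : ∃ W, W * ι B1 ^ 2 = ι E1 := ⟨_, div_mul_cancel₀ _ (pow_ne_zero 2 b1)⟩
  obtain ⟨R2, hR2⟩ : ∃ R, R * ι B2 = ι A2 := ⟨_, div_mul_cancel₀ _ b2⟩
  have e1 : ι Q * 1 ^ 2 = ι X ^ 3 + ι (C a) * ι X + ι (C b) := by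
    rw [hQ, one_pow, mul_one, map_add, map_add, map_mul, map_pow]
  have ea : ι Q * W ^ 2 = R ^ 3 + ι (C a) * R + ι (C b) := by
    have := congrArg ι q1
    simp only [map_add, map_mul, map_pow, ← hR, ← hW] at this
    apply mul_left_cancel₀ (pow_ne_zero 4 b1)
    linear_combination this
  have wa := en_W_ne H hR m1 (d1 ▸ l1) ea
  have n1 := en_ns H.q_ne two one_ne_zero e1
  have na := en_ns H.q_ne two wa ea
  have dX : d (ι X) = ι (C 1) * 1 := by rw [hder, derivative_X, C_1, mul_one]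
  have da : d R = ι (C α) * W := by
    apply mul_right_cancel₀ (pow_ne_zero 2 b1)
    rw [quo hR, w1, map_mul, ← hW, mul_assoc]
  obtain ⟨A, B, R, W, h, -, k1, k2, k3, k4, k5, k6⟩ := en_lattice
    (fun m n => en_Good ι d a b (ι Q) (m • Affine.Point.some _ _ n1 + n • .some _ _ na)
      (m + n * α) (m ^ 2 + m * n + 41 * n ^ 2))
    (fun m n h => by
      convert h.neg using 1
      · rw [neg_add, neg_smul, neg_smul]
      · push_cast; ring
      · ring)
    (fun m n m' n' u v s t g1 g2 g3 hu hv hs ht z1 z2 => by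
      have y1 := nz s t z1
      have y2 := nz u v z2
      subst hu hv hs ht
      push_cast at y1 y2
      have := en_step H g1 g2 (by
        convert g3 using 1
        rw [sub_smul, sub_smul]; abel) (fun e => y1 (by linear_combination e))
        (fun e => y2 (by linear_combination e))
      convert this using 1
      · rw [add_smul, add_smul]; abel
      · push_cast; ring
      · ring)
    ⟨X, 1, ι X, 1, n1, by simp, by simp, monic_X, by simp, by simp, isCoprime_one_right,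
      by simpa using dX⟩
    ⟨A1, B1, R, W, na, by simp, hR, m1, by simp [d1], d1 ▸ l1, c1, by simpa using da⟩
    (by
      obtain ⟨na', hn⟩ := en_neg na
      have ea' : ι Q * (-W) ^ 2 = R ^ 3 + ι (C a) * R + ι (C b) := by rw [neg_sq, ea]
      have da' : d R = ι (C (-α)) * -W := by rw [da, map_neg, map_neg, neg_mul_neg]
      have hne : ι X ≠ R := en_ne H.q_ne (neg_ne_zero.2 wa) e1 ea' dX da'
        (by
          rw [← map_add, ← map_add]
          exact H.ne (C_ne_zero.2 (by simpa using nz 1 (-1) (by simp))))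
        (by
          rw [← map_sub, ← map_sub]
          exact H.ne (C_ne_zero.2 (by simpa using nz 1 1 (by simp))))
      have hD := sub_ne_zero.2 hne
      obtain ⟨l, hl⟩ : ∃ l, l * (ι X - R) = 1 - -W := ⟨_, div_mul_cancel₀ _ hD⟩
      obtain ⟨n3, h3⟩ := en_chord H.q_ne hne hl n1 na'
      have d3 := en_diff hd (H.dC a) (H.dC b) one_ne_zero (neg_ne_zero.2 wa) e1 ea' dX da' hne hl
      refine ⟨A2, B2, _, _, n3, ?_, ?_, m2, by simp [d2], d2 ▸ l2, c2, ?_⟩
      · rw [one_smul, neg_smul, one_smul, hn, h3]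
      · have := congrArg ι hs
        simp only [map_add, map_sub, map_mul, map_pow, ← hR, ← hW] at this
        apply mul_left_cancel₀ (mul_ne_zero (pow_ne_zero 4 b1) (pow_ne_zero 2 hD))
        linear_combination this + ι Q * ι B1 ^ 4 * ι B2 * (l * (ι X - R) + (1 + W)) * hl
      · rw [d3, ← map_add, ← map_add]
        congr 3
        push_cast; ring) m n hn hodd
  refine ⟨A, B, k2, k3, k4, k5, hinj ?_⟩
  rw [map_mul, map_pow, ← quo k1, k6, C_pow]
  simp only [map_add, map_mul, map_pow, ← k1]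
  linear_combination (ι (C (m : O)) + ι (C (n : O)) * ι (C α)) ^ 2 * ι B ^ 4 * en_eqn H.q_ne h




theorem em_sqfree {k : Type} [Field k] (a b : k) (hΔ : 4 * a ^ 3 + 27 * b ^ 2 ≠ 0) :
    Squarefree (X ^ 3 + C a * X + C b : k[X]) := by
  apply Separable.squarefree
  rw [separable_def']
  have hd : derivative (X ^ 3 + C a * X + C b : k[X]) = 3 * X ^ 2 + C a := by
    simp [derivative_X_pow, map_ofNat]
    norm_num
  have h1 : (C (4 * a ^ 3 + 27 * b ^ 2)⁻¹ * (4 * C a ^ 3 + 27 * C b ^ 2) : k[X]) = 1 := by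
    have := congrArg (C : k → k[X]) (inv_mul_cancel₀ hΔ)
    simpa only [map_mul, map_add, map_pow, map_ofNat, map_one] using this
  refine ⟨-C (4 * a ^ 3 + 27 * b ^ 2)⁻¹ * (18 * C a * X - 27 * C b),
    C (4 * a ^ 3 + 27 * b ^ 2)⁻¹ * (6 * C a * X ^ 2 - 9 * C b * X + 4 * C a ^ 2), ?_⟩
  rw [hd]
  linear_combination h1

theorem endo_mod {k : Type} [Field k] [IsAlgClosed k] {p h : ℕ} [CharP k p] (hp : p.Prime)
    (hh : p = 2 * h + 1) (h3 : 3 < p) (a b : ℤ) (ha : (a : k) ≠ 0) (hb : (b : k) ≠ 0)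
    (hΔ : (4 * a ^ 3 + 27 * b ^ 2 : k) ≠ 0) (Q A B E : k[X])
    (hQ : Q = X ^ 3 + C (a : k) * X + C (b : k)) (hA : A.Monic) (dA : A.natDegree = p)
    (dB : B.natDegree < p) (hc : IsCoprime A B)
    (hw : derivative A * B - A * derivative B = 0)
    (hE : E ^ 2 * Q = B * (A ^ 3 + C (a : k) * A * B ^ 2 + C (b : k) * B ^ 3)) :
    A = X ^ p ∧ B = 1 ∧ (E = Q ^ h ∨ E = -Q ^ h) := by
  have := Fact.mk hp
  have hA' : derivative A = 0 := by
    have h1 : A ∣ derivative A * B := ⟨derivative B, by linear_combination hw⟩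
    exact eq_zero_of_dvd_of_natDegree_lt (hc.dvd_of_dvd_mul_right h1)
      (natDegree_derivative_lt (by rw [dA]; exact hp.ne_zero))
  have hB' : derivative B = 0 := by
    rw [hA', zero_mul, zero_sub, neg_eq_zero] at hw
    exact (mul_eq_zero.1 hw).resolve_left hA.ne_zero
  obtain ⟨b0, hb0⟩ : ∃ b0 : k, B = C b0 := by
    have e := expand_contract p hB' hp.ne_zero
    have d : (contract p B).natDegree = 0 := by
      rw [← e, natDegree_expand] at dB
      by_contra h0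
      have := Nat.mul_le_mul_right p (Nat.one_le_iff_ne_zero.2 h0)
      omega
    refine ⟨(contract p B).coeff 0, ?_⟩
    rw [← expand_C p ((contract p B).coeff 0), ← eq_C_of_natDegree_eq_zero d, e]
  obtain ⟨a0, ha0⟩ : ∃ a0 : k, A = expand k p (X + C a0) := by
    have e := expand_contract p hA' hp.ne_zero
    have d : (contract p A).natDegree = 1 := by
      have h1 := dA
      rw [← e, natDegree_expand] at h1
      exact Nat.eq_of_mul_eq_mul_right hp.pos (by rw [h1, one_mul])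
    have m : (contract p A).Monic := (monic_expand_iff hp.pos).1 (by rw [e]; exact hA)
    exact ⟨(contract p A).coeff 0, by rw [← m.eq_X_add_C d, e]⟩
  have hb00 : b0 ≠ 0 := by
    rintro rfl
    rw [hb0, map_zero, isCoprime_zero_right] at hc
    have := natDegree_eq_zero_of_isUnit hc
    omega
  obtain ⟨Cu, hCu⟩ : ∃ Cu : k[X], Cu = X ^ 3 + C (3 * a0) * X ^ 2 +
      C (3 * a0 ^ 2 + a * b0 ^ 2) * X + C (a0 ^ 3 + a * a0 * b0 ^ 2 + b * b0 ^ 3) := ⟨_, rfl⟩
  have hCm : Cu.Monic := by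
    rw [hCu]
    monicity!
  have hCd : Cu.natDegree = 3 := by
    rw [hCu]
    compute_degree!
  have hE1 : E ^ 2 * Q = C b0 * expand k p Cu := by
    rw [hE, hb0, ha0, hCu]
    simp only [map_add, map_mul, map_pow, expand_C, map_ofNat, expand_X]
    ring
  have hQm : Q.Monic := by
    rw [hQ]
    monicity!
  have hQd : Q.natDegree = 3 := by
    rw [hQ]
    compute_degree!
  obtain ⟨C1, hC1⟩ : ∃ C1 : k[X], C1 = Cu.map (frobeniusEquiv k p).symm.toRingHom := ⟨_, rfl⟩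
  have hfr : C1.map (frobenius k p) = Cu := by
    rw [hC1, Polynomial.map_map]
    ext n
    simp
  have hpow : expand k p Cu = C1 ^ p := by
    rw [← map_frobenius_expand p C1, map_expand, hfr]
  have hdvd : Q ∣ C1 := by
    have hs : Squarefree Q := hQ ▸ em_sqfree (a : k) (b : k) hΔ
    rw [← hs.dvd_pow_iff_dvd hp.ne_zero, ← hpow,
      ← (isUnit_C.2 (isUnit_iff_ne_zero.2 hb00)).dvd_mul_left, ← hE1]
    exact dvd_mul_left _ _
  have hQC : C1 = Q := by
    refine eq_of_monic_of_dvd_of_natDegree_le hQm (hC1 ▸ hCm.map _) hdvd ?_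
    rw [hC1, natDegree_map, hCd, hQd]
  have hCQ : Cu = Q := by
    rw [← hfr, hQC, hQ]
    simp
  have hz : (C (3 * a0) * X ^ 2 + C (3 * a0 ^ 2 + a * b0 ^ 2 - a) * X +
      C (a0 ^ 3 + a * a0 * b0 ^ 2 + b * b0 ^ 3 - b) : k[X]) = 0 := by
    rw [hCu, hQ] at hCQ
    rw [map_sub, map_sub]
    linear_combination hCQ
  have c2 := congrArg (coeff · 2) hz
  have c1 := congrArg (coeff · 1) hz
  have c0 := congrArg (coeff · 0) hz
  simp only [coeff_add, coeff_C_mul, coeff_X_pow, coeff_X, coeff_C, coeff_zero] at c2 c1 c0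
  norm_num at c2 c1 c0
  have h30 : (3 : k) ≠ 0 := by
    intro h0
    have := Nat.le_of_dvd (by norm_num) ((CharP.cast_eq_zero_iff k p 3).1 (by simpa using h0))
    omega
  have e0 : a0 = 0 := c2.resolve_left h30
  subst e0
  have e2 : b0 ^ 2 = 1 := mul_left_cancel₀ ha (by linear_combination c1)
  have e3 : b0 ^ 3 = 1 := mul_left_cancel₀ hb (by linear_combination c0)
  have e1 : b0 = 1 := by linear_combination e3 - b0 * e2
  subst e1
  refine ⟨by simp [ha0], by simp [hb0], ?_⟩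
  rw [hpow, hQC, map_one, one_mul, hh, pow_succ Q, mul_comm 2 h, pow_mul] at hE1
  exact sq_eq_sq_iff_eq_or_eq_neg.1 (mul_right_cancel₀ hQm.ne_zero hE1)

end Pool.Agent.Lib.MP_db9bd2_nt.Sup
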