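import Pool.Agent.Lib.MP_db9bd2_nt.Main

/-! The explicit Frobenius structure of the series with coefficients `cc k` modulo `p^3`. -/

namespace Pool.Agent.Lib.MP_db9bd2_nt.Sup

open Finset

section
open Polynomial

/-- The product of `X + i` over `0 < i < p`. -/
noncomputable def PP (p : ℕ) : ℤ[X] := ∏ i ∈ range (p - 1), (X + C ((i : ℤ) + 1))

lemma PP_mod (p : ℕ) [hp : Fact p.Prime] :
    (PP p).map (Int.castRingHom (ZMod p)) = X ^ (p - 1) - C 1 := by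
  have h2 := hp.out.two_le
  have e : (PP p).map (Int.castRingHom (ZMod p)) =
      ∏ i ∈ range (p - 1), (X + C ((i : ZMod p) + 1)) := by
    unfold PP; rw [Polynomial.map_prod]; simp
  have m1 : (∏ i ∈ range (p - 1), (X + C ((i : ZMod p) + 1))).Monic :=
    monic_prod_of_monic _ _ fun i _ => monic_X_add_C _
  have d1 : (∏ i ∈ range (p - 1), (X + C ((i : ZMod p) + 1))).natDegree = p - 1 := by
    rw [natDegree_prod_of_monic _ _ fun i _ => monic_X_add_C _]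
    simp only [natDegree_X_add_C]; simp
  have m2 : (X ^ (p - 1) - C 1 : (ZMod p)[X]).Monic := monic_X_pow_sub_C _ (by omega)
  have d2 : (X ^ (p - 1) - C 1 : (ZMod p)[X]).degree = (p - 1 : ℕ) := degree_X_pow_sub_C (by omega) _
  rw [e, ← sub_eq_zero]
  apply eq_zero_of_degree_lt_of_eval_finset_eq_zero (univ.erase 0)
  · rw [card_erase_of_mem (mem_univ _), card_univ, ZMod.card, ← d2]
    rw [← neg_sub, degree_neg]
    refine degree_sub_lt_left ?_ m2.ne_zero (by rw [m1.leadingCoeff, m2.leadingCoeff])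
    rw [d2, degree_eq_natDegree m1.ne_zero, d1]
  · intro x hx
    have hx0 : x ≠ 0 := (mem_erase.1 hx).1
    have h1 : 0 < (-x).val := ZMod.val_pos.2 (neg_ne_zero.2 hx0)
    have h3 := ZMod.val_lt (-x)
    rw [eval_sub, eval_sub, eval_pow, eval_X, ZMod.pow_card_sub_one_eq_one hx0, eval_C, sub_self,
      sub_zero, eval_prod]
    apply Finset.prod_eq_zero (i := (-x).val - 1) (mem_range.2 (by omega))
    rw [eval_add, eval_X, eval_C, Nat.cast_pred h1, ZMod.natCast_zmod_val]; ring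

lemma three_terms {R : Type} [CommRing R] (T : R[X]) : ∃ S : R[X], ∀ y,
    T.eval y = T.coeff 0 + T.coeff 1 * y + T.coeff 2 * y ^ 2 + y ^ 3 * S.eval y := by
  refine ⟨T.divX.divX.divX, fun y => ?_⟩
  have h0 := congrArg (eval y) (divX_mul_X_add T)
  have h1 := congrArg (eval y) (divX_mul_X_add T.divX)
  have h2 := congrArg (eval y) (divX_mul_X_add T.divX.divX)
  simp only [eval_add, eval_mul, eval_X, eval_C, coeff_divX] at h0 h1 h2
  linear_combination -h0 - y * h1 - y ^ 2 * h2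

lemma fp_mul_succ {p : ℕ} (hp : p.Prime) (j : ℕ) :
    (fp p (p * (j + 1)) : ℤ) = fp p (p * j) * (PP p).eval ((p : ℤ) * j) := by
  obtain ⟨q, rfl⟩ : ∃ q, p = q + 1 := ⟨p - 1, by have := hp.two_le; omega⟩
  unfold fp PP
  rw [mul_add, mul_one, prod_range_add, prod_range_succ, if_pos ⟨j + 1, by ring⟩, mul_one,
    Nat.cast_mul, eval_prod, Nat.add_sub_cancel, Nat.cast_prod (s := range q)]
  congr 1
  refine Finset.prod_congr rfl fun i hi => ?_
  rw [mem_range] at hi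
  rw [if_neg, eval_add, eval_X, eval_C]
  · push_cast; ring
  · intro h
    rw [add_assoc, Nat.dvd_add_right (dvd_mul_right _ _)] at h
    have := Nat.le_of_dvd (by omega) h
    omega

lemma PP_eval {p : ℕ} (hp : p.Prime) (h5 : 5 ≤ p) : ∃ s : ℤ, ∀ j : ℕ,
    (p : ℤ) ^ 3 ∣ (PP p).eval ((p : ℤ) * j) - (fp p p + p ^ 2 * s * j) := by
  have : Fact p.Prime := ⟨hp⟩
  obtain ⟨S, hS⟩ := three_terms (PP p)
  have hc : ∀ i, 0 < i → i < 3 → (p : ℤ) ∣ (PP p).coeff i := by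
    intro i h0 h3
    have := congrArg (fun W => coeff W i) (PP_mod p)
    simp only [coeff_map, coeff_sub, coeff_X_pow, coeff_C, if_neg (by omega : ¬ i = p - 1),
      if_neg h0.ne', sub_zero, eq_intCast] at this
    exact (ZMod.intCast_zmod_eq_zero_iff_dvd _ _).1 this
  obtain ⟨s, hs⟩ := hc 1 (by omega) (by omega)
  obtain ⟨t, ht⟩ := hc 2 (by omega) (by omega)
  have h0 := fp_mul_succ hp 0
  rw [hS] at h0
  simp only [zero_add, mul_one, mul_zero, Nat.cast_zero, fp, range_zero, prod_empty] at h0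
  refine ⟨s, fun j => ⟨t * j ^ 2 + j ^ 3 * S.eval ((p : ℤ) * j), ?_⟩⟩
  rw [hS, hs, ht]
  unfold fp
  rw [h0]; push_cast; ring

variable {O : Type} [CommRing O]

lemma cc_mul_p {p : ℕ} (H : PRing p O) (h5 : 5 ≤ p) : ∃ s : O, ∀ m : ℕ,
    (p : O) ^ 3 ∣ (cc (p * m) : O) - (1 + p ^ 2 * s * m ^ 2) * cc m := by
  obtain ⟨s, hs⟩ := PP_eval H.prime h5
  have u0 := H.unit _ (not_dvd_fp p p H.prime)
  obtain ⟨v, hv⟩ := u0.exists_right_inv
  obtain ⟨i2, h2⟩ := (H.unit 2 (fun hd => by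
    have := Nat.le_of_dvd two_pos hd; omega)).exists_right_inv
  push_cast at h2
  have key : ∀ j : ℕ, (p : O) ^ 3 ∣ (fp p (p * j) : O) -
      (fp p p : O) ^ j * (1 + p ^ 2 * (s * v * i2) * (j * (j - 1))) := by
    intro j
    induction j with
    | zero => simp [fp]
    | succ j ih =>
      obtain ⟨a, ha⟩ := ih
      obtain ⟨b, hb⟩ := hs j
      have e1 := congrArg (Int.cast : ℤ → O) (fp_mul_succ H.prime j)
      have e2 := congrArg (Int.cast : ℤ → O) hb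
      push_cast at e1 e2
      generalize (((PP p).eval ((p : ℤ) * j) : ℤ) : O) = w at e1 e2
      refine ⟨a * w + (fp p p : O) ^ j * (1 + p ^ 2 * (s * v * i2) * (j * (j - 1))) * b +
        (fp p p : O) ^ j * p * s * j * (s * v * i2) * (j * (j - 1)), ?_⟩
      rw [e1]
      push_cast
      linear_combination w * ha +
        (fp p p : O) ^ j * (1 + p ^ 2 * (s * v * i2) * (j * (j - 1))) * e2 -
        (fp p p : O) ^ j * p ^ 2 * s * j * (2 * i2 * hv + h2)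
  refine ⟨24 * (s * v * i2), fun m => ?_⟩
  have e := congrArg (Nat.cast : ℕ → O) (cc_ratio p 0 m H.prime.pos)
  simp only [zero_add, mul_zero, Nat.zero_div, tw, range_zero, prod_empty, mul_one] at e
  rw [show 3 * (p * m) = p * (3 * m) by ring, show 6 * (p * m) = p * (6 * m) by ring] at e
  obtain ⟨a, ha⟩ := key m
  obtain ⟨b, hb⟩ := key (3 * m)
  obtain ⟨c, hc⟩ := key (6 * m)
  push_cast at e hb hc
  rw [eq_add_of_sub_eq ha, eq_add_of_sub_eq hb, eq_add_of_sub_eq hc] at e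
  generalize (s : O) * v * i2 = σ at e ⊢
  rw [← (u0.pow (6 * m)).dvd_mul_left]
  rw [show 6 * m = m * 6 by ring, show 3 * m = m * 3 by ring, pow_mul, pow_mul] at e
  rw [show 6 * m = m * 6 by ring, pow_mul]
  generalize (fp p p : O) ^ m = P at e ⊢
  generalize (cc (p * m) : O) = x at e ⊢
  generalize (cc m : O) = y at e ⊢
  have : (p : O) ^ 3 ∣ x * (P ^ 6 * (1 + p ^ 2 * σ * (12 * m ^ 2 - 6 * m))) -
      P ^ 6 * (1 + p ^ 2 * σ * (36 * m ^ 2 - 6 * m)) * y := by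
    rw [← Ideal.mem_span_singleton, ← Ideal.Quotient.eq_zero_iff_mem]
    have e' := congrArg (Ideal.Quotient.mk (Ideal.span {(p : O) ^ 3})) e
    have z : (Ideal.Quotient.mk (Ideal.span {(p : O) ^ 3}) p) ^ 3 = 0 := by
      rw [← map_pow, Ideal.Quotient.eq_zero_iff_mem]; exact Ideal.mem_span_singleton_self _
    simp only [map_add, map_mul, map_sub, map_pow, map_one, map_ofNat, z, zero_mul, zero_add]
      at e' ⊢
    generalize Ideal.Quotient.mk (Ideal.span {(p : O) ^ 3}) σ = σ at e' ⊢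
    generalize Ideal.Quotient.mk (Ideal.span {(p : O) ^ 3}) m = m at e' ⊢
    generalize Ideal.Quotient.mk (Ideal.span {(p : O) ^ 3}) p = q at e' z ⊢
    generalize Ideal.Quotient.mk (Ideal.span {(p : O) ^ 3}) P = P at e' ⊢
    generalize Ideal.Quotient.mk (Ideal.span {(p : O) ^ 3}) x = x at e' ⊢
    obtain ⟨A, hA⟩ : ∃ A, A = σ * (3 * m * (3 * m - 1)) := ⟨_, rfl⟩
    obtain ⟨B, hB⟩ : ∃ B, B = σ * (m * (m - 1)) := ⟨_, rfl⟩
    rw [mul_assoc _ σ, mul_assoc _ σ, ← hA, ← hB] at e'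
    rw [show q ^ 2 * σ * (12 * m ^ 2 - 6 * m) = q ^ 2 * (A + 3 * B) by rw [hA, hB]; ring]
    linear_combination e' - x * P ^ 6 * q *
      (3 * B ^ 2 + 3 * A * B + q ^ 2 * (B ^ 3 + 3 * A * B ^ 2) + q ^ 4 * A * B ^ 3) * z
  obtain ⟨w, hw⟩ := this
  exact ⟨w * (1 - p ^ 2 * σ * (12 * m ^ 2 - 6 * m)) + P ^ 6 * p * σ ^ 2 * (12 * m ^ 2 - 6 * m) *
    (x * (12 * m ^ 2 - 6 * m) - (36 * m ^ 2 - 6 * m) * y),
    by linear_combination (1 - p ^ 2 * σ * (12 * m ^ 2 - 6 * m)) * hw⟩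

lemma cc_poly {p : ℕ} (H : PRing p O) (h5 : 5 ≤ p) (k : ℕ) (hk : k < p) : ∃ T : O[X], ∀ m : ℕ,
    (p : O) ^ 3 ∣ (cc (k + p * m) : O) - T.eval ((p : O) * m) * cc m := by
  induction k with
  | zero =>
    obtain ⟨s, hs⟩ := cc_mul_p H h5
    refine ⟨1 + C s * X ^ 2, fun m => ?_⟩
    have := hs m
    simp only [zero_add, eval_add, eval_one, eval_mul, eval_C, eval_pow, eval_X]
    rwa [show s * ((p : O) * m) ^ 2 = p ^ 2 * s * m ^ 2 by ring]
  | succ k ih =>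
    obtain ⟨T, hT⟩ := ih (by omega)
    obtain ⟨v, hv⟩ := (H.unit (k + 1) (fun hd => by
      have := Nat.le_of_dvd (by omega) hd; omega)).exists_right_inv
    refine ⟨(C v - C (v ^ 2) * X + C (v ^ 3) * X ^ 2) ^ 3 * (C 24 * (C 6 * (C (k : O) + X) + 1) *
      (C 2 * (C (k : O) + X) + 1) * (C 6 * (C (k : O) + X) + C 5)) * T, fun m => ?_⟩
    obtain ⟨w, hw⟩ := hT m
    have e := congrArg (Nat.cast : ℕ → O) (cc_rec (k + p * m))
    rw [show k + p * m + 1 = k + 1 + p * m by ring] at e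
    push_cast at e hv
    simp only [eval_add, eval_sub, eval_one, eval_mul, eval_C, eval_pow, eval_X]
    generalize T.eval ((p : O) * m) = t at hw ⊢
    generalize (cc (k + 1 + p * m) : O) = x at e ⊢
    generalize (cc (k + p * m) : O) = x0 at e hw ⊢
    obtain ⟨I, hI⟩ : ∃ I, I = v - v ^ 2 * ((p : O) * m) + v ^ 3 * ((p : O) * m) ^ 2 := ⟨_, rfl⟩
    have h1 : ((k : O) + 1 + p * m) * I = 1 + (p : O) ^ 3 * (m * v) ^ 3 := by
      rw [hI]; linear_combination (1 - v * ((p : O) * m) + v ^ 2 * ((p : O) * m) ^ 2) * hv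
    rw [← hI]
    generalize 24 * (6 * ((k : O) + p * m) + 1) * (2 * (k + p * m) + 1) * (6 * (k + p * m) + 5) = N
      at e ⊢
    generalize ((m : O) * v) ^ 3 = y at h1
    refine ⟨I ^ 3 * N * w - x * y * (3 + 3 * p ^ 3 * y + p ^ 6 * y ^ 2), ?_⟩
    have h3 := congrArg (· ^ 3) h1
    simp only [mul_pow] at h3
    linear_combination I ^ 3 * N * hw + I ^ 3 * e - x * h3

lemma cc_quad {p : ℕ} (H : PRing p O) (h5 : 5 ≤ p) : ∃ g h : ℕ → O, ∀ k < p, ∀ m : ℕ,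
    (p : O) ^ 3 ∣ (cc (k + p * m) : O) - (cc k + p * m * g k + p ^ 2 * m ^ 2 * h k) * cc m := by
  have : ∀ k, ∃ g h : O, k < p → ∀ m : ℕ,
      (p : O) ^ 3 ∣ (cc (k + p * m) : O) - (cc k + p * m * g + p ^ 2 * m ^ 2 * h) * cc m := by
    intro k
    by_cases hk : k < p
    swap
    · exact ⟨0, 0, fun h => absurd h hk⟩
    obtain ⟨T, hT⟩ := cc_poly H h5 k hk
    obtain ⟨S, hS⟩ := three_terms T
    refine ⟨T.coeff 1, T.coeff 2, fun _ m => ?_⟩
    obtain ⟨a, ha⟩ := hT 0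
    obtain ⟨b, hb⟩ := hT m
    rw [hS] at ha hb
    have c0 : cc 0 = 1 := rfl
    simp only [mul_zero, add_zero, Nat.cast_zero, c0, Nat.cast_one] at ha
    exact ⟨b + m ^ 3 * S.eval ((p : O) * m) * cc m - a * cc m,
      by linear_combination hb - (cc m : O) * ha⟩
  choose g h hgh using this
  exact ⟨g, h, fun k hk => hgh k hk⟩

end

variable {O : Type} [CommRing O]
open PowerSeries

/-- The coefficients vanish above `c p`. -/
def Pq (p c : ℕ) (G : O⟦X⟧) : Prop := ∀ n, c * p < n → coeff n G = 0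

lemma Pq.mono {p c d : ℕ} {G : O⟦X⟧} (h : Pq p c G) (hd : c ≤ d) : Pq p d G :=
  fun n hn => h n (lt_of_le_of_lt (Nat.mul_le_mul_right p hd) hn)

lemma Pq.add {p c d : ℕ} {F G : O⟦X⟧} (h1 : Pq p c F) (h2 : Pq p d G) :
    Pq p (max c d) (F + G) := fun n hn => by
  rw [map_add, h1.mono (le_max_left c d) n hn, h2.mono (le_max_right c d) n hn, add_zero]

lemma Pq.sub {p c d : ℕ} {F G : O⟦X⟧} (h1 : Pq p c F) (h2 : Pq p d G) :
    Pq p (max c d) (F - G) := fun n hn => by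
  rw [map_sub, h1.mono (le_max_left c d) n hn, h2.mono (le_max_right c d) n hn, sub_zero]

lemma Pq.mul {p c d : ℕ} {F G : O⟦X⟧} (h1 : Pq p c F) (h2 : Pq p d G) :
    Pq p (c + d) (F * G) := fun n hn => by
  rw [coeff_mul]
  apply Finset.sum_eq_zero
  intro a ha
  rw [HasAntidiagonal.mem_antidiagonal] at ha
  rw [add_mul] at hn
  rcases lt_or_ge (c * p) a.1 with h | h
  · rw [h1 _ h, zero_mul]
  · rw [h2 a.2 (by omega), mul_zero]

lemma Pq.C (p : ℕ) (a : O) : Pq p 0 (C a) := fun n hn => by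
  rw [coeff_C, if_neg (by omega)]

lemma Pq.nat (p n : ℕ) : Pq p 0 (n : O⟦X⟧) := by rw [← map_natCast PowerSeries.C]; exact Pq.C p _

lemma Pq.num (p n : ℕ) [n.AtLeastTwo] : Pq p 0 (ofNat(n) : O⟦X⟧) := Pq.nat p n

lemma Pq.one (p : ℕ) : Pq p 0 (1 : O⟦X⟧) := Pq.C p 1

lemma Pq.pow {p c : ℕ} {F : O⟦X⟧} (h : Pq p c F) (n : ℕ) : Pq p (n * c) (F ^ n) := by
  induction n with
  | zero => simpa using Pq.one p
  | succ n ih => rw [pow_succ, add_mul, one_mul]; exact ih.mul h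

lemma Pq.X_pow (p : ℕ) : Pq p 1 (X ^ p : O⟦X⟧) := fun n hn => by
  rw [coeff_X_pow, if_neg (by omega)]

lemma Pq.X {p : ℕ} (hp : p ≠ 0) : Pq p 1 (X : O⟦X⟧) := fun n hn => by
  rw [coeff_X, if_neg (by omega)]

lemma Pq.th {p c : ℕ} {F : O⟦X⟧} (h : Pq p c F) : Pq p c (th F) := fun n hn => by
  rw [coeff_th, h n hn, mul_zero]

lemma Pq.coe {p c : ℕ} {P : Polynomial O} (h : P.natDegree ≤ c * p) : Pq p c (P : O⟦X⟧) :=
  fun n hn => by rw [Polynomial.coeff_coe, Polynomial.coeff_eq_zero_of_natDegree_lt (by omega)]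

lemma Pq.pow_one {p k : ℕ} (c : ℕ) {F : O⟦X⟧} (h : Pq 1 c F) (hk : k ≤ p) : Pq p c (F ^ k) := by
  intro n hn
  refine h.pow k n (lt_of_le_of_lt ?_ hn)
  rw [mul_one, mul_comm]; exact Nat.mul_le_mul_left c hk

/-- The lift `z ↦ l z^p`. -/
noncomputable def fz (p : ℕ) (hp : p ≠ 0) (l : O) : O⟦X⟧ →+* O⟦X⟧ :=
  (expand p hp (R := O)).toRingHom.comp (rescale l)

lemma fz_apply {p : ℕ} (hp : p ≠ 0) (l : O) (G : O⟦X⟧) :
    fz p hp l G = expand p hp (rescale l G) := rfl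

lemma fz_C {p : ℕ} (hp : p ≠ 0) (l a : O) : fz p hp l (C a) = C a := by
  have : rescale l (C a) = C a := by
    ext n
    rw [coeff_rescale, coeff_C]
    split_ifs with h <;> simp [h]
  rw [fz_apply, this, expand_C]

lemma fz_X {p : ℕ} (hp : p ≠ 0) (l : O) : fz p hp l X = C l * X ^ p := by
  rw [fz_apply, rescale_X, map_mul, expand_C, expand_X]

lemma th_fz {p : ℕ} (hp : p ≠ 0) (l : O) (G : O⟦X⟧) :
    th (fz p hp l G) = p * fz p hp l (th G) := by
  ext n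
  rw [← map_natCast C, coeff_C_mul, coeff_th, fz_apply, fz_apply, coeff_expand, coeff_expand]
  split_ifs with h
  · obtain ⟨m, rfl⟩ := h
    rw [Nat.mul_div_cancel_left _ (Nat.pos_of_ne_zero hp), coeff_rescale, coeff_rescale, coeff_th]
    push_cast; ring
  · simp

lemma hom_approx (Φ : O⟦X⟧ →+* O⟦X⟧) (hC : ∀ a, Φ (C a) = C a) (hX : X ∣ Φ X) (G : O⟦X⟧)
    (n : ℕ) : X ^ n ∣ Φ G - ∑ k ∈ range n, C (coeff k G) * Φ X ^ k := by
  have h1 : (X : O⟦X⟧) ^ n ∣ G - ∑ k ∈ range n, C (coeff k G) * X ^ k := by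
    rw [X_pow_dvd_iff]
    intro m hm
    simp only [map_sub, map_sum, coeff_C_mul, coeff_X_pow, mul_ite, mul_one, mul_zero,
      Finset.sum_ite_eq, mem_range, if_pos hm, sub_self]
  have h2 := map_dvd Φ h1
  simp only [map_sub, map_sum, map_mul, map_pow, hC] at h2
  exact (pow_dvd_pow_of_dvd hX n).trans h2

lemma binom_three {R : Type} [CommRing R] (y i2 : R) (h2 : 2 * i2 = 1) (k : ℕ) :
    y ^ 3 ∣ (1 + y) ^ k - (1 + k * y + i2 * (k * k - k) * y ^ 2) := by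
  induction k with
  | zero => simp
  | succ k ih =>
    obtain ⟨w, hw⟩ := ih
    refine ⟨w * (1 + y) + i2 * (k * k - k), ?_⟩
    push_cast
    linear_combination (1 + y) * hw - k * y ^ 2 * h2

lemma taylor_three {p : ℕ} (Φ Ψ : O⟦X⟧ →+* O⟦X⟧) (hC : ∀ a, Φ (C a) = C a) (hX : X ∣ Φ X)
    (hC' : ∀ a, Ψ (C a) = C a) (hX' : X ∣ Ψ X) (ε i2 : O⟦X⟧) (h2 : 2 * i2 = 1)
    (h : Φ X = Ψ X * (1 + p * ε)) (G : O⟦X⟧) :
    (p : O⟦X⟧) ^ 3 ∣ Φ G - (Ψ G + p * ε * Ψ (th G) +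
      p ^ 2 * ε ^ 2 * i2 * (Ψ (th (th G)) - Ψ (th G))) := by
  rw [pow_dvd_iff]
  intro n
  obtain ⟨a, ha⟩ := hom_approx Φ hC hX G (n + 1)
  obtain ⟨b, hb⟩ := hom_approx Ψ hC' hX' G (n + 1)
  obtain ⟨c, hc⟩ := hom_approx Ψ hC' hX' (th G) (n + 1)
  obtain ⟨d, hd⟩ := hom_approx Ψ hC' hX' (th (th G)) (n + 1)
  have h1 : (p : O⟦X⟧) ^ 3 ∣ ∑ k ∈ range (n + 1), (C (coeff k G) * Φ X ^ k -
      (C (coeff k G) * Ψ X ^ k + p * ε * (C (coeff k (th G)) * Ψ X ^ k) + p ^ 2 * ε ^ 2 * i2 *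
        (C (coeff k (th (th G))) * Ψ X ^ k - C (coeff k (th G)) * Ψ X ^ k))) := by
    apply Finset.dvd_sum
    intro k _
    obtain ⟨w, hw⟩ := binom_three (p * ε) i2 h2 k
    refine ⟨C (coeff k G) * Ψ X ^ k * ε ^ 3 * w, ?_⟩
    simp only [coeff_th, map_mul, map_natCast, h, mul_pow]
    linear_combination C (coeff k G) * Ψ X ^ k * hw
  simp only [Finset.sum_sub_distrib, Finset.sum_add_distrib, ← Finset.mul_sum] at h1
  obtain ⟨w, hw⟩ := h1
  have e : Φ G - (Ψ G + (p : O⟦X⟧) * ε * Ψ (th G) +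
      (p : O⟦X⟧) ^ 2 * ε ^ 2 * i2 * (Ψ (th (th G)) - Ψ (th G))) =
      (p : O⟦X⟧) ^ 3 * w + X ^ (n + 1) * (a - b - (p : O⟦X⟧) * ε * c -
        (p : O⟦X⟧) ^ 2 * ε ^ 2 * i2 * (d - c)) := by
    linear_combination hw + ha - hb - (p : O⟦X⟧) * ε * hc -
      (p : O⟦X⟧) ^ 2 * ε ^ 2 * i2 * (hd - hc)
  rw [e, map_add, coeff_X_pow_mul', if_neg (by omega), add_zero]
  exact (pow_dvd_iff p 3 _).1 (dvd_mul_right _ _) n

/-- A polynomial in `t` of degree less than `p`. -/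
noncomputable def TS (p : ℕ) (a : ℕ → O) : O⟦X⟧ := ∑ k ∈ range p, C (a k) * tz O ^ k

lemma TS_Pq (p : ℕ) (a : ℕ → O) : Pq p 2 (TS p a) := by
  intro n hn
  rw [TS, map_sum]
  apply Finset.sum_eq_zero
  intro k hk
  have h1 : Pq 1 2 (tz O) :=
    (Pq.X one_ne_zero).mul ((Pq.one 1).sub ((Pq.num 1 432).mul (Pq.X one_ne_zero)))
  rw [coeff_C_mul, h1.pow_one 2 (mem_range.1 hk).le n hn, mul_zero]

lemma TS_zero {p : ℕ} (hp : p ≠ 0) (a : ℕ → O) : constantCoeff (TS p a) = a 0 := by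
  obtain ⟨q, rfl⟩ := Nat.exists_eq_succ_of_ne_zero hp
  rw [TS, Finset.sum_range_succ']
  simp [tz_zero]

lemma row_split {p : ℕ} (hp : p ≠ 0) (l a b c : ℕ → O) (h : ∀ k < p, ∀ m : ℕ,
    (p : O) ^ 3 ∣ l (k + p * m) * cc (k + p * m) -
      (a k + p * m * b k + p ^ 2 * m ^ 2 * c k) * cc m) :
    (p : O⟦X⟧) ^ 3 ∣ sb (FF l) - (TS p a * sb (expand p hp (FF fun _ => (1 : O))) +
      (p : O⟦X⟧) * TS p b * sb (expand p hp (th (FF fun _ => (1 : O)))) +
      (p : O⟦X⟧) ^ 2 * TS p c * sb (expand p hp (th (th (FF fun _ => (1 : O)))))) := by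
  rw [split_series p hp (FF l), map_sum]
  unfold TS
  simp only [Finset.mul_sum, Finset.sum_mul, ← Finset.sum_add_distrib, ← Finset.sum_sub_distrib]
  apply Finset.dvd_sum
  intro k hk
  have h1 : (p : O⟦X⟧) ^ 3 ∣ (PowerSeries.mk fun m => coeff (k + p * m) (FF l)) -
      (C (a k) * (FF fun _ => 1) + C (p * b k) * th (FF fun _ => 1) +
        C (p ^ 2 * c k) * th (th (FF fun _ => 1))) := by
    rw [pow_dvd_iff]
    intro m
    simp only [map_sub, map_add, coeff_C_mul, coeff_th, FF, coeff_mk]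
    convert h k (mem_range.1 hk) m using 2
    ring
  obtain ⟨w, hw⟩ := map_dvd_pow sb (map_dvd_pow (expand p hp) h1)
  have hc : ∀ x : O, sb (C x) = C x := fun x => (sb (O := O)).commutes x
  simp only [map_sub, map_add, map_mul, map_pow, map_natCast, expand_C, hc] at hw
  rw [map_mul, map_pow, sb_X]
  exact ⟨tz O ^ k * w, by linear_combination tz O ^ k * hw⟩

/-- The images of `F`, `θ F`, `θ^2 F`. -/
noncomputable def Fi (p : ℕ) (hp : p ≠ 0) (l : O) (i : ℕ) : O⟦X⟧ :=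
  fz p hp l (sb (th^[i] (FF fun _ => (1 : O))))

lemma row_lift [IsDomain O] {p : ℕ} (H : PRing p O) (h5 : 5 ≤ p) (lam : O) (hu : IsUnit lam)
    (hl : (p : O) ∣ lam - 1) (l a b c : ℕ → O) (h : ∀ k < p, ∀ m : ℕ,
    (p : O) ^ 3 ∣ l (k + p * m) * cc (k + p * m) -
      (a k + p * m * b k + p ^ 2 * m ^ 2 * c k) * cc m) :
    ∃ A1 A2 : O⟦X⟧, Pq p 4 A1 ∧ Pq p 4 A2 ∧ (a 0 = 0 → constantCoeff A1 = p * b 0) ∧
      (p : O⟦X⟧) ^ 3 ∣ (1 - 432 * (C lam * X ^ p)) ^ 2 * sb (FF l) -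
        ((1 - 432 * (C lam * X ^ p)) ^ 2 * TS p a * Fi p H.prime.ne_zero lam 0 +
          A1 * Fi p H.prime.ne_zero lam 1 + A2 * Fi p H.prime.ne_zero lam 2) := by
  have hp := H.prime.ne_zero
  obtain ⟨li, hli⟩ := hu.exists_right_inv
  obtain ⟨i2, h2⟩ := (H.unit 2 (fun hd => by
    have := Nat.le_of_dvd two_pos hd; omega)).exists_right_inv
  have h2' := congrArg (C (R := O)) h2
  have hl' := congrArg (C (R := O)) hli
  simp only [map_mul, map_one, Nat.cast_ofNat, map_ofNat] at h2' hl'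
  obtain ⟨j, hj⟩ : ∃ j : O⟦X⟧, j = 1 - 432 * (C lam * X ^ p) := ⟨_, rfl⟩
  have pj : Pq p 1 j := hj ▸ (Pq.one p).sub ((Pq.num p 432).mul ((Pq.C p _).mul (Pq.X_pow p)))
  have j0 : constantCoeff j = 1 := by simp [hj, hp]
  obtain ⟨ji, hji⟩ := (isUnit_iff_constantCoeff.2 (j0 ▸ isUnit_one)).exists_right_inv
  obtain ⟨e, he⟩ : (p : O⟦X⟧) ∣ (1 - 432 * X) ^ p * C li - j := by
    have f1 := Fr.natCast (R := O⟦X⟧) H.prime 1
    have f2 := Fr.natCast (R := O⟦X⟧) H.prime 432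
    push_cast at f1 f2
    obtain ⟨x, hx⟩ := f1.sub H.prime (f2.mul (Fr.pow_self p X))
    obtain ⟨y, hy⟩ := hl
    have hy' := congrArg (C (R := O)) hy
    simp only [map_mul, map_sub, map_one, map_natCast] at hy'
    exact ⟨x * C li - C li * C y * (1 - 432 * X ^ p) + 432 * X ^ p * C y, by
      rw [hj]
      linear_combination C li * hx - (C li * (1 - 432 * X ^ p) - 432 * X ^ p) * hy' +
        (1 - 432 * X ^ p) * hl'⟩
  have pe : Pq p 1 e := by
    have h1 : Pq 1 1 (1 - 432 * X : O⟦X⟧) := (Pq.one 1).sub ((Pq.num 1 432).mul (Pq.X one_ne_zero))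
    have h3 := ((h1.pow_one 1 le_rfl).mul (Pq.C p li)).sub pj
    intro n hn
    have := h3 n hn
    rw [he, ← map_natCast C, coeff_C_mul] at this
    exact (mul_eq_zero.1 this).resolve_left H.ne
  have hc : ∀ x : O, sb (C x) = C x := fun x => (sb (O := O)).commutes x
  have x1 : ((sb (O := O)).toRingHom.comp (expand p hp (R := O)).toRingHom) X = tz O ^ p := by
    simp [sb_X]
  have x2 : ((fz p hp lam).comp (sb (O := O)).toRingHom) X = C lam * X ^ p * j := by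
    simp [sb_X, tz, fz_X, hj, map_ofNat]
  have T := taylor_three (p := p) ((sb (O := O)).toRingHom.comp (expand p hp (R := O)).toRingHom)
    ((fz p hp lam).comp (sb (O := O)).toRingHom) (fun x => by simp [expand_C, hc])
    (by rw [x1]; exact (dvd_mul_right _ _).trans (dvd_pow_self _ hp))
    (fun x => by simp [fz_C, hc])
    (by rw [x2]; exact ((dvd_pow_self _ hp).mul_left _).mul_right _) (e * ji) (C i2) h2'
    (by rw [x1, x2, tz, mul_pow]
        linear_combination C lam * X ^ p * he - X ^ p * (1 - 432 * X) ^ p * hl' -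
          C lam * X ^ p * p * e * hji)
  obtain ⟨w, hw⟩ := row_split hp l a b c h
  obtain ⟨w0, h0⟩ := T (FF fun _ => 1)
  obtain ⟨w1, h1⟩ := T (th (FF fun _ => 1))
  obtain ⟨w2, h3⟩ := T (th (th (FF fun _ => 1)))
  simp only [AlgHom.toRingHom_eq_coe, RingHom.coe_comp, RingHom.coe_coe, Function.comp_apply]
    at h0 h1 h3
  have pa := TS_Pq p a
  have pb := TS_Pq p b
  have pc := TS_Pq p c
  have pp := Pq.nat (O := O) p p
  refine ⟨p * (j * e * TS p a - p * e ^ 2 * C i2 * TS p a + j ^ 2 * TS p b),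
    p ^ 2 * (e ^ 2 * C i2 * TS p a + j * e * TS p b + j ^ 2 * TS p c),
    (pp.mul ((((pj.mul pe).mul pa).sub (((pp.mul (pe.pow 2)).mul (Pq.C p _)).mul pa)).add
      ((pj.pow 2).mul pb))).mono (by decide),
    ((pp.pow 2).mul (((((pe.pow 2).mul (Pq.C p _)).mul pa).add ((pj.mul pe).mul pb)).add
      ((pj.pow 2).mul pc))).mono (by decide), fun h => by simp [TS_zero hp, h, j0], ?_⟩
  rw [← hj]
  simp only [Fi, Function.iterate_succ, Function.iterate_zero, Function.comp_apply, id_eq]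
  generalize fz p hp lam (sb (th (th (th (th (FF fun _ => (1 : O))))))) = F4 at *
  generalize fz p hp lam (sb (th (th (th (FF fun _ => (1 : O)))))) = F3 at *
  generalize fz p hp lam (sb (th (th (FF fun _ => (1 : O))))) = F2 at *
  generalize fz p hp lam (sb (th (FF fun _ => (1 : O)))) = F1 at *
  generalize fz p hp lam (sb (FF fun _ => (1 : O))) = F0 at *
  rw [eq_add_of_sub_eq h0, eq_add_of_sub_eq h1, eq_add_of_sub_eq h3] at hw
  refine ⟨j ^ 2 * (w + TS p a * w0 + TS p b * (p * w1 + (e * ji) ^ 2 * C i2 * (F3 - F2)) +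
    TS p c * (p ^ 2 * w2 + e * ji * F3 + p * (e * ji) ^ 2 * C i2 * (F4 - F3))), ?_⟩
  linear_combination j ^ 2 * hw + (p * j * e * TS p a * F1 + p ^ 2 * j * e * TS p b * F2 +
    p ^ 2 * e ^ 2 * C i2 * TS p a * (F2 - F1) * (j * ji + 1)) * hji

theorem expl [IsDomain O] [CharZero O] {p : ℕ} (H : PRing p O) (h5 : 5 ≤ p) (lam : O)
    (hu : IsUnit lam) (hl : (p : O) ∣ lam - 1) :
    ∃ A1 A2 B1 B2 : O⟦X⟧, Pq p 5 A1 ∧ Pq p 5 A2 ∧ Pq p 5 B1 ∧ Pq p 5 B2 ∧
      constantCoeff B1 = 2 * p ∧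
      (p : O⟦X⟧) ^ 3 ∣ (1 - 432 * (C lam * X ^ p)) ^ 2 * ff O ^ 2 -
        ((1 - 432 * (C lam * X ^ p)) ^ 2 * YY 0 p X * Fi p H.prime.ne_zero lam 0 +
          A1 * Fi p H.prime.ne_zero lam 1 + A2 * Fi p H.prime.ne_zero lam 2) ∧
      (p : O⟦X⟧) ^ 3 ∣ (1 - 432 * (C lam * X ^ p)) ^ 2 * (ff O * gg O) -
        ((1 - 432 * (C lam * X ^ p)) ^ 2 * k1 p X * Fi p H.prime.ne_zero lam 0 +
          B1 * Fi p H.prime.ne_zero lam 1 + B2 * Fi p H.prime.ne_zero lam 2) := by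
  have hp := H.prime.ne_zero
  obtain ⟨g, h, hgh⟩ := cc_quad H h5
  obtain ⟨A1, A2, a1, a2, -, w, hw⟩ := row_lift H h5 lam hu hl (fun _ => 1) (fun k => cc k) g h
    (fun k hk m => by simpa using hgh k hk m)
  obtain ⟨B1, B2, b1, b2, b0, v, hv⟩ := row_lift H h5 lam hu hl (fun k => k * 1)
    (fun k => k * cc k) (fun k => cc k + k * g k) (fun k => g k + k * h k) (fun k hk m => by
      obtain ⟨x, hx⟩ := hgh k hk m
      refine ⟨(k + p * m) * x + m ^ 3 * h k * cc m, ?_⟩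
      push_cast
      linear_combination (k + p * m : O) * hx)
  have e0 : TS p (fun k => (cc k : O)) = YY 0 p X := by simp [TS, YY, tz]
  have e1 : TS p (fun k => (k : O) * cc k) = YY 1 p X := by simp [TS, YY, tz]
  have px := Pq.X (O := O) hp
  have pu : Pq p 1 (uz O) := (Pq.one p).sub ((Pq.num p 864).mul px)
  have c0 : cc 0 = 1 := rfl
  refine ⟨A1, A2, 2 * uz O * B1 - 288 * X * A1, 2 * uz O * B2 - 288 * X * A2, a1.mono (by decide),
    a2.mono (by decide),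
    ((((Pq.num p 2).mul pu).mul b1).sub (((Pq.num p 288).mul px).mul a1)).mono (by decide),
    ((((Pq.num p 2).mul pu).mul b2).sub (((Pq.num p 288).mul px).mul a2)).mono (by decide),
    by simp [b0 (by simp), uz, c0, map_ofNat], ⟨w, by rw [← clausen, ← e0, hw]⟩,
    2 * uz O * v - 288 * X * w, ?_⟩
  rw [← K1_F, K1, k1, ← e0, ← e1, th_FF]
  unfold uz
  linear_combination 2 * (1 - 864 * X) * hv - 288 * X * hw

end Pool.Agent.Lib.MP_db9bd2_nt.Sup
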