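import Pool.Agent.Lib.MP_db9bd2_nt.Main

/-! Relations of small degree between the two period series in characteristic `p`. -/

namespace Pool.Agent.Lib.MP_db9bd2_nt.Sup


open PowerSeries

lemma u0_DD_gg {O : Type} [CommRing O] : DD (gg O) = -48 * X * ff O - 72 * X * gg O := by
  have h4 := DD_nat_mul (O := O) 4 (DD (ff O))
  have h288 := DD_nat_mul (O := O) 288 (X * ff O)
  push_cast at h4 h288
  have e : DD (gg O) = 4 * DD (DD (ff O)) - 288 * DD (X * ff O) := by
    unfold gg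
    rw [DD_sub, h4, mul_assoc, h288]
  rw [e, DD_DD_ff, DD_mul, DD_X]
  unfold gg tz
  ring

lemma u0_ff_ne {k : Type} [Field k] : ff k ≠ 0 := by
  intro h
  have h1 := congrArg (coeff 0) h
  simp [ff, AA] at h1

lemma u0_riccati {k : Type} [Field k] (a b : Polynomial k)
    (hab : (a : k⟦X⟧) * gg k = (b : k⟦X⟧) * ff k) :
    b * (4 * (Polynomial.X * (1 - 432 * Polynomial.X)) * a.derivative - b) =
      a * (4 * (Polynomial.X * (1 - 432 * Polynomial.X)) * b.derivative
        + 192 * Polynomial.X * a + 576 * Polynomial.X * b) := by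
  have h1 := congrArg DD hab
  rw [DD_mul, DD_mul, u0_DD_gg] at h1
  have ha : DD (a : k⟦X⟧) = tz k * (a.derivative : k⟦X⟧) := by
    unfold DD; rw [derivative_coe]
  have hb : DD (b : k⟦X⟧) = tz k * (b.derivative : k⟦X⟧) := by
    unfold DD; rw [derivative_coe]
  have hf : 4 * DD (ff k) = gg k + 288 * X * ff k := by unfold gg; ring
  rw [ha, hb] at h1
  apply Polynomial.coe_injective k
  apply mul_right_cancel₀ (u0_ff_ne (k := k))
  have e (n : ℕ) [n.AtLeastTwo] : (((OfNat.ofNat n : Polynomial k)) : k⟦X⟧) = OfNat.ofNat n :=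
    map_ofNat (Polynomial.coeToPowerSeries.ringHom (R := k)) n
  simp only [Polynomial.coe_mul, Polynomial.coe_add, Polynomial.coe_sub, Polynomial.coe_X,
    Polynomial.coe_one, e]
  unfold tz at h1
  linear_combination 4 * (a : k⟦X⟧) * h1 + (a : k⟦X⟧) * (b : k⟦X⟧) * hf
    - (4 * (X * (1 - 432 * X)) * (a.derivative : k⟦X⟧) - 288 * X * (a : k⟦X⟧) - (b : k⟦X⟧)) * hab

lemma u0_coeff_t {k : Type} [Field k] (q : Polynomial k) (n : ℕ) :
    (4 * (Polynomial.X * (1 - 432 * Polynomial.X)) * q.derivative).coeff (n + 1) =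
      4 * (n + 1) * q.coeff (n + 1) - 1728 * n * q.coeff n := by
  have e : 4 * (Polynomial.X * (1 - 432 * Polynomial.X)) * q.derivative =
      Polynomial.X * (Polynomial.C 4 * q.derivative)
        - Polynomial.X * (Polynomial.C 1728 * (Polynomial.X * q.derivative)) := by
    rw [map_ofNat, map_ofNat]; ring
  rw [e, Polynomial.coeff_sub, Polynomial.coeff_X_mul, Polynomial.coeff_X_mul,
    Polynomial.coeff_C_mul, Polynomial.coeff_C_mul, Polynomial.coeff_derivative]
  rcases n with _ | n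
  · simp
  · rw [Polynomial.coeff_X_mul, Polynomial.coeff_derivative]
    push_cast
    ring

lemma u0_deg_t {k : Type} [Field k] (q : Polynomial k) (n : ℕ) (hq : q.natDegree ≤ n) :
    (4 * (Polynomial.X * (1 - 432 * Polynomial.X)) * q.derivative).natDegree ≤ n + 1 := by
  rw [Polynomial.natDegree_le_iff_coeff_eq_zero]
  intro N hN
  obtain ⟨m, rfl⟩ : ∃ m, N = m + 1 := ⟨N - 1, by omega⟩
  rw [u0_coeff_t, Polynomial.coeff_eq_zero_of_natDegree_lt (p := q) (n := m + 1) (by omega),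
    Polynomial.coeff_eq_zero_of_natDegree_lt (p := q) (n := m) (by omega)]
  ring

lemma u0_coeff_X {k : Type} [Field k] (c : ℕ) [c.AtLeastTwo] (q : Polynomial k) (n : ℕ) :
    ((OfNat.ofNat c : Polynomial k) * Polynomial.X * q).coeff (n + 1)
      = (OfNat.ofNat c : k) * q.coeff n := by
  rw [← map_ofNat (Polynomial.C (R := k)), mul_assoc, Polynomial.coeff_C_mul,
    Polynomial.coeff_X_mul]

lemma u0_deg_X {k : Type} [Field k] (c : ℕ) [c.AtLeastTwo] (q : Polynomial k) (n : ℕ)
    (hq : q.natDegree ≤ n) :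
    ((OfNat.ofNat c : Polynomial k) * Polynomial.X * q).natDegree ≤ n + 1 := by
  rw [Polynomial.natDegree_le_iff_coeff_eq_zero]
  intro N hN
  obtain ⟨m, rfl⟩ : ∃ m, N = m + 1 := ⟨N - 1, by omega⟩
  rw [u0_coeff_X, Polynomial.coeff_eq_zero_of_natDegree_lt (p := q) (n := m) (by omega), mul_zero]

lemma u0_degree {k : Type} [Field k] (h6 : (6 : k) ≠ 0) (a b : Polynomial k) (ha : a ≠ 0)
    (hco : IsCoprime a b) (hab : (a : k⟦X⟧) * gg k = (b : k⟦X⟧) * ff k) :
    (6 * a.natDegree + 1 : k) = 0 ∨ (6 * a.natDegree + 5 : k) = 0 := by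
  have hR := u0_riccati a b hab
  have hdv : a ∣ 4 * (Polynomial.X * (1 - 432 * Polynomial.X)) * a.derivative - b :=
    hco.dvd_of_dvd_mul_left ⟨_, hR⟩
  obtain ⟨s, hs⟩ := hdv
  have hs2 : b * s = 4 * (Polynomial.X * (1 - 432 * Polynomial.X)) * b.derivative
      + 192 * Polynomial.X * a + 576 * Polynomial.X * b := by
    apply mul_left_cancel₀ ha
    rw [← hR, hs]; ring
  have hta := u0_deg_t a _ le_rfl
  have hsd : s.natDegree ≤ 1 := by
    by_contra hcon
    have hs0 : s ≠ 0 := by rintro rfl; simp at hcon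
    have h1 : (a * s).natDegree = a.natDegree + s.natDegree := Polynomial.natDegree_mul ha hs0
    have h2 : a.natDegree + s.natDegree ≤ b.natDegree := by
      have h3 := Polynomial.natDegree_sub_le
        (4 * (Polynomial.X * (1 - 432 * Polynomial.X)) * a.derivative) b
      rw [hs, h1] at h3
      omega
    have hb0 : b ≠ 0 := by
      rintro rfl
      simp only [Polynomial.natDegree_zero] at h2
      omega
    have h4 : (b * s).natDegree = b.natDegree + s.natDegree := Polynomial.natDegree_mul hb0 hs0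
    have h5 : (b * s).natDegree ≤ b.natDegree + 1 := by
      rw [hs2]
      exact Polynomial.natDegree_add_le_of_degree_le (Polynomial.natDegree_add_le_of_degree_le
        (u0_deg_t b _ le_rfl) (u0_deg_X 192 a _ (by omega))) (u0_deg_X 576 b _ le_rfl)
    omega
  have hbd : b.natDegree ≤ a.natDegree + 1 := by
    have e : b = 4 * (Polynomial.X * (1 - 432 * Polynomial.X)) * a.derivative - a * s := by
      rw [← hs]; ring
    have h1 := Polynomial.natDegree_sub_le
      (4 * (Polynomial.X * (1 - 432 * Polynomial.X)) * a.derivative) (a * s)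
    have h2 := Polynomial.natDegree_mul_le (p := a) (q := s)
    rw [← e] at h1
    omega
  have hev : ∀ z : k, ¬ (a.eval z = 0 ∧ b.eval z = 0) := by
    rintro z ⟨h1, h2⟩
    obtain ⟨u, v, huv⟩ := hco
    have h3 := congrArg (Polynomial.eval z) huv
    simp [h1, h2] at h3
  have hsl : s = Polynomial.C (s.coeff 1) * Polynomial.X + Polynomial.C (s.coeff 0) :=
    Polynomial.eq_X_add_C_of_natDegree_le_one hsd
  generalize s.coeff 1 = s1 at hsl
  generalize s.coeff 0 = s0 at hsl
  have h2 : (2 : k) ≠ 0 := fun h => h6 (by linear_combination 3 * h)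
  have h432 : (432 : k) ≠ 0 := by
    have : (432 : k) = 2 * 6 ^ 3 := by norm_num
    rw [this]; exact mul_ne_zero h2 (pow_ne_zero _ h6)
  have h288 : (288 : k) ≠ 0 := by
    have : (288 : k) = 2 ^ 3 * 6 ^ 2 := by norm_num
    rw [this]; exact mul_ne_zero (pow_ne_zero _ h2) (pow_ne_zero _ h6)
  have hs0 : s0 = 0 := by
    have e1 := congrArg (Polynomial.eval 0) hs
    have e2 := congrArg (Polynomial.eval 0) hs2
    rw [hsl] at e1 e2
    simp only [Polynomial.eval_sub, Polynomial.eval_mul, Polynomial.eval_add, Polynomial.eval_X,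
      Polynomial.eval_C, Polynomial.eval_ofNat, Polynomial.eval_one] at e1 e2
    by_contra hne
    have hb : b.eval 0 = 0 := by
      apply mul_right_cancel₀ hne
      linear_combination e2
    refine hev 0 ⟨?_, hb⟩
    apply mul_right_cancel₀ hne
    linear_combination -e1 - hb
  have hs1 : s1 = 288 := by
    obtain ⟨z, hz⟩ : ∃ z : k, 432 * z = 1 := ⟨432⁻¹, mul_inv_cancel₀ h432⟩
    have e1 := congrArg (Polynomial.eval z) hs
    have e2 := congrArg (Polynomial.eval z) hs2
    rw [hsl, hs0] at e1 e2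
    simp only [Polynomial.eval_sub, Polynomial.eval_mul, Polynomial.eval_add, Polynomial.eval_X,
      Polynomial.eval_C, Polynomial.eval_ofNat, Polynomial.eval_one, hz, sub_self, mul_zero,
      zero_mul, add_zero, zero_add, zero_sub] at e1 e2
    have haz : a.eval z ≠ 0 := fun h0 => hev z ⟨h0, by rw [h0] at e1; linear_combination -e1⟩
    have hz0 : z ≠ 0 := by rintro rfl; simp at hz
    have e3 : a.eval z * (z ^ 2 * (s1 - 288) ^ 2) = 0 := by
      linear_combination (576 * z - s1 * z) * e1 - e2 + 192 * z * a.eval z * hz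
    have e4 := (mul_eq_zero.1 ((mul_eq_zero.1 e3).resolve_left haz)).resolve_left
      (pow_ne_zero _ hz0)
    exact sub_eq_zero.1 (pow_eq_zero_iff two_ne_zero |>.1 e4)
  rw [hs0, hs1, map_zero, add_zero, map_ofNat] at hsl
  rw [hsl] at hs hs2
  have f1 : 4 * (Polynomial.X * (1 - 432 * Polynomial.X)) * a.derivative
      = b + 288 * Polynomial.X * a := by linear_combination hs
  have f2 : 4 * (Polynomial.X * (1 - 432 * Polynomial.X)) * b.derivative
      + 192 * Polynomial.X * a + 288 * Polynomial.X * b = 0 := by linear_combination -hs2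
  have g1 := congrArg (fun q => Polynomial.coeff q (a.natDegree + 1)) f1
  have g2 := congrArg (fun q => Polynomial.coeff q (a.natDegree + 1 + 1)) f2
  simp only [Polynomial.coeff_add, u0_coeff_t, Polynomial.coeff_zero] at g1 g2
  rw [u0_coeff_X 288] at g1
  rw [u0_coeff_X 192, u0_coeff_X 288] at g2
  have z1 : a.coeff (a.natDegree + 1) = 0 := Polynomial.coeff_eq_zero_of_natDegree_lt (by omega)
  have z2 : b.coeff (a.natDegree + 1 + 1) = 0 :=
    Polynomial.coeff_eq_zero_of_natDegree_lt (by omega)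
  rw [z1] at g1 g2
  rw [z2] at g2
  have hl : a.coeff a.natDegree ≠ 0 := Polynomial.leadingCoeff_ne_zero.2 ha
  by_cases hβ : b.coeff (a.natDegree + 1) = 0
  · left
    rw [hβ] at g1
    apply mul_left_cancel₀ (mul_ne_zero h288 hl)
    linear_combination -g1
  · right
    apply mul_left_cancel₀ (mul_ne_zero h288 hβ)
    push_cast at g2
    linear_combination -g2

theorem U0 {k : Type} [Field k] {p c : ℕ} [CharP k p] (hp : p.Prime) (hc : 6 * c + 5 < p)
    (a b : Polynomial k) (ha : a ≠ 0) (hab : (a : k⟦X⟧) * gg k = (b : k⟦X⟧) * ff k)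
    (Y0 Y1 Y2 : Polynomial k) (h0 : Y0.natDegree ≤ c) (h1 : Y1.natDegree ≤ c)
    (h2 : Y2.natDegree ≤ c)
    (h : (Y0 : k⟦X⟧) * ff k ^ 2 + (Y1 : k⟦X⟧) * (ff k * gg k) + (Y2 : k⟦X⟧) * gg k ^ 2 = 0) :
    Y0 = 0 ∧ Y1 = 0 ∧ Y2 = 0 := by
  classical
  obtain ⟨A, B, hA, hco, hAB⟩ : ∃ A B : Polynomial k, A ≠ 0 ∧ IsCoprime A B ∧
      (A : k⟦X⟧) * gg k = (B : k⟦X⟧) * ff k := by
    have hg : EuclideanDomain.gcd a b ≠ 0 := fun h0 => ha (EuclideanDomain.gcd_eq_zero_iff.1 h0).1
    obtain ⟨A, hA⟩ := EuclideanDomain.gcd_dvd_left a b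
    obtain ⟨B, hB⟩ := EuclideanDomain.gcd_dvd_right a b
    have hbz := EuclideanDomain.gcd_eq_gcd_ab a b
    generalize EuclideanDomain.gcdA a b = u at hbz
    generalize EuclideanDomain.gcdB a b = v at hbz
    generalize EuclideanDomain.gcd a b = g at hg hA hB hbz
    refine ⟨A, B, fun h0 => ha (by rw [hA, h0, mul_zero]), ⟨u, v, ?_⟩, ?_⟩
    · apply mul_left_cancel₀ hg
      rw [hA, hB] at hbz
      linear_combination -hbz
    · have hg' : (g : k⟦X⟧) ≠ 0 := fun h0 => hg (Polynomial.coe_eq_zero_iff.1 h0)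
      apply mul_left_cancel₀ hg'
      rw [hA, hB, Polynomial.coe_mul, Polynomial.coe_mul] at hab
      linear_combination hab
  have h6 : (6 : k) ≠ 0 := by
    intro h6
    have h7 : p ∣ 6 := (CharP.cast_eq_zero_iff k p 6).1 (by exact_mod_cast h6)
    have h8 := Nat.le_of_dvd (by norm_num) h7
    have h9 : p = 6 := by omega
    rw [h9] at hp
    norm_num at hp
  have hn : c < A.natDegree := by
    rcases u0_degree h6 A B hA hco hAB with e | e
    · have h7 : p ∣ 6 * A.natDegree + 1 :=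
        (CharP.cast_eq_zero_iff k p _).1 (by exact_mod_cast e)
      have h8 := Nat.le_of_dvd (by omega) h7
      omega
    · have h7 : p ∣ 6 * A.natDegree + 5 :=
        (CharP.cast_eq_zero_iff k p _).1 (by exact_mod_cast e)
      have h8 := Nat.le_of_dvd (by omega) h7
      omega
  have hq : Y0 * A ^ 2 + Y1 * (A * B) + Y2 * B ^ 2 = 0 := by
    apply Polynomial.coe_injective k
    apply mul_right_cancel₀ (pow_ne_zero 2 (u0_ff_ne (k := k)))
    simp only [Polynomial.coe_mul, Polynomial.coe_add, Polynomial.coe_pow, Polynomial.coe_zero]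
    linear_combination (A : k⟦X⟧) ^ 2 * h - ((Y1 : k⟦X⟧) * (A : k⟦X⟧) * ff k
      + (Y2 : k⟦X⟧) * ((A : k⟦X⟧) * gg k + (B : k⟦X⟧) * ff k)) * hAB
  have hz : ∀ Y : Polynomial k, Y.natDegree ≤ c → A ∣ Y → Y = 0 := fun Y hY hd =>
    Polynomial.eq_zero_of_dvd_of_natDegree_lt hd (by omega)
  have e2 : Y2 = 0 := by
    refine hz Y2 h2 ((hco.pow_right (n := 2)).dvd_of_dvd_mul_right ⟨-(Y0 * A + Y1 * B), ?_⟩)
    linear_combination hq
  have hq1 : Y0 * A + Y1 * B = 0 := by
    apply mul_left_cancel₀ hA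
    rw [e2] at hq
    linear_combination hq
  have e1 : Y1 = 0 := by
    refine hz Y1 h1 (hco.dvd_of_dvd_mul_right ⟨-Y0, ?_⟩)
    linear_combination hq1
  refine ⟨?_, e1, e2⟩
  apply mul_right_cancel₀ hA
  rw [e1] at hq1
  linear_combination hq1




theorem cl_form (a : ℕ) : 0 < a → ∀ b c : ℤ, b ^ 2 - 4 * a * c = -163 → ∀ u v : ℤ,
    ∃ m n : ℤ, a * u ^ 2 + b * u * v + c * v ^ 2 = m ^ 2 + m * n + 41 * n ^ 2 := by
  induction a using Nat.strong_induction_on with
  | _ a ih =>
  intro ha b c h u v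
  have ha' : (0 : ℤ) < a := by exact_mod_cast ha
  obtain ⟨q, b', hb, h1, h2⟩ : ∃ q b' : ℤ, b = b' + 2 * a * q ∧ -(a : ℤ) < b' ∧ b' ≤ a := by
    have h0 := Int.emod_nonneg (b + a - 1) (by omega : (2 * a : ℤ) ≠ 0)
    have h1 := Int.emod_lt_of_pos (b + a - 1) (by omega : (0 : ℤ) < 2 * a)
    have h2 := Int.emod_add_mul_ediv (b + a - 1) (2 * a)
    exact ⟨(b + a - 1) / (2 * a), (b + a - 1) % (2 * a) - a + 1, by linarith, by omega, by omega⟩
  obtain ⟨c', hc⟩ : ∃ c' : ℤ, c = c' + a * q ^ 2 + b' * q := ⟨c - a * q ^ 2 - b' * q, by ring⟩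
  subst hb hc
  have h' : b' ^ 2 - 4 * a * c' = -163 := by linear_combination h
  have hc0 : 0 < c' := by nlinarith [sq_nonneg b']
  rcases lt_or_ge c' a with hlt | hge
  · lift c' to ℕ using hc0.le
    obtain ⟨m, n, e⟩ := ih c' (by exact_mod_cast hlt) (by exact_mod_cast hc0) b' a
      (by linear_combination h') v (u + q * v)
    exact ⟨m, n, by linear_combination e⟩
  · have h7 : a ≤ 7 := by
      have : (a : ℤ) < 8 := by nlinarith
      omega
    have : a = 1 ∧ b' = 1 ∧ c' = 41 := by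
      interval_cases a <;> push_cast at h1 h2 h' <;> interval_cases b' <;> omega
    obtain ⟨rfl, rfl, rfl⟩ := this
    exact ⟨u + q * v, v, by push_cast; ring⟩

theorem class_one (p : ℕ) (hp : p.Prime) (hp2 : p ≠ 2) (s : ℤ) (hs : (p : ℤ) ∣ s ^ 2 + 163) :
    ∃ m n : ℤ, (p : ℤ) = m ^ 2 + m * n + 41 * n ^ 2 := by
  have hodd : Odd (p : ℤ) := by exact_mod_cast hp.odd_of_ne_two hp2
  obtain ⟨t, ht⟩ : ∃ t : ℤ, (p : ℤ) ∣ (2 * t + 1) ^ 2 + 163 := by
    rcases Int.even_or_odd' s with ⟨t, rfl | rfl⟩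
    · obtain ⟨r, hr⟩ := hodd
      refine ⟨t + r, ?_⟩
      have e : (2 * (t + r) + 1) ^ 2 + 163 = (2 * t) ^ 2 + 163 + p * (4 * t + p) := by
        rw [hr]; ring
      rw [e]
      exact dvd_add hs (dvd_mul_right _ _)
    · exact ⟨t, hs⟩
  have h4 : (p : ℤ) ∣ t ^ 2 + t + 41 := by
    have e : (2 * t + 1) ^ 2 + 163 = 2 ^ 2 * (t ^ 2 + t + 41) := by ring
    exact (Int.isCoprime_two_right.2 hodd).pow_right.dvd_of_dvd_mul_left (e ▸ ht)
  obtain ⟨c, hc⟩ := h4
  obtain ⟨m, n, e⟩ := cl_form p hp.pos (2 * t + 1) c (by linear_combination 4 * hc) 1 0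
  exact ⟨m, n, by linear_combination e⟩

end Pool.Agent.Lib.MP_db9bd2_nt.Sup
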