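import Pool.Agent.Lib.MP_db9bd2_nt.SupExpl
import Pool.Agent.Lib.MP_db9bd2_nt.SupCD
import Pool.Agent.Lib.MP_db9bd2_nt.SupU0

/-! Comparison of the Cartier matrix with the explicit Frobenius structure. -/

namespace Pool.Agent.Lib.MP_db9bd2_nt.Sup

open Finset

variable {O k : Type} [CommRing O] [Field k]

/-- `π` is the residue map of a local ring with maximal ideal generated by `p`. -/
structure Res (p : ℕ) (π : O →+* k) : Prop where
  prime : p.Prime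
  ne : (p : O) ≠ 0
  ker : ∀ x, π x = 0 ↔ (p : O) ∣ x
  unit : ∀ x, π x ≠ 0 → IsUnit x

lemma Res.charP {p : ℕ} {π : O →+* k} (R : Res p π) : CharP k p := by
  have : Fact p.Prime := ⟨R.prime⟩
  rw [CharP.charP_iff_prime_eq_zero R.prime, ← map_natCast π, R.ker]

lemma Res.pring {p : ℕ} {π : O →+* k} (R : Res p π) : PRing p O :=
  ⟨R.prime, R.ne, fun n hn => R.unit _ (by
    have := R.charP
    rw [map_natCast, Ne, CharP.cast_eq_zero_iff k p]; exact hn)⟩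

lemma Res.nu {p : ℕ} {π : O →+* k} (R : Res p π) : ¬ IsUnit (p : O) :=
  fun h => (h.map π).ne_zero ((R.ker _).2 dvd_rfl)

lemma Res.isLocal {p : ℕ} {π : O →+* k} (R : Res p π) : IsLocalRing O := by
  have := π.domain_nontrivial
  refine IsLocalRing.of_isUnit_or_isUnit_one_sub_self fun a => ?_
  by_cases h : π a = 0
  · exact Or.inr (R.unit _ (by rw [map_sub, h, map_one, sub_zero]; exact one_ne_zero))
  · exact Or.inl (R.unit _ h)

lemma Row.coeff {R : Type} [CommRing R] {p h M : ℕ} (hp : p = 2 * h + 1)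
    {A Q Q1 : Polynomial R} {Δ k1 k2 : R} (r : Row p h M A Q Q1 Δ k1 k2) (n i : ℕ) (hn : M ≤ n) :
    ∃ b c e : R, Δ ^ M * (A * Q ^ (p * n + h)).coeff (p * i + 2 * h) =
      k1 * (Q1 ^ n).coeff i + k2 * (Polynomial.X * Q1 ^ n).coeff i +
        (p : R) * ((i + 1) * b + (2 * n + 1) * c) + (p : R) ^ (M + 1) * e := by
  obtain ⟨j, rfl⟩ := Nat.exists_eq_add_of_le hn
  obtain ⟨B, E, F, -, e⟩ := r.2.2 j
  generalize M + j = n at e
  have e3 : Polynomial.C (Δ ^ M) * Ca p (A * Q ^ (p * n + h)) = Polynomial.C k1 * Q1 ^ n +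
      Polynomial.C k2 * (Polynomial.X * Q1 ^ n) + Polynomial.C (p : R) *
      (Polynomial.derivative (B * Q1 ^ (j + 1)) + Polynomial.C (2 * n + 1 : R) * E) +
      Polynomial.C ((p : R) ^ (M + 1)) * F := by
    rw [e]
    simp only [map_add, map_mul, map_pow, map_natCast, map_one, map_ofNat]
    ring
  have e4 := congrArg (fun W => Polynomial.coeff W i) e3
  simp only [Polynomial.coeff_add, Polynomial.coeff_C_mul, Polynomial.coeff_derivative] at e4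
  rw [coeff_Ca hp] at e4
  exact ⟨(B * Q1 ^ (j + 1)).coeff (i + 1), E.coeff i, F.coeff i, by linear_combination e4⟩

lemma le_NN {p h : ℕ} (hp : p = 2 * h + 1) (hh : 1 ≤ h) (S : ℕ) : S ≤ NN p h S := by
  induction S with
  | zero => exact Nat.zero_le _
  | succ S ih =>
    have := Nat.le_mul_of_pos_left (NN p h S) (by omega : 0 < p)
    rw [NN]; omega

open PowerSeries

lemma Sm_fz {m : O} {n p : ℕ} (hp : p ≠ 0) (l : O) {x : O⟦X⟧} (h : x ∈ Sm m n) :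
    fz p hp l x ∈ Sm m n :=
  Sm_expand hp fun j hj => by rw [coeff_rescale]; exact (h j hj).mul_left _

lemma row_limit [IsDomain O] {p h M : ℕ} (hp : p = 2 * h + 1) (H : PRing p O) (l : O)
    {A : Polynomial O⟦X⟧} {Δ k1 k2 y : O⟦X⟧}
    (r : Row p h M A (Qz X) (Qz (C l * X ^ p)) Δ k1 k2)
    (hy : ∀ n m : ℕ, p ^ (M + 1 + 3 * m) ∣ 2 * n + 1 →
      (A * Qz X ^ n).coeff (2 * n) - y ∈ Sm ((p : O) ^ (M + 1)) m) :
    (p : O⟦X⟧) ^ (M + 1) ∣ Δ ^ M * y -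
      (k1 * fz p H.prime.ne_zero l (ff O) + k2 * fz p H.prime.ne_zero l (gg O)) := by
  have hh : 1 ≤ h := by have := H.prime.two_le; omega
  rw [pow_dvd_iff]
  intro m
  obtain ⟨n, hn, hM⟩ : ∃ n, 2 * n + 1 = p ^ (M + 1 + 3 * m) ∧ M ≤ n :=
    ⟨_, NN_spec hp _, le_trans (by omega) (le_NN hp hh _)⟩
  have hn' : p ^ (M + 1 + 3 * m) ∣ 2 * (p * n + h) + 1 := ⟨p, by rw [← hn, hp]; ring⟩
  have a1 := hy (p * n + h) m hn'
  have a2 := Sm_fz H.prime.ne_zero l (ca_Sm H (M + 1) n m (hn ▸ dvd_rfl))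
  have b2 := Sm_fz H.prime.ne_zero l (cb_Sm H (M + 1) n m (hn ▸ dvd_rfl))
  rw [map_sub, map_ca, fz_X] at a2
  rw [map_sub, map_cb, fz_X] at b2
  have hq : (2 * (n : O⟦X⟧) + 1) = (p : O⟦X⟧) ^ (M + 1) * p ^ (3 * m) := by
    rw [← pow_add]; exact_mod_cast congrArg (Nat.cast : ℕ → O⟦X⟧) hn
  have s := Sm_pow (O := O) p (M + 1) m
  obtain ⟨b, c', e, h1⟩ := r.coeff hp n (2 * n) hM
  rw [show p * (2 * n) + 2 * h = 2 * (p * n + h) by ring] at h1
  push_cast at h1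
  have := Ideal.add_mem _ (Ideal.add_mem _ (Ideal.mul_mem_left _ k1 a2)
    (Ideal.mul_mem_left _ k2 b2)) (Ideal.sub_mem _
    (Ideal.mul_mem_left _ ((p : O⟦X⟧) * (p : O⟦X⟧) ^ (3 * m) * (b + c') + e) s)
    (Ideal.mul_mem_left _ (Δ ^ M) a1))
  refine mem_Sm.1 (Set.mem_of_eq_of_mem ?_ this) m le_rfl
  unfold ca cb
  linear_combination h1 + (p : O⟦X⟧) * (b + c') * hq

lemma coeff_sec {R : Type} [CommRing R] {p : ℕ} (hp : p ≠ 0) (Z : ℕ → R⟦X⟧) (a n : ℕ)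
    (ha : a < p) : coeff (a + p * n) (∑ b ∈ range p, X ^ b * expand p hp (Z b)) = coeff n (Z a) := by
  rw [map_sum, Finset.sum_eq_single a]
  · rw [add_comm, coeff_X_pow_mul, coeff_expand_mul]
  · intro b hb hne
    rw [coeff_X_pow_mul']
    split_ifs with h
    · apply coeff_expand_of_not_dvd
      rintro ⟨c, hc⟩
      apply hne
      have h1 : (a + p * n) % p = (b + p * c) % p := by congr 1; omega
      rwa [Nat.add_mul_mod_self_left, Nat.add_mul_mod_self_left, Nat.mod_eq_of_lt ha,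
        Nat.mod_eq_of_lt (mem_range.1 hb), eq_comm] at h1
    · rfl
  · intro h
    exact absurd (mem_range.2 ha) h

lemma U1 {p c : ℕ} [CharP k p] (hp : p.Prime) (hc : 6 * c + 5 < p)
    (a b : Polynomial k) (ha : a ≠ 0) (hab : (a : k⟦X⟧) * gg k = (b : k⟦X⟧) * ff k)
    (l : k) (hl : l ≠ 0) (X0 X1 X2 : k⟦X⟧) (h0 : Pq p c X0) (h1 : Pq p c X1) (h2 : Pq p c X2)
    (h : X0 * fz p hp.ne_zero l (ff k) ^ 2 +
      X1 * (fz p hp.ne_zero l (ff k) * fz p hp.ne_zero l (gg k)) +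
      X2 * fz p hp.ne_zero l (gg k) ^ 2 = 0) : X0 = 0 ∧ X1 = 0 ∧ X2 = 0 := by
  obtain ⟨sec, hs⟩ : ∃ sec : k⟦X⟧ → ℕ → k⟦X⟧,
    sec = fun G r => PowerSeries.mk fun n => coeff (r + p * n) G := ⟨_, rfl⟩
  have sp : ∀ G, G = ∑ r ∈ range p, X ^ r * expand p hp.ne_zero (sec G r) := fun G => by
    rw [hs]; exact split_series p hp.ne_zero G
  have key : ∀ r < p, sec X0 r = 0 ∧ sec X1 r = 0 ∧ sec X2 r = 0 := by
    intro r hr
    have e : sec X0 r * rescale l (ff k) ^ 2 + sec X1 r * (rescale l (ff k) * rescale l (gg k)) +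
        sec X2 r * rescale l (gg k) ^ 2 = 0 := by
      ext n
      rw [← coeff_sec hp.ne_zero (fun r => sec X0 r * rescale l (ff k) ^ 2 +
        sec X1 r * (rescale l (ff k) * rescale l (gg k)) + sec X2 r * rescale l (gg k) ^ 2) r n hr]
      simp only [map_add, map_mul, map_pow, mul_add, ← mul_assoc (X ^ _ : k⟦X⟧),
        Finset.sum_add_distrib, ← Finset.sum_mul, ← sp]
      rw [← map_add, ← map_add, map_zero]
      exact congrArg (coeff (r + p * n)) h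
    have e2 := congrArg (rescale l⁻¹) e
    simp only [map_add, map_mul, map_pow, rescale_rescale, mul_inv_cancel₀ hl, rescale_one,
      RingHom.id_apply, map_zero] at e2
    have t : ∀ G, Pq p c G → (trunc (c + 1) (rescale l⁻¹ (sec G r)) : k⟦X⟧) =
        rescale l⁻¹ (sec G r) := fun G hG => by
      ext n
      rw [Polynomial.coeff_coe, coeff_trunc]
      split_ifs with h
      · rfl
      · rw [coeff_rescale, hs, coeff_mk, hG _ (by nlinarith [hp.pos]), mul_zero]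
    rw [← t X0 h0, ← t X1 h1, ← t X2 h2] at e2
    have d : ∀ G : k⟦X⟧, (trunc (c + 1) G).natDegree ≤ c := fun G =>
      Nat.le_of_lt_succ (natDegree_trunc_lt G c)
    obtain ⟨z0, z1, z2⟩ := U0 hp hc a b ha hab _ _ _ (d _) (d _) (d _) e2
    have u : ∀ G, Pq p c G → trunc (c + 1) (rescale l⁻¹ (sec G r)) = 0 → sec G r = 0 := by
      intro G hG hz
      have := congrArg (rescale l) (t G hG)
      rwa [hz, rescale_rescale, inv_mul_cancel₀ hl, rescale_one, RingHom.id_apply,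
        Polynomial.coe_zero, map_zero, eq_comm] at this
    exact ⟨u _ h0 z0, u _ h1 z1, u _ h2 z2⟩
  refine ⟨?_, ?_, ?_⟩
  · rw [sp X0]; exact Finset.sum_eq_zero fun r hr => by simp [(key r (mem_range.1 hr)).1]
  · rw [sp X1]; exact Finset.sum_eq_zero fun r hr => by simp [(key r (mem_range.1 hr)).2.1]
  · rw [sp X2]; exact Finset.sum_eq_zero fun r hr => by simp [(key r (mem_range.1 hr)).2.2]

lemma map_ff (π : O →+* k) : PowerSeries.map π (ff O) = ff k := by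
  ext n; simp [ff]

lemma map_gg (π : O →+* k) : PowerSeries.map π (gg O) = gg k := by
  ext n
  rcases n with _ | n
  · rw [coeff_map, coeff_gg_zero, coeff_gg_zero, map_zero]
  · rw [coeff_map, coeff_gg, coeff_gg]; simp [map_ofNat]

lemma map_fz (π : O →+* k) {p : ℕ} (hp : p ≠ 0) (l : O) (G : O⟦X⟧) :
    PowerSeries.map π (fz p hp l G) = fz p hp (π l) (PowerSeries.map π G) := by
  rw [fz_apply, fz_apply, map_expand, rescale_map]

lemma Res.map_zero {p : ℕ} {π : O →+* k} (R : Res p π) (G : O⟦X⟧) :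
    PowerSeries.map π G = 0 ↔ (p : O⟦X⟧) ∣ G := by
  rw [← pow_one (p : O⟦X⟧), pow_dvd_iff, PowerSeries.ext_iff]
  simp only [coeff_map, pow_one, LinearMap.map_zero, R.ker]

lemma Pq.map {p c : ℕ} (π : O →+* k) {G : O⟦X⟧} (h : Pq p c G) : Pq p c (PowerSeries.map π G) :=
  fun n hn => by rw [coeff_map, h n hn, map_zero]

lemma Pq.neg {p c : ℕ} {G : O⟦X⟧} (h : Pq p c G) : Pq p c (-G) :=
  fun n hn => by rw [map_neg, h n hn, neg_zero]

lemma Pq.div [IsDomain O] {p c : ℕ} (hp : (p : O) ≠ 0) {G : O⟦X⟧} 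
    (h : Pq p c ((p : O⟦X⟧) * G)) : Pq p c G := fun n hn => by
  have := h n hn
  rw [← map_natCast PowerSeries.C, coeff_C_mul] at this
  exact (mul_eq_zero.1 this).resolve_left hp

lemma U3 [IsDomain O] {p c : ℕ} {π : O →+* k} (R : Res p π) (hc : 6 * c + 5 < p)
    (a b : Polynomial k) (ha : a ≠ 0) (hab : (a : k⟦X⟧) * gg k = (b : k⟦X⟧) * ff k)
    (l : O) (hl : IsUnit l) (j : ℕ) (X0 X1 X2 : O⟦X⟧) (h0 : Pq p c X0) (h1 : Pq p c X1)
    (h2 : Pq p c X2) (h : (p : O⟦X⟧) ^ j ∣ X0 * fz p R.prime.ne_zero l (ff O) ^ 2 +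
      X1 * (fz p R.prime.ne_zero l (ff O) * fz p R.prime.ne_zero l (gg O)) +
      X2 * fz p R.prime.ne_zero l (gg O) ^ 2) :
    (p : O⟦X⟧) ^ j ∣ X0 ∧ (p : O⟦X⟧) ^ j ∣ X1 ∧ (p : O⟦X⟧) ^ j ∣ X2 := by
  have := R.charP
  induction j generalizing X0 X1 X2 with
  | zero => simp
  | succ j ih =>
    have e := (R.map_zero _).2 ((dvd_pow_self _ (Nat.succ_ne_zero j)).trans h)
    simp only [map_add, map_mul, map_pow, map_fz, map_ff, map_gg] at e
    obtain ⟨z0, z1, z2⟩ := U1 R.prime hc a b ha hab (π l) (hl.map π).ne_zero _ _ _ (h0.map π)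
      (h1.map π) (h2.map π) e
    obtain ⟨Y0, rfl⟩ := (R.map_zero _).1 z0
    obtain ⟨Y1, rfl⟩ := (R.map_zero _).1 z1
    obtain ⟨Y2, rfl⟩ := (R.map_zero _).1 z2
    have hp : (p : O⟦X⟧) ≠ 0 := by
      rw [← map_natCast PowerSeries.C]; exact (map_ne_zero_iff _ C_injective).2 R.ne
    rw [mul_assoc, mul_assoc, mul_assoc (p : O⟦X⟧), ← mul_add, ← mul_add, pow_succ',
      mul_dvd_mul_iff_left hp] at h
    simp only [pow_succ', mul_dvd_mul_iff_left hp]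
    exact ih Y0 Y1 Y2 (h0.div R.ne) (h1.div R.ne) (h2.div R.ne) h

lemma Fi_eq [IsDomain O] [CharZero O] {p : ℕ} (hp : p ≠ 0) (l : O) (z : O⟦X⟧)
    (hz : z = C l * X ^ p) :
    fz p hp l (ff O) ^ 2 = Fi p hp l 0 ∧
    fz p hp l (ff O) * fz p hp l (gg O) = 2 * (1 - 864 * z) * Fi p hp l 1 - 288 * z * Fi p hp l 0 ∧
    fz p hp l (gg O) ^ 2 = 8 * (1 - 864 * z) ^ 2 * Fi p hp l 2 -
      (6912 * (z * (1 - 432 * z)) + 1152 * z * (1 - 864 * z)) * Fi p hp l 1 +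
      (82944 * z ^ 2 - 960 * (z * (1 - 432 * z))) * Fi p hp l 0 := by
  have h0 := congrArg (fz p hp l) (clausen (O := O))
  have h1 := congrArg (fz p hp l) (K1_F (O := O))
  have h2 := congrArg (fz p hp l) (K2_F (O := O))
  simp only [K1, K2, uz, tz, map_add, map_sub, map_mul, map_pow, map_one, map_ofNat, fz_X, ← hz]
    at h0 h1 h2
  simp only [Fi, Function.iterate_succ, Function.iterate_zero, Function.comp_apply, id_eq]
  exact ⟨h0.symm, h1.symm, by linear_combination -h2⟩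

lemma U3th [IsDomain O] [CharZero O] {p c : ℕ} {π : O →+* k} (R : Res p π)
    (hc : 6 * (c + 3) + 5 < p) (a b : Polynomial k) (ha : a ≠ 0)
    (hab : (a : k⟦X⟧) * gg k = (b : k⟦X⟧) * ff k) (l : O) (hl : IsUnit l) (j : ℕ)
    (X0 X1 X2 : O⟦X⟧) (h0 : Pq p c X0) (h1 : Pq p c X1) (h2 : Pq p c X2)
    (h : (p : O⟦X⟧) ^ j ∣ X0 * Fi p R.prime.ne_zero l 0 + X1 * Fi p R.prime.ne_zero l 1 +
      X2 * Fi p R.prime.ne_zero l 2) :
    (p : O⟦X⟧) ^ j ∣ X0 ∧ (p : O⟦X⟧) ^ j ∣ X1 ∧ (p : O⟦X⟧) ^ j ∣ X2 := by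
  obtain ⟨z, hz⟩ : ∃ z : O⟦X⟧, z = C l * X ^ p := ⟨_, rfl⟩
  obtain ⟨e0, e1, e2⟩ := Fi_eq R.prime.ne_zero l z hz
  obtain ⟨u, hu⟩ : ∃ u : O⟦X⟧, u = 1 - 864 * z := ⟨_, rfl⟩
  obtain ⟨s, hs⟩ : ∃ s : O⟦X⟧, s = 6912 * (z * (1 - 432 * z)) + 1152 * z * (1 - 864 * z) := ⟨_, rfl⟩
  obtain ⟨e, he⟩ : ∃ s : O⟦X⟧, s = 82944 * z ^ 2 - 960 * (z * (1 - 432 * z)) := ⟨_, rfl⟩
  have pz : Pq p 1 z := hz ▸ (Pq.C p _).mul (Pq.X_pow p)
  have pj : Pq p 1 (1 - 432 * z) := (Pq.one p).sub ((Pq.num p 432).mul pz)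
  have pu' : Pq p 1 (1 - 864 * z) := (Pq.one p).sub ((Pq.num p 864).mul pz)
  have pu : Pq p 1 u := hu ▸ pu'
  have ps : Pq p 2 s := hs ▸ ((Pq.num p 6912).mul (pz.mul pj)).add
    (((Pq.num p 1152).mul pz).mul pu')
  have pe : Pq p 2 e := he ▸ ((Pq.num p 82944).mul (pz.pow 2)).sub ((Pq.num p 960).mul (pz.mul pj))
  rw [← hs, ← he, ← hu] at e2
  rw [← hu] at e1
  have u2 : IsUnit (2 * u) := by
    have := R.pring.unit 2 (fun hd => by have := Nat.le_of_dvd two_pos hd; omega)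
    rw [isUnit_iff_constantCoeff]
    simpa [hu, hz, R.prime.ne_zero, map_ofNat] using this
  obtain ⟨z0, z1, z2⟩ := U3 R hc a b ha hab l hl j
    (2 * (2 * u) ^ 3 * X0 + 2 * (2 * u) ^ 2 * X1 * (288 * z) + X2 * (s * (288 * z) - 2 * u * e))
    (2 * (2 * u) ^ 2 * X1 + X2 * s) (2 * u * X2)
    ((((((Pq.num p 2).mul (((Pq.num p 2).mul pu).pow 3)).mul h0).add ((((Pq.num p 2).mul
      (((Pq.num p 2).mul pu).pow 2)).mul h1).mul ((Pq.num p 288).mul pz))).add (h2.mul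
      ((ps.mul ((Pq.num p 288).mul pz)).sub (((Pq.num p 2).mul pu).mul pe)))).mono (by omega))
    (((((Pq.num p 2).mul (((Pq.num p 2).mul pu).pow 2)).mul h1).add (h2.mul ps)).mono (by omega))
    ((((Pq.num p 2).mul pu).mul h2).mono (by omega))
    (by rw [e0, e1, e2]; convert h.mul_left (2 * (2 * u) ^ 3) using 1; ring)
  have v2 := isUnit_of_mul_isUnit_left u2
  rw [u2.dvd_mul_left] at z2
  rw [dvd_add_left (z2.mul_right _), (v2.mul (u2.pow 2)).dvd_mul_left] at z1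
  rw [dvd_add_left (z2.mul_right _), dvd_add_left ((z1.mul_left _).mul_right _),
    (v2.mul (u2.pow 3)).dvd_mul_left] at z0
  exact ⟨z0, z1, z2⟩

lemma th_add (F G : O⟦X⟧) : th (F + G) = th F + th G := by unfold th; rw [map_add, mul_add]

lemma th_sub (F G : O⟦X⟧) : th (F - G) = th F - th G := by unfold th; rw [map_sub, mul_sub]

lemma th_pow (F : O⟦X⟧) (n : ℕ) : th (F ^ (n + 1)) = (n + 1) * F ^ n * th F := by
  induction n with
  | zero => simp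
  | succ n ih => rw [pow_succ, th_mul, ih]; push_cast; ring

lemma th_C (a : O) : th (C a) = 0 := by simp [th]

lemma th_dvd {p j : ℕ} {G : O⟦X⟧} (h : (p : O⟦X⟧) ^ j ∣ G) : (p : O⟦X⟧) ^ j ∣ th G := by
  rw [pow_dvd_iff] at h ⊢
  exact fun n => by rw [coeff_th]; exact (h n).mul_left _

lemma th_fg : 4 * ((1 - 432 * X) * th (ff O)) = gg O + 288 * X * ff O ∧
    (1 - 432 * X) * th (gg O) = -48 * X * ff O - 72 * X * gg O := by
  rw [← DD_eq, ← DD_eq]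
  refine ⟨by unfold gg; ring, ?_⟩
  have h1 := DD_nat_mul 4 (DD (ff O))
  have h2 := DD_nat_mul 288 (X * ff O)
  push_cast at h1 h2
  rw [gg, DD_sub, h1, mul_assoc, h2, DD_mul, DD_X, DD_DD_ff, tz]
  ring

lemma row_ode [IsDomain O] {p c : ℕ} {π : O →+* k} (R : Res p π) (hc : 6 * (c + 2) + 5 < p)
    (a0 b0 : Polynomial k) (ha : a0 ≠ 0) (hab : (a0 : k⟦X⟧) * gg k = (b0 : k⟦X⟧) * ff k)
    (l : O) (hl : IsUnit l) (z D x y m n φ P : O⟦X⟧) (hz : z = C l * X ^ p) (hP : P = p)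
    (hD : (1 - 432 * z) * th D = 6 * P * (1 - 864 * z) * D)
    (pa : Pq p c x) (pb : Pq p c y) (pc : Pq p (c + 1) m) (pd : Pq p (c + 1) n)
    (h1 : (p : O⟦X⟧) ^ 7 ∣ D * φ -
      (x * fz p R.prime.ne_zero l (ff O) + y * fz p R.prime.ne_zero l (gg O)))
    (h2 : (p : O⟦X⟧) ^ 7 ∣ D * (4 * ((1 - 432 * X) * th φ)) -
      (m * fz p R.prime.ne_zero l (ff O) + n * fz p R.prime.ne_zero l (gg O))) :
    (p : O⟦X⟧) ^ 7 ∣ 24 * P * (1 - 432 * X) * (1 - 864 * z) * x + (1 - 432 * z) * m -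
      4 * (1 - 432 * X) * (1 - 432 * z) * th x - P * (1 - 432 * X) * (288 * z * x - 192 * z * y) ∧
    (p : O⟦X⟧) ^ 7 ∣ 24 * P * (1 - 432 * X) * (1 - 864 * z) * y + (1 - 432 * z) * n -
      4 * (1 - 432 * X) * (1 - 432 * z) * th y - P * (1 - 432 * X) * (x - 288 * z * y) := by
  obtain ⟨t1, t2⟩ := th_fg (O := O)
  have s1 := congrArg (fz p R.prime.ne_zero l) t1
  have s2 := congrArg (fz p R.prime.ne_zero l) t2
  simp only [map_add, map_sub, map_mul, map_neg, map_one, map_ofNat, fz_X, ← hz] at s1 s2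
  obtain ⟨v1, e1⟩ := th_dvd h1
  obtain ⟨w1, f1⟩ := h1
  obtain ⟨w2, f2⟩ := h2
  simp only [th_sub, th_add, th_mul, th_fz, ← hP] at e1 f1 f2
  obtain ⟨j, hj⟩ : ∃ j : O⟦X⟧, j = 1 - 432 * X := ⟨_, rfl⟩
  obtain ⟨i, hi⟩ : ∃ j : O⟦X⟧, j = 1 - 432 * z := ⟨_, rfl⟩
  obtain ⟨u, hu⟩ : ∃ j : O⟦X⟧, j = 1 - 864 * z := ⟨_, rfl⟩
  have px := Pq.X (O := O) R.prime.ne_zero
  have pz : Pq p 1 z := hz ▸ (Pq.C p _).mul (Pq.X_pow p)
  have pj : Pq p 1 j := hj ▸ (Pq.one p).sub ((Pq.num p 432).mul px)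
  have pi : Pq p 1 i := hi ▸ (Pq.one p).sub ((Pq.num p 432).mul pz)
  have pu : Pq p 1 u := hu ▸ (Pq.one p).sub ((Pq.num p 864).mul pz)
  have pp : Pq p 0 P := hP ▸ Pq.nat (O := O) p p
  rw [← hj] at f2 ⊢
  rw [← hi] at s1 s2 hD ⊢
  rw [← hu] at hD ⊢
  have q0 : ∀ {x m y : O⟦X⟧}, Pq p c x → Pq p (c + 1) m → Pq p (c + 1) y →
      Pq p (c + 2) (24 * P * j * u * x + i * m - 4 * j * i * th x - P * j * y) :=
    fun hx hm hy => ((((((((Pq.num p 24).mul pp).mul pj).mul pu).mul hx).add (pi.mul hm)).sub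
      ((((Pq.num p 4).mul pj).mul pi).mul hx.th)).sub ((pp.mul pj).mul hy)).mono (by omega)
  obtain ⟨z0, z1, -⟩ := U3 R hc a0 b0 ha hab l hl 7 _ _ 0
    (q0 pa pc (((((Pq.num p 288).mul pz).mul pa).sub (((Pq.num p 192).mul pz).mul pb)).mono
      (by omega)))
    (q0 pb pd ((pa.sub (((Pq.num p 288).mul pz).mul pb)).mono (by omega))) (fun _ _ => by simp)
    ⟨fz p R.prime.ne_zero l (ff O) * (4 * j * i * v1 - 24 * P * j * u * w1 - i * w2), by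
      rw [← hP]
      linear_combination fz p R.prime.ne_zero l (ff O) * (4 * j * i * e1 - 24 * P * j * u * f1 -
        i * f2 - 4 * j * φ * hD + P * j * x * s1 + 4 * P * j * y * s2)⟩
  exact ⟨z0, z1⟩

lemma det_const [IsDomain O] {p c : ℕ} (H : PRing p O) (hc : c < p) (h24 : 24 ≤ c) (l : O)
    (hl : IsUnit l) (z Y : O⟦X⟧) (hz : z = C l * X ^ p) (pY : Pq p c Y)
    (h : (p : O⟦X⟧) ^ 7 ∣ (1 - 432 * z) * th Y - 12 * p * (1 - 864 * z) * Y) :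
    ∃ c0 : O, (p : O⟦X⟧) ^ 3 ∣ Y - C c0 * (Dl z ^ 6) ^ 2 := by
  have hp := H.prime.ne_zero
  obtain ⟨i, hi⟩ : ∃ j : O⟦X⟧, j = 1 - 432 * z := ⟨_, rfl⟩
  have i0 : constantCoeff i = 1 := by simp [hi, hz, hp]
  obtain ⟨ji, hji⟩ := (isUnit_iff_constantCoeff.2 (i0 ▸ isUnit_one)).exists_right_inv
  have tz' : th z = p * z := by
    have := th_fz hp l X
    rwa [show th (X : O⟦X⟧) = X by simp [th], fz_X, ← hz] at this
  have t1 : th (1 : O⟦X⟧) = 0 := th_C 1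
  have ti : th i = -432 * (p * z) := by
    have := th_nat_mul 432 z
    push_cast at this
    rw [hi, th_sub, this, t1, tz']; ring
  have tj := congrArg th hji
  rw [th_mul, ti, t1] at tj
  obtain ⟨w, hw⟩ := h
  have h1 : (p : O⟦X⟧) ^ 7 ∣ th (Y * ji ^ 12) - C (12 * p : O) * (Y * ji ^ 12) := by
    refine ⟨ji ^ 13 * w, ?_⟩
    rw [th_mul, th_pow, map_mul, map_natCast, map_ofNat]
    rw [← hi] at hw
    push_cast
    linear_combination ji ^ 13 * hw + 12 * Y * ji ^ 12 * tj + (12 * p * Y * ji ^ 12 -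
      th Y * ji ^ 12 - 12 * Y * ji ^ 11 * th ji) * hji - 12 * p * Y * ji ^ 13 * hi
  obtain ⟨y, hy⟩ : ∃ y, y = coeff (12 * p) (Y * ji ^ 12) := ⟨_, rfl⟩
  have h2 : Y * ji ^ 12 - C y * X ^ (12 * p) ∈ Sm ((p : O) ^ 3) (c * p) := by
    intro n hn
    rw [map_sub, coeff_C_mul, coeff_X_pow]
    split_ifs with h
    · rw [h, hy]; simp
    have h3 := (pow_dvd_iff p 7 _).1 h1 n
    rw [map_sub, coeff_th, coeff_C_mul, ← sub_mul] at h3
    rw [mul_zero, sub_zero]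
    obtain ⟨m, hm0, hm1, hm⟩ : ∃ m : ℕ, m ≠ 0 ∧ m < p * p ∧ (n - 12 * p : O) ∣ m := by
      have := Nat.mul_lt_mul_of_lt_of_le hc (le_refl p) H.prime.pos
      have := Nat.mul_le_mul_right p h24
      rcases le_total n (12 * p) with h4 | h4
      · exact ⟨12 * p - n, by omega, by omega, -1, by push_cast [h4]; ring⟩
      · exact ⟨n - 12 * p, by omega, by omega, 1, by push_cast [h4]; ring⟩
    obtain ⟨e, u, hu, rfl⟩ := Nat.exists_eq_pow_mul_and_not_dvd hm0 p H.prime.ne_one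
    have he : e ≤ 1 := by
      by_contra he
      have := Nat.le_of_dvd (Nat.pos_of_ne_zero hm0)
        ((pow_dvd_pow p (by omega : 2 ≤ e)).mul_right u)
      rw [sq] at this
      omega
    have h5 := ((pow_dvd_pow _ (by omega : e + 3 ≤ 7)).trans h3).trans (mul_dvd_mul_right hm _)
    rwa [Nat.cast_mul, Nat.cast_pow, pow_add, mul_assoc, mul_dvd_mul_iff_left (pow_ne_zero e H.ne),
      (H.unit u hu).dvd_mul_left] at h5
  have u2 := H.unit 2 (fun hd => by have := Nat.le_of_dvd two_pos hd; omega)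
  obtain ⟨v, hv⟩ := ((u2.pow 8).mul hl).exists_right_inv
  have hv' := congrArg (fun x => C (R := O) x ^ 12) hv
  simp only [map_mul, map_pow, map_one, Nat.cast_ofNat, map_ofNat, one_pow] at hv'
  have pz : Pq p 1 z := hz ▸ (Pq.C p _).mul (Pq.X_pow p)
  have pi : Pq p 1 i := hi ▸ (Pq.one p).sub ((Pq.num p 432).mul pz)
  refine ⟨y * v ^ 12, ?_⟩
  have e : C (y * v ^ 12) * (Dl z ^ 6) ^ 2 = C y * (X ^ p) ^ 12 * i ^ 12 := by
    rw [Dl, ← hi, hz, map_mul, map_pow]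
    linear_combination C y * (X ^ p) ^ 12 * i ^ 12 * hv'
  have h6 := Ideal.mul_mem_left _ (i ^ 12) h2
  rw [pow_dvd_iff, e]
  intro n
  rcases le_or_gt n (c * p) with hn | hn
  · have h7 := congrArg (· ^ 12) hji
    refine mem_Sm.1 (Set.mem_of_eq_of_mem ?_ h6) n hn
    rw [pow_mul']
    linear_combination -Y * h7
  · rw [(pY.sub (((Pq.C p y).mul ((Pq.X_pow p).pow 12)).mul (pi.pow 12))).mono (d := c) (by omega)
      n hn]
    exact dvd_zero _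

lemma dvd_X_pow {p j N : ℕ} {G : O⟦X⟧} (h : (p : O⟦X⟧) ^ j ∣ X ^ N * G) : (p : O⟦X⟧) ^ j ∣ G := by
  rw [pow_dvd_iff] at h ⊢
  intro n
  have := h (n + N)
  rwa [coeff_X_pow_mul] at this

theorem family_series [IsDomain O] [CharZero O] {p h : ℕ} {π : O →+* k} (R : Res p π)
    (hp : p = 2 * h + 1) (hb : 1800 < p) (l : O) (hl : (p : O) ∣ l - 1) (z : O⟦X⟧)
    (hz : z = C l * X ^ p) (a0 c0 : Polynomial O) (a b c d : O⟦X⟧) (ea : a = a0) (ec : c = c0)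
    (pa : Pq p 145 a) (pb : Pq p 145 b) (pc : Pq p 145 c) (pd : Pq p 145 d)
    (r1 : Row p h 6 1 (Qz X) (Qz z) (Dl z) a b)
    (r2 : Row p h 6 Polynomial.X (Qz X) (Qz z) (Dl z) c d) :
    (p : O⟦X⟧) ^ 3 ∣ (Dl z ^ 6) ^ 2 * YY 0 p X - (a ^ 2 + 2 * (-288 * z) * (a * b) +
      (82944 * z ^ 2 - 960 * (z * (1 - 432 * z))) * b ^ 2) ∧
    (p : O⟦X⟧) ^ 3 ∣ (Dl z ^ 6) ^ 2 * k1 p X - (a * c + (-288 * z) * (a * d + b * c) +
      (82944 * z ^ 2 - 960 * (z * (1 - 432 * z))) * (b * d)) ∧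
    (p : O⟦X⟧) ^ 3 ∣ a * d - b * c - p * (Dl z ^ 6) ^ 2 := by
  have H := R.pring
  have hp0 := R.prime.ne_zero
  have := R.charP
  have ul : IsUnit l := R.unit _ (by
    have := (R.ker _).2 hl
    rw [map_sub, map_one, sub_eq_zero] at this
    rw [this]; exact one_ne_zero)
  have l1 := row_limit hp H l (hz ▸ r1) (fun n m hn => by
    rw [one_mul]; exact ca_Sm H _ n m hn)
  have l2 := row_limit hp H l (hz ▸ r2) (fun n m hn => cb_Sm H _ n m hn)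
  obtain ⟨i, hi⟩ : ∃ j : O⟦X⟧, j = 1 - 432 * z := ⟨_, rfl⟩
  obtain ⟨u, hu⟩ : ∃ j : O⟦X⟧, j = 1 - 864 * z := ⟨_, rfl⟩
  obtain ⟨D, hD⟩ : ∃ D : O⟦X⟧, D = Dl z ^ 6 := ⟨_, rfl⟩
  have u2 := H.unit 2 (fun hd => by have := Nat.le_of_dvd two_pos hd; omega)
  have ui : IsUnit i := isUnit_iff_constantCoeff.2 (by simp [hi, hz, hp0])
  have uj : IsUnit (1 - 432 * X : O⟦X⟧) := isUnit_iff_constantCoeff.2 (by simp)
  have u2' : IsUnit (2 : O⟦X⟧) := by simpa [map_ofNat] using u2.map (C (R := O))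
  have eD : D = X ^ (p * 6) * (-2 ^ 8 * C l * i) ^ 6 := by rw [hD, Dl, ← hi, hz]; ring
  have uD : IsUnit ((-2 ^ 8 * C l * i) ^ 6) := (((u2'.pow 8).neg.mul (ul.map C)).mul ui).pow 6
  have cD : ∀ j G, (p : O⟦X⟧) ^ j ∣ D * G → (p : O⟦X⟧) ^ j ∣ G := fun j G hG => by
    rw [eD, mul_assoc] at hG
    exact uD.dvd_mul_left.1 (dvd_X_pow hG)
  rw [← hz, ← hD] at l1 l2
  rw [← hD]
  obtain ⟨f', hf⟩ : ∃ f', f' = fz p hp0 l (ff O) := ⟨_, rfl⟩
  obtain ⟨g', hg⟩ : ∃ g', g' = fz p hp0 l (gg O) := ⟨_, rfl⟩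
  have n0 : a0.map π ≠ 0 := by
    intro h0
    have h1 : (p : O⟦X⟧) ∣ a := by
      rw [← R.map_zero, ea, ← Polynomial.polynomial_map_coe, h0, Polynomial.coe_zero]
    have h2 := dvd_add ((dvd_pow_self _ (by omega)).trans l1)
      (dvd_add (h1.mul_right (fz p hp0 l (ff O))) (r1.1.mul_right (fz p hp0 l (gg O))))
    rw [sub_add_cancel, ← pow_one (p : O⟦X⟧)] at h2
    have h3 := (pow_dvd_iff p 1 _).1 (cD 1 _ h2) 0
    simp only [ff, coeff_mk, pow_one, show AA 0 = 1 from rfl, Nat.cast_one] at h3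
    exact R.nu (isUnit_of_dvd_one h3)
  have hab : ((a0.map π : Polynomial k) : k⟦X⟧) * gg k = (c0.map π : Polynomial k) * ff k := by
    rw [Polynomial.polynomial_map_coe, Polynomial.polynomial_map_coe, ← map_ff π, ← map_gg π,
      ← ea, ← ec, ← sub_eq_zero, ← map_mul, ← map_mul, ← map_sub, R.map_zero,
      ← pow_one (p : O⟦X⟧)]
    apply cD
    obtain ⟨w1, e1⟩ := l1
    obtain ⟨w2, e2⟩ := l2
    obtain ⟨b', e3⟩ := r1.1
    obtain ⟨d', e4⟩ := r2.1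
    rw [← hf, ← hg] at e1 e2
    exact ⟨p ^ 6 * (a * w2 - c * w1) + (a * d' - c * b') * g',
      by linear_combination a * e2 - c * e1 + a * g' * e4 - c * g' * e3⟩
  have px := Pq.X (O := O) hp0
  have pz : Pq p 1 z := hz ▸ (Pq.C p _).mul (Pq.X_pow p)
  have pi : Pq p 1 i := hi ▸ (Pq.one p).sub ((Pq.num p 432).mul pz)
  have pu : Pq p 1 u := hu ▸ (Pq.one p).sub ((Pq.num p 864).mul pz)
  have pD : Pq p 12 D := by
    rw [hD, Dl, ← hi, neg_mul, Even.neg_pow (by decide)]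
    exact ((Pq.num p 256).mul (pz.mul pi)).pow 6
  have tz' : th z = p * z := by
    have := th_fz hp0 l X
    rwa [show th (X : O⟦X⟧) = X by simp [th], fz_X, ← hz] at this
  have tD : (1 - 432 * z) * th D = 6 * p * (1 - 864 * z) * D := by
    have t1 : th (1 : O⟦X⟧) = 0 := th_C 1
    have t2 := th_nat_mul 432 z
    have t3 := th_nat_mul 256 (z * (1 - 432 * z))
    push_cast at t2 t3
    rw [hD, Dl, neg_mul, Even.neg_pow (by decide), th_pow, t3, th_mul, th_sub, t1, t2, tz']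
    push_cast; ring
  obtain ⟨t1, t2⟩ := th_fg (O := O)
  obtain ⟨⟨y1, o1⟩, y2, o2⟩ := row_ode R (c := 145) (by omega) _ _ n0 hab l ul z D a b
    (c + 288 * X * a) (d + 288 * X * b) _ _ hz rfl tD pa pb
    ((pc.add (((Pq.num p 288).mul px).mul pa)).mono (by omega))
    ((pd.add (((Pq.num p 288).mul px).mul pb)).mono (by omega)) l1
    (by rw [t1]; convert dvd_add l2 (l1.mul_left (288 * X)) using 1; ring)
  obtain ⟨⟨y3, o3⟩, y4, o4⟩ := row_ode R (c := 145) (by omega) _ _ n0 hab l ul z D c d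
    (-(192 * X * a) - 288 * X * c) (-(192 * X * b) - 288 * X * d) _ _ hz rfl tD pc pd
    (((((Pq.num p 192).mul px).mul pa).neg.sub (((Pq.num p 288).mul px).mul pc)).mono (by omega))
    (((((Pq.num p 192).mul px).mul pb).neg.sub (((Pq.num p 288).mul px).mul pd)).mono (by omega)) l2
    (by rw [t2]; convert dvd_sub (l1.mul_left (-192 * X)) (l2.mul_left (288 * X)) using 1; ring)
  obtain ⟨e0, w0, he0⟩ := det_const H (c := 290) (by omega) (by omega) l ul z (a * d - b * c) hz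
    ((pa.mul pd).sub (pb.mul pc)) (by
      rw [← ((u2'.pow 2).mul uj).dvd_mul_left, th_sub, th_mul, th_mul]
      exact ⟨b * y3 + c * y2 - d * y1 - a * y4, by linear_combination b * o3 + c * o2 - d * o1 - a * o4⟩)
  rw [← hD] at he0
  obtain ⟨A1, A2, B1, B2, a1, a2, b1, b2, b0, ⟨x1, h1⟩, x2, h2⟩ := expl H (by omega) l ul hl
  obtain ⟨e1, e2, e3⟩ := Fi_eq hp0 l z hz
  obtain ⟨s, hs⟩ : ∃ s : O⟦X⟧, s = 6912 * (z * i) + 1152 * z * u := ⟨_, rfl⟩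
  obtain ⟨e, he⟩ : ∃ s : O⟦X⟧, s = 82944 * z ^ 2 - 960 * (z * i) := ⟨_, rfl⟩
  have ps : Pq p 2 s := hs ▸ ((Pq.num p 6912).mul (pz.mul pi)).add (((Pq.num p 1152).mul pz).mul pu)
  have pe : Pq p 2 e := he ▸ ((Pq.num p 82944).mul (pz.pow 2)).sub ((Pq.num p 960).mul (pz.mul pi))
  have pY : ∀ n, Pq p 2 (YY n p (X : O⟦X⟧)) := fun n => by
    convert TS_Pq p (fun m => (m : O) ^ n * cc m) using 1
    simp [TS, YY, tz]
  have pk : Pq p 3 (k1 p (X : O⟦X⟧)) := ((((Pq.num p 2).mul ((Pq.one p).sub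
    ((Pq.num p 864).mul px))).mul (pY 1)).sub (((Pq.num p 288).mul px).mul (pY 0))).mono (by omega)
  rw [← hz, ← hi] at h1 h2
  rw [← hu, ← hf, ← hg] at e2
  rw [← hi, ← hu, ← hg, ← hs, ← he] at e3
  rw [← hf] at e1
  rw [← hf, ← hg] at l1 l2
  rw [← hi, ← he]
  obtain ⟨w1, l1⟩ := l1
  obtain ⟨w2, l2⟩ := l2
  have gen : ∀ (Y C1 C2 m0 m1 m2 : O⟦X⟧), Pq p 3 Y → Pq p 5 C1 → Pq p 5 C2 → Pq p 290 m0 →
      Pq p 290 m1 → Pq p 290 m2 →
      (p : O⟦X⟧) ^ 3 ∣ D ^ 2 * (i ^ 2 * Y * Fi p hp0 l 0 + C1 * Fi p hp0 l 1 + C2 * Fi p hp0 l 2) -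
        i ^ 2 * (m0 * f' ^ 2 + m1 * (f' * g') + m2 * g' ^ 2) →
      (p : O⟦X⟧) ^ 3 ∣ D ^ 2 * Y - (m0 - 288 * z * m1 + e * m2) ∧
      (p : O⟦X⟧) ^ 3 ∣ D ^ 2 * C1 - i ^ 2 * (2 * u * m1 - s * m2) ∧
      (p : O⟦X⟧) ^ 3 ∣ D ^ 2 * C2 - i ^ 2 * (8 * u ^ 2 * m2) := by
    intro Y C1 C2 m0 m1 m2 q1 q2 q3 q4 q5 q6 hh
    have := U3th R (c := 294) (by omega) _ _ n0 hab l ul 3
      (i ^ 2 * (D ^ 2 * Y - (m0 - 288 * z * m1 + e * m2))) _ _
      (((pi.pow 2).mul (((pD.pow 2).mul q1).sub ((q4.sub (((Pq.num p 288).mul pz).mul q5)).add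
        (pe.mul q6)))).mono (by omega))
      ((((pD.pow 2).mul q2).sub ((pi.pow 2).mul ((((Pq.num p 2).mul pu).mul q5).sub
        (ps.mul q6)))).mono (by omega))
      ((((pD.pow 2).mul q3).sub ((pi.pow 2).mul (((Pq.num p 8).mul (pu.pow 2)).mul q6))).mono
        (by omega))
      (by rw [e1, e2, e3] at hh; convert hh using 1; ring)
    rwa [(ui.pow 2).dvd_mul_left] at this
  obtain ⟨⟨v0, g0⟩, ⟨v1, g1⟩, v2, g2⟩ := gen _ A1 A2 (a ^ 2) (2 * (a * b)) (b ^ 2)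
    ((pY 0).mono (by omega)) a1 a2 (pa.pow 2) ((Pq.num p 2).mul (pa.mul pb)) (pb.pow 2)
    ⟨i ^ 2 * p ^ 4 * w1 * (D * ff O + a * f' + b * g') - D ^ 2 * x1, by
      linear_combination i ^ 2 * (D * ff O + a * f' + b * g') * l1 - D ^ 2 * h1⟩
  obtain ⟨⟨v3, g3⟩, ⟨v4, g4⟩, -⟩ := gen _ B1 B2 (a * c) (a * d + b * c) (b * d) pk b1 b2
    (pa.mul pc) ((pa.mul pd).add (pb.mul pc)) (pb.mul pd)
    ⟨i ^ 2 * p ^ 4 * (w1 * (D * gg O) + (a * f' + b * g') * w2) - D ^ 2 * x2, by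
      linear_combination i ^ 2 * (D * gg O) * l1 + i ^ 2 * (a * f' + b * g') * l2 - D ^ 2 * h2⟩
  refine ⟨⟨v0, by linear_combination g0⟩, ⟨v3, by linear_combination g3⟩, ?_⟩
  obtain ⟨α, hα⟩ : ∃ α, α = 64 * u ^ 4 := ⟨_, rfl⟩
  obtain ⟨β, hβ⟩ : ∃ β, β = 8 * u ^ 2 * (1152 * z * u - s) := ⟨_, rfl⟩
  obtain ⟨γ, hγ⟩ : ∃ γ, γ = 4 * u * (288 * z * s - 4 * e * u) + (1152 * z * u - s) * s := ⟨_, rfl⟩
  have mn : (p : O⟦X⟧) ^ 3 ∣ D * (D * (D * (D * (32 * u ^ 3 * (YY 0 p X * B1 - A1 * k1 p X) -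
      C e0 * (α * i ^ 2 * YY 0 p X + β * A1 + γ * A2))))) := by
    obtain ⟨P0, hP0⟩ : ∃ P, P = a ^ 2 - 288 * z * (2 * (a * b)) + e * b ^ 2 := ⟨_, rfl⟩
    obtain ⟨P1, hP1⟩ : ∃ P, P = i ^ 2 * (2 * u * (2 * (a * b)) - s * b ^ 2) := ⟨_, rfl⟩
    obtain ⟨P2, hP2⟩ : ∃ P, P = i ^ 2 * (8 * u ^ 2 * b ^ 2) := ⟨_, rfl⟩
    obtain ⟨R0, hR0⟩ : ∃ P, P = a * c - 288 * z * (a * d + b * c) + e * (b * d) := ⟨_, rfl⟩
    obtain ⟨R1, hR1⟩ : ∃ P, P = i ^ 2 * (2 * u * (a * d + b * c) - s * (b * d)) := ⟨_, rfl⟩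
    have key : 32 * u ^ 3 * (P0 * R1 - P1 * R0) =
        (a * d - b * c) * (α * i ^ 2 * P0 + β * P1 + γ * P2) := by
      rw [hP0, hP1, hP2, hR0, hR1, hα, hβ, hγ]; ring
    rw [← hP0] at g0
    rw [← hP1] at g1
    rw [← hP2] at g2
    rw [← hR0] at g3
    rw [← hR1] at g4
    refine ⟨32 * u ^ 3 * (v0 * (D ^ 2 * B1) + P0 * v4 - v1 * (D ^ 2 * k1 p X) - P1 * v3) -
      C e0 * D ^ 2 * (α * i ^ 2 * v0 + β * v1 + γ * v2) + w0 * (α * i ^ 2 * P0 + β * P1 + γ * P2),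
      ?_⟩
    linear_combination 32 * u ^ 3 * (D ^ 2 * B1 * g0 + P0 * g4 - D ^ 2 * k1 p X * g1 - P1 * g3) -
      C e0 * D ^ 2 * (α * i ^ 2 * g0 + β * g1 + γ * g2) +
      (α * i ^ 2 * P0 + β * P1 + γ * P2) * he0 + key
  have m0 := (pow_dvd_iff p 3 _).1 (cD _ _ (cD _ _ (cD _ _ (cD _ _ mn)))) 0
  have z0 : constantCoeff z = 0 := by simp [hz, hp0]
  have y0 : ∀ n, constantCoeff (YY n p (X : O⟦X⟧)) = (0 : O) ^ n := fun n => by
    rw [map_YY, YY, hp, Finset.sum_range_succ']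
    simp [show cc 0 = 1 from rfl]
  simp only [coeff_zero_eq_constantCoeff, map_sub, map_add, map_mul, map_pow, map_ofNat, map_one,
    hα, hβ, hγ, hs, he, hu, hi, k1, z0, y0, b0, constantCoeff_C, constantCoeff_X] at m0
  have m1 : (p : O) ^ 3 ∣ e0 - p := by
    rw [← (u2.pow 6).dvd_mul_left, ← dvd_neg]
    convert m0 using 1
    push_cast; ring
  obtain ⟨v, hv⟩ := map_dvd (C (R := O)) m1
  simp only [map_sub, map_pow, map_natCast] at hv
  exact ⟨w0 + v * D ^ 2, by linear_combination he0 + D ^ 2 * hv⟩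

theorem family [IsDomain O] [CharZero O] {p h : ℕ} {π : O →+* k} (R : Res p π)
    (hp : p = 2 * h + 1) (hb : 1800 < p) (z z' : O) (hz : IsUnit z) (hf : (p : O) ∣ z ^ p - z') :
    ∃ a b c d : O, Row p h 6 1 (Qz z) (Qz z') (Dl z') a b ∧
      Row p h 6 Polynomial.X (Qz z) (Qz z') (Dl z') c d ∧
      (p : O) ^ 3 ∣ (Dl z' ^ 6) ^ 2 * YY 0 p z - (a ^ 2 + 2 * (-288 * z') * (a * b) +
        (82944 * z' ^ 2 - 960 * (z' * (1 - 432 * z'))) * b ^ 2) ∧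
      (p : O) ^ 3 ∣ (Dl z' ^ 6) ^ 2 * k1 p z - (a * c + (-288 * z') * (a * d + b * c) +
        (82944 * z' ^ 2 - 960 * (z' * (1 - 432 * z'))) * (b * d)) ∧
      (p : O) ^ 3 ∣ a * d - b * c - p * (Dl z' ^ 6) ^ 2 := by
  obtain ⟨v, hv⟩ := (hz.pow p).exists_right_inv
  have hl : (p : O) ∣ z' * v - 1 := by
    obtain ⟨y, hy⟩ := hf
    exact ⟨-y * v, by linear_combination hv - v * hy⟩
  obtain ⟨w, hw⟩ : ∃ w, w = Polynomial.C (z' * v) * Polynomial.X ^ p := ⟨_, rfl⟩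
  have dw : w.natDegree ≤ p := hw ▸ Polynomial.natDegree_C_mul_X_pow_le _ _
  have fw : (p : Polynomial O) ∣ Polynomial.X ^ p - w := by
    obtain ⟨y, hy⟩ := map_dvd (Polynomial.C (R := O)) hl
    rw [map_sub, map_one, map_natCast] at hy
    exact ⟨-y * Polynomial.X ^ p, by rw [hw]; linear_combination -Polynomial.X ^ p * hy⟩
  obtain ⟨a, b, da, db, r1⟩ := row_family hp R.pring 6 w dw fw 1 (by simp) (Bd.C (by simp))
  obtain ⟨c, d, dc, dd, r2⟩ := row_family hp R.pring 6 w dw fw Polynomial.X (by simp) Bd.X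
  obtain ⟨φ, hφ⟩ : ∃ φ : Polynomial O →+* O⟦X⟧, φ = Polynomial.coeToPowerSeries.ringHom := ⟨_, rfl⟩
  have e0 : ∀ P, φ P = P := fun P => by rw [hφ]; rfl
  have e1 : φ Polynomial.X = X := by rw [e0, Polynomial.coe_X]
  have s1 := r1.map φ hp
  have s2 := r2.map φ hp
  simp only [Qz_map, map_Dl, e1, Polynomial.map_one, Polynomial.map_X] at s1 s2
  obtain ⟨f1, f2, f3⟩ := family_series R hp hb _ hl (φ w) (by rw [hw, e0]; simp) a c _ _ _ _
    (e0 a) (e0 c) (e0 a ▸ Pq.coe da) (e0 b ▸ Pq.coe db) (e0 c ▸ Pq.coe dc) (e0 d ▸ Pq.coe dd) s1 s2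
  obtain ⟨ψ, hψ⟩ : ∃ ψ : Polynomial O →+* O, ψ = Polynomial.evalRingHom z := ⟨_, rfl⟩
  have e2 : ψ Polynomial.X = z := by simp [hψ]
  have e3 : ψ w = z' := by
    simp only [hψ, hw, Polynomial.coe_evalRingHom, Polynomial.eval_mul, Polynomial.eval_C,
      Polynomial.eval_pow, Polynomial.eval_X]
    linear_combination z' * hv
  have t1 := r1.map ψ hp
  have t2 := r2.map ψ hp
  simp only [Qz_map, map_Dl, e2, e3, Polynomial.map_one, Polynomial.map_X] at t1 t2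
  have tr : ∀ x, (p : O⟦X⟧) ^ 3 ∣ φ x → (p : O) ^ 3 ∣ ψ x := fun x hx => by
    rw [pow_dvd_iff] at hx
    have : Polynomial.C ((p : O) ^ 3) ∣ x := by
      rw [Polynomial.C_dvd_iff_dvd_coeff]
      intro i
      simpa [e0] using hx i
    simpa [hψ] using map_dvd ψ this
  rw [← e1, ← map_YY, ← map_Dl] at f1
  rw [← e1, ← map_k1, ← map_Dl] at f2
  rw [← map_Dl] at f3
  refine ⟨_, _, _, _, t1, t2, ?_, ?_, ?_⟩
  · have := tr ((Dl w ^ 6) ^ 2 * YY 0 p Polynomial.X - (a ^ 2 + 2 * (-288 * w) * (a * b) +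
      (82944 * w ^ 2 - 960 * (w * (1 - 432 * w))) * b ^ 2))
      (by simpa only [map_sub, map_add, map_mul, map_pow, map_neg, map_ofNat, map_one] using f1)
    simpa only [map_sub, map_add, map_mul, map_pow, map_neg, map_ofNat, map_one, map_YY, map_Dl,
      e2, e3] using this
  · have := tr ((Dl w ^ 6) ^ 2 * k1 p Polynomial.X - (a * c + (-288 * w) * (a * d + b * c) +
      (82944 * w ^ 2 - 960 * (w * (1 - 432 * w))) * (b * d)))
      (by simpa only [map_sub, map_add, map_mul, map_pow, map_neg, map_ofNat, map_one] using f2)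
    simpa only [map_sub, map_add, map_mul, map_pow, map_neg, map_ofNat, map_one, map_k1, map_Dl,
      e2, e3] using this
  · have := tr (a * d - b * c - p * (Dl w ^ 6) ^ 2)
      (by simpa only [map_sub, map_mul, map_pow, map_natCast] using f3)
    simpa only [map_sub, map_mul, map_pow, map_natCast, map_Dl, e3] using this

end Pool.Agent.Lib.MP_db9bd2_nt.Sup
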