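import Pool.Agent.Lib.MP_db9bd2_nt.Main

/-! Exact forms with poles of bounded order. -/

namespace Pool.Agent.Lib.MP_db9bd2_nt.Sup

open Polynomial

lemma hm_top {R : Type} [CommRing R] (Q B : R[X]) (hQ : Q.Monic) (hd : Q.natDegree = 3) :
    (X * (2 * (derivative B * Q) + B * derivative Q)).coeff (B.natDegree + 3) =
      (2 * ((B.natDegree + 1 : ℕ) : R) + 1) * B.coeff B.natDegree := by
  have hx : ∀ (P : R[X]) (i : ℕ), (X * derivative P).coeff i = i * P.coeff i := by
    intro P i
    rcases i with _ | i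
    · simp
    · rw [coeff_X_mul, coeff_derivative]; push_cast; ring
  have hn : ∀ P : R[X], (X * derivative P).natDegree ≤ P.natDegree := by
    intro P
    rw [natDegree_le_iff_coeff_eq_zero]
    intro i hi
    rw [hx, coeff_eq_zero_of_natDegree_lt hi, mul_zero]
  have h3 : Q.coeff 3 = 1 := by rw [← hd]; exact hQ.coeff_natDegree
  have e : X * (2 * (derivative B * Q) + B * derivative Q) =
      X * derivative B * Q + X * derivative B * Q + B * (X * derivative Q) := by ring
  rw [e, coeff_add, coeff_add, coeff_mul_add_eq_of_natDegree_le (hn B) hd.le,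
    coeff_mul_add_eq_of_natDegree_le le_rfl ((hn Q).trans hd.le), hx, hx, h3]
  push_cast
  ring

theorem inj {R : Type} [CommRing R] (Q U V : R[X]) (Δ : R) (hΔ : IsUnit Δ) (hQ : Q.Monic)
    (hd : Q.natDegree = 3) (hb : C Δ = U * Q + V * derivative Q) (n d : ℕ)
    (hn : (2 * n + 1 : R) = 0) (hu : ∀ j : ℕ, j ≤ d → IsUnit (2 * j + 1 : R))
    (k : ℕ) (hk : k ≤ n) (hkd : k ≤ d) (B : R[X]) (hB : B.natDegree + 1 ≤ d) (a b : R)
    (h2 : IsUnit (2 : R))
    (h : (C a + C b * X) * Q ^ n = derivative (B * Q ^ (n + 1 - k))) : a = 0 ∧ b = 0 := by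
  have hc : ∀ (m : ℕ) (u v : R[X]), Q ^ m * u = Q ^ m * v → u = v := fun m u v huv =>
    (hQ.pow m).isRegular.left huv
  have hn' : (2 * n + 1 : R[X]) = 0 := by simpa [map_ofNat] using congrArg (C : R → R[X]) hn
  induction k generalizing B with
  | zero =>
    rw [Nat.sub_zero, derivative_mul, derivative_pow_succ, map_add, map_natCast, map_one] at h
    have h1 : C a + C b * X = derivative B * Q + (n + 1 : R[X]) * (B * derivative Q) :=
      hc n _ _ (by linear_combination h)
    have h3 : X * (2 * (derivative B * Q) + B * derivative Q) =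
        C (2 * a) * X + C (2 * b) * X ^ 2 := by
      simp only [map_mul, map_ofNat]
      linear_combination (-2 * X) * h1 - X * B * derivative Q * hn'
    have h4 := hm_top Q B hQ hd
    rw [h3, coeff_add, coeff_C_mul, coeff_C_mul, coeff_X_of_ne_one (by omega), coeff_X_pow,
      if_neg (by omega), mul_zero, mul_zero, add_zero] at h4
    have h5 : B = 0 := leadingCoeff_eq_zero.1 ((hu _ hB).mul_right_eq_zero.1 h4.symm)
    rw [h5] at h1
    exact ⟨by simpa using congrArg (coeff · 0) h1, by simpa using congrArg (coeff · 1) h1⟩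
  | succ k ih =>
    obtain ⟨m, rfl⟩ : ∃ m, n = k + 1 + m := ⟨n - (k + 1), by omega⟩
    have h0 := h
    rw [show k + 1 + m + 1 - (k + 1) = m + 1 by omega] at h h0
    rw [derivative_mul, derivative_pow_succ, map_add, map_natCast, map_one] at h
    have h1 : (C a + C b * X) * Q ^ (k + 1) =
        derivative B * Q + (m + 1 : R[X]) * (B * derivative Q) :=
      hc m _ _ (by linear_combination h)
    obtain ⟨i, hi⟩ := (hu k (by omega)).exists_left_inv
    obtain ⟨j, hj⟩ := hΔ.exists_left_inv
    have hi' : C i * (2 * k + 1 : R[X]) = 1 := by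
      simpa [map_ofNat] using congrArg (C : R → R[X]) hi
    have hj' : C j * C Δ = 1 := by rw [← C_mul, hj, C_1]
    push_cast at hn'
    obtain ⟨B1, rfl⟩ : Q ∣ B := ⟨C j * (U * B +
        V * C i * 2 * (derivative B - (C a + C b * X) * Q ^ k)), by
      linear_combination (-B) * hj' + C j * B * hb - C j * V * B * derivative Q * hi' +
        C j * V * C i * B * derivative Q * hn' + 2 * C j * V * C i * h1⟩
    refine ih (by omega) (by omega) B1 ?_ ?_
    · by_cases h2 : B1 = 0
      · rw [h2, mul_zero] at hB; rwa [h2]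
      · have := hQ.natDegree_mul' h2
        omega
    · rw [h0, show k + 1 + m + 1 - k = m + 1 + 1 by omega]
      congr 1
      ring

lemma hm_taylor {R : Type} [CommRing R] (Y ε : R[X]) (M : ℕ) (w : R[X]) :
    ∃ E, w.comp (Y + ε) =
      ∑ j ∈ Finset.range M, ε ^ j * (hasseDeriv j w).comp Y + ε ^ M * E := by
  induction w using Polynomial.induction_on' with
  | add u v hu hv =>
    obtain ⟨E1, h1⟩ := hu
    obtain ⟨E2, h2⟩ := hv
    refine ⟨E1 + E2, ?_⟩
    simp only [add_comp, map_add, mul_add, Finset.sum_add_distrib]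
    linear_combination h1 + h2
  | monomial n a =>
    obtain ⟨E, hE⟩ := trunc_binom Y ε n M
    refine ⟨C a * E, ?_⟩
    rw [monomial_comp, add_comm, hE, mul_add, Finset.mul_sum]
    refine congrArg₂ (· + ·) (Finset.sum_congr rfl fun r _ => ?_) (by ring)
    rw [hasseDeriv_monomial, monomial_comp, map_mul, map_natCast]
    ring

lemma hm_deriv {R : Type} [CommRing R] (w : R[X]) (j : ℕ) :
    derivative (hasseDeriv j w) = C (j + 1 : R) * hasseDeriv (j + 1) w := by
  ext i
  rw [coeff_derivative, coeff_C_mul, hasseDeriv_coeff, hasseDeriv_coeff,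
    show i + (j + 1) = i + 1 + j by ring]
  have h := congrArg (Nat.cast : ℕ → R) (Nat.choose_succ_right_eq (i + 1 + j) j)
  rw [Nat.add_sub_cancel] at h
  push_cast at h
  linear_combination (-coeff w (i + 1 + j)) * h

lemma hm_pole {R : Type} [CommRing R] (Q : R[X]) (hQ : Q.natDegree ≤ 3) (n : ℕ) (u : ℕ → R)
    (j : ℕ) (hj : j ≤ n) (hu : ∀ i < j, u i * (i + 1 : R) = 1) :
    ∃ V : R[X], V.natDegree ≤ 3 * j ∧ hasseDeriv j (Q ^ n) = V * Q ^ (n - j) := by
  induction j with
  | zero => exact ⟨1, by simp, by simp⟩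
  | succ j ih =>
    obtain ⟨V, h1, h2⟩ := ih (by omega) fun i hi => hu i (by omega)
    obtain ⟨m, rfl⟩ : ∃ m, n = j + 1 + m := ⟨n - (j + 1), by omega⟩
    have h3 := hm_deriv (Q ^ (j + 1 + m)) j
    rw [h2, show j + 1 + m - j = m + 1 by omega, derivative_mul, derivative_pow_succ] at h3
    have h4 : C (u j) * C (j + 1 : R) = 1 := by rw [← C_mul, hu j (by omega), C_1]
    refine ⟨C (u j) * (derivative V * Q + C (m + 1 : R) * (V * derivative Q)), ?_, ?_⟩
    · have := natDegree_mul_le (p := derivative V) (q := Q)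
      have := natDegree_mul_le (p := V) (q := derivative Q)
      have := natDegree_derivative_le V
      have := natDegree_derivative_le Q
      refine (natDegree_C_mul_le _ _).trans ((natDegree_add_le _ _).trans (max_le (by omega) ?_))
      exact (natDegree_C_mul_le _ _).trans (by omega)
    · rw [Nat.add_sub_cancel_left]
      linear_combination (-C (u j)) * h3 - hasseDeriv (j + 1) (Q ^ (j + 1 + m)) * h4

/-- The Cartier operator as a linear map. -/
noncomputable def hm_Ca {R : Type} [CommRing R] {p h : ℕ} (hp : p = 2 * h + 1) :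
    R[X] →ₗ[R] R[X] where
  toFun := Ca p
  map_add' u v := by ext i; simp only [coeff_Ca hp, coeff_add]
  map_smul' c v := by ext i; simp only [coeff_Ca hp, coeff_smul, RingHom.id_apply]

lemma hm_term {R : Type} [CommRing R] {p h : ℕ} (hp : p = 2 * h + 1) (δ : R[X]) (j : ℕ) (u : R)
    (hu : u * (j + 1 : R) = 1) :
    Ca p (δ ^ j * (X ^ (2 * h) + derivative δ)) =
      contract p (δ ^ j) + C (p * u : R) * derivative (contract p (δ ^ (j + 1))) := by
  have hp0 : p ≠ 0 := by omega
  ext i
  have h1 := congrArg (coeff · (p * i + 2 * h)) (derivative_pow_succ δ j)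
  simp only [mul_assoc, coeff_C_mul, coeff_derivative] at h1
  rw [show p * i + 2 * h + 1 = (i + 1) * p by rw [hp]; ring] at h1
  have h2 : (p : R) = 2 * h + 1 := by rw [hp]; push_cast; rfl
  rw [coeff_Ca hp, mul_add, coeff_add, coeff_add, coeff_mul_X_pow, coeff_C_mul, coeff_derivative,
    coeff_contract hp0, coeff_contract hp0, mul_comm i p]
  push_cast at h1
  linear_combination (-u) * h1 - (δ ^ j * derivative δ).coeff (p * i + 2 * h) * hu -
    u * (δ ^ (j + 1)).coeff ((i + 1) * p) * h2

theorem ca_homotopy {O : Type} [CommRing O] {p h : ℕ} (hp : p = 2 * h + 1) (H : PRing p O)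
    (M : ℕ) (hM : M < p) (Q δ : O[X]) (hQ : Q.natDegree ≤ 3) (e : ℕ) (hδ : δ.natDegree ≤ e * p)
    (n : ℕ) (hn : M ≤ n) :
    ∃ B E : O[X], B.natDegree ≤ (e + 3) * M ∧
      Ca p ((Q ^ n).comp (X ^ p + (p : O[X]) * δ) * derivative (X ^ p + (p : O[X]) * δ)) =
        (p : O[X]) * Q ^ n + (p : O[X]) * derivative (B * Q ^ (n + 1 - M)) +
          (p : O[X]) ^ (M + 1) * E := by
  have hp0 : p ≠ 0 := by omega
  have hu0 : ∀ i : ℕ, ∃ v : O, i < M → v * (i + 1 : O) = 1 := by
    intro i
    by_cases hi : i < M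
    · obtain ⟨v, hv⟩ := (H.unit (i + 1) fun hd => by
        have := Nat.le_of_dvd (by omega) hd; omega).exists_left_inv
      exact ⟨v, fun _ => by exact_mod_cast hv⟩
    · exact ⟨0, fun h => absurd h hi⟩
  choose u hu using hu0
  have hV0 : ∀ j : ℕ, ∃ V : O[X], j < M → V.natDegree ≤ 3 * j ∧
      hasseDeriv j (Q ^ n) = V * Q ^ (n - j) := by
    intro j
    by_cases hj : j < M
    · obtain ⟨V, hV⟩ := hm_pole Q hQ n u j (by omega) fun i hi => hu i (by omega)
      exact ⟨V, fun _ => hV⟩
    · exact ⟨0, fun h => absurd h hj⟩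
  choose V hV using hV0
  obtain ⟨E, hE⟩ := hm_taylor (X ^ p) ((p : O[X]) * δ) M (Q ^ n)
  have hF : derivative (X ^ p + (p : O[X]) * δ) =
      (p : O[X]) * (X ^ (2 * h) + derivative δ) := by
    rw [derivative_add, derivative_X_pow, ← C_eq_natCast, derivative_C_mul,
      show p - 1 = 2 * h by omega, mul_add]
  have hκ : ∀ j, (contract p (δ ^ j)).natDegree ≤ e * j := by
    intro j
    rw [natDegree_le_iff_coeff_eq_zero]
    intro i hi
    rw [coeff_contract hp0]
    apply coeff_eq_zero_of_natDegree_lt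
    have h1 : (δ ^ j).natDegree ≤ j * (e * p) := natDegree_pow_le.trans (Nat.mul_le_mul_left _ hδ)
    have h2 : (e * j + 1) * p ≤ i * p := Nat.mul_le_mul_right _ hi
    nlinarith [Nat.pos_of_ne_zero hp0]
  refine ⟨∑ j ∈ Finset.range M, C ((p : O) ^ (j + 1) * u j) *
      (contract p (δ ^ (j + 1)) * V j * Q ^ (M - 1 - j)),
    Ca p (δ ^ M * E * (X ^ (2 * h) + derivative δ)) - contract p (δ ^ M) * hasseDeriv M (Q ^ n),
    ?_, ?_⟩
  · refine natDegree_sum_le_of_forall_le _ _ fun j hj => (natDegree_C_mul_le _ _).trans ?_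
    have hj' := Finset.mem_range.1 hj
    obtain ⟨m, rfl⟩ : ∃ m, M = j + 1 + m := ⟨M - (j + 1), by omega⟩
    have h1 := natDegree_mul_le (p := contract p (δ ^ (j + 1)) * V j) (q := Q ^ (j + 1 + m - 1 - j))
    have h2 := natDegree_mul_le (p := contract p (δ ^ (j + 1))) (q := V j)
    have h3 : (Q ^ (j + 1 + m - 1 - j)).natDegree ≤ m * 3 := by
      rw [show j + 1 + m - 1 - j = m by omega]
      exact natDegree_pow_le.trans (Nat.mul_le_mul_left _ hQ)
    have h4 := hκ (j + 1)
    have h5 := (hV j hj').1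
    nlinarith [Nat.zero_le (e * m)]
  · have e1 : (Q ^ n).comp (X ^ p + (p : O[X]) * δ) * derivative (X ^ p + (p : O[X]) * δ) =
        ∑ j ∈ Finset.range M, ((p : O) ^ (j + 1)) • (δ ^ j * (X ^ (2 * h) + derivative δ) *
          expand O p (hasseDeriv j (Q ^ n))) +
        ((p : O) ^ (M + 1)) • (δ ^ M * E * (X ^ (2 * h) + derivative δ)) := by
      rw [hE, hF, add_mul, Finset.sum_mul]
      simp only [smul_eq_C_mul, map_pow, map_natCast, expand_eq_comp_X_pow]
      exact congrArg₂ (· + ·) (Finset.sum_congr rfl fun r _ => by ring) (by ring)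
    have e2 := congrArg (hm_Ca (R := O) hp) e1
    rw [map_add (hm_Ca hp), map_sum] at e2
    simp only [map_smul] at e2
    simp only [hm_Ca, LinearMap.coe_mk, AddHom.coe_mk, Ca_mul_expand hp0] at e2
    have e3 : ∑ j ∈ Finset.range M, ((p : O) ^ (j + 1)) • (Ca p (δ ^ j * (X ^ (2 * h) +
          derivative δ)) * hasseDeriv j (Q ^ n)) - (p : O[X]) * derivative ((∑ j ∈ Finset.range M,
          C ((p : O) ^ (j + 1) * u j) * (contract p (δ ^ (j + 1)) * V j * Q ^ (M - 1 - j))) *
          Q ^ (n + 1 - M)) = ∑ j ∈ Finset.range M,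
          ((p : O[X]) ^ (j + 1) * (contract p (δ ^ j) * hasseDeriv j (Q ^ n)) -
          (p : O[X]) ^ (j + 1 + 1) * (contract p (δ ^ (j + 1)) * hasseDeriv (j + 1) (Q ^ n))) := by
      rw [Finset.sum_mul, derivative_sum, Finset.mul_sum, ← Finset.sum_sub_distrib]
      refine Finset.sum_congr rfl fun j hj => ?_
      have hj' := Finset.mem_range.1 hj
      have h1 : contract p (δ ^ (j + 1)) * V j * Q ^ (M - 1 - j) * Q ^ (n + 1 - M) =
          contract p (δ ^ (j + 1)) * hasseDeriv j (Q ^ n) := by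
        rw [(hV j hj').2, show n - j = M - 1 - j + (n + 1 - M) by omega]
        ring
      have h2 : C (u j) * C (j + 1 : O) = 1 := by rw [← C_mul, hu j hj', C_1]
      rw [mul_assoc (C _), h1, derivative_C_mul, derivative_mul, hm_deriv,
        hm_term hp δ j (u j) (hu j hj'), smul_eq_C_mul]
      simp only [map_mul, map_pow, map_natCast]
      linear_combination (-(p : O[X]) ^ (j + 2)) * contract p (δ ^ (j + 1)) *
        hasseDeriv (j + 1) (Q ^ n) * h2
    rw [Finset.sum_range_sub' fun j =>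
      (p : O[X]) ^ (j + 1) * (contract p (δ ^ j) * hasseDeriv j (Q ^ n)), pow_zero, ← C_1,
      contract_C, C_1, hasseDeriv_zero'] at e3
    rw [e2, smul_eq_C_mul ((p : O) ^ (M + 1)), map_pow, map_natCast]
    linear_combination e3

end Pool.Agent.Lib.MP_db9bd2_nt.Sup
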