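import Pool.Agent.Lib.MP_db9bd2_nt.SupFam
import Pool.Agent.Lib.MP_db9bd2_nt.SupHom

/-! The Cartier matrix of the fibre with complex multiplication. -/

namespace Pool.Agent.Lib.MP_db9bd2_nt.Sup

open Finset Polynomial
open scoped PowerSeries

variable {O k : Type} [CommRing O] [Field k]

/-- The derivative of power series. -/
noncomputable def dS (O : Type) [CommRing O] : Derivation O O⟦X⟧ O⟦X⟧ := PowerSeries.derivative O

/-- `w` is a derivative modulo `m`. -/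
def ExS (m w : O⟦X⟧) : Prop := ∃ b h, w = dS O b + m * h

lemma ExS.add {m v w : O⟦X⟧} (h1 : ExS m v) (h2 : ExS m w) : ExS m (v + w) := by
  obtain ⟨b, h, rfl⟩ := h1
  obtain ⟨b', h', rfl⟩ := h2
  exact ⟨b + b', h + h', by rw [map_add]; ring⟩

lemma ExS.smul {m w : O⟦X⟧} (c : O) (h : ExS m w) : ExS m (algebraMap O _ c * w) := by
  obtain ⟨b, h, rfl⟩ := h
  exact ⟨c • b, algebraMap O _ c * h, by rw [Derivation.map_smul, Algebra.smul_def]; ring⟩

lemma ExS.mul_pow {m w : O⟦X⟧} {q : ℕ} (hq : m ∣ q) (J : O⟦X⟧) (h : ExS m w) :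
    ExS m (w * J ^ q) := by
  obtain ⟨b, h, rfl⟩ := h
  obtain ⟨c, hc⟩ := hq
  refine ⟨b * J ^ q, h * J ^ q - c * b * J ^ (q - 1) * dS O J, ?_⟩
  rw [Derivation.leibniz, Derivation.leibniz_pow]
  simp only [smul_eq_mul, nsmul_eq_mul, hc]
  ring

lemma ex_pull {m : O} {W : O[X]} (h : Ex m W) (ρ : O⟦X⟧) :
    ExS (algebraMap O _ m) (aeval ρ W * dS O ρ) := by
  obtain ⟨B, H, rfl⟩ := h
  refine ⟨aeval ρ B, aeval ρ H * dS O ρ, ?_⟩
  rw [Derivation.map_aeval, map_add, map_mul, aeval_C, smul_eq_mul]; ring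

lemma ex_back {m T : O} {W : O[X]}
    (h : ExS (algebraMap O _ m) (aeval (algebraMap O O⟦X⟧ T + PowerSeries.X) W)) : Ex m W := by
  have e : aeval (algebraMap O O⟦X⟧ T + PowerSeries.X) W =
      ((W.comp (C (1 : O) * X + C T) : O[X]) : O⟦X⟧) := by
    clear h
    induction W using Polynomial.induction_on' with
    | add P Q h1 h2 => rw [map_add, add_comp, Polynomial.coe_add, h1, h2]
    | monomial n a => simp [aeval_monomial, monomial_comp, add_comm]
  obtain ⟨b, h, hb⟩ := h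
  have h1 : Ex m (W.comp (C 1 * X + C T)) := by
    apply Ex.of_coeff
    intro i
    refine ⟨PowerSeries.coeff (i + 1) b, PowerSeries.coeff i h, ?_⟩
    rw [← Polynomial.coeff_coe, ← e, hb, map_add, dS, PowerSeries.coeff_derivative,
      ← PowerSeries.C_eq_algebraMap, PowerSeries.coeff_C_mul, mul_comm]
  have h2 := h1.comp 1 1 (-T) (one_mul 1)
  rwa [comp_assoc, show (C (1 : O) * X + C T : O[X]).comp (C (1 : O) * X + C (-T)) = X by simp, comp_X] at h2

lemma homotopy [IsDomain O] {p : ℕ} (H : PRing p O) {x y : O⟦X⟧} (h : (p : O⟦X⟧) ∣ x - y)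
    (W : O[X]) : ∃ b, aeval x W * dS O x - aeval y W * dS O y = dS O b := by
  induction W using Polynomial.induction_on' with
  | add P Q h1 h2 =>
    obtain ⟨b, hb⟩ := h1
    obtain ⟨c, hc⟩ := h2
    exact ⟨b + c, by simp only [map_add]; linear_combination hb + hc⟩
  | monomial n a =>
    obtain ⟨e, u, hu, he⟩ := Nat.exists_eq_pow_mul_and_not_dvd (Nat.succ_ne_zero n) p H.prime.ne_one
    obtain ⟨v, hv⟩ := (H.unit u hu).exists_right_inv
    obtain ⟨w, hw⟩ : (p : O⟦X⟧) ^ e ∣ x ^ (n + 1) - y ^ (n + 1) := by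
      rw [show n + 1 = p ^ e * u from he, pow_mul', pow_mul']
      exact (pow_dvd_pow _ (Nat.le_succ e)).trans
        (dvd_sub_pow_of_dvd_sub (h.trans (sub_dvd_pow_sub_pow x y u)) e)
    have h1 := congrArg (dS O) hw
    have hp : (p : O⟦X⟧) ^ e ≠ 0 := pow_ne_zero _ (by
      rw [← map_natCast PowerSeries.C]; exact (map_ne_zero_iff _ PowerSeries.C_injective).2 H.ne)
    rw [map_sub, Derivation.leibniz_pow, Derivation.leibniz_pow, Derivation.leibniz, ← Nat.cast_pow,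
      Derivation.map_natCast] at h1
    simp only [smul_eq_mul, nsmul_eq_mul, Nat.add_sub_cancel] at h1
    simp only [show n + 1 = p ^ e * u from he, Nat.cast_mul, Nat.cast_pow] at h1
    have hv' := congrArg (algebraMap O O⟦X⟧) hv
    rw [map_mul, map_natCast, map_one] at hv'
    refine ⟨(a * v) • w, mul_left_cancel₀ hp ?_⟩
    rw [aeval_monomial, aeval_monomial, Derivation.map_smul, Algebra.smul_def, map_mul]
    linear_combination algebraMap O O⟦X⟧ a * algebraMap O O⟦X⟧ v * h1 -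
      (p : O⟦X⟧) ^ e * algebraMap O O⟦X⟧ a * (x ^ n * dS O x - y ^ n * dS O y) * hv'

lemma Row.ex {p h M s n : ℕ} (hp : p = 2 * h + 1) (H : PRing p O) {A Q Q1 : O[X]} {Δ k1 k2 : O}
    (r : Row p h M A Q Q1 Δ k1 k2) (hn : M ≤ n) (hs : s ≤ M) (hq : p ^ s ∣ 2 * n + 1) :
    Ex ((p : O) ^ (s + 1)) (C (Δ ^ M) * (A * Q ^ (p * n + h)) -
      X ^ (2 * h) * expand O p ((C k1 + C k2 * X) * Q1 ^ n)) := by
  apply Ex.of_coeff
  intro i
  by_cases hd : p ∣ i + 1
  · obtain ⟨j, hj⟩ := hd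
    rcases j with _ | j
    · omega
    obtain rfl : i = p * j + 2 * h := by rw [mul_add] at hj; omega
    obtain ⟨b, c, e, h1⟩ := r.coeff hp n j hn
    obtain ⟨t, rfl⟩ := Nat.exists_eq_add_of_le hs
    obtain ⟨m, hm⟩ := hq
    have h2 := congrArg (Nat.cast : ℕ → O) hm
    have h3 := congrArg (Nat.cast : ℕ → O) hj
    push_cast at h2 h3 ⊢
    refine ⟨b, m * c + p ^ t * e, ?_⟩
    rw [coeff_sub, coeff_C_mul, h1, coeff_X_pow_mul, coeff_expand_mul' H.prime.pos, add_mul (C k1),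
      coeff_add, mul_assoc (C k2), coeff_C_mul, coeff_C_mul]
    linear_combination (p : O) * c * h2 - b * h3
  · obtain ⟨v, hv⟩ := (H.unit _ hd).exists_right_inv
    push_cast at hv
    generalize Polynomial.coeff (R := O) _ i = y
    exact ⟨v * y, 0, by linear_combination -y * hv⟩

lemma ex_expand [IsDomain O] {p h s : ℕ} (hp : p = 2 * h + 1) (H : PRing p O) {W : O[X]}
    (hW : Ex ((p : O) ^ (s + 1)) (X ^ (2 * h) * expand O p W)) :
    C (p : O) ∣ W ∧ ∀ V, W = C (p : O) * V → Ex ((p : O) ^ s) V := by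
  have key : ∀ j, ∃ x y : O, W.coeff j = p * ((j + 1) * x + p ^ s * y) := fun j => by
    obtain ⟨x, y, hxy⟩ := hW.coeff (p * j + 2 * h)
    rw [coeff_X_pow_mul, coeff_expand_mul' H.prime.pos] at hxy
    have h3 := congrArg (Nat.cast : ℕ → O) hp
    push_cast at h3 hxy
    exact ⟨x, y, by linear_combination hxy - x * h3⟩
  refine ⟨(C_dvd_iff_dvd_coeff _ _).2 fun j => ?_, fun V hV => Ex.of_coeff fun j => ?_⟩
  · obtain ⟨x, y, e⟩ := key j
    exact ⟨_, e⟩
  · obtain ⟨x, y, e⟩ := key j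
    rw [hV, coeff_C_mul] at e
    exact ⟨x, y, mul_left_cancel₀ H.ne e⟩

/-- The action of an endomorphism on the forms `1` and `X - c` at the point `ρ`. -/
def Psi (Q : O[X]) (c μ ν : O) (ρ R J : O⟦X⟧) : Prop := ∀ n : ℕ,
  aeval R (Q ^ n) * dS O R = algebraMap O _ μ * aeval ρ (Q ^ n) * J ^ (2 * n + 1) * dS O ρ ∧
  ∃ b e, aeval R ((X - C c) * Q ^ n) * dS O R =
    algebraMap O _ ν * aeval ρ ((X - C c) * Q ^ n) * J ^ (2 * n + 1) * dS O ρ + dS O b +
      (2 * n + 1) * dS O ρ * e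

lemma psi_abs (Q : O[X]) (c μ ν κ : O) (ρ R J g g1 J1 : O⟦X⟧) (h1 : aeval R Q = aeval ρ Q * J ^ 2)
    (h2 : dS O R = algebraMap O _ μ * J * dS O ρ) (h3 : dS O g = g1 * dS O ρ)
    (h4 : dS O J = J1 * dS O ρ)
    (h5 : algebraMap O _ μ * (R - algebraMap O _ c) = algebraMap O _ ν * (ρ - algebraMap O _ c) -
      algebraMap O _ κ * (4 * aeval ρ Q * g1 + 2 * aeval ρ (derivative Q) * g)) :
    Psi Q c μ ν ρ R J := by
  intro n
  refine ⟨by rw [map_pow, map_pow, h1, h2]; ring, (-4 * κ) • (g * (aeval ρ Q ^ (n + 1) *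
    J ^ (2 * n + 1))), algebraMap O _ κ * (2 * g * aeval ρ (derivative Q) * aeval ρ Q ^ n *
      J ^ (2 * n + 1) + 4 * g * aeval ρ Q ^ (n + 1) * J ^ (2 * n) * J1), ?_⟩
  rw [Derivation.map_smul, Derivation.leibniz, Derivation.leibniz, Derivation.leibniz_pow,
    Derivation.leibniz_pow, Derivation.map_aeval, h3, h4, h2, Algebra.smul_def]
  simp only [map_mul, map_pow, map_sub, map_neg, map_ofNat, aeval_X, aeval_C, h1, smul_eq_mul,
    nsmul_eq_mul, Nat.add_sub_cancel, Nat.cast_add, Nat.cast_mul, Nat.cast_one, Nat.cast_ofNat]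
  linear_combination aeval ρ Q ^ n * J ^ (2 * n + 1) * dS O ρ * h5

lemma comm_abs [IsDomain O] {p h s n : ℕ} (hp : p = 2 * h + 1) (H : PRing p O)
    (hq : p ^ s ∣ 2 * n + 1) (G Q1 : O[X]) (Δ μ μ1 μ2 x0 x1 c T : O) (ξ R J Ji R' J' : O⟦X⟧)
    (hξ : ξ = algebraMap O _ T + PowerSeries.X) (hJ : J * Ji = 1) (fR : Fr p R R') (fJ : Fr p J J')
    (hG : Ex ((p : O) ^ (s + 1)) (C Δ * G -
      X ^ (2 * h) * expand O p (C x0 * Q1 ^ n + C x1 * ((X - C c) * Q1 ^ n))))
    (h1 : ExS ((p : O⟦X⟧) ^ (s + 1)) (aeval R G * dS O R -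
      algebraMap O _ μ * aeval ξ G * J ^ (p * (2 * n + 1))))
    (h2 : Psi Q1 c μ1 μ2 (ξ ^ p) R' J') :
    Ex ((p : O) ^ s) ((C ((μ - μ1) * x0) + C ((μ - μ2) * x1) * (X - C c)) * Q1 ^ n) := by
  have d1 : dS O ξ = 1 := by
    rw [hξ, map_add, Derivation.map_algebraMap, dS, PowerSeries.derivative_X, zero_add]
  have dp : ∀ y : O⟦X⟧, dS O (y ^ p) = p * y ^ (2 * h) * dS O y := fun y => by
    rw [Derivation.leibniz_pow, show p - 1 = 2 * h by omega, smul_eq_mul, nsmul_eq_mul, mul_assoc]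
  have a1 := ex_pull hG R
  have a2 := ex_pull hG ξ
  rw [map_pow, map_natCast] at a1 a2
  have hq' : (p : O⟦X⟧) ^ (s + 1) ∣ ((p * (2 * n + 1) : ℕ) : O⟦X⟧) := by
    rw [pow_succ', ← Nat.cast_pow, ← Nat.cast_mul]
    exact Nat.cast_dvd_cast (Nat.mul_dvd_mul_left p hq)
  obtain ⟨b, hb⟩ := homotopy H fR (C x0 * Q1 ^ n + C x1 * ((X - C c) * Q1 ^ n))
  obtain ⟨e1, b2, e, e2⟩ := h2 n
  obtain ⟨m, hm⟩ := hq
  obtain ⟨y, hy⟩ : (p : O⟦X⟧) ^ (s + 1) ∣ J ^ (p * (2 * n + 1)) - J' ^ (2 * n + 1) := by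
    rw [pow_mul, hm, pow_mul, pow_mul]
    exact (dvd_sub_pow_of_dvd_sub fJ s).trans (sub_dvd_pow_sub_pow _ _ m)
  have hm' := congrArg (Nat.cast : ℕ → O⟦X⟧) hm
  push_cast at hm'
  have a3 : ExS ((p : O⟦X⟧) ^ (s + 1)) (p * R ^ (2 * h) * dS O R *
      aeval (R ^ p) (C x0 * Q1 ^ n + C x1 * ((X - C c) * Q1 ^ n)) - p * ξ ^ (2 * h) *
      aeval (ξ ^ p) (C (μ1 * x0) * Q1 ^ n + C (μ2 * x1) * ((X - C c) * Q1 ^ n)) *
        J ^ (p * (2 * n + 1))) := by
    refine ⟨b + x1 • b2, algebraMap O _ x1 * m * ξ ^ (2 * h) * e - p * ξ ^ (2 * h) *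
      aeval (ξ ^ p) (C (μ1 * x0) * Q1 ^ n + C (μ2 * x1) * ((X - C c) * Q1 ^ n)) * y, ?_⟩
    rw [dp, d1] at e1 e2
    rw [dp] at hb
    rw [map_add (dS O), Derivation.map_smul, Algebra.smul_def]
    simp only [map_add, map_mul (aeval _) (C _), aeval_C, map_mul (algebraMap O O⟦X⟧)] at hb ⊢
    linear_combination hb + algebraMap O O⟦X⟧ x0 * e1 + algebraMap O O⟦X⟧ x1 * e2 +
      algebraMap O O⟦X⟧ x1 * p * ξ ^ (2 * h) * e * hm' - p * ξ ^ (2 * h) *
      (algebraMap O O⟦X⟧ μ1 * algebraMap O O⟦X⟧ x0 * aeval (ξ ^ p) (Q1 ^ n) +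
        algebraMap O O⟦X⟧ μ2 * algebraMap O O⟦X⟧ x1 * aeval (ξ ^ p) ((X - C c) * Q1 ^ n)) * hy
  have a4 := ((((a1.smul (p : O)).add a3).add (h1.smul (-(p * Δ)))).add
    ((a2.mul_pow hq' J).smul (-(p * μ)))).mul_pow hq' Ji
  have hJ' : J ^ (p * (2 * n + 1)) * Ji ^ (p * (2 * n + 1)) = 1 := by rw [← mul_pow, hJ, one_pow]
  refine (ex_expand hp H (W := C (p : O) * _) (ex_back (T := T) ?_)).2 _ rfl
  rw [map_pow, map_natCast, ← hξ]
  convert a4 using 1
  simp only [map_mul (aeval _) (X ^ _), map_sub (aeval _) (C Δ * G), expand_aeval]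
  simp only [map_add, map_sub, map_mul, map_neg, map_pow, aeval_C, aeval_X, map_natCast, d1]
  linear_combination (-(p * ξ ^ (2 * h) * aeval (ξ ^ p) Q1 ^ n *
    ((algebraMap O O⟦X⟧ μ - algebraMap O O⟦X⟧ μ1) * algebraMap O O⟦X⟧ x0 +
      (algebraMap O O⟦X⟧ μ - algebraMap O O⟦X⟧ μ2) * algebraMap O O⟦X⟧ x1 *
        (ξ ^ p - algebraMap O O⟦X⟧ c)))) * hJ'

lemma cm_ids {R : Type} [CommRing R] {α : R} (hα : α ^ 2 = α - 41) :
    toP α NL = (41 * X - C (237472 - 2896 * α)) * toP α DL ^ 2 -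
      2 * derivative (toP α QL) * derivative (toP α DL) * toP α DL + 4 * toP α QL *
        (derivative (toP α DL) ^ 2 - toP α DL * derivative (derivative (toP α DL))) ∧
    toP α EL = derivative (toP α NL) * toP α DL - 2 * toP α NL * derivative (toP α DL) ∧
    toP α QL * toP α EL ^ 2 = toP α NL ^ 3 - 34790720 * toP α NL * (C α * toP α DL) ^ 4 +
      78984748304 * (C α * toP α DL) ^ 6 := by
  have e1 := toP_leq α _ _ chk1
  have e2 := toP_leq α _ _ chk2
  have e3 := toP_leq α _ _ chk3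
  have e4 := toP_leq α _ _ chk4
  have e5 := toP_leq α _ _ chk5
  have e6 := toP_leq α _ _ chk6
  have e7 := toP_leq α _ _ chk7
  have e8 := toP_leq α _ _ chk8
  have e9 := toP_leq α _ _ chk9
  have e10 := toP_leq α _ _ chk10
  simp only [toP_ladd, toP_lsc hα, toP_lmul hα, toP_lder, toP_lneg] at e1 e2 e3 e4 e5 e6 e7 e8 e9 e10
  rw [e1] at e2
  rw [e1, e2] at e4
  rw [e1, e3] at e5
  rw [show ev α ⟨0, 41, 1, 0⟩ = α ^ 2 by rw [hα]; simp [ev]; ring, map_pow] at e6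
  rw [e9, e8, e7, e6] at e10
  simp only [toP, ev, Nat.cast_ofNat, Nat.cast_zero, zero_mul, sub_zero, zero_sub,
    add_zero, mul_zero, map_add, map_neg, map_ofNat, map_mul] at e4 e5 e10
  refine ⟨?_, by linear_combination e5, by linear_combination e10⟩
  simp only [map_sub, map_mul, map_ofNat]; linear_combination e4

lemma psi_z {α l li i3 z : O} (hα : α ^ 2 = α - 41) (hl : l * li = 1)
    (hQ : (toP α QL).comp (C l * X + C (l * i3)) = C l ^ 3 * Qz z) (x ρ i : O⟦X⟧)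
    (hρ : ρ = algebraMap O _ l * (x + algebraMap O _ i3))
    (hi : algebraMap O _ α * aeval ρ (toP α DL) * i = 1) :
    Psi (Qz z) (2896 * li - i3) α (1 - α) x
      (algebraMap O _ li * (aeval ρ (toP α NL) * i ^ 2) - algebraMap O _ i3)
      (aeval ρ (toP α EL) * i ^ 3) := by
  obtain ⟨e1, e2, e3⟩ := cm_ids hα
  have f1 := congrArg (aeval ρ) e1
  have f2 := congrArg (aeval ρ) e2
  have f3 := congrArg (aeval ρ) e3
  have hα' := congrArg (algebraMap O O⟦X⟧) hα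
  have hl' := congrArg (algebraMap O O⟦X⟧) hl
  have q1 : ∀ y : O⟦X⟧, aeval (algebraMap O O⟦X⟧ l * (y + algebraMap O O⟦X⟧ i3)) (toP α QL) =
      algebraMap O O⟦X⟧ l ^ 3 * aeval y (Qz z) := fun y => by
    have := congrArg (aeval y) hQ
    rw [aeval_comp] at this
    simp only [map_add, map_mul, map_pow, aeval_C, aeval_X] at this
    rw [mul_add, this]
  have q2 : aeval ρ (derivative (toP α QL)) * algebraMap O O⟦X⟧ l =
      algebraMap O O⟦X⟧ l ^ 3 * aeval x (derivative (Qz z)) := by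
    have := congrArg (fun W => aeval x (derivative W)) hQ
    simp only [derivative_comp, ← C_pow, derivative_C_mul, derivative_add, derivative_C,
      derivative_X, mul_one, add_zero] at this
    simp only [map_add, map_mul, map_pow, aeval_C, aeval_X, aeval_comp] at this
    rw [hρ, mul_add, ← this, mul_comm]
  have q3 := q1 x
  have q4 := q1 (algebraMap O _ li * (aeval ρ (toP α NL) * i ^ 2) - algebraMap O _ i3)
  rw [sub_add_cancel, ← mul_assoc, ← map_mul, hl, map_one, one_mul] at q4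
  conv_lhs at q4 => rw [toP_QL]
  rw [← hρ] at q3
  have dρ : dS O ρ = algebraMap O _ l * dS O x := by
    rw [hρ, ← Algebra.smul_def, Derivation.map_smul, map_add, Derivation.map_algebraMap, add_zero,
      Algebra.smul_def]
  have dP : ∀ P : O[X], dS O (aeval ρ P) = aeval ρ (derivative P) * dS O ρ := fun P => by
    rw [Derivation.map_aeval, smul_eq_mul]
  have di := congrArg (dS O) hi
  rw [Derivation.leibniz, ← Algebra.smul_def, Derivation.map_smul, dP, Derivation.map_one_eq_zero,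
    Algebra.smul_def α, Algebra.smul_def α, smul_eq_mul, smul_eq_mul] at di
  simp only [map_add, map_sub, map_mul, map_pow, map_neg, map_one, map_ofNat, aeval_C, aeval_X]
    at f1 f2 f3 hα' hl' q4
  have di' : dS O i = -(algebraMap O _ α * aeval ρ (derivative (toP α DL)) * i ^ 2) * dS O ρ := by
    linear_combination i * di - dS O i * hi
  have ul : IsUnit (algebraMap O O⟦X⟧ l ^ 3) := (IsUnit.of_mul_eq_one _ hl').pow 3
  refine psi_abs _ _ _ _ l _ _ _ (aeval ρ (derivative (toP α DL)) * i)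
    ((aeval ρ (derivative (derivative (toP α DL))) * i -
      algebraMap O _ α * aeval ρ (derivative (toP α DL)) ^ 2 * i ^ 2) * algebraMap O _ l)
    ((aeval ρ (derivative (toP α EL)) * i ^ 3 - 3 * aeval ρ (toP α EL) * i ^ 4 *
      algebraMap O _ α * aeval ρ (derivative (toP α DL))) * algebraMap O _ l) ?_ ?_ ?_ ?_ ?_
  · apply ul.mul_left_cancel
    rw [← q4, ← mul_assoc (_ ^ 3), ← q3]
    obtain ⟨y, hy⟩ : ∃ y, y = algebraMap O _ α * aeval ρ (toP α DL) := ⟨_, rfl⟩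
    rw [← hy] at f3 hi
    linear_combination (-i ^ 6) * f3 + (34790720 * aeval ρ (toP α NL) * i ^ 2 * ((y * i) ^ 2 + 1) *
      (y * i + 1) - 78984748304 * ((y * i) ^ 3 + 1) * ((y * i) ^ 2 + y * i + 1)) * hi
  · rw [map_sub, Derivation.map_algebraMap, ← Algebra.smul_def, Derivation.map_smul,
      Derivation.leibniz, Derivation.leibniz_pow, dP, di', dρ, Algebra.smul_def li, f2]
    simp only [smul_eq_mul, nsmul_eq_mul, Nat.cast_ofNat, Nat.add_one_sub_one, pow_one]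
    linear_combination (i ^ 2 * aeval ρ (derivative (toP α NL)) * dS O x - 2 * i ^ 3 *
      aeval ρ (toP α NL) * algebraMap O _ α * aeval ρ (derivative (toP α DL)) * dS O x) * hl' -
      i ^ 2 * aeval ρ (derivative (toP α NL)) * dS O x * hi
  · rw [Derivation.leibniz, dP, di', dρ]
    simp only [smul_eq_mul]; ring
  · rw [Derivation.leibniz, Derivation.leibniz_pow, dP, di', dρ]
    simp only [smul_eq_mul, nsmul_eq_mul, Nat.cast_ofNat, Nat.add_one_sub_one]; ring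
  · simp only [map_sub, map_mul, map_ofNat, map_one]
    have hx : x = algebraMap O _ li * ρ - algebraMap O _ i3 := by
      rw [hρ]; linear_combination -(x + algebraMap O _ i3) * hl'
    have q5 : aeval ρ (derivative (toP α QL)) =
        algebraMap O O⟦X⟧ l ^ 2 * aeval x (derivative (Qz z)) := by
      linear_combination algebraMap O _ li * q2 - (aeval ρ (derivative (toP α QL)) -
        algebraMap O O⟦X⟧ l ^ 2 * aeval x (derivative (Qz z))) * hl'
    rw [f1, q3, q5]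
    generalize aeval x (derivative (Qz z)) = u1
    generalize aeval x (Qz z) = u0
    rw [hx]
    generalize aeval ρ (derivative (derivative (toP α DL))) = D2
    generalize aeval ρ (derivative (toP α DL)) = D1
    generalize aeval ρ (toP α DL) = D at hi
    generalize algebraMap O O⟦X⟧ α = a at *
    generalize algebraMap O O⟦X⟧ l = L at *
    generalize algebraMap O O⟦X⟧ li = M at *
    linear_combination (M * ((1 - a) * (ρ - 2896) + 2896 * a) * (a * D * i + 1) -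
        M * L ^ 2 * i * (2 * u1 * D1 + 4 * L * u0 * D2)) * hi +
      M * a * D ^ 2 * i ^ 2 * (ρ - 2 * 2896) * hα' -
      L * (4 * u0 * L * (D2 * i - a * D1 ^ 2 * i ^ 2) + 2 * u1 * D1 * i) * hl'

/-- The fibre `z` is the curve with complex multiplication by `α`. -/
structure Fib (α l li i3 z : O) : Prop where
  hα : α ^ 2 = α - 41
  hl : l * li = 1
  hQ : (toP α QL).comp (C l * X + C (l * i3)) = C l ^ 3 * Qz z

lemma fr_map {p : ℕ} {x y : O} (h : Fr p x y) :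
    Fr p (algebraMap O O⟦X⟧ x) (algebraMap O O⟦X⟧ y) := by
  simpa [Fr] using map_dvd (algebraMap O O⟦X⟧) h

lemma fr_toP {p : ℕ} (hp : p.Prime) {α α' : O} {x y : O⟦X⟧} (h1 : Fr p α α') (h2 : Fr p x y)
    (L : List Z4) : Fr p (aeval x (toP α L)) (aeval y (toP α' L)) := by
  induction L with
  | nil => simpa [toP] using Fr.natCast (R := O⟦X⟧) hp 0
  | cons u L ih =>
    simp only [toP, map_add, map_mul, aeval_C, aeval_X]
    exact (fr_map (((Fr.natCast hp _).sub hp (Fr.natCast hp _)).add hp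
      (((Fr.natCast hp _).sub hp (Fr.natCast hp _)).mul h1))).add hp (h2.mul ih)

lemma exists_point [Infinite k] {p : ℕ} {π : O →+* k} (R : Res p π) (hs : Function.Surjective π)
    {α : O} (hα : α ^ 2 = α - 41) (uα : IsUnit α) :
    ∃ T, IsUnit ((toP α DL).eval T) ∧ IsUnit ((toP α EL).eval T) := by
  have h1 : (toP α DL).map π ≠ 0 := fun h => by
    have := congrArg (fun W => coeff W 20) h
    simp only [coeff_map, coeff_DL, coeff_zero] at this
    exact (uα.map π).ne_zero this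
  have h2 : (toP α EL).map π ≠ 0 := fun h => by
    have := congrArg (fun W => coeff W 60) h
    simp only [coeff_map, coeff_EL hα, coeff_zero] at this
    exact ((uα.pow 3).map π).ne_zero this
  by_contra! hc
  refine mul_ne_zero h1 h2 (Polynomial.funext fun t => ?_)
  obtain ⟨T, rfl⟩ := hs t
  rw [eval_mul, eval_map_apply, eval_map_apply, eval_zero]
  by_contra h
  exact hc T (R.unit _ (left_ne_zero_of_mul h)) (R.unit _ (right_ne_zero_of_mul h))

theorem fibre_comm [IsDomain O] [Infinite k] {p h s n : ℕ} {π : O →+* k} (R : Res p π)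
    (hs : Function.Surjective π) (hp : p = 2 * h + 1) {α l li i3 z α' l' li' z' a b c d e e' : O}
    (F : Fib α l li i3 z) (F' : Fib α' l' li' i3 z') (uα : IsUnit α) (fα : Fr p α α')
    (fl : Fr p l l') (fi : Fr p i3 i3) (r1 : Row p h 6 1 (Qz z) (Qz z') (Dl z') a b)
    (r2 : Row p h 6 X (Qz z) (Qz z') (Dl z') c d) (hn : 6 ≤ n) (h6 : s ≤ 6)
    (hq : p ^ s ∣ 2 * n + 1) (he : e = 2896 * li - i3) (he' : e' = 2896 * li' - i3) :
    Ex ((p : O) ^ s) ((C ((α - α') * (a + e' * b)) + C ((α - (1 - α')) * b) * (X - C e')) *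
      Qz z' ^ n) ∧
    Ex ((p : O) ^ s) ((C ((1 - α - α') * (c - e * a + e' * (d - e * b))) +
      C ((1 - α - (1 - α')) * (d - e * b)) * (X - C e')) * Qz z' ^ n) := by
  have H := R.pring
  have := R.isLocal
  obtain ⟨T, t1, t2⟩ := exists_point R hs F.hα uα
  obtain ⟨ξ, hξ⟩ : ∃ ξ, ξ = algebraMap O O⟦X⟧ (li * T - i3) + PowerSeries.X := ⟨_, rfl⟩
  obtain ⟨ρ, hρ⟩ : ∃ ρ, ρ = algebraMap O O⟦X⟧ l * (ξ + algebraMap O _ i3) := ⟨_, rfl⟩
  obtain ⟨ρ', hρ'⟩ : ∃ ρ, ρ = algebraMap O O⟦X⟧ l' * (ξ ^ p + algebraMap O _ i3) := ⟨_, rfl⟩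
  have fρ : Fr p ρ ρ' := hρ ▸ hρ' ▸ (fr_map fl).mul ((Fr.pow_self p ξ).add R.prime (fr_map fi))
  have c0 : ∀ P : O[X], PowerSeries.constantCoeff (aeval ρ P) = P.eval T := fun P => by
    have h1 : PowerSeries.constantCoeff ρ = T := by
      simp only [hρ, hξ, map_add, map_mul, ← PowerSeries.C_eq_algebraMap,
        PowerSeries.constantCoeff_C, PowerSeries.constantCoeff_X]
      linear_combination T * F.hl
    induction P using Polynomial.induction_on' with
    | add P Q h1 h2 => rw [map_add, map_add, eval_add, h1, h2]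
    | monomial n a => simp [aeval_monomial, h1]
  have u1 := (uα.map (algebraMap O O⟦X⟧)).mul
    (PowerSeries.isUnit_iff_constantCoeff.2 (c0 _ ▸ t1))
  have u2 := PowerSeries.isUnit_iff_constantCoeff.2 (c0 _ ▸ t2)
  have f1 := (fr_map fα).mul (fr_toP R.prime fα fρ DL)
  have nu : ¬ IsUnit (p : O⟦X⟧) := fun h => R.nu (by
    simpa using PowerSeries.isUnit_iff_constantCoeff.1 h)
  obtain ⟨i, hi⟩ := u1.exists_right_inv
  obtain ⟨i', hi'⟩ := (f1.isUnit nu u1).exists_right_inv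
  obtain ⟨Ji, hJ⟩ := (u2.mul ((IsUnit.of_mul_eq_one_right _ hi).pow 3)).exists_right_inv
  have f2 := f1.inv hi hi'
  have P1 := psi_z F.hα F.hl F.hQ ξ ρ i hρ hi (p * n + h)
  have P2 := psi_z F'.hα F'.hl F'.hQ (ξ ^ p) ρ' i' hρ' hi'
  have fR := ((fr_map (fl.inv F.hl F'.hl)).mul ((fr_toP R.prime fα fρ NL).mul (f2.pow 2))).sub
    R.prime (fr_map fi)
  have fJ := (fr_toP R.prime fα fρ EL).mul (f2.pow 3)
  have d1 : dS O ξ = 1 := by
    rw [hξ, map_add, Derivation.map_algebraMap, dS, PowerSeries.derivative_X, zero_add]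
  rw [show 2 * (p * n + h) + 1 = p * (2 * n + 1) by rw [hp]; ring, d1, ← he] at P1
  rw [← he'] at P2
  have x1 := r1.ex hp H hn h6 hq
  have x2 := (r2.ex hp H hn h6 hq).add (x1.C_mul (-e))
  obtain ⟨g1, b1, y1, g2⟩ := P1
  obtain ⟨m, hm⟩ := hq
  have hm' := congrArg (Nat.cast : ℕ → O⟦X⟧) hm
  have hp' := congrArg (Nat.cast : ℕ → O⟦X⟧) hp
  simp only [Nat.cast_add, Nat.cast_mul, Nat.cast_pow, Nat.cast_one, Nat.cast_ofNat] at hm' hp' g2
  refine ⟨comm_abs hp H ⟨m, hm⟩ (Qz z ^ (p * n + h)) _ (Dl z' ^ 6) _ _ _ _ _ _ _ ξ _ _ Ji _ _ hξ hJ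
      fR fJ ?_ ⟨0, 0, by rw [g1]; simp⟩ P2,
    comm_abs hp H ⟨m, hm⟩ ((X - C e) * Qz z ^ (p * n + h)) _ (Dl z' ^ 6) _ _ _ _ _ _ _ ξ _ _ Ji _ _
      hξ hJ fR fJ ?_ ⟨b1, m * y1, by
        linear_combination g2 + y1 * (p : O⟦X⟧) * hm' - y1 * hp'⟩ P2⟩
  · convert x1 using 1
    simp only [map_add, map_sub, map_mul, expand_C]; ring
  · convert x2 using 1
    simp only [map_add, map_sub, map_mul, map_neg, expand_C]; ring

/-- The form `(w0 + w1 X) dX / y` is formally exact modulo `p^s`. -/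
def LL (p h s : ℕ) (z w0 w1 : O) : Prop :=
  Ex ((p : O) ^ s) ((C w0 + C w1 * X) * Qz z ^ NN p h (s + 1))

lemma LL.step [IsDomain O] {p h s : ℕ} {π : O →+* k} (R : Res p π) (hp : p = 2 * h + 1)
    (hh : 6 ≤ h) (hs : s ≤ 6) {z z' Δ a b c d w0 w1 : O} (r1 : Row p h 6 1 (Qz z) (Qz z') Δ a b)
    (r2 : Row p h 6 X (Qz z) (Qz z') Δ c d) (w : LL p h (s + 1) z w0 w1) :
    ∃ v0 v1, a * w0 + c * w1 = p * v0 ∧ b * w0 + d * w1 = p * v1 ∧ LL p h s z' v0 v1 := by
  have hn : 6 ≤ NN p h (s + 1) := by rw [NN]; omega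
  have hq : p ^ s ∣ 2 * NN p h (s + 1) + 1 := by rw [NN_spec hp]; exact pow_dvd_pow _ (by omega)
  have x := ((w.C_mul (Δ ^ 6)).add ((r1.ex hp R.pring hn hs hq).C_mul (-w0))).add
    ((r2.ex hp R.pring hn hs hq).C_mul (-w1))
  obtain ⟨h1, h2⟩ := ex_expand hp R.pring (s := s) (W := (C (a * w0 + c * w1) +
    C (b * w0 + d * w1) * X) * Qz z' ^ NN p h (s + 1)) (by
      convert x using 1
      rw [NN.eq_2 p h (s + 1)]
      simp only [map_add, map_mul, map_neg, expand_C]; ring)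
  have h3 := Polynomial.map_dvd π h1
  rw [map_C, (R.ker _).2 dvd_rfl, C_0, zero_dvd_iff, Polynomial.map_mul, mul_eq_zero] at h3
  replace h3 := h3.resolve_right (((Qz_monic z').pow _).map π).ne_zero
  have h4 := congrArg (fun W => coeff W 0) h3
  have h5 := congrArg (fun W => coeff W 1) h3
  simp only [coeff_map, coeff_add, coeff_C_mul, coeff_C_zero, coeff_X_zero, coeff_X_one, mul_zero,
    add_zero, coeff_zero, coeff_C_succ, mul_one, zero_add, R.ker] at h4 h5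
  obtain ⟨v0, e0⟩ := h4
  obtain ⟨v1, e1⟩ := h5
  refine ⟨v0, v1, e0, e1, h2 _ ?_⟩
  rw [e0, e1, map_mul, map_mul]; ring

/-- A supersingular Cartier matrix. -/
structure SS2 (p h : ℕ) (z z' a b c d : O) : Prop where
  r1 : Row p h 6 1 (Qz z) (Qz z') (Dl z') a b
  r2 : Row p h 6 X (Qz z) (Qz z') (Dl z') c d
  ha : (p : O) ∣ a
  det : ∃ u, IsUnit u ∧ a * d - b * c = p * u

lemma ss_div [IsDomain O] {p h : ℕ} {π : O →+* k} (R : Res p π) (hp : p = 2 * h + 1) (hh : 6 ≤ h)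
    (j : ℕ) (hj : j ≤ 3) {z z' a b c d a' b' c' d' w0 w1 : O} (s1 : SS2 p h z z' a b c d)
    (s2 : SS2 p h z' z a' b' c' d') (w : LL p h (2 * j) z w0 w1) :
    (p : O) ^ j ∣ w0 ∧ (p : O) ^ j ∣ w1 := by
  induction j generalizing w0 w1 with
  | zero => simp
  | succ j ih =>
    obtain ⟨v0, v1, e0, e1, v⟩ := LL.step R hp hh (s := 2 * j + 1) (by omega) s1.r1 s1.r2 w
    obtain ⟨u0, u1, f0, f1, u⟩ := LL.step R hp hh (by omega) s2.r1 s2.r2 v
    obtain ⟨⟨y0, rfl⟩, y1, rfl⟩ := ih (by omega) u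
    obtain ⟨t, ht, g⟩ := s1.det
    obtain ⟨t', ht', g'⟩ := s2.det
    obtain ⟨a, rfl⟩ := s1.ha
    obtain ⟨a', rfl⟩ := s2.ha
    obtain ⟨b, rfl⟩ := s1.r1.1
    obtain ⟨d, rfl⟩ := s1.r2.1
    obtain ⟨b', rfl⟩ := s2.r1.1
    obtain ⟨d', rfl⟩ := s2.r2.1
    have k0 : t * w0 = p * d * v0 - c * v1 := mul_left_cancel₀ R.ne (by
      linear_combination (p * d) * e0 - c * e1 - w0 * g)
    have k1 : t * w1 = p * (a * v1 - b * v0) := mul_left_cancel₀ R.ne (by
      linear_combination (p * a) * e1 - (p * b) * e0 - w1 * g)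
    have k2 : t' * v0 = p ^ j * (p * d' * y0 - c' * y1) := mul_left_cancel₀ R.ne (by
      linear_combination (p * d') * f0 - c' * f1 - v0 * g')
    have k3 : t' * v1 = p ^ j * (p * (a' * y1 - b' * y0)) := mul_left_cancel₀ R.ne (by
      linear_combination (p * a') * f1 - (p * b') * f0 - v1 * g')
    rw [← (ht'.mul ht).dvd_mul_left, ← (ht'.mul ht).dvd_mul_left (b := w1)]
    exact ⟨⟨d * (p * d' * y0 - c' * y1) - c * (a' * y1 - b' * y0),
        by linear_combination t' * k0 + p * d * k2 - c * k3⟩,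
      ⟨a * (p * (a' * y1 - b' * y0)) - b * (p * d' * y0 - c' * y1),
        by linear_combination t' * k1 + p * a * k3 - p * b * k2⟩⟩

lemma Ca_lin {p h : ℕ} (hp : p = 2 * h + 1) (x y : O) (P W : O[X]) :
    Ca p (C x * P + C y * W) = C x * Ca p P + C y * Ca p W := by
  ext i; simp only [coeff_add, coeff_C_mul, coeff_Ca hp]

theorem split_row {p h : ℕ} (H : PRing p O) (hpu : ¬ IsUnit (p : O)) (hp : p = 2 * h + 1)
    (hb : 200 < p) {z z' a b c γ ι : O} (hu : IsUnit (Dl z'))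
    (r : Row p h 6 1 (Qz z) (Qz z') (Dl z') a b) (ρ W δ : O[X]) (hρ : ρ = X ^ p + (p : O[X]) * δ)
    (hδ : δ.natDegree ≤ 7 * p) (h1 : (p : O[X]) ^ 7 ∣ (Qz z').comp ρ - C c * (Qz z * W ^ 2))
    (h2 : (p : O[X]) ^ 7 ∣ derivative ρ - C (c * γ) * W) (h3 : (p : O[X]) ∣ W - C ι * Qz z ^ h) :
    (p : O) ^ 7 ∣ c ^ (NN p h 7 + 1) * γ * ι ^ p ^ 7 * a - p * Dl z' ^ 6 ∧
      (p : O) ^ 7 ∣ c ^ (NN p h 7 + 1) * γ * ι ^ p ^ 7 * b := by
  have hq := NN_spec hp 7
  obtain ⟨j, hj⟩ := Nat.exists_eq_add_of_le (le_trans (by omega : 6 ≤ 7) (le_NN hp (by omega) 7))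
  obtain ⟨B, E, F, dB, e1⟩ := r.2.2 j
  rw [← hj] at e1
  obtain ⟨B', E', dB', e2⟩ := ca_homotopy hp H 6 (by omega) (Qz z') δ
    (by unfold Qz; compute_degree) 7 hδ (NN p h 7) (by omega)
  generalize NN p h 7 = n at *
  obtain ⟨g, hg⟩ : ∃ g, g = c ^ (n + 1) * γ * ι ^ p ^ 7 := ⟨_, rfl⟩
  obtain ⟨Y, hY⟩ : (p : O[X]) ^ 7 ∣ (Qz z' ^ n).comp ρ * derivative ρ -
      C g * (1 * Qz z ^ (p * n + h)) := by
    obtain ⟨y1, f1⟩ := dvd_mul_congr (h1.trans (sub_dvd_pow_sub_pow _ _ n)) h2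
    obtain ⟨y2, f2⟩ := dvd_sub_pow_of_dvd_sub h3 7
    refine ⟨y1 + C c ^ (n + 1) * C γ * Qz z ^ n * p * y2, ?_⟩
    rw [hg, pow_comp, show p * n + h = n + h * p ^ 7 by rw [← hq, hp]; ring, pow_add (Qz z), pow_mul]
    rw [mul_pow (C ι)] at f2
    rw [← hq] at f2 ⊢
    simp only [map_mul, map_pow] at f1 ⊢
    linear_combination f1 + C c ^ (n + 1) * C γ * Qz z ^ n * f2
  rw [← hρ, eq_add_of_sub_eq' hY, ← C_eq_natCast, ← C_pow, Ca_lin hp,
    show n + 1 - 6 = j + 1 by omega] at e2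
  obtain ⟨I, hI⟩ : ∃ I, I = Ideal.span {(p : O) ^ 7} := ⟨_, rfl⟩
  have hz : ∀ x, Ideal.Quotient.mk I x = 0 ↔ (p : O) ^ 7 ∣ x := fun x => by
    rw [Ideal.Quotient.eq_zero_iff_mem, hI, Ideal.mem_span_singleton]
  have : Nontrivial (O ⧸ I) := Ideal.Quotient.nontrivial_iff.2 (by
    rw [hI, Ne, Ideal.span_singleton_eq_top, isUnit_pow_iff (by omega)]; exact hpu)
  have hq' := congrArg (Nat.cast : ℕ → O[X]) hq
  push_cast at hq'
  have e3 : (C (g * a - p * Dl z' ^ 6) + C (g * b) * X) * Qz z' ^ n =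
      derivative ((C (p * Dl z' ^ 6) * B' - C (p * g) * B) * Qz z' ^ (j + 1)) +
      C ((p : O) ^ 7) * (C (Dl z' ^ 6) * (E' - Ca p Y) - C g * (F + (p : O[X]) * E)) := by
    rw [sub_mul, derivative_sub, mul_assoc, mul_assoc, derivative_C_mul, derivative_C_mul]
    simp only [map_sub, map_mul, map_pow, map_natCast] at e1 e2 ⊢
    linear_combination C (Dl z') ^ 6 * e2 - C g * e1 - C g * p * E * hq'
  have dB2 : (C (p * Dl z' ^ 6) * B' - C (p * g) * B).natDegree ≤ 60 :=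
    (natDegree_sub_le _ _).trans (max_le ((natDegree_C_mul_le _ _).trans dB')
      ((natDegree_C_mul_le _ _).trans (by omega)))
  generalize C (p * Dl z' ^ 6) * B' - C (p * g) * B = B2 at e3 dB2
  rw [← hg]
  generalize g * a - p * Dl z' ^ 6 = x at e3 ⊢
  generalize g * b = y at e3 ⊢
  have e4 := congrArg (Polynomial.map (Ideal.Quotient.mk I)) e3
  simp only [Polynomial.map_add, Polynomial.map_mul, Polynomial.map_pow, map_C, map_X, Qz_map,
    ← derivative_map, (hz _).2 dvd_rfl, C_0, zero_mul, add_zero] at e4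
  have un : ∀ m : ℕ, 0 < m → m < p → IsUnit (m : O ⧸ I) := fun m h0 hm => by
    simpa using (H.unit m fun hd => absurd (Nat.le_of_dvd h0 hd) (by omega)).map
      (Ideal.Quotient.mk I)
  have := inj _ _ _ _ (map_Dl (Ideal.Quotient.mk I) z' ▸ hu.map _) (Qz_monic _) (Qz_natDegree _)
    (Qz_bezout _) n 61 (by
      have := (hz _).2 dvd_rfl
      rw [← Nat.cast_pow, ← hq, map_natCast] at this
      exact_mod_cast this)
    (fun m hm => by exact_mod_cast un (2 * m + 1) (by omega) (by omega)) 6 (by omega) (by omega)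
    (B2.map (Ideal.Quotient.mk I)) (Nat.succ_le_succ (natDegree_map_le.trans dB2))
    (Ideal.Quotient.mk I x) (Ideal.Quotient.mk I y) (by exact_mod_cast un 2 (by omega) (by omega))
    (by rw [show n + 1 - 6 = j + 1 by omega]; exact e4)
  rwa [hz, hz] at this

end Pool.Agent.Lib.MP_db9bd2_nt.Sup
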