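import Pool.Agent.Lib.MP_db9bd2_nt.SupLift

/-! The supercongruences for primes above `1800`. -/

namespace Pool.Agent.Lib.MP_db9bd2_nt.Sup

open Finset Polynomial

variable {O k : Type} [CommRing O] [Field k]

lemma split_fibre [IsDomain O] [CharZero O] [IsAlgClosed k] {p h : ℕ} {π : O →+* k} (R : Res p π)
    (hp : p = 2 * h + 1) (hb : 200 < p) {α l li i3 z z' χ a b : O} (hχ : χ ^ 2 = 1)
    (F : Fib α l li i3 z) (F' : Fib α (χ * l) (χ * li) i3 z') (fl : Fr p l (χ * l))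
    (fi : Fr p i3 i3) (hu : IsUnit (Dl z')) (r : Row p h 6 1 (Qz z) (Qz z') (Dl z') a b)
    (m n : ℤ) (hn : 0 < n) (hN : (p : ℤ) = m ^ 2 + m * n + 41 * n ^ 2)
    (hv : IsUnit ((m : O) + n * (1 - α))) :
    (p : O) ^ 6 ∣ b ∧ (p : O) ^ 6 ∣ a ^ 2 - χ * ((m : O) + n * (1 - α)) ^ 2 * (Dl z' ^ 6) ^ 2 := by
  obtain ⟨A, W, ι, hι, dA, h1, h2, h3, h4⟩ := frob_lift R hp hb F.hα m n hn hN hv
  obtain ⟨L, hL⟩ : ∃ L, L = C l * X + C (l * i3) := ⟨_, rfl⟩
  have cd : ∀ {j : ℕ} {P : O[X]}, (p : O[X]) ^ j ∣ P → (p : O[X]) ^ j ∣ P.comp L := fun hP => by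
    simpa using map_dvd (compRingHom L) hP
  have q1 := F.hQ
  have e1 := congrArg (C : O → O[X]) F.hl
  have e2 := congrArg (C : O → O[X]) hχ
  rw [← hL] at q1
  simp only [map_mul, map_pow, map_one] at e1 e2
  obtain ⟨ρ, hρ⟩ : ∃ ρ, ρ = C (χ * li) * A.comp L - C i3 := ⟨_, rfl⟩
  obtain ⟨δ, hδ⟩ : (p : O[X]) ∣ ρ - X ^ p := by
    have f1 : ∀ {x y : O}, Fr p x y → Fr p (C x) (C y) := fun hx => by
      simpa [Fr] using map_dvd (C : O →+* O[X]) hx
    obtain ⟨u, hu⟩ := ((f1 fl).mul (Fr.pow_self p X)).add R.prime (f1 (fl.mul fi))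
    obtain ⟨v, hv⟩ := cd (j := 1) (P := A - X ^ p) (by rwa [pow_one])
    rw [← hL] at hu
    simp only [sub_comp, pow_comp, X_comp, map_mul] at hu hv hρ
    exact ⟨C χ * C li * (u + v), by
      linear_combination hρ + C χ * C li * (hu + hv) + (X ^ p + C i3) * (C χ ^ 2 * e1 + e2)⟩
  have dδ : δ.natDegree ≤ 7 * p := by
    rw [← natDegree_C_mul R.ne, C_eq_natCast, ← hδ, hρ]
    have d1 : L.natDegree ≤ 1 := by rw [hL]; compute_degree
    have d2 := natDegree_comp_le (p := A) (q := L)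
    have d3 := Nat.mul_le_mul_left A.natDegree d1
    refine (natDegree_sub_le _ _).trans (max_le ((natDegree_sub_le _ _).trans (max_le
      ((natDegree_C_mul_le _ _).trans (by omega)) (by simp))) (by rw [natDegree_X_pow]; omega))
  obtain ⟨⟨y1, g1⟩, y2, g2⟩ := split_row R.pring R.nu hp hb (c := χ) (γ := (m : O) + n * α)
    (ι := ι * l ^ (3 * h)) hu r ρ (W.comp L) δ (eq_add_of_sub_eq' hδ) dδ
    (by
      have q2 := congrArg (fun P => P.comp ρ) F'.hQ
      obtain ⟨u, hu⟩ := cd h3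
      rw [sub_comp, mul_comp, pow_comp, q1, comp_assoc] at hu
      simp only [comp_assoc, mul_comp, add_comp, C_comp, X_comp, pow_comp] at q2
      rw [show C (χ * l) * ρ + C (χ * l * i3) = A.comp L by
        simp only [hρ, map_mul]; linear_combination A.comp L * (C χ ^ 2 * e1 + e2), map_mul] at q2
      refine ⟨(C χ * C li) ^ 3 * u, ?_⟩
      have e3 : (C χ * C li) ^ 3 * (C χ * C l) ^ 3 = 1 := by
        rw [← mul_pow, show C χ * C li * (C χ * C l) = 1 by linear_combination C χ ^ 2 * e1 + e2,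
          one_pow]
      have e4 : (C χ * C li) ^ 3 * C l ^ 3 = C χ := by
        rw [← mul_pow, show C χ * C li * C l = C χ by linear_combination C χ * e1]
        linear_combination C χ * e2
      linear_combination (C χ * C li) ^ 3 * (hu - q2) - (Qz z').comp ρ * e3 +
        Qz z * W.comp L ^ 2 * e4)
    (by
      obtain ⟨u, hu⟩ := cd h4
      rw [sub_comp, mul_comp, C_comp] at hu
      refine ⟨C χ * u, ?_⟩
      rw [hρ, derivative_sub, derivative_C, derivative_C_mul, derivative_comp,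
        show derivative L = C l by simp [hL], map_mul, map_mul]
      linear_combination C χ * hu + C χ * (derivative A).comp L * e1)
    (by
      have := cd (j := 1) (P := W - C ι * toP α QL ^ h) (by rwa [pow_one])
      rw [pow_one, sub_comp, mul_comp, C_comp, pow_comp, q1, mul_pow, ← pow_mul, ← mul_assoc,
        ← C_pow, ← C_mul] at this
      exact this)
  obtain ⟨g, hg⟩ : ∃ g, g = χ ^ (NN p h 7 + 1) * (ι * l ^ (3 * h)) ^ p ^ 7 := ⟨_, rfl⟩
  have ul : IsUnit l := IsUnit.of_mul_eq_one _ F.hl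
  obtain ⟨y3, g3⟩ : (p : O) ^ 8 ∣ g ^ 2 - χ := by
    have t1 : (p : O) ∣ l ^ (2 * h) - χ := by
      rw [← ul.dvd_mul_left, mul_sub, ← pow_succ', ← hp, mul_comm l]; exact fl
    have t2 := dvd_sub_pow_of_dvd_sub (t1.trans (sub_dvd_pow_sub_pow _ _ 3)) 7
    rw [show χ ^ 3 = χ by linear_combination χ * hχ, ← NN_spec hp 7, pow_succ χ, pow_mul χ, hχ,
      one_pow, one_mul, NN_spec hp 7] at t2
    convert t2 using 2
    rw [hg, mul_pow, ← pow_mul χ, mul_comm _ 2, pow_mul χ, hχ, one_pow, one_mul, ← pow_mul,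
      mul_comm _ 2, pow_mul, mul_pow, hι, one_mul]
    congr 1; ring
  have hN' := congrArg (Int.cast : ℤ → O) hN
  push_cast at hN'
  have t3 : ((m : O) + n * α) * ((m : O) + n * (1 - α)) = p := by
    linear_combination -hN' - (n : O) ^ 2 * F.hα
  generalize (m : O) + n * (1 - α) = β at *
  have t4 : g * a - β * Dl z' ^ 6 = p ^ 6 * (β * y1) := mul_left_cancel₀ R.ne (by
    rw [hg]; linear_combination β * g1 - χ ^ (NN p h 7 + 1) * (ι * l ^ (3 * h)) ^ p ^ 7 * a * t3)
  have t5 : g * b = p ^ 6 * (β * y2) := mul_left_cancel₀ R.ne (by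
    rw [hg]; linear_combination β * g2 - χ ^ (NN p h 7 + 1) * (ι * l ^ (3 * h)) ^ p ^ 7 * b * t3)
  exact ⟨⟨χ * (g * β * y2 - p ^ 2 * y3 * b), by
      linear_combination χ * g * t5 - χ * b * g3 - b * hχ⟩,
    χ * (β * y1 * (g * a + β * Dl z' ^ 6) - p ^ 2 * y3 * a ^ 2), by
      linear_combination χ * (g * a + β * Dl z' ^ 6) * t4 - χ * a ^ 2 * g3 - a ^ 2 * hχ⟩

/-- The constants attached to a square root `r` of `1630815`. -/
structure Pt (r w j i3 li z : O) : Prop where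
  hr : r ^ 2 = 1630815
  hw : 711822400 * w = 1
  hj : 864 * j = 1
  h3 : 3 * i3 = 1
  hl : 8 * r * li = 1
  hz : z = (1 - 557403 * w * r) * j

lemma Pt.u {r w j i3 li z : O} (P : Pt r w j i3 li z) : 1 - 864 * z = 557403 * w * r := by
  rw [P.hz]; linear_combination (-(1 - 557403 * w * r)) * P.hj

lemma Pt.t [IsDomain O] [CharZero O] {r w j i3 li z : O} (P : Pt r w j i3 li z) :
    (640320 : O) ^ 3 * (z * (1 - 432 * z)) = -1 := by
  have h1 : (640320 : O) ^ 3 * (1 - 864 * z) ^ 2 = 640320 ^ 3 + 1728 := by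
    rw [P.u]
    linear_combination (640320 ^ 3 * 557403 ^ 2 * w ^ 2) * P.hr +
      (640320 ^ 3 + 1728) * (711822400 * w + 1) * P.hw
  apply mul_left_cancel₀ (show (1728 : O) ≠ 0 by norm_num)
  linear_combination -h1

lemma Pt.unit [IsDomain O] [CharZero O] {r w j i3 li z : O} (P : Pt r w j i3 li z) :
    IsUnit z ∧ IsUnit (Dl z) :=
  ⟨IsUnit.of_mul_eq_one (-(640320 : O) ^ 3 * (1 - 432 * z)) (by linear_combination -P.t),
    IsUnit.of_mul_eq_one ((640320 : O) ^ 3 * (432 * j) ^ 8) (by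
      have : 256 * (432 * j) ^ 8 = 1 := by
        rw [show 256 * (432 * j) ^ 8 = (864 * j) ^ 8 by ring, P.hj, one_pow]
      unfold Dl
      linear_combination -256 * (432 * j) ^ 8 * P.t + this)⟩

lemma Pt.fib {r w j i3 li z α : O} (P : Pt r w j i3 li z) (hα : α ^ 2 = α - 41) :
    Fib α (8 * r) li i3 z := by
  obtain ⟨hr, hw, hj, h3, hl, hz⟩ := P
  refine ⟨hα, hl, toP_QL α ▸ (comp_model (8 * r) li i3 z (-34790720) 78984748304 hl h3
    (by linear_combination 64 * i3 * hr + 34790720 * h3) ?_).2⟩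
  have h64 : 64 * j = 2 * i3 ^ 3 := by
    linear_combination 2 * i3 ^ 3 * hj - 64 * j * ((3 * i3) ^ 2 + 3 * i3 + 1) * h3
  rw [hz]
  linear_combination 512 * r ^ 3 * (1 - 557403 * w * r) * h64 -
    1024 * 557403 * w * i3 ^ 3 * (r ^ 2 + 1630815) * hr -
    78984748304 * 27 * i3 ^ 3 * hw - 78984748304 * ((3 * i3) ^ 2 + 3 * i3 + 1) * h3

lemma Pt.b {r w j i3 li z : O} (P : Pt r w j i3 li z) :
    213440 * r * (-288 * z - (2896 * li - i3)) = 13591409 := by
  obtain ⟨hr, hw, hj, h3, hl, hz⟩ := P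
  have h288 : 288 * j = i3 := by linear_combination i3 * hj - 288 * j * h3
  rw [hz]
  linear_combination -213440 * r * (1 - 557403 * w * r) * h288 +
    213440 * 557403 * w * i3 * hr + 272570067 * i3 * hw + 90856689 * h3 - 26680 * 2896 * hl

lemma Pt.sum {r w j i3 li z : O} (P : Pt r w j i3 li z) (n : ℕ) :
    545140134 * YY 1 n z + 13591409 * YY 0 n z =
      213440 * r * (k1 n z - (2896 * li - i3) * YY 0 n z) := by
  unfold k1
  rw [P.u]
  linear_combination (-(426880 * 557403 * w * YY 1 n z)) * P.hr - 545140134 * YY 1 n z * P.hw -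
    YY 0 n z * P.b

lemma Pt.twist {r w j i3 li z χ : O} (P : Pt r w j i3 li z) (hχ : χ ^ 2 = 1) :
    Pt (χ * r) w j i3 (χ * li) ((1 - 557403 * w * (χ * r)) * j) :=
  ⟨by linear_combination r ^ 2 * hχ + P.hr, P.hw, P.hj, P.h3,
    by linear_combination 8 * r * li * hχ + P.hl, rfl⟩

lemma Pt.fr {p : ℕ} (hp : p.Prime) {r w j i3 li z r' li' z' : O} (P : Pt r w j i3 li z)
    (P' : Pt r' w j i3 li' z') (h : Fr p r r') : Fr p z z' ∧ Fr p (8 * r) (8 * r') ∧ Fr p i3 i3 := by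
  have f : ∀ n : ℕ, Fr p (n : O) n := Fr.natCast hp
  have f1 := f 1
  have fw := f 711822400
  have fj := f 864
  have fc := f 557403
  have f3 := f 3
  have f8 := f 8
  push_cast at f1 fw fj fc f3 f8
  rw [P.hz, P'.hz]
  exact ⟨(f1.sub hp ((fc.mul (fw.inv P.hw P.hw)).mul h)).mul (fj.inv P.hj P.hj), f8.mul h,
    f3.inv P.h3 P.h3⟩

variable [IsDomain O] [CharZero O] [IsAlgClosed k]

theorem split_case {p h : ℕ} {π : O →+* k} (R : Res p π) (hs : Function.Surjective π)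
    (hp : p = 2 * h + 1) (hb : 1800 < p) {r w j i3 li z χ α : O} (P : Pt r w j i3 li z)
    (hχ : χ ^ 2 = 1) (fr : Fr p r (χ * r)) (hα : α ^ 2 = α - 41) (uα : IsUnit α)
    (us : IsUnit (1 - 2 * α)) (fα : Fr p α α) (m n : ℤ) (hn : 0 < n)
    (hN : (p : ℤ) = m ^ 2 + m * n + 41 * n ^ 2) (hv : IsUnit ((m : O) + n * (1 - α))) :
    (p : O) ^ 2 ∣ YY 0 p z - χ * ((2 * m + n) ^ 2 - 2 * p) ∧
    (p : O) ^ 3 ∣ 545140134 * YY 1 p z + 13591409 * YY 0 p z - 13591409 * p * χ := by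
  have := R.isLocal
  have P' := P.twist hχ
  generalize (1 - 557403 * w * (χ * r)) * j = z' at P'
  obtain ⟨fz, fl, fi⟩ := P.fr R.prime P' fr
  obtain ⟨a, b, c, d, r1, r2, ⟨y1, f1⟩, ⟨y2, f2⟩, y3, f3⟩ := family R hp hb z z' P.unit.1 fz
  have F' := P'.fib hα
  have uD := P'.unit.2
  obtain ⟨⟨b, rfl⟩, y4, f4⟩ := split_fibre R hp (by omega) hχ (P.fib hα)
    (mul_left_comm 8 χ r ▸ F') (mul_left_comm 8 χ r ▸ fl) fi uD r1 m n hn hN hv
  have x := (fibre_comm R hs hp (s := 3) (n := NN p h 3) (P.fib hα) F' uα fα fl fi r1 r2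
    (by rw [NN]; omega) (by omega) (NN_spec hp 3 ▸ dvd_rfl) rfl rfl).2
  have ua : IsUnit (ca z h (2 * h)) := by
    obtain ⟨u, hu⟩ := r1.2.1
    refine R.unit _ fun h0 => ?_
    have h1 : π a = 0 := by
      rw [eq_add_of_sub_eq hu, one_mul, map_add, map_mul, map_mul, (R.ker _).2 dvd_rfl, zero_mul,
        zero_add]
      exact mul_eq_zero_of_right _ h0
    have h2 := congrArg π f4
    rw [map_sub, map_pow, h1, map_mul π _ y4, map_pow π _ 6, (R.ker _).2 dvd_rfl] at h2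
    exact ((((IsUnit.of_mul_eq_one χ (by rw [← sq, hχ])).mul (hv.pow 2)).mul
      ((uD.pow 6).pow 2)).map π).ne_zero (by linear_combination -h2)
  obtain ⟨-, -, uc, -⟩ := ordinary hp R.pring R.nu 3 z' uD
    ((fr_ca R.prime fz h (2 * h)).isUnit R.nu ua)
  obtain ⟨u, v, huv⟩ := x.coeff (2 * NN p h 3)
  rw [sub_self, zero_mul, C_0, zero_mul, add_zero, coeff_C_mul] at huv
  have hq := congrArg (Nat.cast : ℕ → O) (NN_spec hp 3)
  push_cast at hq huv
  rw [hq, ← mul_add, show 1 - α - α = 1 - 2 * α by ring, mul_right_comm] at huv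
  obtain ⟨y5, f5⟩ := (us.mul uc).dvd_mul_left.1 ⟨_, huv⟩
  have hN' := congrArg (Int.cast : ℤ → O) hN
  push_cast at hN'
  have t3 : ((m : O) + n * α) * ((m : O) + n * (1 - α)) = p := by
    linear_combination -hN' - (n : O) ^ 2 * hα
  obtain ⟨iv, hiv⟩ := hv.exists_right_inv
  have t4 : (m : O) + n * α = p * iv := by linear_combination iv * t3 - ((m : O) + n * α) * hiv
  have b' := P'.b
  rw [P.sum, ← ((uD.pow 6).pow 2).dvd_mul_left, ← ((uD.pow 6).pow 2).dvd_mul_left (a := _ ^ 3)]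
  generalize Dl z' ^ 6 = D at *
  generalize 82944 * z' ^ 2 - 960 * (z' * (1 - 432 * z')) = e2 at *
  generalize 2896 * (χ * li) - i3 = e' at *
  generalize 2896 * li - i3 = e at *
  refine ⟨⟨p * y1 + p ^ 4 * y4 - 576 * z' * a * p ^ 4 * b + e2 * p ^ 10 * b ^ 2 +
    χ * D ^ 2 * -iv ^ 2, ?_⟩, ⟨213440 * r * (y2 - e * y1 + (a - 288 * z' * p ^ 6 * b) * y5 +
      (-288 * z' - e') * y3 + p ^ 3 * b * (-288 * z' - e') * (c - e * a) + p ^ 3 * b *
        (e2 + 288 * z' * e') * (d - e * (p ^ 6 * b))), ?_⟩⟩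
  · linear_combination f1 + f4 - χ * D ^ 2 * ((m : O) + n * α + p * iv) * t4 - 2 * χ * D ^ 2 * t3
  · linear_combination 213440 * r * (f2 - e * f1 + (a - 288 * z' * p ^ 6 * b) * f5 +
      (-288 * z' - e') * f3) + χ * p * D ^ 2 * b' -
      213440 * r * (-288 * z' - e') * p * D ^ 2 * hχ

theorem inert_case {p h : ℕ} {π : O →+* k} (R : Res p π) (hs : Function.Surjective π)
    (hp : p = 2 * h + 1) (hb : 1800 < p) {r w j i3 li z χ α : O} (P : Pt r w j i3 li z)
    (hχ : χ ^ 2 = 1) (fr : Fr p r (χ * r)) (fr' : Fr p (χ * r) r) (hα : α ^ 2 = α - 41)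
    (uα : IsUnit α) (us : IsUnit (1 - 2 * α)) (fα : Fr p α (1 - α)) :
    (p : O) ^ 2 ∣ YY 0 p z ∧
    (p : O) ^ 3 ∣ 545140134 * YY 1 p z + 13591409 * YY 0 p z + 13591409 * p * χ := by
  have := R.isLocal
  have P' := P.twist hχ
  generalize (1 - 557403 * w * (χ * r)) * j = z' at P'
  obtain ⟨fz, fl, fi⟩ := P.fr R.prime P' fr
  have fz' := (P'.fr R.prime P fr').1
  obtain ⟨a, b, c, d, r1, r2, ⟨y1, f1⟩, ⟨y2, f2⟩, y3, f3⟩ := family R hp hb z z' P.unit.1 fz
  obtain ⟨a', b', c', d', s1, s2, -, -, y4, f4⟩ := family R hp hb z' z P'.unit.1 fz'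
  have uD := P'.unit.2
  obtain ⟨x1, x2⟩ := fibre_comm R hs hp (s := 6) (n := NN p h 7) (P.fib hα)
    (P'.fib (α := 1 - α) (by linear_combination hα)) uα fα fl fi r1 r2 (by rw [NN]; omega) le_rfl
    (NN_spec hp 7 ▸ pow_dvd_pow _ (by omega)) rfl rfl
  have hb' := P'.b
  rw [P.sum]
  generalize 82944 * z' ^ 2 - 960 * (z' * (1 - 432 * z')) = e2 at *
  generalize 2896 * (χ * li) - i3 = e' at *
  generalize 2896 * li - i3 = e at *
  have l1 : LL p h 6 z' ((1 - 2 * α) * (a + e' * b)) 0 := by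
    unfold LL
    convert x1.C_mul (-1) using 1
    simp only [map_mul, map_add, map_sub, map_neg, map_one, map_ofNat, map_zero]; ring
  have l2 : LL p h 6 z' (-e' * ((1 - 2 * α) * (d - e * b))) ((1 - 2 * α) * (d - e * b)) := by
    unfold LL
    convert x2 using 1
    simp only [map_mul, map_add, map_sub, map_neg, map_one, map_ofNat]; ring
  have p0 : π p = 0 := (R.ker _).2 dvd_rfl
  have hz : π (ca z h (2 * h)) = 0 ∧ π (ca z' h (2 * h)) = 0 := by
    obtain ⟨v0, -, e0, -, -⟩ := LL.step R hp (by omega) (s := 5) (by omega) s1 s2 l1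
    have g1 := (R.ker _).2 (fr_ca R.prime fz h (2 * h))
    have g2 := (R.ker _).2 r1.2.1
    have g3 := (R.ker _).2 s1.2.1
    have g4 := congrArg π e0
    have g5 := (R.ker _).2 r1.1
    rw [one_mul] at g2 g3
    simp only [map_sub, map_add, map_mul, map_pow, sub_eq_zero, p0, g5, mul_zero,
      zero_mul, add_zero] at g1 g2 g3 g4
    rw [g2, g3, ← map_mul π 2 α, ← map_sub] at g4
    have g6 : π (ca z h (2 * h)) = 0 := by
      by_contra hc
      exact mul_ne_zero (mul_ne_zero (pow_ne_zero 6 (P.unit.2.map π).ne_zero)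
        (g1 ▸ pow_ne_zero p hc)) (mul_ne_zero (us.map π).ne_zero
        (mul_ne_zero (pow_ne_zero 6 (uD.map π).ne_zero) hc)) g4
    exact ⟨g6, by rw [← g1, g6, zero_pow R.prime.ne_zero]⟩
  have mk : ∀ {z z' a b c d y : O}, Row p h 6 1 (Qz z) (Qz z') (Dl z') a b →
      Row p h 6 X (Qz z) (Qz z') (Dl z') c d → π (ca z h (2 * h)) = 0 → IsUnit (Dl z') →
      a * d - b * c - p * (Dl z' ^ 6) ^ 2 = p ^ 3 * y → SS2 p h z z' a b c d := by
    intro z z' a b c d y r1 r2 h0 hu hd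
    refine ⟨r1, r2, ?_, (Dl z' ^ 6) ^ 2 + p * (p * y),
      unit_add R.nu ((hu.pow 6).pow 2) ⟨p * y, by ring⟩, by linear_combination hd⟩
    have := dvd_add r1.2.1 (((R.ker _).1 h0).mul_left (Dl z' ^ 6))
    rwa [one_mul, ca, sub_add_cancel] at this
  have S1 := mk r1 r2 hz.1 uD f3
  have S2 := mk s1 s2 hz.2 P.unit.2 f4
  obtain ⟨u, hu⟩ := us.dvd_mul_left.1 (ss_div R hp (by omega) 3 le_rfl S2 S1 l1).1
  obtain ⟨v, hv⟩ := us.dvd_mul_left.1 (ss_div R hp (by omega) 3 le_rfl S2 S1 l2).2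
  obtain ⟨a, rfl⟩ := S1.ha
  obtain ⟨b, rfl⟩ := r1.1
  rw [← ((uD.pow 6).pow 2).dvd_mul_left, ← ((uD.pow 6).pow 2).dvd_mul_left (a := _ ^ 3)]
  generalize Dl z' ^ 6 = D at *
  refine ⟨⟨p * y1 + a ^ 2 - 576 * z' * a * b + e2 * b ^ 2, by linear_combination f1⟩,
    213440 * r * (y2 - e * y1 + (c - e * (p * a)) * u - (-288 * z' - e') * y3 +
      (p * a * (-288 * z' + (-288 * z' - e')) + e2 * (p * b)) * v), ?_⟩
  linear_combination 213440 * r * (f2 - e * f1 + (c - e * (p * a)) * hu - (-288 * z' - e') * f3 +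
    (p * a * (-288 * z' + (-288 * z' - e')) + e2 * (p * b)) * hv) - χ * p * D ^ 2 * hb' +
    213440 * r * (-288 * z' - e') * p * D ^ 2 * hχ

omit [IsAlgClosed k] [CharZero O] in
lemma Res.int_dvd {p : ℕ} {π : O →+* k} (R : Res p π) (m : ℕ) (N : ℤ)
    (h : (p : O) ^ m ∣ (N : O)) : (p : ℤ) ^ m ∣ N := by
  have := R.charP
  induction m generalizing N with
  | zero => simp
  | succ m ih =>
    have h1 := (R.ker _).2 ((dvd_pow_self _ (Nat.succ_ne_zero m)).trans h)
    rw [map_intCast, CharP.intCast_eq_zero_iff k p] at h1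
    obtain ⟨N, rfl⟩ := h1
    rw [Int.cast_mul, Int.cast_natCast, pow_succ', mul_dvd_mul_iff_left R.ne] at h
    rw [pow_succ']
    exact mul_dvd_mul_left _ (ih N h)

/-- The numerator of the truncated sum of the `cc k / (-D)^k`. -/
def S0 (n : ℕ) : ℤ := ∑ k ∈ range n, (cc k : ℤ) * (-(640320 : ℤ) ^ 3) ^ (n - 1 - k)

omit [IsDomain O] [CharZero O] in
lemma S0_cast (n : ℕ) (z : O) (hz : (640320 : O) ^ 3 * (z * (1 - 432 * z)) = -1) :
    (S0 n : O) = (-(640320 : O) ^ 3) ^ (n - 1) * YY 0 n z := by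
  unfold S0 YY
  rw [Finset.mul_sum, Int.cast_sum]
  refine Finset.sum_congr rfl fun k hk => ?_
  rw [mem_range] at hk
  have h1 : (-(640320 : O) ^ 3) ^ k * (z * (1 - 432 * z)) ^ k = 1 := by
    rw [← mul_pow, neg_mul, hz, neg_neg, one_pow]
  have h2 : (-(640320 : O) ^ 3) ^ (n - 1) =
      (-(640320 : O) ^ 3) ^ (n - 1 - k) * (-(640320 : O) ^ 3) ^ k := by
    rw [← pow_add]; congr 1; omega
  rw [h2]
  simp only [Int.cast_mul, Int.cast_pow, Int.cast_neg, Int.cast_ofNat, Int.cast_natCast]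
  generalize (-(640320 : O) ^ 3) ^ (n - 1 - k) = A at *
  generalize (-(640320 : O) ^ 3) ^ k = B at *
  generalize (z * (1 - 432 * z)) ^ k = T at *
  linear_combination (-(A * cc k)) * h1

omit [IsDomain O] [CharZero O] in
lemma fr_sqrt {p : ℕ} [Fact p.Prime] (hp : p % 2 = 1) (a : ℤ) (x : O) (hx : x ^ 2 = a) :
    Fr p x (legendreSym p a * x) := by
  have h1 : (p : ℤ) ∣ a ^ (p / 2) - legendreSym p a := by
    rw [← ZMod.intCast_zmod_eq_zero_iff_dvd, Int.cast_sub, legendreSym.eq_pow]; simp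
  have h2 := map_dvd (Int.castRingHom O) h1
  simp only [eq_intCast, Int.cast_natCast, Int.cast_sub, Int.cast_pow] at h2
  unfold Fr
  rw [show x ^ p = x ^ (2 * (p / 2) + 1) by congr 1; omega, pow_succ, pow_mul, hx, ← sub_mul]
  exact h2.mul_right x

/-- The integral form of the congruences. -/
def Cong (p : ℕ) (χ ε : ℤ) : Prop :=
  (ε = 1 → ∀ x y : ℕ, 0 < y → 4 * p = x ^ 2 + 163 * y ^ 2 →
    (p : ℤ) ^ 2 ∣ S0 p - χ * (x ^ 2 - 2 * p) * (-(640320 : ℤ) ^ 3) ^ (p - 1)) ∧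
  (ε = -1 → (p : ℤ) ^ 2 ∣ S0 p) ∧
  (p : ℤ) ^ 3 ∣ SS p - 13591409 * p * χ * (-(640320 : ℤ) ^ 3) ^ (p - 1)

theorem large_abs {p : ℕ} [Fact p.Prime] {π : O →+* k} (R : Res p π) (hs : Function.Surjective π)
    (hb : 1800 < p) (r s : O) (hr : r ^ 2 = 1630815) (hs' : s ^ 2 = -163) :
    Cong p (legendreSym p (-10005)) (legendreSym p (-163)) := by
  have := R.isLocal
  have H := R.pring
  have hodd : p % 2 = 1 := R.prime.eq_two_or_odd.resolve_left (by omega)
  obtain ⟨h, hp⟩ : ∃ h, p = 2 * h + 1 := ⟨p / 2, by omega⟩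
  have un : ∀ q : ℕ, 0 < q → q < 1000 → IsUnit (q : O) := fun q h0 hq =>
    H.unit q fun hd => absurd (Nat.le_of_dvd h0 hd) (by omega)
  have u2 : IsUnit (2 : O) := un 2 (by omega) (by omega)
  have u3 : IsUnit (3 : O) := un 3 (by omega) (by omega)
  have u163 : IsUnit (163 : O) := un 163 (by omega) (by omega)
  have u1 : IsUnit (10005 : O) := by
    convert IsUnit.mul (un 115 (by omega) (by omega)) (un 87 (by omega) (by omega)) using 1
    norm_num
  have ud : IsUnit (1630815 : O) := by convert u163.mul u1 using 1; norm_num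
  obtain ⟨w, hw⟩ : ∃ w : O, 711822400 * w = 1 := by
    obtain ⟨v, hv⟩ := ((u2.pow 6).mul (u1.pow 2)).exists_right_inv
    exact ⟨9 * v, by linear_combination hv⟩
  obtain ⟨j, hj⟩ := (un 864 (by omega) (by omega)).exists_right_inv
  obtain ⟨i3, h3⟩ := u3.exists_right_inv
  obtain ⟨i2, h2⟩ := u2.exists_right_inv
  obtain ⟨li, hl⟩ := ((u2.pow 3).mul ((isUnit_pow_succ_iff (n := 1)).1 (hr ▸ ud))).exists_right_inv
  have P : Pt r w j i3 li _ := ⟨hr, hw, hj, h3, by linear_combination hl, rfl⟩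
  generalize (1 - 557403 * w * r) * j = z at P
  have nz : ∀ a : ℤ, IsUnit (a : O) → (a : ZMod p) ≠ 0 := fun a ha h0 => by
    rw [ZMod.intCast_zmod_eq_zero_iff_dvd] at h0
    exact R.nu (isUnit_of_dvd_unit (by simpa using map_dvd (Int.castRingHom O) h0) ha)
  have n1 := nz 1630815 (by exact_mod_cast ud)
  have n2 := nz (-163) (by exact_mod_cast u163.neg)
  have n3 := nz 163 (by exact_mod_cast u163)
  have e0 : legendreSym p (-10005) = legendreSym p (-163) * legendreSym p 1630815 := by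
    rw [← legendreSym.mul, show (-163 * 1630815 : ℤ) = -10005 * 163 ^ 2 by norm_num,
      legendreSym.mul, legendreSym.sq_one' p n3, mul_one]
  have f1 := fr_sqrt hodd 1630815 r (by exact_mod_cast hr)
  have hχ : ((legendreSym p 1630815 : ℤ) : O) ^ 2 = 1 := by
    exact_mod_cast congrArg (Int.cast : ℤ → O) (legendreSym.sq_one p n1)
  have f2 := (Fr.intCast (R := O) R.prime (legendreSym p 1630815)).mul f1
  rw [← mul_assoc, ← sq, hχ, one_mul] at f2
  have fi : Fr p i2 i2 := (Fr.natCast R.prime 2).inv h2 h2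
  have f0 : Fr p (1 : O) 1 := by simp [Fr]
  have al : ∀ s : O, s ^ 2 = -163 → ((1 + s) * i2) ^ 2 = (1 + s) * i2 - 41 ∧
      IsUnit ((1 + s) * i2) ∧ IsUnit (1 - 2 * ((1 + s) * i2)) ∧
      Fr p ((1 + s) * i2) ((1 + legendreSym p (-163) * s) * i2) := fun s hs => by
    have a1 : ((1 + s) * i2) ^ 2 = (1 + s) * i2 - 41 := by
      linear_combination i2 ^ 2 * hs + ((1 + s) * i2 - 41 * (2 * i2 + 1)) * h2
    refine ⟨a1, isUnit_of_mul_isUnit_left (y := 1 - (1 + s) * i2) ?_,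
      (isUnit_pow_succ_iff (n := 1)).1 ?_,
      (f0.add R.prime (fr_sqrt hodd (-163) s (by exact_mod_cast hs))).mul fi⟩
    · convert un 41 (by omega) (by omega) using 1
      push_cast; linear_combination -a1
    · convert u163.neg using 1
      linear_combination 4 * a1
  have c0 := S0_cast p z P.t
  have c1 := SS_cast p z P.t
  have split : legendreSym p (-163) = 1 → ∀ m n : ℤ, 0 < n →
      (p : ℤ) = m ^ 2 + m * n + 41 * n ^ 2 →
      (p : O) ^ 2 ∣ YY 0 p z - legendreSym p 1630815 * ((2 * m + n) ^ 2 - 2 * p) ∧ (p : O) ^ 3 ∣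
        545140134 * YY 1 p z + 13591409 * YY 0 p z - 13591409 * p * legendreSym p 1630815 := by
    intro hε m n hn hN
    obtain ⟨a1, a2, a3, a4⟩ := al s hs'
    obtain ⟨b1, b2, b3, b4⟩ := al (-s) (by rw [neg_sq, hs'])
    rw [hε, Int.cast_one, one_mul] at a4 b4
    by_cases hv : IsUnit ((m : O) + n * (1 - (1 + s) * i2))
    · exact split_case R hs hp hb P hχ f1 a1 a2 a3 a4 m n hn hN hv
    refine split_case R hs hp hb P hχ f1 b1 b2 b3 b4 m n hn hN (R.unit _ fun h0 => ?_)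
    obtain ⟨x, hx⟩ := (R.ker _).1 h0
    obtain ⟨y, hy⟩ := (R.ker _).1 (not_not.1 fun h => hv (R.unit _ h))
    have hN' := congrArg (Int.cast : ℤ → O) hN
    push_cast at hN'
    refine R.nu (IsUnit.of_mul_eq_one (x * y) (mul_left_cancel₀ R.ne ?_))
    rw [show 1 - (1 + -s) * i2 = (1 + s) * i2 by linear_combination -h2] at hx
    linear_combination -(p * y) * hx - ((m : O) + n * ((1 + s) * i2)) * hy - hN' - (n : O) ^ 2 * a1
  rw [Cong, e0]
  rcases legendreSym.eq_one_or_neg_one p n2 with hε | hε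
  · refine ⟨fun _ x y hy hxy => R.int_dvd _ _ ?_, fun h => by omega, R.int_dvd _ _ ?_⟩
    · have hxy' : 4 * (p : ℤ) = x ^ 2 + 163 * y ^ 2 := by exact_mod_cast hxy
      obtain ⟨m, hm⟩ : ∃ m : ℤ, (x : ℤ) = 2 * m + y := by
        have h1 := Int.even_mul_succ_self (x : ℤ)
        have h2 := Int.even_mul_succ_self (y : ℤ)
        rw [Int.even_iff, mul_add, ← sq] at h1 h2
        exact ⟨(x - y) / 2, by omega⟩
      have := ((split hε m y (by exact_mod_cast hy) (by
        rw [hm] at hxy'; linarith)).1).mul_left ((-(640320 : O) ^ 3) ^ (p - 1))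
      rw [hε, hm]
      simp only [Int.cast_sub, Int.cast_mul, Int.cast_pow, Int.cast_add, Int.cast_neg,
        Int.cast_natCast, Int.cast_ofNat, Int.cast_one, c0] at this ⊢
      convert this using 1
      generalize (-(640320 : O) ^ 3) ^ (p - 1) = D
      ring
    · obtain ⟨t, ht⟩ := (legendreSym.eq_one_iff p n2).1 hε
      obtain ⟨m, n, hN⟩ := class_one p R.prime (by omega) (t.val : ℤ) (by
        rw [← ZMod.intCast_zmod_eq_zero_iff_dvd]
        push_cast at ht ⊢
        rw [ZMod.natCast_zmod_val, sq, ← ht]; ring)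
      have := ((show _ from by
        rcases lt_trichotomy n 0 with hn | rfl | hn
        · exact (split hε (-m) (-n) (by omega) (by rw [hN]; ring)).2
        · exfalso
          have h1 : p = m.natAbs * m.natAbs := by
            zify; rw [hN, abs_mul_abs_self]; ring
          exact R.prime.prime.not_isSquare ⟨_, h1⟩
        · exact (split hε m n hn hN).2) : (p : O) ^ 3 ∣ 545140134 * YY 1 p z +
          13591409 * YY 0 p z - 13591409 * p * legendreSym p 1630815).mul_left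
            ((-(640320 : O) ^ 3) ^ (p - 1))
      rw [hε]
      simp only [Int.cast_sub, Int.cast_mul, Int.cast_pow, Int.cast_neg, Int.cast_natCast,
        Int.cast_ofNat, Int.cast_one, c1]
      convert this using 1
      generalize (-(640320 : O) ^ 3) ^ (p - 1) = D
      ring
  · obtain ⟨a1, a2, a3, a4⟩ := al s hs'
    rw [hε, show (1 + ((-1 : ℤ) : O) * s) * i2 = 1 - (1 + s) * i2 by
      push_cast; linear_combination h2] at a4
    obtain ⟨g1, g2⟩ := inert_case R hs hp hb P hχ f1 f2 a1 a2 a3 a4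
    refine ⟨fun h => by omega, fun _ => R.int_dvd _ _ (c0 ▸ g1.mul_left _), R.int_dvd _ _ ?_⟩
    rw [hε]
    simp only [Int.cast_sub, Int.cast_mul, Int.cast_pow, Int.cast_neg, Int.cast_natCast,
      Int.cast_ofNat, Int.cast_one, c1]
    convert g2.mul_left ((-(640320 : O) ^ 3) ^ (p - 1)) using 1
    generalize (-(640320 : O) ^ 3) ^ (p - 1) = D
    ring

theorem large (p : ℕ) [hp : Fact p.Prime] (hb : 1800 < p) :
    Cong p (legendreSym p (-10005)) (legendreSym p (-163)) := by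
  obtain ⟨k, _, _, _⟩ : ∃ (k : Type) (_ : Field k) (_ : IsAlgClosed k), CharP k p :=
    ⟨AlgebraicClosure (ZMod p), inferInstance, inferInstance, inferInstance⟩
  have R : Res p (WittVector.constantCoeff : WittVector p k →+* k) :=
    ⟨hp.out, WittVector.p_nonzero p k, fun x => by
      rw [← Ideal.mem_span_singleton, WittVector.mem_span_p_iff_coeff_zero_eq_zero]; rfl,
      fun x hx => WittVector.isUnit_of_coeff_zero_ne_zero x hx⟩
  have hs : Function.Surjective (WittVector.constantCoeff : WittVector p k →+* k) :=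
    fun x => ⟨WittVector.teichmuller p x, rfl⟩
  have : CharZero (WittVector p k) := by
    refine charZero_of_inj_zero fun n hn => ?_
    by_contra h0
    obtain ⟨e, u, hu, rfl⟩ := Nat.exists_eq_pow_mul_and_not_dvd h0 p hp.out.ne_one
    rw [Nat.cast_mul, Nat.cast_pow] at hn
    exact mul_ne_zero (pow_ne_zero e R.ne) (R.pring.unit u hu).ne_zero hn
  have un : ∀ q : ℕ, 0 < q → q < 1000 → (q : k) ≠ 0 := fun q h0 hq h =>
    absurd (Nat.le_of_dvd h0 ((CharP.cast_eq_zero_iff k p q).1 h)) (by omega)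
  have sq : ∀ a : WittVector p k, WittVector.constantCoeff a ≠ 0 → ∃ x, x ^ 2 = a := by
    intro a ha
    obtain ⟨y, hy⟩ := IsAlgClosed.exists_pow_nat_eq (WittVector.constantCoeff a) two_pos
    obtain ⟨x, rfl⟩ := hs y
    obtain ⟨b, hb, -⟩ := HenselianRing.is_henselian (I := Ideal.span {(p : WittVector p k)})
      (X ^ 2 - C a) (monic_X_pow_sub_C a two_ne_zero) x
      (by rw [Ideal.mem_span_singleton, ← R.ker, eval_sub, eval_pow, eval_X, eval_C, map_sub,
        map_pow, hy, sub_self])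
      ((R.unit _ (by
        have : WittVector.constantCoeff x ≠ 0 := fun h => ha (by rw [← hy, h, zero_pow two_ne_zero])
        rw [derivative_sub, derivative_C, derivative_X_pow, sub_zero, eval_mul, eval_C, eval_pow,
          eval_X, map_mul, map_pow, map_natCast]
        exact mul_ne_zero (un 2 (by omega) (by omega)) (pow_ne_zero _ this))).map _)
    exact ⟨b, by simpa [sub_eq_zero] using hb⟩
  obtain ⟨r, hr⟩ := sq 1630815 (by
    have := mul_ne_zero (mul_ne_zero (un 163 (by omega) (by omega)) (un 115 (by omega) (by omega)))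
      (un 87 (by omega) (by omega))
    rw [map_ofNat]; convert this using 1; norm_num)
  obtain ⟨s, hs'⟩ := sq (-163) (by
    rw [map_neg, map_ofNat, neg_ne_zero]; exact un 163 (by omega) (by omega))
  exact large_abs R hs hb r s hr hs'

end Pool.Agent.Lib.MP_db9bd2_nt.Sup
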