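import Pool.Agent.Lib.MP_db9bd2_nt.SupMain

/-! The primes below `1801`, and the congruences for all primes. -/

namespace Pool.Agent.Lib.MP_db9bd2_nt.Sup

open Finset

/-- Euler's criterion. -/
def eul (p b : ℕ) : ℤ := if b ^ (p / 2) % p = 1 then 1 else if b ^ (p / 2) % p = 0 then 0 else -1

lemma eul_eq (p : ℕ) [hp : Fact p.Prime] (h2 : 2 < p) (b : ℕ) :
    legendreSym p (-b) = eul p ((p - 1) * b) := by
  have e := legendreSym.eq_pow p (-b)
  have e1 : (((p - 1) * b) ^ (p / 2) % p : ℕ) = (legendreSym p (-b) : ZMod p) := by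
    rw [e, ZMod.natCast_mod, Nat.cast_pow, Nat.cast_mul, Nat.cast_pred hp.out.pos]; simp
  have : Fact (2 < p) := ⟨h2⟩
  have lt := Nat.mod_lt (((p - 1) * b) ^ (p / 2)) hp.out.pos
  unfold eul
  generalize ((p - 1) * b) ^ (p / 2) % p = t at e1 lt
  have v := congrArg ZMod.val e1
  rw [ZMod.val_natCast, Nat.mod_eq_of_lt lt] at v
  by_cases h0 : ((-b : ℤ) : ZMod p) = 0
  · rw [(legendreSym.eq_zero_iff p _).2 h0] at v ⊢
    simp at v; simp [v]
  · rcases legendreSym.eq_one_or_neg_one p h0 with h | h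
    · rw [h] at v ⊢
      rw [Int.cast_one, ZMod.val_one] at v
      rw [if_pos v]
    · rw [h] at e1 ⊢
      rw [if_neg, if_neg]
      · rintro rfl; simp at e1
      · rintro rfl; exact ZMod.neg_one_ne_one (n := p) (by simpa using e1.symm)

/-- The test for one value of `n`. -/
def okn (n : ℕ) (s t w : ℤ) : Bool :=
  (List.range 43).any (fun d => 1 < d && d < n && n % d = 0) || n ≤ 5 || n = 23 || n = 29 ||
    ((eul n ((n - 1) * 163) ≠ 1 || (List.range 7).all fun y => (List.range 85).all fun x =>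
      4 * n ≠ x ^ 2 + 163 * y ^ 2 ||
        (s - eul n ((n - 1) * 10005) * ((x : ℤ) ^ 2 - 2 * n) * w) % (n : ℤ) ^ 2 = 0) &&
    (eul n ((n - 1) * 163) ≠ -1 || s % (n : ℤ) ^ 2 = 0) &&
    (t - 13591409 * n * eul n ((n - 1) * 10005) * w) % (n : ℤ) ^ 3 = 0)

/-- Evaluation of an argument before its use. -/
def frc (n : ℕ) (f : ℕ → Bool) : Bool := Nat.casesOn n (f 0) fun m => f (m + 1)

lemma frc_eq (n : ℕ) (f : ℕ → Bool) : frc n f = f n := by cases n <;> rfl

/-- The loop over `n`. -/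
def run : ℕ → ℕ → ℕ → ℕ → ℕ → ℕ → ℕ → ℕ → Bool
  | 0, _, _, _, _, _, _, _ => true
  | f + 1, n, c, a, b, a', b', w => okn (n + 1) ((a : ℤ) - b) ((a' : ℤ) - b') w &&
    frc (n + 1) fun n1 => frc (24 * (6 * n1 + 1) * (2 * n1 + 1) * (6 * n1 + 5) * c / (n1 + 1) ^ 3)
    fun c1 => frc (640320 ^ 3 * b + c) fun a1 => frc (640320 ^ 3 * a) fun b1 =>
    frc (640320 ^ 3 * b' + (545140134 * n1 + 13591409) * c) fun a2 => frc (640320 ^ 3 * a')
    fun b2 => frc (640320 ^ 3 * w) fun w1 => run f n1 c1 a1 b1 a2 b2 w1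

lemma S0_succ (n : ℕ) : S0 (n + 2) = -640320 ^ 3 * S0 (n + 1) + cc (n + 1) := by
  unfold S0
  rw [Finset.sum_range_succ, Finset.mul_sum, show n + 2 - 1 - (n + 1) = 0 by omega, pow_zero,
    mul_one]
  refine congrArg (· + _) (Finset.sum_congr rfl fun k hk => ?_)
  rw [show n + 2 - 1 - k = n + 1 - 1 - k + 1 by have := mem_range.1 hk; omega, pow_succ]
  generalize (-(640320 : ℤ) ^ 3) = D
  ring

lemma SS_succ' (n : ℕ) : SS (n + 2) = -640320 ^ 3 * SS (n + 1) +
    (545140134 * (n + 1 : ℕ) + 13591409) * cc (n + 1) := by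
  unfold SS TT
  rw [Finset.sum_range_succ, Finset.mul_sum, show n + 2 - 1 - (n + 1) = 0 by omega, pow_zero,
    mul_one]
  refine congrArg (· + _) (Finset.sum_congr rfl fun k hk => ?_)
  rw [show n + 2 - 1 - k = n + 1 - 1 - k + 1 by have := mem_range.1 hk; omega, pow_succ]
  generalize (-(640320 : ℤ) ^ 3) = D
  ring

lemma run_spec (f n c a b a' b' w : ℕ) (h : run f n c a b a' b' w = true) (h1 : c = cc (n + 1))
    (h2 : (a : ℤ) - b = S0 (n + 1)) (h3 : (a' : ℤ) - b' = SS (n + 1)) (h4 : w = (640320 ^ 3) ^ n)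
    (m : ℕ) (hm : m < f) :
    okn (n + m + 1) (S0 (n + m + 1)) (SS (n + m + 1)) ((640320 ^ 3) ^ (n + m) : ℕ) = true := by
  induction f generalizing n c a b a' b' w m with
  | zero => omega
  | succ f ih =>
    simp only [run, frc_eq, Bool.and_eq_true] at h
    rcases m with _ | m
    · rw [add_zero, ← h2, ← h3, ← h4]; exact h.1
    rw [show n + (m + 1) = n + 1 + m by ring]
    refine ih _ _ _ _ _ _ _ h.2 ?_ ?_ ?_ (by rw [h4, ← pow_succ']) m (by omega)
    · rw [h1, ← cc_rec, Nat.mul_div_cancel_left _ (by positivity)]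
    · rw [S0_succ, ← h2, h1, Nat.cast_add, Nat.cast_mul, Nat.cast_mul, Nat.cast_pow, Nat.cast_ofNat]
      generalize (640320 : ℤ) ^ 3 = D
      ring
    · rw [SS_succ', ← h3, h1]
      simp only [Nat.cast_add, Nat.cast_mul, Nat.cast_pow, Nat.cast_ofNat]
      generalize (640320 : ℤ) ^ 3 = D
      ring

lemma run_ok : run 1800 0 120 1 0 13591409 0 1 = true := by decide +kernel

theorem cong_all (p : ℕ) [hp : Fact p.Prime] (h5 : 5 < p) (h23 : p ≠ 23) (h29 : p ≠ 29) :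
    Cong p (legendreSym p (-10005)) (legendreSym p (-163)) := by
  rcases lt_or_ge 1800 p with hb | hb
  · exact large p hb
  have h := run_spec _ _ _ _ _ _ _ _ run_ok (by decide) (by decide) (by decide) rfl (p - 1)
    (by omega)
  rw [zero_add, show p - 1 + 1 = p by omega] at h
  have e1 := eul_eq p (by omega) 10005
  have e2 := eul_eq p (by omega) 163
  have e3 : (-(640320 : ℤ) ^ 3) ^ (p - 1) = (((640320 ^ 3) ^ (p - 1) : ℕ) : ℤ) := by
    rw [(hp.out.even_sub_one (by omega)).neg_pow, Nat.cast_pow, Nat.cast_pow, Nat.cast_ofNat]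
  rw [Nat.cast_ofNat] at e1 e2
  rw [Cong, e1, e2, e3]
  simp only [okn, Bool.or_eq_true, Bool.and_eq_true, List.any_eq_true, List.all_eq_true,
    List.mem_range, decide_eq_true_eq] at h
  rcases h with (((⟨d, -, ⟨d1, d2⟩, d3⟩ | h) | h) | h) | ⟨⟨g1, g2⟩, g3⟩
  · rcases (Nat.dvd_prime hp.out).1 (Nat.dvd_of_mod_eq_zero d3) with h | h <;> omega
  · omega
  · omega
  · omega
  refine ⟨fun hε x y _ hxy => Int.dvd_of_emod_eq_zero ?_,
    fun hε => Int.dvd_of_emod_eq_zero (g2.resolve_left (not_not.2 hε)),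
    Int.dvd_of_emod_eq_zero g3⟩
  exact (g1.resolve_left (not_not.2 hε) y (by nlinarith) x (by nlinarith)).resolve_left
    (not_not.2 hxy)

lemma leg_163 (p : ℕ) [hp : Fact p.Prime] [Fact (Nat.Prime 163)] (h2 : p ≠ 2) :
    legendreSym p (-163) = legendreSym 163 p := by
  have h1 := legendreSym.quadratic_reciprocity' (p := 163) (q := p) (by norm_num) h2
  rw [legendreSym.at_neg h2, ZMod.χ₄_eq_neg_one_pow (hp.out.eq_two_or_odd.resolve_left h2)]
  rw [Nat.cast_ofNat, show 163 / 2 = 2 * 40 + 1 by norm_num, pow_mul, pow_succ, pow_mul] at h1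
  rw [h1, ← mul_assoc, ← mul_pow]; simp

lemma dvd_num {p : ℕ} (hp : p.Prime) (h5 : 5 < p) (h23 : p ≠ 23) (h29 : p ≠ 29) (m : ℕ) (q : ℚ)
    (N : ℤ) (h : q * (-(640320 : ℚ) ^ 3) ^ (p - 1) = N) (hN : (p : ℤ) ^ m ∣ N) :
    (p : ℤ) ^ m ∣ q.num := by
  have h1 : q.num * (-(640320 : ℤ) ^ 3) ^ (p - 1) = N * q.den := by
    have := Rat.mul_den_eq_num q
    apply Int.cast_injective (α := ℚ)
    rw [Int.cast_mul, Int.cast_mul, ← this, ← h, Int.cast_pow, Int.cast_neg, Int.cast_pow,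
      Int.cast_ofNat, Int.cast_natCast, mul_right_comm]
  have h2 : IsCoprime (p : ℤ) 640320 := by
    rw [show (640320 : ℤ) = (640320 : ℕ) from rfl, Nat.isCoprime_iff_coprime,
      hp.coprime_iff_not_dvd, show 640320 = 2 ^ 6 * 3 * 5 * 23 * 29 by norm_num]
    simp only [hp.dvd_mul, not_or]
    have k : ∀ q, q.Prime → p ≠ q → ¬ p ∣ q := fun q hq hne hd =>
      hne ((Nat.prime_dvd_prime_iff_eq hp hq).1 hd)
    exact ⟨⟨⟨⟨fun hd => k 2 (by norm_num) (by omega) (hp.dvd_of_dvd_pow hd),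
      k 3 (by norm_num) (by omega)⟩, k 5 (by norm_num) (by omega)⟩, k 23 (by norm_num) h23⟩,
      k 29 (by norm_num) h29⟩
  exact (h2.pow_right.neg_right.pow).dvd_of_dvd_mul_right (h1 ▸ hN.mul_right _)

lemma sum_mul_pow (p : ℕ) (a : ℕ → ℚ) :
    (∑ k ∈ range p, a k * (((6 * k).factorial : ℚ) / (((3 * k).factorial : ℚ) *
      (k.factorial : ℚ) ^ 3)) / (-(640320 : ℚ) ^ 3) ^ k) * (-(640320 : ℚ) ^ 3) ^ (p - 1) =
    ∑ k ∈ range p, a k * cc k * (-(640320 : ℚ) ^ 3) ^ (p - 1 - k) := by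
  rw [Finset.sum_mul]
  refine Finset.sum_congr rfl fun k hk => ?_
  have h1 : (cc k : ℚ) * (((3 * k).factorial : ℚ) * (k.factorial : ℚ) ^ 3) =
      ((6 * k).factorial : ℚ) := by exact_mod_cast congrArg (Nat.cast : ℕ → ℚ) (cc_mul k)
  have h2 : (-(640320 : ℚ) ^ 3) ≠ 0 := by norm_num
  rw [← h1, mul_div_cancel_right₀ _ (by positivity),
    show p - 1 = k + (p - 1 - k) by have := mem_range.1 hk; omega, pow_add, ← mul_assoc,
    div_mul_cancel₀ _ (pow_ne_zero _ h2), Nat.add_sub_cancel_left]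

end Pool.Agent.Lib.MP_db9bd2_nt.Sup
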