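import Mathlib

/-! Valuations of the Chudnovsky coefficients and of the denominators. -/

namespace Pool.Agent.Lib.MP_db9bd2_nt

open Finset Nat

/-- `(6k)! / ((3k)! (2k)! k!)`. -/
def AA (k : ℕ) : ℕ := (6 * k).choose (3 * k) * (3 * k).choose k

/-- `(6k)! / ((3k)! k!^3)`. -/
def cc (k : ℕ) : ℕ := AA k * (2 * k).choose k

/-- The denominator `2n(2n+1) C(2n,n)`. -/
def dd (n : ℕ) : ℕ := 2 * n * (2 * n + 1) * (2 * n).choose n

lemma AA_mul (k : ℕ) : AA k * ((3 * k)! * (2 * k)! * k !) = (6 * k)! := by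
  have h1 : (6 * k).choose (3 * k) * (3 * k)! * (3 * k)! = (6 * k)! := by
    have := Nat.choose_mul_factorial_mul_factorial (n := 6 * k) (k := 3 * k) (by omega)
    rwa [show 6 * k - 3 * k = 3 * k by omega] at this
  have h2 : (3 * k).choose k * k ! * (2 * k)! = (3 * k)! := by
    have := Nat.choose_mul_factorial_mul_factorial (n := 3 * k) (k := k) (by omega)
    rwa [show 3 * k - k = 2 * k by omega] at this
  rw [← h1, AA]
  calc (6 * k).choose (3 * k) * (3 * k).choose k * ((3 * k)! * (2 * k)! * k !)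
      = (6 * k).choose (3 * k) * (3 * k)! * ((3 * k).choose k * k ! * (2 * k)!) := by ring
    _ = _ := by rw [h2]

lemma cen_mul (k : ℕ) : (2 * k).choose k * (k ! * k !) = (2 * k)! := by
  have := Nat.choose_mul_factorial_mul_factorial (n := 2 * k) (k := k) (by omega)
  rwa [show 2 * k - k = k by omega, mul_assoc] at this

lemma cc_mul (k : ℕ) : cc k * ((3 * k)! * (k !) ^ 3) = (6 * k)! := by
  rw [← AA_mul, ← cen_mul, cc]; ring

lemma dd_mul (k : ℕ) : dd (k + 1) * ((k + 1)! * k !) = 2 * (2 * (k + 1) + 1)! := by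
  rw [Nat.factorial_succ (2 * (k + 1)), ← cen_mul (k + 1), dd, Nat.factorial_succ k]; ring

lemma AA_pos (k : ℕ) : 0 < AA k :=
  Nat.mul_pos (Nat.choose_pos (by omega)) (Nat.choose_pos (by omega))

lemma cc_pos (k : ℕ) : 0 < cc k := Nat.mul_pos (AA_pos k) (Nat.choose_pos (by omega))

lemma dd_pos (k : ℕ) : 0 < dd (k + 1) :=
  Nat.mul_pos (Nat.mul_pos (by omega) (by omega)) (Nat.choose_pos (by omega))

lemma val_fact (p : ℕ) [hp : Fact p.Prime] (n b : ℕ) (h : n ≤ b) :
    padicValNat p n ! = ∑ i ∈ range b, n / p ^ (i + 1) := by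
  have h1 : Nat.log p n < b + 1 := lt_of_le_of_lt (Nat.log_le_self p n) (by omega)
  rw [padicValNat_factorial h1, Finset.sum_Ico_eq_sum_range]
  simp [add_comm]

/-- The Legendre increment of `cc k` at level `q`. -/
def kap (q k : ℕ) : ℤ := ((6 * k / q : ℕ) : ℤ) - ((3 * k / q : ℕ) : ℤ) - 3 * ((k / q : ℕ) : ℤ)

/-- The Legendre increment of `dd (k+1)` at level `q`. -/
def del (q k : ℕ) : ℤ :=
  (((2 * (k + 1) + 1) / q : ℕ) : ℤ) - (((k + 1) / q : ℕ) : ℤ) - ((k / q : ℕ) : ℤ)

lemma val_cc (p : ℕ) [hp : Fact p.Prime] (k b : ℕ) (h : 6 * k ≤ b) :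
    (padicValNat p (cc k) : ℤ) = ∑ i ∈ range b, kap (p ^ (i + 1)) k := by
  have h0 := congrArg (padicValNat p) (cc_mul k)
  rw [padicValNat.mul (cc_pos k).ne' (by positivity),
    padicValNat.mul (Nat.factorial_ne_zero _) (by positivity), padicValNat.pow,
    val_fact p (6 * k) b h, val_fact p (3 * k) b (by omega), val_fact p k b (by omega)] at h0
  simp only [kap, Finset.sum_sub_distrib, ← Finset.mul_sum, ← Nat.cast_sum]
  omega

lemma val_dd (p : ℕ) [hp : Fact p.Prime] (k b : ℕ) (h : 2 * k + 3 ≤ b) :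
    (padicValNat p (dd (k + 1)) : ℤ) = padicValNat p 2 + ∑ i ∈ range b, del (p ^ (i + 1)) k := by
  have h0 := congrArg (padicValNat p) (dd_mul k)
  rw [padicValNat.mul (dd_pos k).ne' (by positivity),
    padicValNat.mul (Nat.factorial_ne_zero _) (by positivity),
    padicValNat.mul (by norm_num) (Nat.factorial_ne_zero _),
    val_fact p (2 * (k + 1) + 1) b (by omega), val_fact p (k + 1) b (by omega),
    val_fact p k b (by omega)] at h0
  simp only [del, Finset.sum_sub_distrib, ← Nat.cast_sum]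
  omega

/-- The condition under which `del q (n-1) = 1`. -/
def Big (q n : ℕ) : Prop := n % q = 0 ∨ q ≤ 2 * (n % q) + 1

lemma mul_add_div' (q a r c : ℕ) (hq : 0 < q) : (c * (q * a + r)) / q = c * a + c * r / q := by
  rw [show c * (q * a + r) = q * (c * a) + c * r by ring, Nat.mul_add_div hq]

lemma kap_eq (q k : ℕ) (hq : 0 < q) :
    kap q k = ((6 * (k % q) / q : ℕ) : ℤ) - ((3 * (k % q) / q : ℕ) : ℤ) := by
  have h6 := mul_add_div' q (k / q) (k % q) 6 hq
  have h3 := mul_add_div' q (k / q) (k % q) 3 hq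
  rw [Nat.div_add_mod] at h6 h3
  unfold kap
  rw [h6, h3]; push_cast; ring

lemma two_mul_div_le (q r : ℕ) (hq : 0 < q) : 2 * (3 * r / q) ≤ 6 * r / q := by
  rw [Nat.le_div_iff_mul_le hq]
  have := Nat.div_mul_le_self (3 * r) q
  nlinarith

lemma kap_nonneg (q k : ℕ) (hq : 0 < q) : 0 ≤ kap q k := by
  rw [kap_eq q k hq]
  have := two_mul_div_le q (k % q) hq
  omega

lemma kap_pos (q k : ℕ) (hq : 0 < q) (h : q ≤ 6 * (k % q)) : 1 ≤ kap q k := by
  rw [kap_eq q k hq]
  have := two_mul_div_le q (k % q) hq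
  have h1 : 1 ≤ 6 * (k % q) / q := by rw [Nat.le_div_iff_mul_le hq]; omega
  omega

lemma del_eq (q k : ℕ) (hq : 2 ≤ q) [Decidable (Big q (k + 1))] :
    del q k = if Big q (k + 1) then 1 else 0 := by
  have hq0 : 0 < q := by omega
  have hr := Nat.mod_lt (k + 1) hq0
  have hn := Nat.div_add_mod (k + 1) q
  set a := (k + 1) / q with ha
  set r := (k + 1) % q with hrr
  have h2 : (2 * (k + 1) + 1) / q = 2 * a + (2 * r + 1) / q := by
    rw [← hn, show 2 * (q * a + r) + 1 = q * (2 * a) + (2 * r + 1) by ring, Nat.mul_add_div hq0]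
  unfold del
  rw [h2, ← ha]
  by_cases h0 : r = 0
  · have hB : Big q (k + 1) := Or.inl h0
    rw [if_pos hB]
    have ha1 : 1 ≤ a := by
      rcases Nat.eq_zero_or_pos a with h | h
      · rw [h, h0] at hn; omega
      · exact h
    have h3 : k / q = a - 1 := by
      obtain ⟨a', ha'⟩ : ∃ a', a = a' + 1 := ⟨a - 1, by omega⟩
      rw [ha', h0] at hn
      have : k = q * a' + (q - 1) := by rw [mul_add] at hn; omega
      rw [this, Nat.mul_add_div hq0, Nat.div_eq_of_lt (by omega : q - 1 < q)]; omega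
    have h4 : (2 * r + 1) / q = 0 := Nat.div_eq_of_lt (by omega)
    rw [h3, h4]; push_cast [Nat.cast_sub ha1]; ring
  · have h3 : k / q = a := by
      have : k = q * a + (r - 1) := by omega
      rw [this, Nat.mul_add_div hq0, Nat.div_eq_of_lt (by omega : r - 1 < q)]; omega
    rw [h3]
    by_cases h1 : q ≤ 2 * r + 1
    · have hB : Big q (k + 1) := Or.inr h1
      rw [if_pos hB]
      have h4 : (2 * r + 1) / q = 1 := by
        rw [Nat.div_eq_iff hq0]; omega
      rw [h4]; push_cast; ring
    · have hB : ¬ Big q (k + 1) := by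
        rintro (h | h)
        · exact h0 h
        · exact h1 h
      rw [if_neg hB]
      have h4 : (2 * r + 1) / q = 0 := Nat.div_eq_of_lt (by omega)
      rw [h4]; push_cast; ring

lemma deficiency (q k i : ℕ) (hq : 2 ≤ q) (hB : Big q (k + i + 1)) (h : 3 * i + 4 < q) :
    q ≤ 6 * (k % q) := by
  have hq0 : 0 < q := by omega
  by_contra hc
  have hn := Nat.div_add_mod k q
  have hr := Nat.mod_lt k hq0
  set a := k / q
  set r := k % q
  by_cases h1 : r + i + 1 < q
  · have : (k + i + 1) % q = r + i + 1 := by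
      rw [← hn, show q * a + r + i + 1 = q * a + (r + i + 1) by ring, Nat.mul_add_mod,
        Nat.mod_eq_of_lt h1]
    unfold Big at hB
    rw [this] at hB
    omega
  · omega

lemma range_big (h Q n k : ℕ) (hh : 1 ≤ h) (hQ : 1 ≤ Q)
    (h1 : min n ((2 * h + 1) * ((n + (h + 1)) / (2 * h + 1))) ≤ k)
    (h2 : k < max n ((2 * h + 1) * ((n + (h + 1)) / (2 * h + 1))))
    (hB : Big ((2 * h + 1) * Q) n) : (2 * h + 1) * Q ≤ 6 * (k % ((2 * h + 1) * Q)) := by
  set p := 2 * h + 1 with hp
  have hp0 : 0 < p := by omega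
  have hn := Nat.div_add_mod n p
  have hr := Nat.mod_lt n hp0
  unfold Big at hB
  rw [Nat.mod_mul] at hB ⊢
  set a := n / p with ha
  set r := n % p with hrr
  have hx := Nat.mod_lt a (by omega : 0 < Q)
  by_cases hc : r < h
  · have hm : (n + (h + 1)) / p = a := by
      rw [← hn, add_assoc, Nat.mul_add_div hp0, Nat.div_eq_of_lt (by omega : r + (h + 1) < p)]; rfl
    rw [hm] at h1 h2
    have hk : k / p = a := by
      have : k = p * a + (k - p * a) := by omega
      rw [this, Nat.mul_add_div hp0, Nat.div_eq_of_lt (by omega : k - p * a < p)]; rfl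
    rw [hk]
    set x := a % Q
    have h3 : p * Q < p * (2 * x + 1) := by
      rw [mul_add, mul_left_comm]; omega
    have h4 : Q < 2 * x + 1 := Nat.lt_of_mul_lt_mul_left h3
    have h5 : p * Q ≤ p * (2 * x) := Nat.mul_le_mul_left p (by omega)
    rw [mul_left_comm] at h5
    omega
  · have hm : (n + (h + 1)) / p = a + 1 := by
      rw [← hn, add_assoc, Nat.mul_add_div hp0]
      have : (r + (h + 1)) / p = 1 := by rw [Nat.div_eq_iff hp0]; omega
      rw [this]
    rw [hm, mul_add] at h1 h2
    have hk' : k = p * a + (k - p * a) := by omega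
    have hk : k / p = a := by
      rw [hk', Nat.mul_add_div hp0, Nat.div_eq_of_lt (by omega : k - p * a < p)]; rfl
    have hk2 : k % p = k - p * a := by
      rw [hk', Nat.mul_add_mod, Nat.mod_eq_of_lt (by omega)]; omega
    rw [hk, hk2]
    omega

lemma big_step (h Q n : ℕ) (hh : 1 ≤ h) (hQ : 1 ≤ Q)
    (hB : Big ((2 * h + 1) * Q) n) : Big Q ((n + (h + 1)) / (2 * h + 1)) := by
  set p := 2 * h + 1 with hp
  have hp0 : 0 < p := by omega
  have hn := Nat.div_add_mod n p
  have hr := Nat.mod_lt n hp0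
  unfold Big at hB ⊢
  rw [Nat.mod_mul] at hB
  set a := n / p with ha
  set r := n % p with hrr
  have hx := Nat.mod_lt a (by omega : 0 < Q)
  by_cases hc : r < h
  · have hm : (n + (h + 1)) / p = a := by
      rw [← hn, add_assoc, Nat.mul_add_div hp0, Nat.div_eq_of_lt (by omega : r + (h + 1) < p)]; rfl
    rw [hm]
    set x := a % Q
    rcases hB with hB | hB
    · left
      have : p * x = 0 := by omega
      rcases Nat.mul_eq_zero.1 this with h' | h' <;> omega
    · right
      have h3 : p * Q < p * (2 * x + 1) := by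
        rw [mul_add, mul_left_comm]; omega
      have h4 : Q < 2 * x + 1 := Nat.lt_of_mul_lt_mul_left h3
      omega
  · have hm : (n + (h + 1)) / p = a + 1 := by
      rw [← hn, add_assoc, Nat.mul_add_div hp0]
      have : (r + (h + 1)) / p = 1 := by rw [Nat.div_eq_iff hp0]; omega
      rw [this]
    rw [hm]
    have ha2 := Nat.div_add_mod a Q
    set x := a % Q
    by_cases hx1 : x + 1 = Q
    · left
      rw [← ha2, add_assoc, hx1, Nat.mul_add_mod, Nat.mod_self]
    · right
      have : (a + 1) % Q = x + 1 := by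
        rw [← ha2, add_assoc, Nat.mul_add_mod, Nat.mod_eq_of_lt (by omega)]
      rw [this]
      have h3 : p * Q < p * (2 * x + 2) := by
        rw [mul_add, mul_left_comm]; omega
      have h4 : Q < 2 * x + 2 := Nat.lt_of_mul_lt_mul_left h3
      omega

/-- `Ok p g n`: the truncation at `n` can be reduced, `g` times, to a truncation at a multiple
of `p`. -/
def Ok (p : ℕ) : ℕ → ℕ → Prop
  | 0, _ => True
  | g + 1, n => ∃ m, Ok p g m ∧ ∀ k, min n (p * m) ≤ k → k < max n (p * m) → p ^ (g + 1) ∣ cc k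

lemma ok_zero (p g : ℕ) : Ok p g 0 := by
  induction g with
  | zero => trivial
  | succ g ih => exact ⟨0, ih, fun k _ h => by simp at h⟩

lemma two_le_pow (p i : ℕ) (hp : 2 ≤ p) : 2 ≤ p ^ (i + 1) :=
  le_trans hp (Nat.le_self_pow (by omega) p)

lemma ok_of_dvd (p : ℕ) [hp : Fact p.Prime] (hp2 : p ≠ 2) (g n : ℕ) (h : p ^ g ∣ dd n) :
    Ok p g n := by
  classical
  obtain ⟨h0, hh0⟩ := hp.out.odd_of_ne_two hp2
  have hp2' := hp.out.two_le
  have hh1 : 1 ≤ h0 := by omega
  have hv2 : padicValNat p 2 = 0 := by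
    apply padicValNat.eq_zero_of_not_dvd
    intro hd
    exact hp2 ((Nat.prime_dvd_prime_iff_eq hp.out Nat.prime_two).1 hd)
  induction g generalizing n with
  | zero => trivial
  | succ g ih =>
    rcases n with _ | n
    · exact ok_zero p _
    have hv : g + 1 ≤ padicValNat p (dd (n + 1)) :=
      (padicValNat_dvd_iff_le (dd_pos n).ne').1 h
    refine ⟨(n + 1 + (h0 + 1)) / p, ?_, ?_⟩
    · rcases hm : (n + 1 + (h0 + 1)) / p with _ | m
      · exact ok_zero p _
      apply ih
      rw [padicValNat_dvd_iff_le (dd_pos m).ne']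
      have e1 := val_dd p n (2 * n + 2 * m + 3 + 1) (by omega)
      have e2 := val_dd p m (2 * n + 2 * m + 3) (by omega)
      rw [Finset.sum_range_succ'] at e1
      have e3 : ∑ i ∈ range (2 * n + 2 * m + 3), del (p ^ (i + 1 + 1)) n ≤
          ∑ i ∈ range (2 * n + 2 * m + 3), del (p ^ (i + 1)) m := by
        apply Finset.sum_le_sum
        intro i _
        rw [del_eq _ _ (two_le_pow p _ hp2'), del_eq _ _ (two_le_pow p _ hp2')]
        by_cases hB : Big (p ^ (i + 1 + 1)) (n + 1)
        · have hB' : Big (p ^ (i + 1)) (m + 1) := by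
            rw [← hm, hh0]
            apply big_step h0 _ _ hh1 (Nat.one_le_pow _ _ (by omega))
            rw [← hh0, ← pow_succ']
            exact hB
          rw [if_pos hB, if_pos hB']
        · rw [if_neg hB]; split_ifs <;> norm_num
      have e4 : del (p ^ (0 + 1)) n ≤ 1 := by
        rw [del_eq _ _ (two_le_pow p _ hp2')]; split_ifs <;> norm_num
      omega
    · intro k hk1 hk2
      rw [padicValNat_dvd_iff_le (cc_pos k).ne']
      have e1 := val_dd p n (2 * n + 6 * k + 3) (by omega)
      have e2 := val_cc p k (2 * n + 6 * k + 3) (by omega)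
      have e3 : ∑ i ∈ range (2 * n + 6 * k + 3), del (p ^ (i + 1)) n ≤
          ∑ i ∈ range (2 * n + 6 * k + 3), kap (p ^ (i + 1)) k := by
        apply Finset.sum_le_sum
        intro i _
        rw [del_eq _ _ (two_le_pow p _ hp2')]
        by_cases hB : Big (p ^ (i + 1)) (n + 1)
        · rw [if_pos hB]
          apply kap_pos _ _ (by positivity)
          rw [pow_succ'] at hB ⊢
          rw [hh0] at hk1 hk2
          have := range_big h0 (p ^ i) (n + 1) k hh1 (Nat.one_le_pow _ _ (by omega)) hk1 hk2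
            (by rw [← hh0]; exact hB)
          rw [← hh0] at this
          exact this
        · rw [if_neg hB]; exact kap_nonneg _ _ (by positivity)
      omega

lemma val_dd_le (p : ℕ) [hp : Fact p.Prime] (k i t : ℕ) (h : 3 * i + 4 < p ^ (t + 1)) :
    padicValNat p (dd (k + i + 1)) ≤ padicValNat p 2 + padicValNat p (cc k) + t := by
  classical
  have hp2' := hp.out.two_le
  have e1 := val_dd p (k + i) (2 * i + 6 * k + 3) (by omega)
  have e2 := val_cc p k (2 * i + 6 * k + 3) (by omega)
  have e3 : ∑ s ∈ range (2 * i + 6 * k + 3), del (p ^ (s + 1)) (k + i) ≤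
      ∑ s ∈ range (2 * i + 6 * k + 3), (kap (p ^ (s + 1)) k + if s < t then 1 else 0) := by
    apply Finset.sum_le_sum
    intro s _
    rw [del_eq _ _ (two_le_pow p _ hp2')]
    have hk := kap_nonneg (p ^ (s + 1)) k (by positivity)
    by_cases hB : Big (p ^ (s + 1)) (k + i + 1)
    · rw [if_pos hB]
      by_cases hs : s < t
      · rw [if_pos hs]; omega
      · rw [if_neg hs]
        have : p ^ (t + 1) ≤ p ^ (s + 1) := Nat.pow_le_pow_right (by omega) (by omega)
        have := kap_pos _ _ (by positivity)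
          (deficiency _ k i (two_le_pow p _ hp2') hB (by omega))
        omega
    · rw [if_neg hB]; split_ifs <;> omega
  rw [Finset.sum_add_distrib] at e3
  have e4 : ∑ s ∈ range (2 * i + 6 * k + 3), (if s < t then (1 : ℤ) else 0) ≤ t := by
    rw [Finset.sum_boole]
    have : (range (2 * i + 6 * k + 3)).filter (fun s => s < t) ⊆ range t := by
      intro s hs; simp only [mem_filter, mem_range] at hs ⊢; exact hs.2
    have := Finset.card_le_card this
    rw [card_range] at this
    exact_mod_cast this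
  omega

end Pool.Agent.Lib.MP_db9bd2_nt
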